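import Pool.Agent.Helper19.TF.NB

/-!
BLOCK TF-I-CEN. Centres of the clusters, and a sum over separated points.

`centres`. Subsets of `A` with mutual distances `≥ g = R/(4T)` are finite with at most `2b/g + 1` points (`A ⊆ [-b, b]`); take one of maximal
cardinality, `s`. Then every point of `A` is within `g ≤ R/T` of `s`, so `σ A ≤ ∑_{ξ∈s} σ (closedBall ξ (R/T)) ≤ (1+δ) ∑ σ (closedBall ξ (1/(RT))) ≤ 2 ∑ …`
(`s ⊆ A ⊆ NB`). The balls `closedBall ξ (1/(RT))` are disjoint as `2/(RT) < R/(4T)` (`R² > 8`), so their masses sum to at most `σ univ`.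
The annulus bound is the definition of `NB` (`measureReal_diff`, the small ball is inside the big one).

`sep_sum`. At most two points `ξ ∈ s` have `⌊|ζ - ξ| / g⌋ = j` (one on each side: two on the same side would be at distance `< g`), for each `j ≥ 1`,
and those contribute at most `2 / (j g)²`; `∑_{j≥1} 2/j² = π²/3 ≤ 4`.
-/

open MeasureTheory Set Filter Metric

namespace Pool.Agent.TF.I

private theorem floor_close {g x y : ℝ} (hg : 0 < g) (hx : 0 ≤ x) (hy : 0 ≤ y)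
    (h : ⌊x / g⌋₊ = ⌊y / g⌋₊) : |x - y| < g := by
  have h1 := Nat.floor_le (div_nonneg hx hg.le)
  have h2 := Nat.lt_floor_add_one (x / g)
  have h3 := Nat.floor_le (div_nonneg hy hg.le)
  have h4 := Nat.lt_floor_add_one (y / g)
  rw [h] at h1 h2
  have h5 : |x / g - y / g| < 1 := by
    rw [abs_lt]; constructor <;> linarith
  rw [← sub_div, abs_div, abs_of_pos hg, div_lt_one hg] at h5
  exact h5

private theorem sep_card {A : Set ℝ} {b g : ℝ} (hg : 0 < g) (hb : ∀ ξ ∈ A, |ξ| ≤ b)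
    (s : Finset ℝ) (hsA : ∀ ξ ∈ s, ξ ∈ A)
    (hs : ∀ ξ ∈ s, ∀ ξ' ∈ s, ξ ≠ ξ' → g ≤ |ξ - ξ'|) : s.card ≤ ⌊2 * b / g⌋₊ + 1 := by
  classical
  have hinj : Set.InjOn (fun ξ : ℝ => ⌊(ξ + b) / g⌋₊) s := by
    intro x hx y hy hxy
    by_contra hne
    have hx' := abs_le.1 (hb x (hsA x hx))
    have hy' := abs_le.1 (hb y (hsA y hy))
    have h1 := floor_close hg (by linarith : 0 ≤ x + b) (by linarith : 0 ≤ y + b) hxy
    have h2 := hs x hx y hy hne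
    have h3 : x + b - (y + b) = x - y := by ring
    rw [h3] at h1
    linarith
  rw [← Finset.card_image_of_injOn hinj]
  have hsub : s.image (fun ξ : ℝ => ⌊(ξ + b) / g⌋₊) ⊆ Finset.range (⌊2 * b / g⌋₊ + 1) := by
    intro j hj
    obtain ⟨x, hx, rfl⟩ := Finset.mem_image.1 hj
    rw [Finset.mem_range, Nat.lt_succ_iff]
    apply Nat.floor_le_floor
    have hx' := abs_le.1 (hb x (hsA x hx))
    gcongr
    linarith
  calc _ ≤ (Finset.range (⌊2 * b / g⌋₊ + 1)).card := Finset.card_le_card hsub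
    _ = _ := Finset.card_range _

private theorem exists_max_sep {A : Set ℝ} {b g : ℝ} (hg : 0 < g) (hb : ∀ ξ ∈ A, |ξ| ≤ b) :
    ∃ s : Finset ℝ, (∀ ξ ∈ s, ξ ∈ A) ∧ (∀ ξ ∈ s, ∀ ξ' ∈ s, ξ ≠ ξ' → g ≤ |ξ - ξ'|) ∧
      ∀ ξ ∈ A, ∃ ξ' ∈ s, |ξ - ξ'| < g := by
  classical
  obtain ⟨K, hK⟩ : ∃ K : Set ℕ, K = {n | ∃ s : Finset ℝ, (∀ ξ ∈ s, ξ ∈ A) ∧
    (∀ ξ ∈ s, ∀ ξ' ∈ s, ξ ≠ ξ' → g ≤ |ξ - ξ'|) ∧ s.card = n} := ⟨_, rfl⟩
  have hne : K.Nonempty := ⟨0, by rw [hK]; exact ⟨∅, by simp, by simp, by simp⟩⟩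
  have hbd : BddAbove K := by
    refine ⟨⌊2 * b / g⌋₊ + 1, ?_⟩
    rintro n hn
    rw [hK] at hn
    obtain ⟨s, h1, h2, rfl⟩ := hn
    exact sep_card hg hb s h1 h2
  have hmem := Nat.sSup_mem hne hbd
  have hle : ∀ n ∈ K, n ≤ sSup K := fun n hn => le_csSup hbd hn
  rw [hK] at hmem
  obtain ⟨s, h1, h2, h3⟩ := hmem
  rw [← hK] at h3
  refine ⟨s, h1, h2, fun ξ hξ => ?_⟩
  by_contra hcon
  push Not at hcon
  have hξs : ξ ∉ s := by
    intro h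
    have := hcon ξ h
    rw [sub_self, abs_zero] at this
    linarith
  have h4 : s.card + 1 ∈ K := by
    rw [hK]
    refine ⟨insert ξ s, ?_, ?_, Finset.card_insert_of_notMem hξs⟩
    · intro x hx
      rcases Finset.mem_insert.1 hx with rfl | hx
      · exact hξ
      · exact h1 x hx
    · intro x hx y hy hxy
      rcases Finset.mem_insert.1 hx with rfl | hx
      · rcases Finset.mem_insert.1 hy with rfl | hy
        · exact absurd rfl hxy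
        · exact hcon y hy
      · rcases Finset.mem_insert.1 hy with hyx | hy
        · rw [hyx, abs_sub_comm]; exact hcon x hx
        · exact h2 x hx y hy hxy
  have h5 := hle _ h4
  omega

theorem centres {σ : Measure ℝ} [IsFiniteMeasure σ] {A : Set ℝ} {b R δ T c₁ : ℝ}
    (hA : A ⊆ NB σ R δ T) (hb : ∀ ξ ∈ A, |ξ| ≤ b) (hR : 8 ≤ R) (hδ : 0 ≤ δ) (hδ1 : δ ≤ 1)
    (hT : 0 < T) (hc : c₁ ≤ σ.real A) :
    ∃ s : Finset ℝ, (∀ ξ ∈ s, ξ ∈ A) ∧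
      (∀ ξ ∈ s, ∀ ξ' ∈ s, ξ ≠ ξ' → R / (4 * T) ≤ |ξ - ξ'|) ∧
      (∀ ξ ∈ s, σ.real (closedBall ξ (R / T) \ closedBall ξ (1 / (R * T)))
        ≤ δ * σ.real (closedBall ξ (1 / (R * T)))) ∧
      (s : Set ℝ).PairwiseDisjoint (fun ξ => closedBall ξ (1 / (R * T))) ∧
      c₁ / 2 ≤ ∑ ξ ∈ s, σ.real (closedBall ξ (1 / (R * T))) ∧
      ∑ ξ ∈ s, σ.real (closedBall ξ (1 / (R * T))) ≤ σ.real univ := by
  have hg : 0 < R / (4 * T) := by positivity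
  obtain ⟨s, h1, h2, h3⟩ := exists_max_sep hg hb
  have hrad : 1 / (R * T) ≤ R / T := by
    rw [div_le_div_iff₀ (by positivity) hT]
    nlinarith [mul_pos (by linarith : (0:ℝ) < R) hT]
  have hgR : R / (4 * T) ≤ R / T := by
    rw [div_le_div_iff₀ (by positivity) hT]
    nlinarith [mul_pos (by linarith : (0:ℝ) < R) hT]
  have hdis : (s : Set ℝ).PairwiseDisjoint (fun ξ => closedBall ξ (1 / (R * T))) := by
    intro x hx y hy hxy
    refine closedBall_disjoint_closedBall ?_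
    rw [Real.dist_eq]
    refine lt_of_lt_of_le ?_ (h2 x hx y hy hxy)
    rw [← add_div, div_lt_div_iff₀ (by positivity) (by positivity)]
    nlinarith [mul_pos (by linarith : (0:ℝ) < R) hT]
  have hNB : ∀ ξ ∈ s, σ.real (closedBall ξ (R / T)) ≤
      (1 + δ) * σ.real (closedBall ξ (1 / (R * T))) := fun ξ hξ => hA (h1 ξ hξ)
  refine ⟨s, h1, h2, ?_, hdis, ?_, ?_⟩
  · intro ξ hξ
    rw [measureReal_sdiff (closedBall_subset_closedBall hrad) measurableSet_closedBall]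
    have := hNB ξ hξ
    linarith
  · have hcov : A ⊆ ⋃ ξ ∈ s, closedBall ξ (R / T) := by
      intro x hx
      obtain ⟨y, hy, hxy⟩ := h3 x hx
      refine mem_biUnion hy ?_
      rw [mem_closedBall, Real.dist_eq]
      linarith
    have h4 : σ.real A ≤ ∑ ξ ∈ s, σ.real (closedBall ξ (R / T)) :=
      (measureReal_mono hcov (measure_ne_top σ _)).trans (measureReal_biUnion_finset_le s _)
    have h5 : ∑ ξ ∈ s, σ.real (closedBall ξ (R / T)) ≤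
        ∑ ξ ∈ s, 2 * σ.real (closedBall ξ (1 / (R * T))) := by
      refine Finset.sum_le_sum fun ξ hξ => (hNB ξ hξ).trans ?_
      exact mul_le_mul_of_nonneg_right (by linarith) measureReal_nonneg
    rw [← Finset.mul_sum] at h5
    linarith
  · rw [← measureReal_biUnion_finset hdis fun ξ _ => measurableSet_closedBall]
    exact measureReal_mono (subset_univ _)

private theorem sum_inv_sq_le (J : Finset ℕ) (hJ : ∀ j ∈ J, 1 ≤ j) :
    ∑ j ∈ J, ((j : ℝ) ^ 2)⁻¹ ≤ 2 := by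
  have hsub : J ⊆ Finset.Ioo 0 (J.sup id + 1) := by
    intro j hj
    rw [Finset.mem_Ioo]
    exact ⟨hJ j hj, Nat.lt_succ_of_le (Finset.le_sup (f := id) hj)⟩
  have h := sum_Ioo_inv_sq_le (α := ℝ) 0 (J.sup id + 1)
  refine (Finset.sum_le_sum_of_subset_of_nonneg hsub fun j _ _ => by positivity).trans ?_
  refine h.trans ?_
  norm_num

private theorem side_sum {S : Finset ℝ} {g : ℝ} (hg : 0 < g) (ζ : ℝ)
    (hs : ∀ ξ ∈ S, ∀ ξ' ∈ S, ξ ≠ ξ' → g ≤ |(|ζ - ξ| - |ζ - ξ'|)|)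
    (hS : ∀ ξ ∈ S, g ≤ |ζ - ξ|) :
    ∑ ξ ∈ S, 1 / |ζ - ξ| ^ 2 ≤ 2 / g ^ 2 := by
  classical
  have hinj : Set.InjOn (fun ξ : ℝ => ⌊|ζ - ξ| / g⌋₊) S := by
    intro x hx y hy hxy
    by_contra hne
    have h1 := floor_close hg (abs_nonneg (ζ - x)) (abs_nonneg (ζ - y)) hxy
    have h2 := hs x hx y hy hne
    linarith
  have hj1 : ∀ ξ ∈ S, 1 ≤ ⌊|ζ - ξ| / g⌋₊ := by
    intro ξ hξ
    rw [Nat.one_le_floor_iff]
    rw [le_div_iff₀ hg]
    linarith [hS ξ hξ]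
  have h1 : ∑ ξ ∈ S, 1 / |ζ - ξ| ^ 2 ≤
      ∑ ξ ∈ S, ((⌊|ζ - ξ| / g⌋₊ : ℝ) ^ 2)⁻¹ * (1 / g ^ 2) := by
    refine Finset.sum_le_sum fun ξ hξ => ?_
    have h2 := Nat.floor_le (div_nonneg (abs_nonneg (ζ - ξ)) hg.le)
    rw [le_div_iff₀ hg] at h2
    have h3 : (1:ℝ) ≤ (⌊|ζ - ξ| / g⌋₊ : ℝ) := by exact_mod_cast hj1 ξ hξ
    have h5 : (0:ℝ) < (⌊|ζ - ξ| / g⌋₊ : ℝ) := by linarith
    have h4 : ((⌊|ζ - ξ| / g⌋₊ : ℝ) ^ 2)⁻¹ * (1 / g ^ 2) =
        1 / ((⌊|ζ - ξ| / g⌋₊ : ℝ) * g) ^ 2 := by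
      rw [mul_pow, ← one_div, one_div_mul_one_div]
    rw [h4]
    apply one_div_le_one_div_of_le (by positivity)
    gcongr
  rw [← Finset.sum_mul] at h1
  have h2 : ∑ ξ ∈ S, ((⌊|ζ - ξ| / g⌋₊ : ℝ) ^ 2)⁻¹ ≤ 2 := by
    rw [← Finset.sum_image (f := fun j : ℕ => ((j : ℝ) ^ 2)⁻¹) hinj]
    refine sum_inv_sq_le _ ?_
    intro j hj
    obtain ⟨x, hx, rfl⟩ := Finset.mem_image.1 hj
    exact hj1 x hx
  refine h1.trans ?_
  rw [div_eq_mul_one_div 2]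
  exact mul_le_mul_of_nonneg_right h2 (by positivity)

theorem sep_sum {s : Finset ℝ} {g : ℝ} (hg : 0 < g)
    (hs : ∀ ξ ∈ s, ∀ ξ' ∈ s, ξ ≠ ξ' → g ≤ |ξ - ξ'|) (ζ : ℝ) :
    ∑ ξ ∈ s with g ≤ |ζ - ξ|, 1 / |ζ - ξ| ^ 2 ≤ 4 / g ^ 2 := by
  classical
  rw [← Finset.sum_filter_add_sum_filter_not (s.filter fun ξ => g ≤ |ζ - ξ|) (fun ξ => ξ ≤ ζ)]
  have h1 : ∑ ξ ∈ (s.filter fun ξ => g ≤ |ζ - ξ|).filter (fun ξ => ξ ≤ ζ), 1 / |ζ - ξ| ^ 2 ≤
      2 / g ^ 2 := by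
    refine side_sum hg ζ ?_ ?_
    · intro x hx y hy hxy
      simp only [Finset.mem_filter] at hx hy
      rw [abs_of_nonneg (by linarith : 0 ≤ ζ - x), abs_of_nonneg (by linarith : 0 ≤ ζ - y)]
      have h := hs x hx.1.1 y hy.1.1 hxy
      rw [abs_sub_comm] at h
      have e : ζ - x - (ζ - y) = y - x := by ring
      rw [e]; exact h
    · intro x hx
      simp only [Finset.mem_filter] at hx
      exact hx.1.2
  have h2 : ∑ ξ ∈ (s.filter fun ξ => g ≤ |ζ - ξ|).filter (fun ξ => ¬ ξ ≤ ζ), 1 / |ζ - ξ| ^ 2 ≤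
      2 / g ^ 2 := by
    refine side_sum hg ζ ?_ ?_
    · intro x hx y hy hxy
      simp only [Finset.mem_filter, not_le] at hx hy
      rw [abs_of_nonpos (by linarith : ζ - x ≤ 0), abs_of_nonpos (by linarith : ζ - y ≤ 0)]
      have h := hs x hx.1.1 y hy.1.1 hxy
      have e : -(ζ - x) - -(ζ - y) = x - y := by ring
      rw [e]; exact h
    · intro x hx
      simp only [Finset.mem_filter] at hx
      exact hx.1.2
  have e : (4:ℝ) / g ^ 2 = 2 / g ^ 2 + 2 / g ^ 2 := by ring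
  rw [e]
  exact add_le_add h1 h2

end Pool.Agent.TF.I
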