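import Pool.Agent.Helper19.TF.FL

/-!
BLOCK TF-I-COMM. Two motions commute outside a set of area `C ‖a‖ ‖b‖`.

`comp_near`. Let `r = ‖a‖ + ‖b‖`, `Mv = ∑ e, ‖S.vec e‖`. `Cor = {x | ∃ i k l, k ≠ l, x ∈ tri (P i), |ell (i,k) x| ≤ Mv r, |ell (i,l) x| ≤ Mv r}` has area
`≤ C r²` (`corner87` in Helper87/LS/Bad.lean). Exclude `x` with `x ∈ Cor`, `F b x ∈ Cor` (`F b` preserves `μ`), or with no `Hop b x _`, no `Hop a (F b x) _`, no
`Hop (a+b) x _` (`bad_bound`): total area `≤ C' r²`. For the other `x ∈ tri (P i)` let `y = F b x`, `z = F a y`, `z' = F (a+b) x` (`F_eq`, `Straight.hop`). If a hop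
with vector `w` from `p ∈ tri (P i)` crosses the edge `(i,k)` then `ell (i,k) (p + w) < 0` (see `seg_neg` in HopHop.lean) and `0 < ell (i,k) p ≤ ‖vec‖ ‖w‖`.
Also `ell (glue e) (p + shift e) = - ell e p`. Case A: `y = x + b ∈ tri (P i)`. A1: `z = x+b+a ∈ tri (P i)`; `z'` cannot cross an edge `k` since `ell (i,k)(x+a+b) > 0`; so
`z' = x+a+b`. A2: `z = x+a+b+shift (i,k)`; `ell (i,k)(x+a+b) < 0`, so `z'` crosses some `k'`, and `|ell (i,k) x|, |ell (i,k') x| ≤ Mv r`, `x ∉ Cor`: `k = k'`.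
Case B: `y = x + b + shift (i,k) ∈ tri (P j)`, `(j,l') = glue (i,k)`. B1: `z = y + a ∈ tri (P j)`: then `ell (i,k)(x+a+b) < 0`, so `z'` crosses some `k'`, `k' = k` as before.
B2: `z` crosses `(j,l)`: `|ell (j,l) y| ≤ Mv r` and `|ell (j,l') y| ≤ Mv r`, `y ∉ Cor`: `l = l'`, so `z = x+a+b ∈ tri (P i)`, and `z'` cannot cross an edge.

`comm`. `a = 0` or `b = 0`: `F_zero`. The set is symmetric in `a`, `b`; let `‖a‖ ≤ ‖b‖`, `m = ⌈‖b‖/‖a‖⌉`, `b' = b/m`, `‖b'‖ ≤ ‖a‖`. `E = {y | F a (F b' y) ≠ F b' (F a y)}` has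
area `≤ 2 C (2‖a‖)²` (`comp_near` twice). Outside `⋃_{j<m} (F (j b'))⁻¹ E` (and a null set) `F a (F (j b') x) = F (j b') (F a x)` for `j ≤ m`, by induction (`F_add`).
Total `≤ m · 8 C ‖a‖² ≤ 16 C ‖a‖ ‖b‖`.
-/

open MeasureTheory Set Filter
open Pool.Agent.Helper87.LS

namespace Pool.Agent.TF.I

/-- A crossing hop: the affine function of the crossed edge. -/
private theorem cross_info {S : Surf} {i : Fin S.n} {k : Fin 3} {x w : ℂ} {s : ℝ}
    (hx : x ∈ tri (S.P i)) (hs : s ∈ Ioo (0 : ℝ) 1)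
    (hseg : x + (s : ℂ) * w ∈ openSegment ℝ (S.P i k) (S.P i (k + 1))) :
    S.ell (i, k) (x + w) < 0 ∧ |S.ell (i, k) x| ≤ |cr (S.vec (i, k)) w| ∧
      |S.ell (i, k) (x + w)| ≤ |cr (S.vec (i, k)) w| := by
  obtain ⟨h0, hc⟩ := Surf.seg_neg hs.1 hx hseg
  have hpos : 0 < S.ell (i, k) x := S.mem_tri.mp hx k
  have hadd := S.ell_add (i, k) x w
  set c := cr (S.vec (i, k)) w with hcdef
  have h1 : 0 < (1 - s) * (-c) := mul_pos (by linarith [hs.2]) (by linarith)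
  have h2 : 0 < s * (-c) := mul_pos hs.1 (by linarith)
  have hneg : S.ell (i, k) (x + w) < 0 := by rw [hadd]; linarith
  refine ⟨hneg, ?_, ?_⟩
  · rw [abs_of_pos hpos, abs_of_neg hc]; linarith
  · rw [abs_of_neg hneg, abs_of_neg hc]; linarith

/-- Points close to two edges of the same triangle. -/
private def Cor (S : Surf) (ε : ℝ) : Set ℂ :=
  {x | ∃ (i : Fin S.n) (k l : Fin 3), l ≠ k ∧ |S.ell (i, k) x| ≤ ε ∧ |S.ell (i, l) x| ≤ ε}

private theorem det_comp {S : Surf} {M : ℝ} (hM : ∀ e, ‖S.vec e‖ ≤ M) {a b x y z z' : ℂ}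
    (hxC : x ∉ Cor S (M * (‖a‖ + ‖b‖))) (hyC : y ∉ Cor S (M * (‖a‖ + ‖b‖)))
    (h1 : S.Hop b x y) (h2 : S.Hop a y z) (h3 : S.Hop (a + b) x z') : z = z' := by
  obtain ⟨i, hx, h1⟩ := h1
  obtain ⟨j, hy, h2⟩ := h2
  obtain ⟨i', hx', h3⟩ := h3
  obtain rfl := Surf.tri_unique hx hx'
  have hM0 : 0 ≤ M := (norm_nonneg _).trans (hM (i, 0))
  have na := norm_nonneg a
  have nb := norm_nonneg b
  have hcr : ∀ e w, |cr (S.vec e) w| ≤ M * ‖w‖ := fun e w =>
    (abs_cr_le _ _).trans (mul_le_mul_of_nonneg_right (hM e) (norm_nonneg _))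
  have hca : ∀ e, |cr (S.vec e) a| ≤ M * ‖a‖ := fun e => hcr e a
  have hcb : ∀ e, |cr (S.vec e) b| ≤ M * ‖b‖ := fun e => hcr e b
  have hMa : 0 ≤ M * ‖a‖ := mul_nonneg hM0 na
  have hMb : 0 ≤ M * ‖b‖ := mul_nonneg hM0 nb
  have hsum : M * (‖a‖ + ‖b‖) = M * ‖a‖ + M * ‖b‖ := by ring
  have hcab : ∀ e, |cr (S.vec e) (a + b)| ≤ M * (‖a‖ + ‖b‖) := fun e =>
    (hcr e (a + b)).trans (mul_le_mul_of_nonneg_left (norm_add_le _ _) hM0)
  have hxC' : ∀ k l : Fin 3, |S.ell (i, k) x| ≤ M * (‖a‖ + ‖b‖) →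
      |S.ell (i, l) x| ≤ M * (‖a‖ + ‖b‖) → l = k := by
    intro k l hk hl
    by_contra hne
    exact hxC ⟨i, k, l, hne, hk, hl⟩
  have hab : x + (a + b) = x + b + a := by ring
  rcases h1 with ⟨hyi, rfl⟩ | ⟨k, hyj, rfl, s, hs, hseg⟩
  · -- b inside
    obtain rfl := Surf.tri_unique hyi hy
    rcases h2 with ⟨hz, rfl⟩ | ⟨k, hz, rfl, s, hs, hseg⟩
    · rcases h3 with ⟨hz', rfl⟩ | ⟨k', hz', rfl, s', hs', hseg'⟩
      · ring
      · exfalso
        have h4 := (cross_info hx hs' hseg').1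
        rw [hab] at h4
        exact absurd (S.mem_tri.mp hz k') (not_lt.mpr h4.le)
    · have h5 := cross_info hyi hs hseg
      rcases h3 with ⟨hz', rfl⟩ | ⟨k', hz', rfl, s', hs', hseg'⟩
      · exfalso
        rw [hab] at hz'
        exact absurd (S.mem_tri.mp hz' k) (not_lt.mpr h5.1.le)
      · have h4 := cross_info hx hs' hseg'
        have h6 : |S.ell (i, k') x| ≤ M * (‖a‖ + ‖b‖) := h4.2.1.trans (hcab _)
        have h7 : |S.ell (i, k) x| ≤ M * (‖a‖ + ‖b‖) := by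
          have h8 := S.ell_add (i, k) x b
          have h9 : S.ell (i, k) x = S.ell (i, k) (x + b) - cr (S.vec (i, k)) b := by linarith
          rw [h9, hsum]
          exact (abs_sub _ _).trans (add_le_add (h5.2.1.trans (hca _)) (hcb _))
        obtain rfl := hxC' _ _ h7 h6
        ring
  · -- b crosses the edge k
    obtain rfl := Surf.tri_unique hyj hy
    have h5 := cross_info hx hs hseg
    have hlk : |S.ell (i, k) x| ≤ M * (‖a‖ + ‖b‖) := by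
      rw [hsum]; exact h5.2.1.trans ((hcb _).trans (by linarith))
    rcases h2 with ⟨hz, rfl⟩ | ⟨l, hz, rfl, s1, hs1, hseg1⟩
    · have h6 : S.ell (i, k) (x + (a + b)) < 0 := by
        have h7 := S.ell_glue (i, k) (x + (a + b))
        have h8 : x + (a + b) + S.shift (i, k) = x + b + S.shift (i, k) + a := by ring
        have h9 := S.mem_tri.mp hz (S.glue (i, k)).2
        rw [h8] at h7
        rw [Prod.mk.eta, h7] at h9
        linarith
      rcases h3 with ⟨hz', rfl⟩ | ⟨k', hz', rfl, s', hs', hseg'⟩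
      · exact absurd (S.mem_tri.mp hz' k) (not_lt.mpr h6.le)
      · have h4 := cross_info hx hs' hseg'
        have h7 : |S.ell (i, k') x| ≤ M * (‖a‖ + ‖b‖) := h4.2.1.trans (hcab _)
        obtain rfl := hxC' _ _ hlk h7
        ring
    · have h6 := cross_info hy hs1 hseg1
      have h7 : |S.ell ((S.glue (i, k)).1, l) (x + b + S.shift (i, k))| ≤ M * (‖a‖ + ‖b‖) := by
        rw [hsum]; exact h6.2.1.trans ((hca _).trans (by linarith))
      have h8 : |S.ell ((S.glue (i, k)).1, (S.glue (i, k)).2) (x + b + S.shift (i, k))|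
          ≤ M * (‖a‖ + ‖b‖) := by
        rw [Prod.mk.eta, S.ell_glue (i, k) (x + b), abs_neg, hsum]
        exact h5.2.2.trans ((hcb _).trans (by linarith))
      have h9 : l = (S.glue (i, k)).2 := by
        by_contra hne
        exact hyC ⟨(S.glue (i, k)).1, (S.glue (i, k)).2, l, hne, h8, h7⟩
      subst h9
      have h10 : S.shift ((S.glue (i, k)).1, (S.glue (i, k)).2) = - S.shift (i, k) := by
        rw [Prod.mk.eta, S.shift_glue]
      have h11 : x + b + S.shift (i, k) + a + S.shift ((S.glue (i, k)).1, (S.glue (i, k)).2)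
          = x + (a + b) := by
        rw [h10]; ring
      have h12 : x + (a + b) ∈ tri (S.P i) := by
        rw [h11] at hz
        rw [Prod.mk.eta, S.invol] at hz
        exact hz
      rw [h11]
      rcases h3 with ⟨hz', rfl⟩ | ⟨k', hz', rfl, s', hs', hseg'⟩
      · rfl
      · exfalso
        have h4 := (cross_info hx hs' hseg').1
        exact absurd (S.mem_tri.mp h12 k') (not_lt.mpr h4.le)

private theorem cor_bound (S : Surf) : ∃ C : ℝ, 0 ≤ C ∧ ∀ ε : ℝ, 0 ≤ ε →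
    S.μ (Cor S ε) ≤ ENNReal.ofReal (C * ε ^ 2) := by
  choose C hC0 hC using fun (p : (Fin S.n × Fin 3) × Fin 3) => S.corner87 p.1.1 p.1.2 p.2
  refine ⟨∑ p : (Fin S.n × Fin 3) × Fin 3, C p, Finset.sum_nonneg fun p _ => hC0 p,
    fun ε hε => ?_⟩
  calc S.μ (Cor S ε) ≤ volume (Cor S ε) := Measure.restrict_apply_le _ _
    _ ≤ volume (⋃ p : (Fin S.n × Fin 3) × Fin 3,
        {z : ℂ | p.2 ≠ p.1.2 ∧ |S.ell (p.1.1, p.1.2) z| ≤ ε ∧ |S.ell (p.1.1, p.2) z| ≤ ε}) := by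
        refine measure_mono ?_
        rintro x ⟨i, k, l, h⟩
        exact mem_iUnion.2 ⟨((i, k), l), h⟩
    _ ≤ ∑ p : (Fin S.n × Fin 3) × Fin 3, volume
        {z : ℂ | p.2 ≠ p.1.2 ∧ |S.ell (p.1.1, p.1.2) z| ≤ ε ∧ |S.ell (p.1.1, p.2) z| ≤ ε} := by
        simpa using measure_iUnion_le (μ := (volume : Measure ℂ))
          (fun p : (Fin S.n × Fin 3) × Fin 3 =>
          {z : ℂ | p.2 ≠ p.1.2 ∧ |S.ell (p.1.1, p.1.2) z| ≤ ε ∧ |S.ell (p.1.1, p.2) z| ≤ ε})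
    _ ≤ ∑ p : (Fin S.n × Fin 3) × Fin 3, ENNReal.ofReal (C p * ε ^ 2) :=
        Finset.sum_le_sum fun p _ => hC p ε hε
    _ = _ := by
        rw [← ENNReal.ofReal_sum_of_nonneg fun p _ => mul_nonneg (hC0 p) (sq_nonneg _),
          Finset.sum_mul]

private theorem pre_le {S : Surf} (v : ℂ) (E : Set ℂ) : S.μ (S.F v ⁻¹' E) ≤ S.μ E := by
  calc S.μ (S.F v ⁻¹' E) ≤ S.μ (S.F v ⁻¹' (toMeasurable S.μ E)) :=
        measure_mono (preimage_mono (subset_toMeasurable _ _))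
    _ = S.μ (toMeasurable S.μ E) := (S.measurePreserving_F v).measure_preimage
        (measurableSet_toMeasurable _ _).nullMeasurableSet
    _ = S.μ E := measure_toMeasurable _

theorem comp_near (S : Surf) : ∃ C : ℝ, 0 ≤ C ∧ ∀ a b : ℂ,
    S.μ.real {x | S.F a (S.F b x) ≠ S.F (a + b) x} ≤ C * (‖a‖ + ‖b‖) ^ 2 := by
  obtain ⟨C1, hC1, hb⟩ := S.bad_bound
  obtain ⟨C2, hC2, hc⟩ := cor_bound S
  set M : ℝ := ∑ e, ‖S.vec e‖ with hM
  have hMe : ∀ e, ‖S.vec e‖ ≤ M := fun e =>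
    Finset.single_le_sum (f := fun e => ‖S.vec e‖) (fun _ _ => norm_nonneg _) (Finset.mem_univ e)
  have hM0 : 0 ≤ M := Finset.sum_nonneg fun _ _ => norm_nonneg _
  refine ⟨3 * C1 + 2 * (C2 * M ^ 2), by positivity, fun a b => ?_⟩
  set r : ℝ := ‖a‖ + ‖b‖ with hr
  have na := norm_nonneg a
  have nb := norm_nonneg b
  have hr0 : 0 ≤ r := by positivity
  have hsub : {x | S.F a (S.F b x) ≠ S.F (a + b) x} ⊆
      ((({x | ¬ ∃ y, S.Hop b x y} ∪ S.F b ⁻¹' {x | ¬ ∃ y, S.Hop a x y}) ∪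
        {x | ¬ ∃ y, S.Hop (a + b) x y}) ∪ Cor S (M * r)) ∪ S.F b ⁻¹' (Cor S (M * r)) := by
    intro x hx
    by_contra hn
    simp only [mem_union, not_or, mem_preimage, mem_ofPred_eq, not_not] at hn
    obtain ⟨⟨⟨⟨⟨y, h1⟩, ⟨z, h2⟩⟩, ⟨z', h3⟩⟩, h4⟩, h5⟩ := hn
    have e1 : S.F b x = y := Surf.F_eq (Surf.Straight.hop h1)
    rw [e1] at h2 h5
    have e2 : S.F a y = z := Surf.F_eq (Surf.Straight.hop h2)
    have e3 : S.F (a + b) x = z' := Surf.F_eq (Surf.Straight.hop h3)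
    apply hx
    rw [e1, e2, e3]
    exact det_comp hMe h4 h5 h1 h2 h3
  have hmono : ∀ {t : ℝ}, 0 ≤ t → t ≤ r → ENNReal.ofReal (C1 * t ^ 2) ≤
      ENNReal.ofReal (C1 * r ^ 2) := fun h0 h => by
    apply ENNReal.ofReal_le_ofReal
    gcongr
  have m1 : S.μ {x | ¬ ∃ y, S.Hop b x y} ≤ ENNReal.ofReal (C1 * r ^ 2) :=
    (hb b).trans (hmono nb (by linarith))
  have m2 : S.μ (S.F b ⁻¹' {x | ¬ ∃ y, S.Hop a x y}) ≤ ENNReal.ofReal (C1 * r ^ 2) :=
    (pre_le _ _).trans ((hb a).trans (hmono na (by linarith)))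
  have m3 : S.μ {x | ¬ ∃ y, S.Hop (a + b) x y} ≤ ENNReal.ofReal (C1 * r ^ 2) :=
    (hb _).trans (hmono (norm_nonneg _) (norm_add_le _ _))
  have m4 : S.μ (Cor S (M * r)) ≤ ENNReal.ofReal (C2 * (M * r) ^ 2) := hc _ (by positivity)
  have m5 : S.μ (S.F b ⁻¹' (Cor S (M * r))) ≤ ENNReal.ofReal (C2 * (M * r) ^ 2) :=
    (pre_le _ _).trans m4
  have hp1 : 0 ≤ C1 * r ^ 2 := by positivity
  have hp2 : 0 ≤ C2 * (M * r) ^ 2 := by positivity
  have htot : S.μ {x | S.F a (S.F b x) ≠ S.F (a + b) x} ≤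
      ENNReal.ofReal ((3 * C1 + 2 * (C2 * M ^ 2)) * r ^ 2) := by
    calc S.μ {x | S.F a (S.F b x) ≠ S.F (a + b) x} ≤ _ := measure_mono hsub
      _ ≤ (((ENNReal.ofReal (C1 * r ^ 2) + ENNReal.ofReal (C1 * r ^ 2)) +
            ENNReal.ofReal (C1 * r ^ 2)) + ENNReal.ofReal (C2 * (M * r) ^ 2)) +
            ENNReal.ofReal (C2 * (M * r) ^ 2) :=
          (measure_union_le _ _).trans (add_le_add ((measure_union_le _ _).trans (add_le_add
            ((measure_union_le _ _).trans (add_le_add ((measure_union_le _ _).trans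
              (add_le_add m1 m2)) m3)) m4)) m5)
      _ = _ := by
          rw [← ENNReal.ofReal_add hp1 hp1, ← ENNReal.ofReal_add (by positivity) hp1,
            ← ENNReal.ofReal_add (by positivity) hp2, ← ENNReal.ofReal_add (by positivity) hp2]
          congr 1
          ring
  exact ENNReal.toReal_le_of_le_ofReal (by positivity) htot

private theorem comm_aux (S : Surf) {C : ℝ} (hC0 : 0 ≤ C) (hC : ∀ a b : ℂ,
    S.μ.real {x | S.F a (S.F b x) ≠ S.F (a + b) x} ≤ C * (‖a‖ + ‖b‖) ^ 2) {a b : ℂ}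
    (ha : 0 < ‖a‖) (hab : ‖a‖ ≤ ‖b‖) :
    S.μ.real {x | S.F a (S.F b x) ≠ S.F b (S.F a x)} ≤ 16 * C * (‖a‖ * ‖b‖) := by
  have hb : 0 < ‖b‖ := ha.trans_le hab
  set m : ℕ := ⌈‖b‖ / ‖a‖⌉₊ with hm
  have hq : 1 ≤ ‖b‖ / ‖a‖ := (one_le_div ha).mpr hab
  have hm1 : ‖b‖ / ‖a‖ ≤ m := Nat.le_ceil _
  have hm2 : (m : ℝ) < ‖b‖ / ‖a‖ + 1 := Nat.ceil_lt_add_one (by positivity)
  have hmpos : (0 : ℝ) < m := by linarith
  have hmne : (m : ℂ) ≠ 0 := by
    have : (m : ℝ) ≠ 0 := hmpos.ne'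
    exact_mod_cast this
  set b' : ℂ := b / m with hb'
  have hmb' : ((m : ℝ) : ℂ) * b' = b := by
    rw [hb']
    push_cast
    field_simp
  have hb'n : ‖b'‖ ≤ ‖a‖ := by
    rw [hb', norm_div, Complex.norm_natCast, div_le_iff₀ hmpos]
    rw [div_le_iff₀ ha] at hm1
    linarith
  set E : Set ℂ := {y | S.F a (S.F b' y) ≠ S.F b' (S.F a y)} with hE
  have hEm : MeasurableSet E := by
    rw [hE]
    exact (measurableSet_eq_fun ((S.measurable_F a).comp (S.measurable_F b'))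
      ((S.measurable_F b').comp (S.measurable_F a))).compl
  have hEb : S.μ.real E ≤ 8 * C * ‖a‖ ^ 2 := by
    have hsub : E ⊆ {x | S.F a (S.F b' x) ≠ S.F (a + b') x} ∪
        {x | S.F b' (S.F a x) ≠ S.F (b' + a) x} := by
      intro x hx
      by_contra hn
      simp only [mem_union, not_or, mem_ofPred_eq, not_not] at hn
      apply hx
      rw [hn.1, hn.2, add_comm]
    have h1 := hC a b'
    have h2 := hC b' a
    have h3 : (‖a‖ + ‖b'‖) ^ 2 ≤ (2 * ‖a‖) ^ 2 := by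
      have := norm_nonneg b'
      gcongr
      linarith
    calc S.μ.real E ≤ _ := measureReal_mono hsub
      _ ≤ _ := measureReal_union_le _ _
      _ ≤ C * (‖a‖ + ‖b'‖) ^ 2 + C * (‖b'‖ + ‖a‖) ^ 2 := add_le_add h1 h2
      _ = 2 * (C * (‖a‖ + ‖b'‖) ^ 2) := by ring
      _ ≤ 2 * (C * (2 * ‖a‖) ^ 2) := by gcongr
      _ = 8 * C * ‖a‖ ^ 2 := by ring
  -- the good points
  have hgood : ∀ᵐ x ∂S.μ, (∀ j < m, S.F (((j : ℝ) : ℂ) * b') x ∉ E) →
      S.F a (S.F b x) = S.F b (S.F a x) := by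
    have h1 : ∀ᵐ x ∂S.μ, ∀ j : ℕ, S.F ((((1 : ℝ)) : ℂ) * b') (S.F (((j : ℝ) : ℂ) * b') x)
        = S.F ((((j : ℝ) + 1 : ℝ) : ℂ) * b') x := ae_all_iff.mpr fun j => F_add S b' j 1
    have h2 := (S.measurePreserving_F a).quasiMeasurePreserving.ae h1
    have h3 := F_zero S
    have h4 := (S.measurePreserving_F a).quasiMeasurePreserving.ae h3
    filter_upwards [h1, h2, h3, h4] with x h1 h2 h3 h4 hx
    have key : ∀ j : ℕ, j ≤ m → S.F a (S.F (((j : ℝ) : ℂ) * b') x)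
        = S.F (((j : ℝ) : ℂ) * b') (S.F a x) := by
      intro j
      induction j with
      | zero =>
        intro _
        simp only [Nat.cast_zero, Complex.ofReal_zero, zero_mul]
        rw [h3, h4]
      | succ j ih =>
        intro hj
        have ih' := ih (by omega)
        have e1 : (((j + 1 : ℕ) : ℝ) : ℂ) = (((j : ℝ) + 1 : ℝ) : ℂ) := by push_cast; rfl
        have e2 : (((1 : ℝ)) : ℂ) * b' = b' := by simp
        have hnE := hx j (by omega)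
        simp only [hE, mem_ofPred_eq, not_not] at hnE
        rw [e1, ← h1 j, ← h2 j, e2, hnE, ih']
    have := key m le_rfl
    rw [hmb'] at this
    exact this
  have hsub : S.μ {x | S.F a (S.F b x) ≠ S.F b (S.F a x)} ≤
      S.μ (⋃ j ∈ Finset.range m, S.F (((j : ℝ) : ℂ) * b') ⁻¹' E) := by
    refine measure_mono_ae ?_
    filter_upwards [hgood] with x hx
    intro (hxn : S.F a (S.F b x) ≠ S.F b (S.F a x))
    by_contra hn
    apply hxn
    apply hx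
    intro j hj hjE
    exact hn (mem_iUnion₂.2 ⟨j, Finset.mem_range.2 hj, hjE⟩)
  have h5 : S.μ.real {x | S.F a (S.F b x) ≠ S.F b (S.F a x)} ≤ m * (8 * C * ‖a‖ ^ 2) := by
    calc S.μ.real {x | S.F a (S.F b x) ≠ S.F b (S.F a x)}
        ≤ S.μ.real (⋃ j ∈ Finset.range m, S.F (((j : ℝ) : ℂ) * b') ⁻¹' E) :=
          ENNReal.toReal_mono (measure_ne_top _ _) hsub
      _ ≤ ∑ j ∈ Finset.range m, S.μ.real (S.F (((j : ℝ) : ℂ) * b') ⁻¹' E) :=
          measureReal_biUnion_finset_le _ _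
      _ = ∑ j ∈ Finset.range m, S.μ.real E := by
          refine Finset.sum_congr rfl fun j _ => ?_
          exact (S.measurePreserving_F _).measureReal_preimage hEm.nullMeasurableSet
      _ = m * S.μ.real E := by simp
      _ ≤ m * (8 * C * ‖a‖ ^ 2) := by gcongr
  have h6 : (m : ℝ) ≤ 2 * (‖b‖ / ‖a‖) := by linarith
  calc S.μ.real {x | S.F a (S.F b x) ≠ S.F b (S.F a x)} ≤ m * (8 * C * ‖a‖ ^ 2) := h5
    _ ≤ (2 * (‖b‖ / ‖a‖)) * (8 * C * ‖a‖ ^ 2) := by gcongr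
    _ = 16 * C * (‖a‖ * ‖b‖) := by field_simp; ring

theorem comm (S : Surf) : ∃ C : ℝ, 0 ≤ C ∧ ∀ a b : ℂ,
    S.μ.real {x | S.F a (S.F b x) ≠ S.F b (S.F a x)} ≤ C * (‖a‖ * ‖b‖) := by
  obtain ⟨C, hC0, hC⟩ := comp_near S
  refine ⟨16 * C, by positivity, fun a b => ?_⟩
  have hzero : ∀ c : ℂ, S.μ {x | S.F 0 (S.F c x) ≠ S.F c (S.F 0 x)} = 0 := by
    intro c
    have h : ∀ᵐ x ∂S.μ, S.F 0 (S.F c x) = S.F c (S.F 0 x) := by
      filter_upwards [F_zero S,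
        (S.measurePreserving_F c).quasiMeasurePreserving.ae (F_zero S)] with x h1 h2
      rw [h1, h2]
    exact ae_iff.mp h
  have hsymm : {x | S.F a (S.F b x) ≠ S.F b (S.F a x)} = {x | S.F b (S.F a x) ≠ S.F a (S.F b x)} := by
    ext x
    exact ne_comm
  rcases eq_or_ne a 0 with rfl | ha
  · rw [measureReal_def, hzero b]
    simp
  rcases eq_or_ne b 0 with rfl | hb
  · rw [hsymm, measureReal_def, hzero a]
    simp
  rcases le_total ‖a‖ ‖b‖ with h | h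
  · exact comm_aux S hC0 hC (norm_pos_iff.mpr ha) h
  · rw [hsymm, mul_comm ‖a‖ ‖b‖]
    exact comm_aux S hC0 hC (norm_pos_iff.mpr hb) h

end Pool.Agent.TF.I
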