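import Pool.Agent.Helper19.TF.FL

/-!
BLOCK TF-I-CYL. Cylinders (a.e. description): multiples of the core, transport, no short cylinders on fat surfaces.

* `cyl_mul`: induction on `k` for `k : ℕ` (`cr w (V + k w) = cr w V`), then for negative `k` apply it to `V + k w`.
* `cyl_map`: `ζ' = ζ ∘ Φ`; `cr w (A V) = cr (A⁻¹ w) V` as `det A = 1` (`cr_map` in Helper87/LS/Rec.lean); `Φ (F_S (V + A⁻¹ w) x) = F_Y (A V + w) (Φ x)`,
  and `Φ` is a.e. injective (`Ψ ∘ Φ = id`, also at the points `F_S V x`: `F_S V` preserves `μ`). Measures: `MeasurePreserving.measureReal_preimage`.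
* `cyl_map'`: the same for the inverse: `ζ' = ζ ∘ Ψ`.
* `strip_area`: in the coordinates `z = P k + α (P (k+1) - P k) + β (P (k+2) - P k)` the set lies in `(0,1) × (0, η / A)`,
  `A = cr (P (k+1) - P k) (P (k+2) - P k)` the determinant of this linear map.
* `cyl_short`: a.e. `x` in `C = {0 < ζ < a}` has `F w x = F 0 x = x` (`V = 0`). If `x, x + w` are both in `tri (P i)` then `F w x = x + w ≠ x`
  (`Straight.hop`, `F_eq`). So a.e. point of `C` is in some `tri (P i)` with `x + w ∉ tri (P i)`, i.e. `0 < ell (i,k) x ≤ ‖vec (i,k)‖ ‖w‖ ≤ K ‖w‖`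
  for some `k` (`ell_add`, `abs_cr_le`). Sum the `3 n` strips, `μ C = a` (use `c = 0`, `d = a`).
-/

open MeasureTheory Set Filter
open Pool.Agent.Helper87.LS Pool.Agent.Helper72.TF

namespace Pool.Agent.TF.I

/-- the data of a cylinder -/
def CylD (S : Surf) (w : ℂ) (a : ℝ) (ζ : ℂ → ℝ) : Prop :=
  Measurable ζ ∧
    (∀ c d : ℝ, 0 ≤ c → c ≤ d → d ≤ a → S.μ.real {x | c < ζ x ∧ ζ x < d} = d - c) ∧
    ∀ V : ℂ, ∀ᵐ x ∂S.μ, 0 < ζ x → ζ x < a → 0 < ζ x + cr w V → ζ x + cr w V < a →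
      S.F (V + w) x = S.F V x ∧ ζ (S.F V x) = ζ x + cr w V

theorem cyl_iff (S : Surf) (w : ℂ) (a : ℝ) : Cyl S w a ↔ ∃ ζ, CylD S w a ζ := Iff.rfl

private theorem cr_add_mul26 (w V : ℂ) (r : ℝ) : cr w (V + (r : ℂ) * w) = cr w V := by
  rw [cr_add_right, cr_mul_right, cr_self]
  ring

private theorem cyl_mul_nat26 (S : Surf) {w : ℂ} {a : ℝ} {ζ : ℂ → ℝ} (h : CylD S w a ζ) (V : ℂ)
    (k : ℕ) :
    ∀ᵐ x ∂S.μ, 0 < ζ x → ζ x < a → 0 < ζ x + cr w V → ζ x + cr w V < a →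
      S.F (V + (k : ℂ) * w) x = S.F V x := by
  induction k with
  | zero =>
    refine Filter.Eventually.of_forall fun x _ _ _ _ => ?_
    simp
  | succ k ih =>
    filter_upwards [ih, h.2.2 (V + (k : ℂ) * w)] with x h1 h2 h3 h4 h5 h6
    have e1 : cr w (V + (k : ℂ) * w) = cr w V := by
      have := cr_add_mul26 w V (k : ℝ)
      rwa [Complex.ofReal_natCast] at this
    rw [e1] at h2
    have h7 := (h2 h3 h4 h5 h6).1
    rw [h1 h3 h4 h5 h6] at h7
    have e2 : V + ((k + 1 : ℕ) : ℂ) * w = V + (k : ℂ) * w + w := by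
      push_cast
      ring
    rw [e2, h7]

theorem cyl_mul (S : Surf) {w : ℂ} {a : ℝ} {ζ : ℂ → ℝ} (h : CylD S w a ζ) (V : ℂ) (k : ℤ) :
    ∀ᵐ x ∂S.μ, 0 < ζ x → ζ x < a → 0 < ζ x + cr w V → ζ x + cr w V < a →
      S.F (V + k * w) x = S.F V x := by
  obtain ⟨n, rfl | rfl⟩ := k.eq_nat_or_neg
  · have := cyl_mul_nat26 S h V n
    simpa using this
  · have h1 := cyl_mul_nat26 S h (V + (((-(n : ℤ) : ℤ)) : ℂ) * w) n
    filter_upwards [h1] with x h2 h3 h4 h5 h6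
    have e1 : cr w (V + (((-(n : ℤ) : ℤ)) : ℂ) * w) = cr w V := by
      have := cr_add_mul26 w V (-(n : ℝ))
      have e : ((-(n : ℝ) : ℝ) : ℂ) = ((-(n : ℤ) : ℤ) : ℂ) := by push_cast; ring
      rwa [e] at this
    have e2 : V + (((-(n : ℤ) : ℤ)) : ℂ) * w + (n : ℂ) * w = V := by
      push_cast
      ring
    rw [e1, e2] at h2
    exact (h2 h3 h4 h5 h6).symm

private theorem cr_symm26 {A : ℂ ≃ₗ[ℝ] ℂ} (hA : LinearMap.det (A : ℂ →ₗ[ℝ] ℂ) = 1) (w V : ℂ) :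
    cr (A.symm w) V = cr w (A V) := by
  have h := cr_map A (A.symm w) V
  rw [hA, one_mul, LinearEquiv.apply_symm_apply] at h
  exact h.symm

theorem cyl_map {S Y : Surf} {A : ℂ ≃ₗ[ℝ] ℂ} (hA : LinearMap.det (A : ℂ →ₗ[ℝ] ℂ) = 1)
    (h : LinIso S Y A) {w : ℂ} {a : ℝ} (hw : Cyl Y w a) : Cyl S (A.symm w) a := by
  obtain ⟨Φ, Ψ, hΦ, hΨ, hΨΦ, hΦΨ, hF⟩ := h
  obtain ⟨ζ, hm, hmeas, hz⟩ := hw
  refine ⟨ζ ∘ Φ, hm.comp hΦ.measurable, ?_, ?_⟩
  · intro c d h1 h2 h3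
    rw [← hmeas c d h1 h2 h3]
    have hset : MeasurableSet {x | c < ζ x ∧ ζ x < d} :=
      (measurableSet_lt measurable_const hm).inter (measurableSet_lt hm measurable_const)
    exact hΦ.measureReal_preimage hset.nullMeasurableSet
  · intro V
    have h1 := hΦ.quasiMeasurePreserving.ae (hz (A V))
    have h2 := (S.measurePreserving_F V).quasiMeasurePreserving.ae hΨΦ
    have h3 := (S.measurePreserving_F (V + A.symm w)).quasiMeasurePreserving.ae hΨΦ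
    filter_upwards [h1, h2, h3, hF V, hF (V + A.symm w)] with x a1 a2 a3 a4 a5 b1 b2 b3 b4
    rw [cr_symm26 hA] at b3 b4
    obtain ⟨c1, c2⟩ := a1 b1 b2 b3 b4
    have e : A (V + A.symm w) = A V + w := by rw [map_add, LinearEquiv.apply_symm_apply]
    rw [e, c1, ← a4] at a5
    constructor
    · rw [← a3, a5, a2]
    · rw [cr_symm26 hA]
      simp only [Function.comp_apply]
      rw [a4]
      exact c2

private theorem det_symm26 {A : ℂ ≃ₗ[ℝ] ℂ} (hA : LinearMap.det (A : ℂ →ₗ[ℝ] ℂ) = 1) :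
    LinearMap.det (A.symm : ℂ →ₗ[ℝ] ℂ) = 1 := by
  have h1 := cr_symm26 hA 1 (A.symm Complex.I)
  have h2 := cr_map A.symm 1 Complex.I
  rw [h1, LinearEquiv.apply_symm_apply] at h2
  have h3 : cr 1 Complex.I = 1 := by simp [cr]
  rw [h3, mul_one] at h2
  exact h2.symm

private theorem linIso_symm26 {S Y : Surf} {A : ℂ ≃ₗ[ℝ] ℂ} (h : LinIso S Y A) :
    LinIso Y S A.symm := by
  obtain ⟨Φ, Ψ, hΦ, hΨ, hΨΦ, hΦΨ, hF⟩ := h
  refine ⟨Ψ, Φ, hΨ, hΦ, hΦΨ, hΨΦ, fun v => ?_⟩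
  have h1 := hΨ.quasiMeasurePreserving.ae (hF (A.symm v))
  have h2 := hΨ.quasiMeasurePreserving.ae
    ((S.measurePreserving_F (A.symm v)).quasiMeasurePreserving.ae hΨΦ)
  filter_upwards [h1, h2, hΦΨ] with y a1 a2 a3
  rw [LinearEquiv.apply_symm_apply, a3] at a1
  rw [← a1, a2]

theorem cyl_map' {S Y : Surf} {A : ℂ ≃ₗ[ℝ] ℂ} (hA : LinearMap.det (A : ℂ →ₗ[ℝ] ℂ) = 1)
    (h : LinIso S Y A) {w : ℂ} {a : ℝ} (hw : Cyl S w a) : Cyl Y (A w) a := by
  have := cyl_map (det_symm26 hA) (linIso_symm26 h) hw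
  rwa [LinearEquiv.symm_symm] at this

private theorem box_area26 {c : ℝ} (hc : 0 ≤ c) :
    volume {z : ℂ | (0 < z.re ∧ z.re < 1) ∧ (0 < z.im ∧ z.im ≤ c)} = ENNReal.ofReal c := by
  have h1 : {z : ℂ | (0 < z.re ∧ z.re < 1) ∧ (0 < z.im ∧ z.im ≤ c)}
      = Complex.measurableEquivRealProd ⁻¹' (Ioo (0 : ℝ) 1 ×ˢ Ioc (0 : ℝ) c) := by
    ext z
    rfl
  rw [h1, Complex.volume_preserving_equiv_real_prod.measure_preimage
    (measurableSet_Ioo.prod measurableSet_Ioc).nullMeasurableSet, Measure.volume_eq_prod,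
    Measure.prod_prod, Real.volume_Ioo, Real.volume_Ioc]
  simp

theorem strip_area (Y : Surf) (i : Fin Y.n) (k : Fin 3) {η : ℝ} (hη : 0 ≤ η) :
    volume {x : ℂ | x ∈ tri (Y.P i) ∧ Y.ell (i, k) x ≤ η} ≤ ENNReal.ofReal η := by
  have hA := Y.area2_pos i
  set A := Y.area2 i with hAdef
  set a : ℂ := Y.P i (k + 1) - Y.P i k with ha
  set b : ℂ := Y.P i (k + 2) - Y.P i k with hb
  have hAab : A = cr a b := Y.area2_eq46 i k
  let L : ℂ →ₗ[ℝ] ℂ :=
    { toFun := fun z => (z.re : ℂ) * a + (z.im : ℂ) * b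
      map_add' := by
        intro z w
        simp only [Complex.add_re, Complex.add_im, Complex.ofReal_add]
        ring
      map_smul' := by
        intro r z
        simp only [Complex.real_smul, Complex.re_ofReal_mul, Complex.im_ofReal_mul,
          Complex.ofReal_mul, RingHom.id_apply]
        ring }
  have hL : ∀ z, L z = (z.re : ℂ) * a + (z.im : ℂ) * b := fun z => rfl
  have hdet : LinearMap.det L = A := by
    rw [det_eq_cr97, hL, hL, hAab]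
    simp
  have hsub : {x : ℂ | x ∈ tri (Y.P i) ∧ Y.ell (i, k) x ≤ η} ⊆
      (fun z => Y.P i k + z) '' (L '' {z : ℂ | (0 < z.re ∧ z.re < 1) ∧
        (0 < z.im ∧ z.im ≤ η / A)}) := by
    rintro x ⟨hx, hxη⟩
    rw [Y.mem_tri] at hx
    have e0 := hx k
    have e1 := hx (k + 1)
    have e2 := hx (k + 2)
    have hs := Y.ell_sum i k x
    have f0 : Y.ell (i, k) x = cr a (x - Y.P i k) := rfl
    have f2 : Y.ell (i, k + 2) x = cr (x - Y.P i k) b := by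
      rw [Y.ell_two46, hb]
      simp only [cr, Complex.sub_re, Complex.sub_im]
      ring
    refine ⟨x - Y.P i k, ⟨⟨Y.ell (i, k + 2) x / A, Y.ell (i, k) x / A⟩, ⟨⟨?_, ?_⟩, ?_, ?_⟩, ?_⟩, ?_⟩
    · exact div_pos e2 hA
    · change Y.ell (i, k + 2) x / A < 1
      rw [div_lt_one hA]
      linarith
    · exact div_pos e0 hA
    · change Y.ell (i, k) x / A ≤ η / A
      gcongr
    · rw [hL]
      simp only
      have hA0 : (A : ℂ) ≠ 0 := by exact_mod_cast hA.ne'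
      have key : (A : ℂ) * (x - Y.P i k) = (Y.ell (i, k + 2) x : ℂ) * a
          + (Y.ell (i, k) x : ℂ) * b := by
        rw [f0, f2, hAab]
        apply Complex.ext
        · simp only [cr, Complex.add_re, Complex.mul_re, Complex.ofReal_re, Complex.ofReal_im]
          ring
        · simp only [cr, Complex.add_im, Complex.mul_im, Complex.ofReal_re, Complex.ofReal_im]
          ring
      push_cast
      field_simp
      linear_combination -key
    · simp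
  calc volume {x : ℂ | x ∈ tri (Y.P i) ∧ Y.ell (i, k) x ≤ η}
      ≤ volume ((fun z => Y.P i k + z) '' (L '' {z : ℂ | (0 < z.re ∧ z.re < 1) ∧
        (0 < z.im ∧ z.im ≤ η / A)})) := measure_mono hsub
    _ = volume (L '' {z : ℂ | (0 < z.re ∧ z.re < 1) ∧ (0 < z.im ∧ z.im ≤ η / A)}) := by
        rw [image_add_left, measure_preimage_add]
    _ = ENNReal.ofReal A * ENNReal.ofReal (η / A) := by
        rw [Measure.addHaar_image_linearMap, hdet, abs_of_pos hA,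
          box_area26 (div_nonneg hη hA.le)]
    _ = ENNReal.ofReal η := by
        rw [← ENNReal.ofReal_mul hA.le]
        congr 1
        field_simp
    _ ≤ ENNReal.ofReal η := le_rfl

theorem cyl_short (Y : Surf) {K : ℝ} (hK : ∀ e, ‖Y.vec e‖ ≤ K) {w : ℂ} (hw : w ≠ 0) {a : ℝ}
    (ha : 0 ≤ a) (h : Cyl Y w a) : a ≤ 3 * Y.n * (K * ‖w‖) := by
  obtain ⟨ζ, hm, hmeas, hz⟩ := h
  have hK0 : 0 ≤ K := (norm_nonneg _).trans (hK (⟨0, Y.pos⟩, 0))
  have hη : 0 ≤ K * ‖w‖ := mul_nonneg hK0 (norm_nonneg _)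
  have hD : ∀ᵐ x ∂Y.μ, x ∈ Y.D := by
    unfold Surf.μ
    exact ae_restrict_mem Y.measurableSet_D
  have hC : ∀ᵐ x ∂Y.μ, x ∈ {x | 0 < ζ x ∧ ζ x < a} →
      x ∈ ⋃ e : Fin Y.n × Fin 3, {x : ℂ | x ∈ tri (Y.P e.1) ∧ Y.ell (e.1, e.2) x ≤ K * ‖w‖} := by
    filter_upwards [hD, hz 0, F_zero Y] with x h1 h2 h3 h4
    have e0 : cr w 0 = 0 := by simp [cr]
    rw [e0, add_zero, zero_add] at h2
    have h5 := (h2 h4.1 h4.2 h4.1 h4.2).1
    rw [h3] at h5
    obtain ⟨i, hi⟩ := mem_iUnion.1 h1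
    by_contra hcon
    have h6 : x + w ∈ tri (Y.P i) := by
      rw [Y.mem_tri]
      intro k
      by_contra h7
      push Not at h7
      apply hcon
      refine mem_iUnion.2 ⟨(i, k), hi, ?_⟩
      rw [Y.ell_add] at h7
      have h8 := abs_cr_le (Y.vec (i, k)) w
      have h9 := neg_abs_le (cr (Y.vec (i, k)) w)
      have h10 : ‖Y.vec (i, k)‖ * ‖w‖ ≤ K * ‖w‖ :=
        mul_le_mul_of_nonneg_right (hK _) (norm_nonneg _)
      change Y.ell (i, k) x ≤ K * ‖w‖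
      linarith
    have h7 : Y.F w x = x + w := Surf.F_eq (Surf.Straight.hop (Surf.hop_inside hi h6))
    rw [h7] at h5
    exact hw (by simpa using h5)
  have h1 : Y.μ {x | 0 < ζ x ∧ ζ x < a} ≤ ∑ e : Fin Y.n × Fin 3, ENNReal.ofReal (K * ‖w‖) := by
    calc Y.μ {x | 0 < ζ x ∧ ζ x < a}
        ≤ Y.μ (⋃ e : Fin Y.n × Fin 3,
          {x : ℂ | x ∈ tri (Y.P e.1) ∧ Y.ell (e.1, e.2) x ≤ K * ‖w‖}) := measure_mono_ae hC
      _ ≤ ∑ e : Fin Y.n × Fin 3,
          Y.μ {x : ℂ | x ∈ tri (Y.P e.1) ∧ Y.ell (e.1, e.2) x ≤ K * ‖w‖} :=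
          measure_iUnion_fintype_le _ _
      _ ≤ ∑ e : Fin Y.n × Fin 3, ENNReal.ofReal (K * ‖w‖) := by
          refine Finset.sum_le_sum fun e _ => ?_
          exact (Measure.restrict_apply_le _ _).trans (strip_area Y e.1 e.2 hη)
  have h2 := hmeas 0 a le_rfl ha le_rfl
  rw [sub_zero] at h2
  rw [← h2]
  have h3 : (∑ e : Fin Y.n × Fin 3, ENNReal.ofReal (K * ‖w‖))
      = ENNReal.ofReal (3 * Y.n * (K * ‖w‖)) := by
    rw [Finset.sum_const, Finset.card_univ, Fintype.card_prod, Fintype.card_fin, Fintype.card_fin,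
      nsmul_eq_mul, ← ENNReal.ofReal_natCast, ← ENNReal.ofReal_mul (by positivity)]
    congr 1
    push_cast
    ring
  rw [h3] at h1
  exact ENNReal.toReal_le_of_le_ofReal (by positivity) h1

theorem cylDq (S : Surf) {Q : ℂ → ℕ} (hQ : Part Q) {w : ℂ} {a : ℝ} (ha : 0 < a) (hC : Cyl S w a)
    {t ρ : ℝ} {v : ℂ} (h1 : ‖w - (t : ℂ) * v‖ ≤ ρ) (h2 : |cr w ((t : ℂ) * v)| ≤ ρ)
    {L : ℕ} (h3 : L * ρ ≤ a / 20)
    (h4 : ∀ z : ℂ, ‖z‖ ≤ L * ρ → S.μ.real {x | Q (S.F z x) ≠ Q x} ≤ a / 20)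
    (k : ℤ) (hk : |k| ≤ L) : a / 2 ≤ S.Dq Q (((k * t : ℝ) : ℂ) * v) := by
  obtain ⟨ζ, hζ⟩ := hC
  have hmeas := hζ.2.1 (a / 20) (19 * a / 20) (by linarith) (by linarith) (by linarith)
  have hρ : 0 ≤ ρ := (norm_nonneg _).trans h1
  have hkL : |(k : ℝ)| ≤ L := by exact_mod_cast hk
  set V : ℂ := (k : ℂ) * ((t : ℂ) * v - w) with hV
  have e1 : ((k * t : ℝ) : ℂ) * v = V + (k : ℂ) * w := by
    rw [hV]
    push_cast
    ring
  have hVn : ‖V‖ ≤ L * ρ := by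
    rw [hV, norm_mul, Complex.norm_intCast, norm_sub_rev]
    exact mul_le_mul hkL h1 (norm_nonneg _) (by positivity)
  have hcr : cr w V = k * cr w ((t : ℂ) * v) := by
    have : V = ((k : ℝ) : ℂ) * ((t : ℂ) * v - w) := by rw [hV]; push_cast; rfl
    rw [this, cr_mul_right, cr_sub_right, cr_self, sub_zero]
  have hcr2 : |cr w V| ≤ a / 20 := by
    rw [hcr, abs_mul]
    exact (mul_le_mul hkL h2 (abs_nonneg _) (by positivity)).trans h3
  obtain ⟨hcr3, hcr4⟩ := abs_le.1 hcr2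
  have h5 := h4 V hVn
  have hsub : ∀ᵐ x ∂S.μ, x ∈ {x | a / 20 < ζ x ∧ ζ x < 19 * a / 20} →
      x ∈ {x | Q (S.F (((k * t : ℝ) : ℂ) * v) x) = Q x} ∪ {x | Q (S.F V x) ≠ Q x} := by
    filter_upwards [cyl_mul S hζ V k] with x h6 h7
    obtain ⟨h8, h9⟩ := h7
    have h10 := h6 (by linarith) (by linarith) (by linarith) (by linarith)
    by_cases h11 : Q (S.F V x) = Q x
    · left
      change Q (S.F (((k * t : ℝ) : ℂ) * v) x) = Q x
      rw [e1, h10, h11]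
    · right
      exact h11
  have h6 : S.μ.real {x | a / 20 < ζ x ∧ ζ x < 19 * a / 20} ≤
      S.Dq Q (((k * t : ℝ) : ℂ) * v) + S.μ.real {x | Q (S.F V x) ≠ Q x} := by
    refine le_trans ?_ (measureReal_union_le _ _)
    exact ENNReal.toReal_mono (measure_ne_top _ _) (measure_mono_ae hsub)
  rw [hmeas] at h6
  linarith

end Pool.Agent.TF.I
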