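import Mathlib
import Pool.Agent.Helper87.LS.Final
import Pool.Agent.Helper72.TF.Core

/-!
MP_e98778 FULL, module I (ergodic part): common definitions.

`dir u` unit vector of slope `u` (direction `(u, 1)`); `DirIso`, `Inter` isomorphisms of motions
(`LinIso`, `TameAt`, `Close`, `gsu` are in Helper72/TF/Core.lean);
`fQ Q x` the unit vector of `ℓ²(ℕ)` belonging to the piece `Q x`, so that
`⟪fQ Q x, fQ Q y⟫ = 1` if `Q x = Q y` and `0` otherwise;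
`wf` the twisted averages over the discrete times `0, τ, …, (n-1)τ`;
`mF n τ lam` the transform `(1/n) ∑_{k<n} e^{i lam k τ}`.
-/

open MeasureTheory Set Filter
open Pool.Agent.Helper87.LS

namespace Pool.Agent.TF.I

noncomputable section

/-- The unit vector of slope `u`, i.e. in direction `(u, 1)`. -/
def dir (u : ℝ) : ℂ := ((u : ℂ) + Complex.I) / ((Real.sqrt (1 + u ^ 2) : ℝ) : ℂ)

/-- The motions in the directions `w` and `w'` are isomorphic. -/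
def DirIso (S : Surf) (w w' : ℂ) : Prop :=
  ∃ Φ Ψ : ℂ → ℂ, MeasurePreserving Φ S.μ S.μ ∧ MeasurePreserving Ψ S.μ S.μ ∧
    (∀ᵐ x ∂S.μ, Ψ (Φ x) = x) ∧ (∀ᵐ x ∂S.μ, Φ (Ψ x) = x) ∧
    ∀ t : ℝ, ∀ᵐ x ∂S.μ, Φ (S.F (t * w) x) = S.F (t * w') (Φ x)

/-- `Ψ` intertwines the motion in direction `w` with the one in direction `w'`. -/
def Inter (S : Surf) (w w' : ℂ) (Ψ : ℂ → ℂ) : Prop :=
  MeasurePreserving Ψ S.μ S.μ ∧ ∀ t : ℝ, ∀ᵐ x ∂S.μ, Ψ (S.F (t * w) x) = S.F (t * w') (Ψ x)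

/-- A cylinder with core vector `w` and area `a`: `ζ` is the height in area units. -/
def Cyl (S : Surf) (w : ℂ) (a : ℝ) : Prop :=
  ∃ ζ : ℂ → ℝ, Measurable ζ ∧
    (∀ c d : ℝ, 0 ≤ c → c ≤ d → d ≤ a → S.μ.real {x | c < ζ x ∧ ζ x < d} = d - c) ∧
    ∀ V : ℂ, ∀ᵐ x ∂S.μ, 0 < ζ x → ζ x < a → 0 < ζ x + cr w V → ζ x + cr w V < a →
      S.F (V + w) x = S.F V x ∧ ζ (S.F V x) = ζ x + cr w V

/-- The Hilbert space `ℓ²(ℕ)`. -/
abbrev V2 : Type := lp (fun _ : ℕ => ℂ) 2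

/-- The unit vector of the piece of `x`. -/
def fQ (Q : ℂ → ℕ) (x : ℂ) : V2 := lp.single 2 (Q x) (1 : ℂ)

/-- The twisted average of the piece vectors along the orbit in direction `v`. -/
def wf (S : Surf) (Q : ℂ → ℕ) (τ : ℝ) (n : ℕ) (v : ℂ) (ξ : ℝ) (x : ℂ) : V2 :=
  ((n : ℂ)⁻¹) • ∑ k ∈ Finset.range n,
    Complex.exp (-(((ξ * (k * τ) : ℝ) : ℂ) * Complex.I)) • fQ Q (S.F (((k * τ : ℝ) : ℂ) * v) x)

/-- The transform of the uniform weights on `0, τ, …, (n-1)τ`. -/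
def mF (n : ℕ) (τ lam : ℝ) : ℂ :=
  ((n : ℂ)⁻¹) * ∑ k ∈ Finset.range n, Complex.exp (((lam * (k * τ) : ℝ) : ℂ) * Complex.I)

/-- `Σ` is the spectral measure of the partition `Q` for the motion `F (τ v)`. -/
structure IsSpec (S : Surf) (Q : ℂ → ℕ) (τ : ℝ) (v : ℂ) (σ : Measure ℝ) : Prop where
  fin : IsFiniteMeasure σ
  supp : σ {ξ | Real.pi / τ < |ξ|} = 0
  four : ∀ n : ℤ, ∫ ξ, Complex.exp (((n * τ * ξ : ℝ) : ℂ) * Complex.I) ∂σ
    = ((S.Dq Q (((n * τ : ℝ) : ℂ) * v) : ℝ) : ℂ)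

theorem norm_fQ (Q : ℂ → ℕ) (x : ℂ) : ‖fQ Q x‖ = 1 := by
  rw [fQ, lp.norm_single (by norm_num)]
  simp

open scoped InnerProductSpace in
theorem inner_fQ (Q : ℂ → ℕ) (x y : ℂ) :
    ⟪fQ Q x, fQ Q y⟫_ℂ = if Q x = Q y then 1 else 0 := by
  rw [fQ, lp.inner_single_left, fQ, lp.single_apply, Pi.single_apply]
  simp

end

end Pool.Agent.TF.I
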