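import Pool.Agent.Helper19.TF.Defs

/-!
BLOCK TF-I-FL. The motion along a line is a flow (all real times).

* `F_zero`: for `x ∈ S.D` the hop with vector `0` stays in the triangle: `Straight 0 x x`, so `F 0 x = x` (`F_eq`);
  a.e. `x` is in `D` (`S.μ = volume.restrict S.D`).
* `F_neg`: `ae_straight v` gives `Straight v x (F v x)`, `straight_symm`, `F_eq`.
* `F_add`: cases on the signs of `a`, `b`, `a + b`. Both positive: `F_comp_ae`. Both negative: the same for `-u`.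
  `a > 0 > b`, `a + b > 0`: `F (a u) x = F ((-b) u) (F ((a+b) u) x)` a.e., apply `F_neg` at the point `F ((a+b) u) x`
  (`(S.measurePreserving_F _).quasiMeasurePreserving.ae`). The other cases are similar (or apply the first ones to `-u`,
  or to `x' = F (a u) x`). `b = 0`, `a = 0`: `F_zero`. `a + b = 0`: `F_neg`.
* `Dq_pair`: `μ {Q (F (a u) x) = Q (F (b u) x)} = Dq Q ((b - a) u)`: `F (b u) x = F ((b-a) u) (F (a u) x)` a.e. and `F (a u)`
  preserves `μ` (`MeasurePreserving.measureReal_preimage`).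
* `Dq_neg`: `Dq_pair` with `a = 0` and with `b = 0`.
* `Dq_cont`: `{Q (F (v + z) x) = Q x}` and `{Q (F v x) = Q x}` differ inside `{Q (F (v+z) x) ≠ Q (F v x)}`; here `v = a u`,
  `z = r u` are parallel, so this set is a.e. the preimage under `F v` of `{Q (F z y) ≠ Q y}`.
-/

open MeasureTheory Set Filter
open Pool.Agent.Helper87.LS

namespace Pool.Agent.TF.I

theorem F_zero (S : Surf) : ∀ᵐ x ∂S.μ, S.F 0 x = x := by
  have h : ∀ᵐ x ∂S.μ, x ∈ S.D := by
    unfold Surf.μ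
    exact ae_restrict_mem S.measurableSet_D
  filter_upwards [h] with x hx
  obtain ⟨i, hi⟩ := mem_iUnion.1 hx
  exact Surf.F_eq (Surf.Straight.hop ⟨i, hi, Or.inl ⟨hi, (add_zero x).symm⟩⟩)

theorem F_neg (S : Surf) (v : ℂ) : ∀ᵐ x ∂S.μ, S.F (-v) (S.F v x) = x := by
  filter_upwards [S.ae_straight v] with x hx
  exact Surf.F_eq (Surf.straight_symm hx)

private theorem F_add_pn7 (S : Surf) (u : ℂ) {a b : ℝ} (ha : 0 < a) (hb : b < 0) :
    ∀ᵐ x ∂S.μ, S.F ((b : ℂ) * u) (S.F ((a : ℂ) * u) x) = S.F (((a + b : ℝ) : ℂ) * u) x := by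
  rcases lt_trichotomy (a + b) 0 with h | h | h
  · -- `b = (a + b) + (-a)`
    have h1 := (S.measurePreserving_F ((a : ℂ) * u)).quasiMeasurePreserving.ae
      (S.F_comp_ae (-u) (a := a) (b := -(a + b)) ha (by linarith))
    filter_upwards [h1, F_neg S ((a : ℂ) * u)] with x hx1 hx2
    have e1 : ((a : ℝ) : ℂ) * -u = -((a : ℂ) * u) := by ring
    have e2 : ((-(a + b) : ℝ) : ℂ) * -u = ((a + b : ℝ) : ℂ) * u := by
      push_cast
      ring
    have e3 : ((a + -(a + b) : ℝ) : ℂ) * -u = (b : ℂ) * u := by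
      push_cast
      ring
    rw [e1, e2, e3, hx2] at hx1
    exact hx1.symm
  · have hb' : b = -a := by linarith
    filter_upwards [F_neg S ((a : ℂ) * u), F_zero S] with x hx1 hx2
    have e1 : ((b : ℝ) : ℂ) * u = -((a : ℂ) * u) := by
      rw [hb']
      push_cast
      ring
    have e2 : ((a + b : ℝ) : ℂ) * u = 0 := by
      rw [h]
      simp
    rw [e1, e2, hx1, hx2]
  · have h1 := S.F_comp_ae u (a := a + b) (b := -b) h (by linarith)
    have h2 := (S.measurePreserving_F (((a + b : ℝ) : ℂ) * u)).quasiMeasurePreserving.ae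
      (F_neg S (((-b : ℝ) : ℂ) * u))
    filter_upwards [h1, h2] with x hx1 hx2
    have e1 : ((a + b + -b : ℝ) : ℂ) * u = (a : ℂ) * u := by
      push_cast
      ring
    have e2 : -(((-b : ℝ) : ℂ) * u) = (b : ℂ) * u := by
      push_cast
      ring
    rw [e1] at hx1
    rw [e2] at hx2
    rw [← hx1]
    exact hx2

theorem F_add (S : Surf) (u : ℂ) (a b : ℝ) :
    ∀ᵐ x ∂S.μ, S.F ((b : ℂ) * u) (S.F ((a : ℂ) * u) x) = S.F (((a + b : ℝ) : ℂ) * u) x := by
  have hneg : ∀ c : ℝ, ((-c : ℝ) : ℂ) * -u = (c : ℂ) * u := by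
    intro c
    push_cast
    ring
  have hneg2 : ((-a + -b : ℝ) : ℂ) * -u = ((a + b : ℝ) : ℂ) * u := by
    push_cast
    ring
  rcases lt_trichotomy a 0 with ha | ha | ha
  · rcases lt_trichotomy b 0 with hb | hb | hb
    · have h := S.F_comp_ae (-u) (a := -a) (b := -b) (by linarith) (by linarith)
      rw [hneg a, hneg b, hneg2] at h
      exact h
    · have h := (S.measurePreserving_F ((a : ℂ) * u)).quasiMeasurePreserving.ae (F_zero S)
      filter_upwards [h] with x hx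
      rw [hb, Complex.ofReal_zero, zero_mul, hx, add_zero]
    · have h := F_add_pn7 S (-u) (a := -a) (b := -b) (by linarith) (by linarith)
      rw [hneg a, hneg b, hneg2] at h
      exact h
  · filter_upwards [F_zero S] with x hx
    rw [ha, Complex.ofReal_zero, zero_mul, hx, zero_add]
  · rcases lt_trichotomy b 0 with hb | hb | hb
    · exact F_add_pn7 S u ha hb
    · have h := (S.measurePreserving_F ((a : ℂ) * u)).quasiMeasurePreserving.ae (F_zero S)
      filter_upwards [h] with x hx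
      rw [hb, Complex.ofReal_zero, zero_mul, hx, add_zero]
    · exact S.F_comp_ae u ha hb

private theorem meas_eq7 (S : Surf) {Q : ℂ → ℕ} (hQ : Part Q) (v : ℂ) :
    MeasurableSet {x | Q (S.F v x) = Q x} :=
  measurableSet_eq_fun (hQ.1.comp (S.measurable_F v)) hQ.1

theorem Dq_pair (S : Surf) {Q : ℂ → ℕ} (hQ : Part Q) (u : ℂ) (a b : ℝ) :
    S.μ.real {x | Q (S.F ((a : ℂ) * u) x) = Q (S.F ((b : ℂ) * u) x)}
      = S.Dq Q (((b - a : ℝ) : ℂ) * u) := by
  have h := F_add S u a (b - a)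
  have e : a + (b - a) = b := by ring
  rw [e] at h
  have h1 : {x | Q (S.F ((a : ℂ) * u) x) = Q (S.F ((b : ℂ) * u) x)} =ᵐ[S.μ]
      S.F ((a : ℂ) * u) ⁻¹' {y | Q (S.F (((b - a : ℝ) : ℂ) * u) y) = Q y} := by
    filter_upwards [h] with x hx
    apply propext
    change Q (S.F ((a : ℂ) * u) x) = Q (S.F ((b : ℂ) * u) x) ↔
      Q (S.F (((b - a : ℝ) : ℂ) * u) (S.F ((a : ℂ) * u) x)) = Q (S.F ((a : ℂ) * u) x)
    rw [hx]
    exact eq_comm
  rw [measureReal_congr h1, (S.measurePreserving_F ((a : ℂ) * u)).measureReal_preimage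
    (meas_eq7 S hQ _).nullMeasurableSet]
  rfl

theorem Dq_neg (S : Surf) {Q : ℂ → ℕ} (hQ : Part Q) (v : ℂ) : S.Dq Q (-v) = S.Dq Q v := by
  have h1 := Dq_pair S hQ v 1 0
  have h2 := Dq_pair S hQ v 0 1
  have e1 : (((0 : ℝ) - 1 : ℝ) : ℂ) * v = -v := by
    push_cast
    ring
  have e2 : (((1 : ℝ) - 0 : ℝ) : ℂ) * v = v := by
    push_cast
    ring
  rw [e1] at h1
  rw [e2] at h2
  rw [← h1, ← h2]
  congr 1
  ext x
  exact eq_comm

theorem Dq_cont (S : Surf) {Q : ℂ → ℕ} (hQ : Part Q) (u : ℂ) (a r : ℝ) :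
    |S.Dq Q (((a + r : ℝ) : ℂ) * u) - S.Dq Q ((a : ℂ) * u)|
      ≤ S.μ.real {x | Q (S.F ((r : ℂ) * u) x) ≠ Q x} := by
  set E : Set ℂ := {x | Q (S.F (((a + r : ℝ) : ℂ) * u) x) ≠ Q (S.F ((a : ℂ) * u) x)} with hE
  have hEm : S.μ.real E = S.μ.real {x | Q (S.F ((r : ℂ) * u) x) ≠ Q x} := by
    have h1 : E =ᵐ[S.μ] S.F ((a : ℂ) * u) ⁻¹' {y | Q (S.F ((r : ℂ) * u) y) ≠ Q y} := by
      filter_upwards [F_add S u a r] with x hx
      apply propext
      change Q (S.F (((a + r : ℝ) : ℂ) * u) x) ≠ Q (S.F ((a : ℂ) * u) x) ↔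
        Q (S.F ((r : ℂ) * u) (S.F ((a : ℂ) * u) x)) ≠ Q (S.F ((a : ℂ) * u) x)
      rw [hx]
    have h2 : MeasurableSet {y | Q (S.F ((r : ℂ) * u) y) ≠ Q y} := (meas_eq7 S hQ _).compl
    rw [measureReal_congr h1, (S.measurePreserving_F ((a : ℂ) * u)).measureReal_preimage
      h2.nullMeasurableSet]
  rw [← hEm, abs_le]
  unfold Surf.Dq
  have h1 : S.μ.real {x | Q (S.F (((a + r : ℝ) : ℂ) * u) x) = Q x} ≤
      S.μ.real {x | Q (S.F ((a : ℂ) * u) x) = Q x} + S.μ.real E := by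
    refine (measureReal_mono (fun x hx => ?_)).trans (measureReal_union_le _ _)
    by_cases hx2 : Q (S.F (((a + r : ℝ) : ℂ) * u) x) = Q (S.F ((a : ℂ) * u) x)
    · exact Or.inl (hx2.symm.trans hx)
    · exact Or.inr hx2
  have h2 : S.μ.real {x | Q (S.F ((a : ℂ) * u) x) = Q x} ≤
      S.μ.real {x | Q (S.F (((a + r : ℝ) : ℂ) * u) x) = Q x} + S.μ.real E := by
    refine (measureReal_mono (fun x hx => ?_)).trans (measureReal_union_le _ _)
    by_cases hx2 : Q (S.F (((a + r : ℝ) : ℂ) * u) x) = Q (S.F ((a : ℂ) * u) x)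
    · exact Or.inl (hx2.trans hx)
    · exact Or.inr hx2
  constructor <;> linarith

end Pool.Agent.TF.I
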