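import Pool.Agent.Helper19.TF.FL

/-!
BLOCK TF-I-FEJ. From correlations at the multiples of `t` to frequencies near `(2π/t) ℤ`.

Let `G ξ = ∑_{j,l<L} e^{i ξ nk(j-l) τ}`. By `IsSpec.four`, `∫ Re G dσ = ∑_{j,l<L} Dq Q (nk (j-l) τ v) ≥ L² a'`.
Pointwise `|G ξ| ≤ L²`, and `|G ξ - |∑_{j<L} e^{iξjt}|²| ≤ L² |ξ| τ` (each term differs by at most `|ξ| |nk(j-l) τ - (j-l) t|`).
So `L² a' ≤ ∫_{|ξ| ≤ b₂} |∑_{j<L} e^{iξjt}|² dσ + L² b₂ τ M + L² σ{|ξ| > b₂}`, i.e. `∫_{|ξ|≤b₂} |∑|² ≥ (3/4) a' L²`.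
Finally `|∑_{j<L} e^{iξjt}|² ≤ L²` everywhere and `≤ 4 / |e^{iξt} - 1|² ≤ 4 L² / C₁²` (geometric sum) where `|e^{iξt} - 1| > C₁ / L`,
`4 M / C₁² = a'/4`.
-/

open MeasureTheory Set Filter
open Pool.Agent.Helper87.LS

namespace Pool.Agent.TF.I

private theorem h22_cos_int (σ : Measure ℝ) [IsFiniteMeasure σ] (c : ℝ) :
    Integrable (fun ξ : ℝ => Real.cos (c * ξ)) σ := by
  refine Integrable.of_bound (by fun_prop : Continuous fun ξ : ℝ => Real.cos (c * ξ)).aestronglyMeasurable 1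
    (Eventually.of_forall fun ξ => ?_)
  rw [Real.norm_eq_abs]
  exact Real.abs_cos_le_one _

private theorem h22_four_cos {S : Surf} {Q : ℂ → ℕ} {τ : ℝ} {v : ℂ} {σ : Measure ℝ}
    (hσ : IsSpec S Q τ v σ) (n : ℤ) :
    ∫ ξ, Real.cos (n * τ * ξ) ∂σ = S.Dq Q (((n * τ : ℝ) : ℂ) * v) := by
  have := hσ.fin
  have hi : Integrable (fun ξ : ℝ => Complex.exp (((n * τ * ξ : ℝ) : ℂ) * Complex.I)) σ := by
    refine Integrable.of_bound (by fun_prop : Continuous fun ξ : ℝ =>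
      Complex.exp (((n * τ * ξ : ℝ) : ℂ) * Complex.I)).aestronglyMeasurable 1
      (Eventually.of_forall fun ξ => ?_)
    rw [Complex.norm_exp_ofReal_mul_I]
  have h1 := congrArg Complex.re (hσ.four n)
  rw [Complex.ofReal_re] at h1
  rw [← h1]
  have h2 : (∫ ξ, Complex.exp (((n * τ * ξ : ℝ) : ℂ) * Complex.I) ∂σ).re =
      ∫ ξ, (Complex.exp (((n * τ * ξ : ℝ) : ℂ) * Complex.I)).re ∂σ := (integral_re hi).symm
  rw [h2]
  congr 1
  ext ξ
  rw [Complex.exp_ofReal_mul_I_re]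

private theorem h22_cos_sub_le (x y : ℝ) : Real.cos x ≤ Real.cos y + |x - y| := by
  have h1 := Real.abs_cos_sub_cos_le x y
  have h2 := le_abs_self (Real.cos x - Real.cos y)
  linarith

private theorem h22_sq (L : ℕ) (x : ℝ) :
    ‖∑ j ∈ Finset.range L, Complex.exp (((j * x : ℝ) : ℂ) * Complex.I)‖ ^ 2 =
      ∑ j ∈ Finset.range L, ∑ l ∈ Finset.range L, Real.cos (((j : ℤ) - (l : ℤ) : ℤ) * x) := by
  rw [Complex.sq_norm, Complex.normSq_apply, Complex.re_sum, Complex.im_sum]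
  simp only [Complex.exp_ofReal_mul_I_re, Complex.exp_ofReal_mul_I_im]
  rw [Finset.sum_mul_sum, Finset.sum_mul_sum, ← Finset.sum_add_distrib]
  refine Finset.sum_congr rfl fun j _ => ?_
  rw [← Finset.sum_add_distrib]
  refine Finset.sum_congr rfl fun l _ => ?_
  rw [← Real.cos_sub]
  congr 1
  push_cast
  ring

private theorem h22_geom (L : ℕ) (x : ℝ) :
    ‖∑ j ∈ Finset.range L, Complex.exp (((j * x : ℝ) : ℂ) * Complex.I)‖ *
      ‖Complex.exp (((x : ℝ) : ℂ) * Complex.I) - 1‖ ≤ 2 := by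
  have h1 : ∀ j : ℕ, Complex.exp (((j * x : ℝ) : ℂ) * Complex.I) =
      Complex.exp (((x : ℝ) : ℂ) * Complex.I) ^ j := by
    intro j
    rw [← Complex.exp_nat_mul]
    congr 1
    push_cast
    ring
  simp only [h1]
  rw [← norm_mul, geom_sum_mul, ← h1]
  refine (norm_sub_le _ _).trans ?_
  rw [Complex.norm_exp_ofReal_mul_I, norm_one]
  norm_num

theorem fejer (S : Surf) {Q : ℂ → ℕ} {τ : ℝ} (hτ : 0 < τ) {v : ℂ} {σ : Measure ℝ}
    (hσ : IsSpec S Q τ v σ) {M : ℝ} (hM : 0 < M) (hσM : σ.real univ ≤ M) {a b t : ℝ} (ha : 0 < a)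
    {L : ℕ} (hL : 0 < L) (nk : ℤ → ℤ)
    (h1 : ∀ k : ℤ, |k| < L → |(nk k : ℝ) * τ - k * t| ≤ τ)
    (h2 : ∀ k : ℤ, |k| < L → a ≤ S.Dq Q ((((nk k : ℝ) * τ : ℝ) : ℂ) * v))
    (h3 : σ.real {ξ | b < |ξ|} ≤ a / 8) (h4 : b * τ * M ≤ a / 8) :
    a / 2 ≤ σ.real {ξ | |ξ| ≤ b ∧
      ‖Complex.exp (((ξ * t : ℝ) : ℂ) * Complex.I) - 1‖ ≤ 4 * Real.sqrt (M / a) / L} := by
  have := hσ.fin
  obtain ⟨E, hE⟩ : ∃ E : Set ℝ, E = {ξ | |ξ| ≤ b ∧
      ‖Complex.exp (((ξ * t : ℝ) : ℂ) * Complex.I) - 1‖ ≤ 4 * Real.sqrt (M / a) / L} := ⟨_, rfl⟩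
  rw [← hE]
  obtain ⟨F, hF⟩ : ∃ F : Set ℝ, F = {ξ | b < |ξ|} := ⟨_, rfl⟩
  rw [← hF] at h3
  have mE : MeasurableSet E := by
    rw [hE]
    have c1 : IsClosed {ξ : ℝ | |ξ| ≤ b} := isClosed_le continuous_abs continuous_const
    have c2 : IsClosed {ξ : ℝ | ‖Complex.exp (((ξ * t : ℝ) : ℂ) * Complex.I) - 1‖ ≤
        4 * Real.sqrt (M / a) / L} := isClosed_le (by fun_prop) continuous_const
    exact (c1.inter c2).measurableSet
  have mF : MeasurableSet F := by
    rw [hF]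
    exact (isOpen_lt continuous_const continuous_abs).measurableSet
  have hL0 : (0 : ℝ) < L := by exact_mod_cast hL
  obtain ⟨b', hb'⟩ : ∃ b' : ℝ, b' = max b 0 := ⟨_, rfl⟩
  have hb0 : 0 ≤ b' := by rw [hb']; exact le_max_right _ _
  have hbb : b' * τ * M ≤ a / 8 := by
    rcases le_total b 0 with hb | hb
    · rw [hb', max_eq_right hb]
      simp only [zero_mul]
      positivity
    · rw [hb', max_eq_left hb]
      exact h4
  obtain ⟨G, hG⟩ : ∃ G : ℝ → ℝ, ∀ ξ, G ξ = ∑ j ∈ Finset.range L, ∑ l ∈ Finset.range L,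
      Real.cos ((nk ((j : ℤ) - (l : ℤ)) : ℝ) * τ * ξ) := ⟨_, fun _ => rfl⟩
  have hk : ∀ j ∈ Finset.range L, ∀ l ∈ Finset.range L, |(j : ℤ) - (l : ℤ)| < (L : ℤ) := by
    intro j hj l hl
    rw [Finset.mem_range] at hj hl
    rw [abs_lt]
    omega
  have hGi : Integrable G σ := by
    have : G = fun ξ => ∑ j ∈ Finset.range L, ∑ l ∈ Finset.range L,
      Real.cos ((nk ((j : ℤ) - (l : ℤ)) : ℝ) * τ * ξ) := funext hG
    rw [this]
    exact integrable_finsetSum _ fun j _ => integrable_finsetSum _ fun l _ => h22_cos_int σ _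
  have hGint : (L : ℝ) ^ 2 * a ≤ ∫ ξ, G ξ ∂σ := by
    have e1 : ∫ ξ, G ξ ∂σ = ∑ j ∈ Finset.range L, ∑ l ∈ Finset.range L,
        S.Dq Q ((((nk ((j : ℤ) - (l : ℤ)) : ℝ) * τ : ℝ) : ℂ) * v) := by
      simp only [hG]
      rw [integral_finsetSum _ fun j _ => integrable_finsetSum _ fun l _ => h22_cos_int σ _]
      refine Finset.sum_congr rfl fun j _ => ?_
      rw [integral_finsetSum _ fun l _ => h22_cos_int σ _]
      exact Finset.sum_congr rfl fun l _ => h22_four_cos hσ _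
    rw [e1]
    calc (L : ℝ) ^ 2 * a = ∑ j ∈ Finset.range L, ∑ l ∈ Finset.range L, a := by
          simp only [Finset.sum_const, Finset.card_range, nsmul_eq_mul]
          ring
      _ ≤ _ := Finset.sum_le_sum fun j hj => Finset.sum_le_sum fun l hl => h2 _ (hk j hj l hl)
  have hpt : ∀ ξ, G ξ ≤ (L : ℝ) ^ 2 * (E.indicator (fun _ => (1 : ℝ)) ξ +
      F.indicator (fun _ => (1 : ℝ)) ξ + (a / (4 * M) + τ * b')) := by
    intro ξ
    have hsq : ∑ j ∈ Finset.range L, ∑ l ∈ Finset.range L, (1 : ℝ) = (L : ℝ) ^ 2 := by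
      simp only [Finset.sum_const, Finset.card_range, nsmul_eq_mul]
      ring
    have hi1 : 0 ≤ E.indicator (fun _ => (1 : ℝ)) ξ := indicator_nonneg (fun _ _ => zero_le_one) ξ
    have hi2 : 0 ≤ F.indicator (fun _ => (1 : ℝ)) ξ := indicator_nonneg (fun _ _ => zero_le_one) ξ
    have hc0 : 0 ≤ a / (4 * M) := by positivity
    have ht0 : 0 ≤ τ * b' := by positivity
    by_cases hξ : ξ ∈ F
    · have g1 : G ξ ≤ (L : ℝ) ^ 2 := by
        rw [hG, ← hsq]
        exact Finset.sum_le_sum fun j _ => Finset.sum_le_sum fun l _ => Real.cos_le_one _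
      refine g1.trans ?_
      rw [indicator_of_mem hξ]
      have : 0 ≤ (L : ℝ) ^ 2 := by positivity
      nlinarith
    · have hξb : |ξ| ≤ b := by
        rw [hF] at hξ
        exact not_lt.1 hξ
      have hξb' : |ξ| ≤ b' := by
        rw [hb']
        exact hξb.trans (le_max_left _ _)
      obtain ⟨Dd, hDd⟩ : ∃ Dd : ℝ, Dd = ‖∑ j ∈ Finset.range L,
        Complex.exp (((j * (ξ * t) : ℝ) : ℂ) * Complex.I)‖ := ⟨_, rfl⟩
      have hD0 : 0 ≤ Dd := by rw [hDd]; exact norm_nonneg _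
      have g1 : G ξ ≤ Dd ^ 2 + (L : ℝ) ^ 2 * (τ * b') := by
        rw [hG, hDd, h22_sq, ← hsq, Finset.sum_mul, ← Finset.sum_add_distrib]
        refine Finset.sum_le_sum fun j hj => ?_
        rw [Finset.sum_mul, ← Finset.sum_add_distrib]
        refine Finset.sum_le_sum fun l hl => ?_
        refine (h22_cos_sub_le _ ((((j : ℤ) - (l : ℤ) : ℤ) : ℝ) * (ξ * t))).trans ?_
        have e2 : (nk ((j : ℤ) - (l : ℤ)) : ℝ) * τ * ξ - (((j : ℤ) - (l : ℤ) : ℤ) : ℝ) * (ξ * t) =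
            ((nk ((j : ℤ) - (l : ℤ)) : ℝ) * τ - (((j : ℤ) - (l : ℤ) : ℤ) : ℝ) * t) * ξ := by ring
        rw [e2, abs_mul, one_mul]
        have e3 := h1 _ (hk j hj l hl)
        have e4 := mul_le_mul e3 hξb' (abs_nonneg _) hτ.le
        linarith
      have g2 : Dd ^ 2 ≤ (L : ℝ) ^ 2 * (E.indicator (fun _ => (1 : ℝ)) ξ + a / (4 * M)) := by
        by_cases hξE : ξ ∈ E
        · rw [indicator_of_mem hξE]
          have g3 : Dd ≤ L := by
            rw [hDd]
            refine (norm_sum_le _ _).trans ?_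
            simp only [Complex.norm_exp_ofReal_mul_I, Finset.sum_const, Finset.card_range, nsmul_eq_mul,
              mul_one]
            exact le_rfl
          have g4 : Dd ^ 2 ≤ (L : ℝ) ^ 2 := pow_le_pow_left₀ hD0 g3 2
          have : 0 ≤ (L : ℝ) ^ 2 := by positivity
          nlinarith
        · rw [indicator_of_notMem hξE, zero_add]
          have g5 : 4 * Real.sqrt (M / a) / L < ‖Complex.exp (((ξ * t : ℝ) : ℂ) * Complex.I) - 1‖ := by
            by_contra hcon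
            exact hξE (by rw [hE]; exact ⟨hξb, not_lt.1 hcon⟩)
          have g6 := h22_geom L (ξ * t)
          rw [← hDd] at g6
          have g7 : Dd * (4 * Real.sqrt (M / a) / L) ≤ 2 :=
            (mul_le_mul_of_nonneg_left g5.le hD0).trans g6
          have hs0 : 0 < Real.sqrt (M / a) := Real.sqrt_pos.2 (by positivity)
          have g8 : Dd * (2 * Real.sqrt (M / a)) ≤ L := by
            have : Dd * (4 * Real.sqrt (M / a) / L) = Dd * (2 * Real.sqrt (M / a)) * 2 / L := by ring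
            rw [this, div_le_iff₀ hL0] at g7
            linarith
          have g9 : (Dd * (2 * Real.sqrt (M / a))) ^ 2 ≤ (L : ℝ) ^ 2 :=
            pow_le_pow_left₀ (by positivity) g8 2
          rw [mul_pow, mul_pow, Real.sq_sqrt (by positivity)] at g9
          have e5 : Dd ^ 2 * (2 ^ 2 * (M / a)) = Dd ^ 2 * (4 * M) / a := by ring
          rw [e5, div_le_iff₀ ha] at g9
          rw [← mul_div_assoc, le_div_iff₀ (by positivity)]
          exact g9
      have : 0 ≤ (L : ℝ) ^ 2 := by positivity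
      nlinarith
  have hi3 : Integrable (fun ξ => (L : ℝ) ^ 2 * (E.indicator (fun _ => (1 : ℝ)) ξ +
      F.indicator (fun _ => (1 : ℝ)) ξ + (a / (4 * M) + τ * b'))) σ := by
    refine Integrable.const_mul (Integrable.add (Integrable.add ?_ ?_) (integrable_const _)) _
    · exact (integrable_const (1 : ℝ)).indicator mE
    · exact (integrable_const (1 : ℝ)).indicator mF
  have hint := integral_mono hGi hi3 hpt
  have e6 : ∫ ξ, (L : ℝ) ^ 2 * (E.indicator (fun _ => (1 : ℝ)) ξ +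
      F.indicator (fun _ => (1 : ℝ)) ξ + (a / (4 * M) + τ * b')) ∂σ =
      (L : ℝ) ^ 2 * (σ.real E + σ.real F + σ.real univ * (a / (4 * M) + τ * b')) := by
    rw [integral_const_mul, integral_add, integral_add, integral_indicator_const _ mE,
      integral_indicator_const _ mF, integral_const]
    · simp only [smul_eq_mul, mul_one]
    · exact (integrable_const (1 : ℝ)).indicator mE
    · exact (integrable_const (1 : ℝ)).indicator mF
    · exact ((integrable_const (1 : ℝ)).indicator mE).add ((integrable_const (1 : ℝ)).indicator mF)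
    · exact integrable_const _
  rw [e6] at hint
  have h5 := hGint.trans hint
  have h6 : a ≤ σ.real E + σ.real F + σ.real univ * (a / (4 * M) + τ * b') :=
    le_of_mul_le_mul_left h5 (by positivity)
  have h7 : σ.real univ * (a / (4 * M) + τ * b') ≤ M * (a / (4 * M) + τ * b') :=
    mul_le_mul_of_nonneg_right hσM (by positivity)
  have h8 : M * (a / (4 * M) + τ * b') = a / 4 + b' * τ * M := by
    field_simp
  linarith

end Pool.Agent.TF.I
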