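import Pool.Agent.Helper72.TF.Core
import Pool.Agent.Helper19.TF.Defs

/-!
BLOCK TF-I-FINA. Transport between `S` and the fat surface `Y`. Proofs by helper8.
-/

open MeasureTheory Set Filter
open scoped ENNReal
open Pool.Agent.Helper87.LS Pool.Agent.Helper72.TF

namespace Pool.Agent.TF.I

private theorem coch_im8 (S : Surf) (c : ℝ) :
    (fun h => c * (S.vec h).im) ∈ Coch (ofSurf S) := by
  constructor
  · intro h
    have h1 : ((ofSurf S).vec ((ofSurf S).opp h)).im = (-(ofSurf S).vec h).im :=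
      congrArg Complex.im ((ofSurf S).vec_opp h)
    have h2 : (S.vec ((ofSurf S).opp h)).im = -(S.vec h).im := h1
    show c * (S.vec ((ofSurf S).opp h)).im = -(c * (S.vec h).im)
    rw [h2]
    ring
  · intro h
    have h1 : (((ofSurf S).vec h + (ofSurf S).vec ((ofSurf S).next h)
        + (ofSurf S).vec ((ofSurf S).next ((ofSurf S).next h)))).im = (0 : ℂ).im :=
      congrArg Complex.im ((ofSurf S).closed h)
    have h2 : (S.vec h).im + (S.vec ((ofSurf S).next h)).im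
        + (S.vec ((ofSurf S).next ((ofSurf S).next h))).im = 0 := h1
    show c * (S.vec h).im + c * (S.vec ((ofSurf S).next h)).im
        + c * (S.vec ((ofSurf S).next ((ofSurf S).next h))).im = 0
    rw [← mul_add, ← mul_add, h2, mul_zero]

theorem close_of {S Y : Surf} {s u : ℝ} (hE : Eqv S Y (gsu s u)) {cY δ' η CP : ℝ}
    (hPL : ∀ x ∈ Coch (ofSurf Y), ∀ b ∈ Vert (ofSurf Y), ∀ η' : ℝ,
      (∀ h, |x h - dv (ofSurf Y) b h| ≤ η') → hn2 (ofSurf Y) x ≤ CP * η' ^ 2)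
    {m b : Fin Y.n × Fin 3 → ℝ} (hm : m ∈ CochZ (ofSurf Y)) (hb : b ∈ Vert (ofSurf Y))
    (h : ∀ e, |cY * (Y.vec e).im - m e - dv (ofSurf Y) b e| ≤ η) (hδ : CP * η ^ 2 < δ' ^ 2) :
    Close S s u (cY * Real.exp (-s)) δ' := by
  obtain ⟨L, hL1, hL2, hL3, -, hL5, hL6⟩ := hE.coc
  have hmC : m ∈ Coch (ofSurf Y) := hm.1
  obtain ⟨m₀, hm₀, hLm⟩ := hL2 m hmC
  have hm₀Z : m₀ ∈ CochZ (ofSurf S) := (hL3 m₀ hm₀).mpr (hLm ▸ hm)
  have hx0 : (fun h => cY * Real.exp (-s) * (S.vec h).im) ∈ Coch (ofSurf S) := coch_im8 S _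
  have hLx0 : L (fun h => cY * Real.exp (-s) * (S.vec h).im) = fun h => cY * (Y.vec h).im := by
    have h1 := hL5 ⟨0, cY⟩
    have h2 : (fun h => dot (⟨0, cY⟩ : ℂ) (gsu s u (S.vec h)))
        = fun h => cY * Real.exp (-s) * (S.vec h).im := by
      funext e
      simp only [dot, gsu_im, zero_mul, zero_add]
      ring
    rw [h2] at h1
    rw [h1]
    funext e
    have : cst (ofSurf Y) (⟨0, cY⟩ : ℂ) e = dot (⟨0, cY⟩ : ℂ) (Y.vec e) := rfl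
    rw [this]
    simp only [dot, zero_mul, zero_add]
  have hx : (fun h => cY * Real.exp (-s) * (S.vec h).im) - m₀ ∈ Coch (ofSurf S) :=
    Submodule.sub_mem _ hx0 hm₀
  have hLx : L ((fun h => cY * Real.exp (-s) * (S.vec h).im) - m₀)
      = fun h => cY * (Y.vec h).im - m h := by
    rw [map_sub, hLx0, hLm]
    rfl
  have hdet : LinearMap.det ((LinearEquiv.refl ℝ ℂ : ℂ ≃ₗ[ℝ] ℂ) : ℂ →ₗ[ℝ] ℂ) = 1 := by
    simp
  have h6 := (hL6 _ hx (LinearEquiv.refl ℝ ℂ) hdet (gsu s u) (det_gsu s u) (fun z => rfl)).1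
  have hact : act (ofSurf Y) (LinearEquiv.refl ℝ ℂ) hdet = ofSurf Y := rfl
  rw [hact, hLx] at h6
  refine ⟨m₀, hm₀Z, ?_⟩
  have h7 : hn2 (lev (ofSurf S) s u) (fun h => cY * Real.exp (-s) * (S.vec h).im - m₀ h)
      = hn2 (ofSurf Y) (fun h => cY * (Y.vec h).im - m h) := h6.symm
  rw [h7]
  have hxY : (fun h => cY * (Y.vec h).im - m h) ∈ Coch (ofSurf Y) := by
    rw [← hLx]
    exact hL1 _ hx
  exact lt_of_le_of_lt (hPL _ hxY b hb η h) hδ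

theorem iso_symm {S Y : Surf} {A : ℂ ≃ₗ[ℝ] ℂ} {Φ Ψ : ℂ → ℂ} (hΦ : MeasurePreserving Φ S.μ Y.μ)
    (hΨ : MeasurePreserving Ψ Y.μ S.μ) (h1 : ∀ᵐ x ∂S.μ, Ψ (Φ x) = x)
    (h2 : ∀ᵐ y ∂Y.μ, Φ (Ψ y) = y)
    (h3 : ∀ v : ℂ, ∀ᵐ x ∂S.μ, Φ (S.F v x) = Y.F (A v) (Φ x)) (v : ℂ) :
    ∀ᵐ y ∂Y.μ, Ψ (Y.F v y) = S.F (A.symm v) (Ψ y) := by
  have hF := (S.measurePreserving_F (A.symm v)).comp hΨ
  have e1 : ∀ᵐ y ∂Y.μ, Φ (S.F (A.symm v) (Ψ y)) = Y.F (A (A.symm v)) (Φ (Ψ y)) :=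
    hΨ.quasiMeasurePreserving.ae (h3 (A.symm v))
  have e2 : ∀ᵐ y ∂Y.μ, Ψ (Φ (S.F (A.symm v) (Ψ y))) = S.F (A.symm v) (Ψ y) :=
    hF.quasiMeasurePreserving.ae h1
  filter_upwards [e1, e2, h2] with y a b c
  rw [A.apply_symm_apply, c] at a
  rw [← b, a]

theorem lint_iso {S Y : Surf} {A : ℂ ≃ₗ[ℝ] ℂ} {Ψ : ℂ → ℂ}
    (hΨ : MeasurePreserving Ψ Y.μ S.μ)
    (h : ∀ v : ℂ, ∀ᵐ y ∂Y.μ, Ψ (Y.F v y) = S.F (A.symm v) (Ψ y)) {w : ℂ → V2}
    (hw : StronglyMeasurable w) (v : ℂ) (e : ℂ) :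
    ∫⁻ y, ‖w (Ψ (Y.F v y)) - e • w (Ψ y)‖ₑ ^ 2 ∂Y.μ
      = ∫⁻ x, ‖w (S.F (A.symm v) x) - e • w x‖ₑ ^ 2 ∂S.μ := by
  have h1 : ∫⁻ y, ‖w (Ψ (Y.F v y)) - e • w (Ψ y)‖ₑ ^ 2 ∂Y.μ
      = ∫⁻ y, ‖w (S.F (A.symm v) (Ψ y)) - e • w (Ψ y)‖ₑ ^ 2 ∂Y.μ := by
    refine lintegral_congr_ae ?_
    filter_upwards [h v] with y hy
    rw [hy]
  have hm : Measurable (fun x => ‖w (S.F (A.symm v) x) - e • w x‖ₑ ^ 2) := by
    have h2 : StronglyMeasurable (fun x => w (S.F (A.symm v) x) - e • w x) :=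
      (hw.comp_measurable (S.measurePreserving_F (A.symm v)).measurable).sub (hw.const_smul e)
    exact h2.enorm.pow_const 2
  rw [h1]
  exact hΨ.lintegral_comp hm

/-- The Bochner and the lower integral of the square of the norm of a bounded function. -/
theorem lint_eq {S : Surf} {f : ℂ → V2} (hf : StronglyMeasurable f) {C : ℝ}
    (hC : ∀ x, ‖f x‖ ≤ C) :
    ∫⁻ x, ‖f x‖ₑ ^ 2 ∂S.μ = ENNReal.ofReal (∫ x, ‖f x‖ ^ 2 ∂S.μ) := by
  have hint : Integrable (fun x => ‖f x‖ ^ 2) S.μ := by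
    refine Integrable.of_bound (hf.norm.pow 2).aestronglyMeasurable (C ^ 2) ?_
    refine Eventually.of_forall fun x => ?_
    rw [Real.norm_of_nonneg (by positivity)]
    exact pow_le_pow_left₀ (norm_nonneg _) (hC x) 2
  rw [ofReal_integral_eq_lintegral_ofReal hint (Eventually.of_forall fun x => by positivity)]
  refine lintegral_congr fun x => ?_
  rw [ENNReal.ofReal_pow (norm_nonneg _), ofReal_norm]

theorem gsu_symm_real (s u h : ℝ) :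
    (gsu s u).symm (h : ℂ) = ((Real.exp (-s) * h : ℝ) : ℂ) := by
  have h0 : (gsu s u).symm (h : ℂ) = (⟨Real.exp (-s) * (h : ℂ).re
      + u * (Real.exp s * (h : ℂ).im), Real.exp s * (h : ℂ).im⟩ : ℂ) := rfl
  rw [h0]
  apply Complex.ext
  · rw [Complex.ofReal_re, Complex.ofReal_re, Complex.ofReal_im]
    ring
  · rw [Complex.ofReal_im, Complex.ofReal_im, mul_zero]

theorem gsu_symm_imag (s u t : ℝ) : (gsu s u).symm ((t : ℂ) * Complex.I)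
    = ((Real.exp s * Real.sqrt (1 + u ^ 2) * t : ℝ) : ℂ) * dir u := by
  have h0 : (gsu s u).symm ((t : ℂ) * Complex.I) = (⟨Real.exp (-s) * ((t : ℂ) * Complex.I).re
      + u * (Real.exp s * ((t : ℂ) * Complex.I).im), Real.exp s * ((t : ℂ) * Complex.I).im⟩ : ℂ) :=
    rfl
  have hs : Real.sqrt (1 + u ^ 2) ≠ 0 := (Real.sqrt_pos.mpr (by positivity)).ne'
  have hsc : ((Real.sqrt (1 + u ^ 2) : ℝ) : ℂ) ≠ 0 := by exact_mod_cast hs
  have h1 : ((Real.exp s * Real.sqrt (1 + u ^ 2) * t : ℝ) : ℂ) * dir u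
      = ((Real.exp s * t : ℝ) : ℂ) * ((u : ℂ) + Complex.I) := by
    unfold dir
    push_cast
    field_simp
  have h2 : ((t : ℂ) * Complex.I).re = 0 := by simp
  have h3 : ((t : ℂ) * Complex.I).im = t := by simp
  rw [h0, h1, h2, h3]
  apply Complex.ext
  · rw [Complex.re_ofReal_mul, Complex.add_re, Complex.ofReal_re, Complex.I_re]
    ring
  · rw [Complex.im_ofReal_mul, Complex.add_im, Complex.ofReal_im, Complex.I_im]
    ring

end Pool.Agent.TF.I
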