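import Pool.Agent.Helper19.TF.FinB0

/-!
BLOCK TF-I-FINB2: `sum_zm`, `good_close`. (The header is for the three blocks FINB1, FINB2, FINB.)

Notation: `v = dir u`, `w ξ = wf S Q τ n v ξ ∘ Ψ'` on `Y` (`Φ, Ψ'` from `LinIso S Y (gsu s u)`, `Ψ'` from `Y` to `S`), `E = e^s`, `q = √(1+u²) ≤ q₀`,
`mass ξ = ∫⁻ ‖w ξ‖² ∂Y.μ = ofReal ∫ ‖wf … ξ‖² ∂S.μ` (`lint_eq`, `norm_wf_le`),
`errH ξ = ∫⁻ h in Icc (-1) 1, ∫⁻ ‖w ξ (Y.F h y) - w ξ y‖²`, `errV ξ = ∫⁻ t in Icc (-1) 1, ∫⁻ ‖w ξ (Y.F (t I) y) - ex (ξ E q t) • w ξ y‖²`, `zm ξ = ∫⁻ y in Zᶜ…` the mass outside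
the cores (`Z = (⋃ i, core Y ρ i)ᶜ`).

`sum_errH`: for every `h`, `|h| ≤ 1`: by `lint_iso`, `gsu_symm_real`, `lint_eq` and `wf_hor` with the vector `e^{-s} h` (`‖·‖ ≤ e^{-s} ≤ 1/(B T)`, `n τ ≤ 2 T`) the sum over
`ξ ∈ s` is `≤ ofReal (100 (2 Cc / B + ε))`; `∑ ∫⁻ ≤ ∫⁻ ∑` (`le_lintegral_add`, no measurability in `h`), `volume (Icc (-1) 1) = 2`.
`sum_errV`: the same with `gsu_symm_imag` and `vert`: `t' = e^s q t`, `|t'| ≤ 3 B T q₀ ≤ √R T` (`9 q₀² B² ≤ R`), `ex (ξ e^s q t) = exp (i ξ t')`.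
`sum_zm`: `wf_sup` at every point, `Tame.volume_compl_core`: `∑ zm ξ ≤ 50 ofReal (24 S.n K³ ρ)`.
`good_close`: `errH ξ ≤ κ'² mass ξ`, `errV ξ ≤ (κ'²/8) mass ξ`, `2 zm ξ ≤ mass ξ`, `mass ξ ≠ 0`, `|ζ - ξ| ≤ 1/(R T)`: `|ex (ζ E q t) - ex (ξ E q t)| ≤ |ζ-ξ| E q ≤ 3 B q₀ / R`, so
the vertical error for `ζ` is `≤ 2 errV ξ + 4 (3 B q₀/R)² mass ξ ≤ κ'² mass ξ` (`72 q₀² B² ≤ κ'² R²`). So `AlmostEig Y (ζ E q) κ' (w ξ)`; closeness and `close_of` with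
`cY = ζ E q / (2π)`, `cY e^{-s} = ζ q / (2π)`.
`level`: for the other `ξ` (not good): `mass ξ ≤ κ'⁻² errH ξ + 8 κ'⁻² errV ξ + 2 zm ξ`. Sum, and `wf_mass`, `wf_psi`: the cores `closedBall ξ (1/(RT))` of the not good `ξ` have total mass
`≤ 4 ((2 Eh + 16 Ev)/κ'² + 2400 S.n K³ ρ) + 400 κ ≤ c₁`, all cores together have `≥ 2 c₁`, they are disjoint; the set in the conclusion contains the good cores
(and `||ζ| - |ξ|| ≤ 1/(R T) ≤ b₁/2`).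
-/

open MeasureTheory Set Filter Metric
open scoped ENNReal
open Pool.Agent.Helper87.LS Pool.Agent.Helper72.TF Pool.Agent.Helper64.TF

namespace Pool.Agent.TF.I

variable {S Y : Surf} {Q : ℂ → ℕ} {τ u₁ u lv : ℝ} {σ : Measure ℝ} {n : ℕ}
  {R δ T b M ε Cc B q₀ r₀ κ κ' ρ K : ℝ} {s : Finset ℝ} {Φ Ψ Ψ' : ℂ → ℂ}

private theorem sum_lint16 {ι : Type*} (s : Finset ι) {X : Type*} [MeasurableSpace X]
    (μ : Measure X) (f : ι → X → ℝ≥0∞) :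
    ∑ i ∈ s, ∫⁻ x, f i x ∂μ ≤ ∫⁻ x, ∑ i ∈ s, f i x ∂μ := by
  classical
  induction s using Finset.induction_on with
  | empty => simp
  | insert a s ha ih =>
    simp only [Finset.sum_insert ha]
    refine le_trans (add_le_add le_rfl ih) ?_
    exact le_lintegral_add _ _

private theorem enorm_sq16 {V : Type*} [NormedAddCommGroup V] (a : V) :
    ‖a‖ₑ ^ 2 = ENNReal.ofReal (‖a‖ ^ 2) := by
  rw [← ofReal_norm, ENNReal.ofReal_pow (norm_nonneg _)]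

theorem sum_zm (hS : Scale S Q τ u₁ σ n R δ T b M ε Cc B q₀ r₀ s) (hT : Tame Y K) (hρ : 0 ≤ ρ) :
    ∑ ξ ∈ s, ∫⁻ y in (⋃ i, core Y ρ i)ᶜ, ‖wf S Q τ n (dir u) ξ (Ψ' y)‖ₑ ^ 2 ∂Y.μ
      ≤ ENNReal.ofReal (1200 * Y.n * K ^ 3 * ρ) := by
  refine le_trans (sum_lint16 s _ _) ?_
  have hpt : ∀ y, ∑ ξ ∈ s, ‖wf S Q τ n (dir u) ξ (Ψ' y)‖ₑ ^ 2 ≤ ENNReal.ofReal 50 := by
    intro y
    have h1 := wf_sup S Q hS.clus.freq (dir u) (Ψ' y)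
    simp only [enorm_sq16]
    rw [← ENNReal.ofReal_sum_of_nonneg (fun ξ _ => by positivity)]
    exact ENNReal.ofReal_le_ofReal h1
  have hv := hT.volume_compl_core hρ
  calc ∫⁻ y in (⋃ i, core Y ρ i)ᶜ, ∑ ξ ∈ s, ‖wf S Q τ n (dir u) ξ (Ψ' y)‖ₑ ^ 2 ∂Y.μ
      ≤ ∫⁻ _ in (⋃ i, core Y ρ i)ᶜ, ENNReal.ofReal 50 ∂Y.μ := lintegral_mono fun y => hpt y
    _ = ENNReal.ofReal 50 * Y.μ (⋃ i, core Y ρ i)ᶜ := setLIntegral_const _ _
    _ ≤ ENNReal.ofReal 50 * ENNReal.ofReal (24 * Y.n * K ^ 3 * ρ) := by gcongr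
    _ = ENNReal.ofReal (1200 * Y.n * K ^ 3 * ρ) := by
        rw [← ENNReal.ofReal_mul (by norm_num)]
        congr 1
        ring

private theorem ex_sub16 (a b : ℝ) : ‖ex a - ex b‖ ≤ |a - b| := by
  have h1 : ex a - ex b = ex b * (Complex.exp (Complex.I * ((a - b : ℝ) : ℂ)) - 1) := by
    unfold ex
    rw [mul_sub, ← Complex.exp_add, mul_one]
    congr 2
    push_cast
    ring
  rw [h1, norm_mul, norm_ex, one_mul]
  exact Real.norm_exp_I_mul_ofReal_sub_one_le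

private theorem enn_le16 {a b c d : ℝ} (hb : 0 ≤ b) (hc : 0 ≤ c) (hd : 0 ≤ d)
    (h : a ≤ 2 * b + d * c) :
    ENNReal.ofReal a ≤ 2 * ENNReal.ofReal b + ENNReal.ofReal d * ENNReal.ofReal c := by
  have e2 : (2 : ℝ≥0∞) = ENNReal.ofReal 2 := by norm_num
  rw [e2, ← ENNReal.ofReal_mul (by norm_num), ← ENNReal.ofReal_mul hd,
    ← ENNReal.ofReal_add (by positivity) (by positivity)]
  exact ENNReal.ofReal_le_ofReal h

private theorem enn_eq16 {x y : ℝ} (hx : 0 ≤ x) (hy : 0 ≤ y) {m : ℝ≥0∞} :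
    2 * (ENNReal.ofReal x * m) + ENNReal.ofReal y * m * ENNReal.ofReal 2
      = ENNReal.ofReal (2 * x + 2 * y) * m := by
  have e2 : (2 : ℝ≥0∞) = ENNReal.ofReal 2 := by norm_num
  rw [ENNReal.ofReal_add (by positivity) (by positivity), ENNReal.ofReal_mul (by norm_num),
    ENNReal.ofReal_mul (by norm_num), e2]
  ring

theorem good_close (hS : Scale S Q τ u₁ σ n R δ T b M ε Cc B q₀ r₀ s) (hu : Real.sqrt (1 + u ^ 2) ≤ q₀)
    (h2 : Real.exp lv ≤ 3 * B * T) (hκ' : 0 < κ') (hR : 72 * q₀ ^ 2 * B ^ 2 ≤ κ' ^ 2 * R ^ 2)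
    (hE : Eqv S Y (gsu lv u)) (hΨ' : MeasurePreserving Ψ' Y.μ S.μ)
    {Ccl CP δ' : ℝ} (hcl : ∀ c κ : ℝ, 0 ≤ κ → Ccl * κ ≤ 1 →
      ∀ w : ℂ → V2, AlmostEig Y c κ w → mass Y w ≠ 0 → mass Y w ≠ ⊤ →
      2 * ∫⁻ x in (⋃ i, core Y ρ i)ᶜ, ‖w x‖ₑ ^ 2 ∂Y.μ ≤ mass Y w →
      ∃ m ∈ CochZ (ofSurf Y), ∃ b ∈ Vert (ofSurf Y), ∀ h : Fin Y.n × Fin 3,
        |c / (2 * Real.pi) * (Y.vec h).im - m h - dv (ofSurf Y) b h| ≤ Ccl * κ)
    (hPL : ∀ x ∈ Coch (ofSurf Y), ∀ b ∈ Vert (ofSurf Y), ∀ η' : ℝ,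
      (∀ h, |x h - dv (ofSurf Y) b h| ≤ η') → hn2 (ofSurf Y) x ≤ CP * η' ^ 2)
    (hκC : Ccl * κ' ≤ 1) (hδ' : CP * (Ccl * κ') ^ 2 < δ' ^ 2) {ξ ζ : ℝ} (hξ : ξ ∈ s)
    (hζ : ζ ∈ closedBall ξ (1 / (R * T)))
    (g1 : ∫⁻ h in Icc (-1 : ℝ) 1, ∫⁻ y, ‖wf S Q τ n (dir u) ξ (Ψ' (Y.F (h : ℂ) y))
      - wf S Q τ n (dir u) ξ (Ψ' y)‖ₑ ^ 2 ∂Y.μ
      ≤ ENNReal.ofReal (κ' ^ 2) * mass Y (fun y => wf S Q τ n (dir u) ξ (Ψ' y)))
    (g2 : ∫⁻ t in Icc (-1 : ℝ) 1, ∫⁻ y,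
      ‖wf S Q τ n (dir u) ξ (Ψ' (Y.F ((t : ℂ) * Complex.I) y))
      - ex (ξ * (Real.exp lv * Real.sqrt (1 + u ^ 2)) * t) • wf S Q τ n (dir u) ξ (Ψ' y)‖ₑ ^ 2 ∂Y.μ
      ≤ ENNReal.ofReal (κ' ^ 2 / 8) * mass Y (fun y => wf S Q τ n (dir u) ξ (Ψ' y)))
    (g3 : 2 * ∫⁻ y in (⋃ i, core Y ρ i)ᶜ, ‖wf S Q τ n (dir u) ξ (Ψ' y)‖ₑ ^ 2 ∂Y.μ
      ≤ mass Y (fun y => wf S Q τ n (dir u) ξ (Ψ' y)))
    (g4 : mass Y (fun y => wf S Q τ n (dir u) ξ (Ψ' y)) ≠ 0) :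
    Close S lv u (ζ / (2 * Real.pi) * Real.sqrt (1 + u ^ 2)) δ' := by
  have hR8 := hS.clus.R8
  have hR0 : 0 < R := by linarith
  have hT0 := hS.clus.T0
  have hB1 := hS.B1
  set q : ℝ := Real.sqrt (1 + u ^ 2) with hq
  have hq0 : 0 ≤ q := Real.sqrt_nonneg _
  have hE0 : 0 < Real.exp lv := Real.exp_pos _
  set w : ℂ → V2 := fun y => wf S Q τ n (dir u) ξ (Ψ' y) with hw
  have hwm : StronglyMeasurable w := (sm_wf S hS.part τ n (dir u) ξ).comp_measurable hΨ'.measurable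
  have hw1 : ∀ y, ‖w y‖ ≤ 1 := fun y => norm_wf_le S Q τ n (dir u) ξ (Ψ' y)
  -- the frequency error
  have hdist : |ξ * (Real.exp lv * q) - ζ * (Real.exp lv * q)| ≤ 3 * B * q₀ / R := by
    have h3 : |ζ - ξ| ≤ 1 / (R * T) := by
      rw [mem_closedBall, Real.dist_eq] at hζ
      exact hζ
    have h4 : ξ * (Real.exp lv * q) - ζ * (Real.exp lv * q) = -((ζ - ξ) * (Real.exp lv * q)) := by
      ring
    rw [h4, abs_neg, abs_mul, abs_of_nonneg (mul_nonneg hE0.le hq0)]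
    calc |ζ - ξ| * (Real.exp lv * q) ≤ 1 / (R * T) * (3 * B * T * q₀) := by
          refine mul_le_mul h3 (mul_le_mul h2 hu hq0 (by positivity)) (by positivity)
            (by positivity)
      _ = 3 * B * q₀ / R := by field_simp
  set θ : ℝ := 3 * B * q₀ / R with hθ
  have hθ2 : 8 * θ ^ 2 ≤ κ' ^ 2 := by
    have h5 : 8 * θ ^ 2 = 72 * q₀ ^ 2 * B ^ 2 / R ^ 2 := by
      rw [hθ]; field_simp; ring
    rw [h5, div_le_iff₀ (by positivity)]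
    exact hR
  have hmeas2 : Measurable fun y => ‖w y‖ₑ ^ 2 := hwm.enorm.pow_const 2
  have hpt : ∀ t ∈ Icc (-1 : ℝ) 1, ∀ y : ℂ,
      ‖w (Y.F ((t : ℂ) * Complex.I) y) - ex (ζ * (Real.exp lv * q) * t) • w y‖ₑ ^ 2
        ≤ 2 * ‖w (Y.F ((t : ℂ) * Complex.I) y) - ex (ξ * (Real.exp lv * q) * t) • w y‖ₑ ^ 2
          + ENNReal.ofReal (2 * θ ^ 2) * ‖w y‖ₑ ^ 2 := by
    intro t ht y
    set p := w (Y.F ((t : ℂ) * Complex.I) y)
    have hex : ‖ex (ξ * (Real.exp lv * q) * t) - ex (ζ * (Real.exp lv * q) * t)‖ ≤ θ := by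
      refine le_trans (ex_sub16 _ _) ?_
      rw [← sub_mul, abs_mul]
      have ht1 : |t| ≤ 1 := abs_le.mpr ht
      calc |ξ * (Real.exp lv * q) - ζ * (Real.exp lv * q)| * |t| ≤ θ * 1 :=
            mul_le_mul hdist ht1 (abs_nonneg _) (le_trans (abs_nonneg _) hdist)
        _ = θ := mul_one _
    have hsum : ‖p - ex (ζ * (Real.exp lv * q) * t) • w y‖
        ≤ ‖p - ex (ξ * (Real.exp lv * q) * t) • w y‖ + θ * ‖w y‖ := by
      have e1 : p - ex (ζ * (Real.exp lv * q) * t) • w y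
          = (p - ex (ξ * (Real.exp lv * q) * t) • w y)
            + (ex (ξ * (Real.exp lv * q) * t) - ex (ζ * (Real.exp lv * q) * t)) • w y := by
        rw [sub_smul]; abel
      rw [e1]
      refine le_trans (norm_add_le _ _) ?_
      rw [norm_smul]
      have := mul_le_mul_of_nonneg_right hex (norm_nonneg (w y))
      linarith
    have hreal : ‖p - ex (ζ * (Real.exp lv * q) * t) • w y‖ ^ 2
        ≤ 2 * ‖p - ex (ξ * (Real.exp lv * q) * t) • w y‖ ^ 2 + 2 * θ ^ 2 * ‖w y‖ ^ 2 := by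
      have h6 := pow_le_pow_left₀ (norm_nonneg _) hsum 2
      nlinarith [sq_nonneg (‖p - ex (ξ * (Real.exp lv * q) * t) • w y‖ - θ * ‖w y‖)]
    simp only [enorm_sq16]
    exact enn_le16 (by positivity) (by positivity) (by positivity) hreal
  have hae : AlmostEig Y (ζ * (Real.exp lv * q)) κ' w := by
    refine ⟨hwm, g1, ?_⟩
    have hin : ∀ t ∈ Icc (-1 : ℝ) 1,
        ∫⁻ y, ‖w (Y.F ((t : ℂ) * Complex.I) y) - ex (ζ * (Real.exp lv * q) * t) • w y‖ₑ ^ 2 ∂Y.μ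
        ≤ 2 * (∫⁻ y, ‖w (Y.F ((t : ℂ) * Complex.I) y)
            - ex (ξ * (Real.exp lv * q) * t) • w y‖ₑ ^ 2 ∂Y.μ)
          + ENNReal.ofReal (2 * θ ^ 2) * mass Y w := by
      intro t ht
      refine le_trans (lintegral_mono fun y => hpt t ht y) ?_
      rw [lintegral_add_right _ (hmeas2.const_mul _), lintegral_const_mul' _ _ (by norm_num),
        lintegral_const_mul' _ _ ENNReal.ofReal_ne_top]
      exact le_rfl
    calc ∫⁻ t in Icc (-1 : ℝ) 1, ∫⁻ y, ‖w (Y.F ((t : ℂ) * Complex.I) y)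
          - ex (ζ * (Real.exp lv * q) * t) • w y‖ₑ ^ 2 ∂Y.μ
        ≤ ∫⁻ t in Icc (-1 : ℝ) 1, (2 * (∫⁻ y, ‖w (Y.F ((t : ℂ) * Complex.I) y)
            - ex (ξ * (Real.exp lv * q) * t) • w y‖ₑ ^ 2 ∂Y.μ)
          + ENNReal.ofReal (2 * θ ^ 2) * mass Y w) :=
          setLIntegral_mono' measurableSet_Icc hin
      _ = 2 * (∫⁻ t in Icc (-1 : ℝ) 1, ∫⁻ y, ‖w (Y.F ((t : ℂ) * Complex.I) y)
            - ex (ξ * (Real.exp lv * q) * t) • w y‖ₑ ^ 2 ∂Y.μ)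
          + ENNReal.ofReal (2 * θ ^ 2) * mass Y w * ENNReal.ofReal 2 := by
          rw [lintegral_add_right _ measurable_const, lintegral_const_mul' _ _ (by norm_num),
            setLIntegral_const, Real.volume_Icc]
          norm_num
      _ ≤ 2 * (ENNReal.ofReal (κ' ^ 2 / 8) * mass Y w)
          + ENNReal.ofReal (2 * θ ^ 2) * mass Y w * ENNReal.ofReal 2 := by
          gcongr
      _ = ENNReal.ofReal (κ' ^ 2 / 4 + 4 * θ ^ 2) * mass Y w := by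
          rw [enn_eq16 (by positivity) (by positivity)]
          congr 2
          ring
      _ ≤ ENNReal.ofReal (κ' ^ 2) * mass Y w := by
          gcongr
          linarith [sq_nonneg κ']
  have hfin : mass Y w ≠ ⊤ := by
    have h7 : mass Y w ≤ Y.μ univ := by
      unfold mass
      calc ∫⁻ x, ‖w x‖ₑ ^ 2 ∂Y.μ ≤ ∫⁻ _, 1 ∂Y.μ := by
            refine lintegral_mono fun x => ?_
            change ‖w x‖ₑ ^ 2 ≤ 1
            rw [enorm_sq16]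
            have h8 : ‖w x‖ ^ 2 ≤ 1 := pow_le_one₀ (norm_nonneg _) (hw1 x)
            calc ENNReal.ofReal (‖w x‖ ^ 2) ≤ ENNReal.ofReal 1 := ENNReal.ofReal_le_ofReal h8
              _ = 1 := ENNReal.ofReal_one
        _ = Y.μ univ := by rw [lintegral_const, one_mul]
    exact ne_top_of_le_ne_top (measure_ne_top _ _) h7
  obtain ⟨m, hm, b', hb', hmb⟩ := hcl (ζ * (Real.exp lv * q)) κ' hκ'.le hκC w hae g4 hfin g3
  have hcl2 := close_of hE (cY := ζ * (Real.exp lv * q) / (2 * Real.pi)) hPL hm hb' hmb hδ'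
  have e3 : ζ * (Real.exp lv * q) / (2 * Real.pi) * Real.exp (-lv) = ζ / (2 * Real.pi) * q := by
    have e4 : Real.exp lv * Real.exp (-lv) = 1 := by rw [← Real.exp_add]; simp
    calc ζ * (Real.exp lv * q) / (2 * Real.pi) * Real.exp (-lv)
        = ζ / (2 * Real.pi) * q * (Real.exp lv * Real.exp (-lv)) := by ring
      _ = ζ / (2 * Real.pi) * q := by rw [e4, mul_one]
  rw [e3] at hcl2
  exact hcl2

end Pool.Agent.TF.I
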