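import Pool.Agent.Helper19.TF.FinB1
import Pool.Agent.Helper19.TF.FinB2

/-!
BLOCK TF-I-FINB: `level`. (The header is for the three blocks FINB1, FINB2, FINB.)

Notation: `v = dir u`, `w ξ = wf S Q τ n v ξ ∘ Ψ'` on `Y` (`Φ, Ψ'` from `LinIso S Y (gsu s u)`, `Ψ'` from `Y` to `S`), `E = e^s`, `q = √(1+u²) ≤ q₀`,
`mass ξ = ∫⁻ ‖w ξ‖² ∂Y.μ = ofReal ∫ ‖wf … ξ‖² ∂S.μ` (`lint_eq`, `norm_wf_le`),
`errH ξ = ∫⁻ h in Icc (-1) 1, ∫⁻ ‖w ξ (Y.F h y) - w ξ y‖²`, `errV ξ = ∫⁻ t in Icc (-1) 1, ∫⁻ ‖w ξ (Y.F (t I) y) - ex (ξ E q t) • w ξ y‖²`, `zm ξ = ∫⁻ y in Zᶜ…` the mass outside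
the cores (`Z = (⋃ i, core Y ρ i)ᶜ`).

`sum_errH`: for every `h`, `|h| ≤ 1`: by `lint_iso`, `gsu_symm_real`, `lint_eq` and `wf_hor` with the vector `e^{-s} h` (`‖·‖ ≤ e^{-s} ≤ 1/(B T)`, `n τ ≤ 2 T`) the sum over
`ξ ∈ s` is `≤ ofReal (100 (2 Cc / B + ε))`; `∑ ∫⁻ ≤ ∫⁻ ∑` (`le_lintegral_add`, no measurability in `h`), `volume (Icc (-1) 1) = 2`.
`sum_errV`: the same with `gsu_symm_imag` and `vert`: `t' = e^s q t`, `|t'| ≤ 3 B T q₀ ≤ √R T` (`9 q₀² B² ≤ R`), `ex (ξ e^s q t) = exp (i ξ t')`.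
`sum_zm`: `wf_sup` at every point, `Tame.volume_compl_core`: `∑ zm ξ ≤ 50 ofReal (24 S.n K³ ρ)`.
`good_close`: `errH ξ ≤ κ'² mass ξ`, `errV ξ ≤ (κ'²/8) mass ξ`, `2 zm ξ ≤ mass ξ`, `mass ξ ≠ 0`, `|ζ - ξ| ≤ 1/(R T)`: `|ex (ζ E q t) - ex (ξ E q t)| ≤ |ζ-ξ| E q ≤ 3 B q₀ / R`, so
the vertical error for `ζ` is `≤ 2 errV ξ + 4 (3 B q₀/R)² mass ξ ≤ κ'² mass ξ` (`72 q₀² B² ≤ κ'² R²`). So `AlmostEig Y (ζ E q) κ' (w ξ)`; closeness and `close_of` with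
`cY = ζ E q / (2π)`, `cY e^{-s} = ζ q / (2π)`.
`level`: for the other `ξ` (not good): `mass ξ ≤ κ'⁻² errH ξ + 8 κ'⁻² errV ξ + 2 zm ξ`. Sum, and `wf_mass`, `wf_psi`: the cores `closedBall ξ (1/(RT))` of the not good `ξ` have total mass
`≤ 4 ((2 Eh + 16 Ev)/κ'² + 2400 S.n K³ ρ) + 400 κ ≤ c₁`, all cores together have `≥ 2 c₁`, they are disjoint; the set in the conclusion contains the good cores
(and `||ζ| - |ξ|| ≤ 1/(R T) ≤ b₁/2`).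
-/

open MeasureTheory Set Filter Metric
open scoped ENNReal
open Pool.Agent.Helper87.LS Pool.Agent.Helper72.TF Pool.Agent.Helper64.TF

namespace Pool.Agent.TF.I

variable {S Y : Surf} {Q : ℂ → ℕ} {τ u₁ u lv : ℝ} {σ : Measure ℝ} {n : ℕ}
  {R δ T b M ε Cc B q₀ r₀ κ κ' ρ K : ℝ} {s : Finset ℝ} {Φ Ψ Ψ' : ℂ → ℂ}

theorem level (hS : Scale S Q τ u₁ σ n R δ T b M ε Cc B q₀ r₀ s) (hu : Real.sqrt (1 + u ^ 2) ≤ q₀)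
    (hΨ : Inter S (dir u₁) (dir u) Ψ) (hκ : S.μ.real {x | Q (Ψ x) ≠ Q x} ≤ κ)
    (h1 : B * T ≤ Real.exp lv) (h2 : Real.exp lv ≤ 3 * B * T) (hr : Real.exp (-lv) ≤ r₀)
    (hκ' : 0 < κ') (hR : 72 * q₀ ^ 2 * B ^ 2 ≤ κ' ^ 2 * R ^ 2)
    (hE : Eqv S Y (gsu lv u)) (hn : Y.n = S.n) (hT : Tame Y K) (hρ : 0 ≤ ρ)
    {Ccl CP δ' : ℝ} (hcl : ∀ c κ : ℝ, 0 ≤ κ → Ccl * κ ≤ 1 →
      ∀ w : ℂ → V2, AlmostEig Y c κ w → mass Y w ≠ 0 → mass Y w ≠ ⊤ →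
      2 * ∫⁻ x in (⋃ i, core Y ρ i)ᶜ, ‖w x‖ₑ ^ 2 ∂Y.μ ≤ mass Y w →
      ∃ m ∈ CochZ (ofSurf Y), ∃ b ∈ Vert (ofSurf Y), ∀ h : Fin Y.n × Fin 3,
        |c / (2 * Real.pi) * (Y.vec h).im - m h - dv (ofSurf Y) b h| ≤ Ccl * κ)
    (hPL : ∀ x ∈ Coch (ofSurf Y), ∀ b ∈ Vert (ofSurf Y), ∀ η' : ℝ,
      (∀ h, |x h - dv (ofSurf Y) b h| ≤ η') → hn2 (ofSurf Y) x ≤ CP * η' ^ 2)
    (hκC : Ccl * κ' ≤ 1) (hδ' : CP * (Ccl * κ') ^ 2 < δ' ^ 2)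
    {b₁ c₁ : ℝ} (hb₁ : ∀ ξ ∈ s, b₁ ≤ |ξ|) (hb₁' : 1 / (R * T) ≤ b₁ / 2) (hbb : b₁ ≤ b)
    (hc : 4 * ((2 * Eh Cc B ε + 16 * Ev M R δ κ ε b τ) / κ' ^ 2 + 2400 * S.n * K ^ 3 * ρ)
      + 400 * κ ≤ c₁)
    (hc2 : 2 * c₁ ≤ ∑ ξ ∈ s, σ.real (closedBall ξ (1 / (R * T)))) :
    c₁ ≤ σ.real {ζ | b₁ / 2 ≤ |ζ| ∧ |ζ| ≤ 2 * b ∧
      Close S lv u (ζ / (2 * Real.pi) * Real.sqrt (1 + u ^ 2)) δ'} := by
  classical
  have hfin := hS.spec.fin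
  obtain ⟨Φ, Ψ', hΦ, hΨ', e1, e2, h3⟩ := hE.iso
  have hi : ∀ v : ℂ, ∀ᵐ y ∂Y.μ, Ψ' (Y.F v y) = S.F ((gsu lv u).symm v) (Ψ' y) :=
    iso_symm hΦ hΨ' e1 e2 h3
  have hR8 := hS.clus.R8
  have hR0 : 0 < R := by linarith
  have hT0 := hS.clus.T0
  have hB1 := hS.B1
  have hK1 : 1 ≤ K := hT.one
  have hτ := hS.clus.freq.tau
  have hr0 : 0 ≤ r₀ := hτ.le.trans hS.tr
  have hε0 : 0 ≤ ε := le_trans measureReal_nonneg (hS.disp 0 (by simpa using hr0))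
  have hκ0 : 0 ≤ κ := le_trans measureReal_nonneg hκ
  have hM0 : 0 ≤ M := le_trans measureReal_nonneg hS.SM
  have hδ0 := hS.clus.d0
  have hCc := hS.Cc0
  have hEh : 0 ≤ Eh Cc B ε := by unfold Eh; positivity
  have hEv : 0 ≤ Ev M R δ κ ε b τ := by unfold Ev; positivity
  set wf' : ℝ → ℂ → V2 := fun ξ y => wf S Q τ n (dir u) ξ (Ψ' y) with hwf'
  set I : ℝ → ℝ := fun ξ => ∫ x, ‖wf S Q τ n (dir u) ξ x‖ ^ 2 ∂S.μ with hI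
  set J : ℝ → ℝ := fun ξ => ∫ x, ‖wf S Q τ n (dir u) ξ (Ψ x) - wf S Q τ n (dir u₁) ξ x‖ ^ 2 ∂S.μ
    with hJ
  set eH : ℝ → ℝ≥0∞ := fun ξ => ∫⁻ h in Icc (-1 : ℝ) 1, ∫⁻ y,
    ‖wf S Q τ n (dir u) ξ (Ψ' (Y.F (h : ℂ) y)) - wf S Q τ n (dir u) ξ (Ψ' y)‖ₑ ^ 2 ∂Y.μ with heH
  set eV : ℝ → ℝ≥0∞ := fun ξ => ∫⁻ t in Icc (-1 : ℝ) 1, ∫⁻ y,
      ‖wf S Q τ n (dir u) ξ (Ψ' (Y.F ((t : ℂ) * Complex.I) y))
      - ex (ξ * (Real.exp lv * Real.sqrt (1 + u ^ 2)) * t) • wf S Q τ n (dir u) ξ (Ψ' y)‖ₑ ^ 2 ∂Y.μ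
    with heV
  set zm : ℝ → ℝ≥0∞ := fun ξ => ∫⁻ y in (⋃ i, core Y ρ i)ᶜ,
    ‖wf S Q τ n (dir u) ξ (Ψ' y)‖ₑ ^ 2 ∂Y.μ with hzm
  have hI0 : ∀ ξ, 0 ≤ I ξ := fun ξ => integral_nonneg fun x => by positivity
  have hJ0 : ∀ ξ, 0 ≤ J ξ := fun ξ => integral_nonneg fun x => by positivity
  have hmI : ∀ ξ, mass Y (fun y => wf S Q τ n (dir u) ξ (Ψ' y)) = ENNReal.ofReal (I ξ) := by
    intro ξ
    have hm := sm_wf S hS.part τ n (dir u) ξ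
    unfold mass
    rw [hΨ'.lintegral_comp (f := fun x => ‖wf S Q τ n (dir u) ξ x‖ₑ ^ 2) (hm.enorm.pow_const 2)]
    exact lint_eq hm (C := 1) (norm_wf_le S Q τ n (dir u) ξ)
  have sH := sum_errH hS hu h1 hr hΨ' hi
  have sV := sum_errV hS hu hΨ hκ h2 hΨ' hi
  have sZ := sum_zm (u := u) (Ψ' := Ψ') hS hT hρ
  set P : ℝ → Prop := fun ξ =>
    eH ξ ≤ ENNReal.ofReal (κ' ^ 2) * ENNReal.ofReal (I ξ) ∧
    eV ξ ≤ ENNReal.ofReal (κ' ^ 2 / 8) * ENNReal.ofReal (I ξ) ∧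
    2 * zm ξ ≤ ENNReal.ofReal (I ξ) ∧ ENNReal.ofReal (I ξ) ≠ 0 with hP
  have hbad : ∀ ξ, ¬ P ξ → ENNReal.ofReal (κ' ^ 2) * ENNReal.ofReal (I ξ)
      ≤ eH ξ + 8 * eV ξ + 2 * ENNReal.ofReal (κ' ^ 2) * zm ξ := by
    intro ξ hξ
    by_cases c1 : eH ξ ≤ ENNReal.ofReal (κ' ^ 2) * ENNReal.ofReal (I ξ)
    · by_cases c2 : eV ξ ≤ ENNReal.ofReal (κ' ^ 2 / 8) * ENNReal.ofReal (I ξ)
      · by_cases c3 : 2 * zm ξ ≤ ENNReal.ofReal (I ξ)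
        · by_cases c4 : ENNReal.ofReal (I ξ) ≠ 0
          · exact absurd ⟨c1, c2, c3, c4⟩ hξ
          · rw [not_not.1 c4, mul_zero]
            exact zero_le
        · refine le_trans ?_ le_add_self
          have c5 : ENNReal.ofReal (I ξ) ≤ 2 * zm ξ := (not_le.1 c3).le
          calc ENNReal.ofReal (κ' ^ 2) * ENNReal.ofReal (I ξ)
              ≤ ENNReal.ofReal (κ' ^ 2) * (2 * zm ξ) := by gcongr
            _ = 2 * ENNReal.ofReal (κ' ^ 2) * zm ξ := by ring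
      · have c5 : ENNReal.ofReal (κ' ^ 2 / 8) * ENNReal.ofReal (I ξ) ≤ eV ξ := (not_le.1 c2).le
        have e8 : ENNReal.ofReal (κ' ^ 2) = 8 * ENNReal.ofReal (κ' ^ 2 / 8) := by
          have e9 : (8 : ℝ≥0∞) = ENNReal.ofReal 8 := by norm_num
          rw [e9, ← ENNReal.ofReal_mul (by norm_num)]
          congr 1
          ring
        calc ENNReal.ofReal (κ' ^ 2) * ENNReal.ofReal (I ξ)
            = 8 * (ENNReal.ofReal (κ' ^ 2 / 8) * ENNReal.ofReal (I ξ)) := by rw [e8, mul_assoc]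
          _ ≤ 8 * eV ξ := by gcongr
          _ ≤ eH ξ + 8 * eV ξ + 2 * ENNReal.ofReal (κ' ^ 2) * zm ξ :=
            le_trans le_add_self le_self_add
    · have c5 : ENNReal.ofReal (κ' ^ 2) * ENNReal.ofReal (I ξ) ≤ eH ξ := (not_le.1 c1).le
      exact c5.trans (le_trans le_self_add le_self_add)
  set sb : Finset ℝ := s.filter fun ξ => ¬ P ξ with hsb
  set sg : Finset ℝ := s.filter fun ξ => P ξ with hsg
  have hsum1 : ENNReal.ofReal (κ' ^ 2) * ENNReal.ofReal (∑ ξ ∈ sb, I ξ)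
      ≤ ENNReal.ofReal (2 * Eh Cc B ε) + 8 * ENNReal.ofReal (2 * Ev M R δ κ ε b τ)
        + 2 * ENNReal.ofReal (κ' ^ 2) * ENNReal.ofReal (1200 * Y.n * K ^ 3 * ρ) := by
    rw [ENNReal.ofReal_sum_of_nonneg (fun ξ _ => hI0 ξ), Finset.mul_sum]
    calc ∑ ξ ∈ sb, ENNReal.ofReal (κ' ^ 2) * ENNReal.ofReal (I ξ)
        ≤ ∑ ξ ∈ sb, (eH ξ + 8 * eV ξ + 2 * ENNReal.ofReal (κ' ^ 2) * zm ξ) :=
          Finset.sum_le_sum fun ξ hξ => hbad ξ (Finset.mem_filter.1 hξ).2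
      _ ≤ ∑ ξ ∈ s, (eH ξ + 8 * eV ξ + 2 * ENNReal.ofReal (κ' ^ 2) * zm ξ) :=
          Finset.sum_le_sum_of_subset (Finset.filter_subset _ _)
      _ = ∑ ξ ∈ s, eH ξ + 8 * ∑ ξ ∈ s, eV ξ
          + 2 * ENNReal.ofReal (κ' ^ 2) * ∑ ξ ∈ s, zm ξ := by
          rw [Finset.sum_add_distrib, Finset.sum_add_distrib, Finset.mul_sum, Finset.mul_sum]
      _ ≤ _ := by gcongr
  have hsum2 : κ' ^ 2 * ∑ ξ ∈ sb, I ξ ≤ 2 * Eh Cc B ε + 8 * (2 * Ev M R δ κ ε b τ)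
        + 2 * κ' ^ 2 * (1200 * Y.n * K ^ 3 * ρ) := by
    have hnn : 0 ≤ 1200 * (Y.n : ℝ) * K ^ 3 * ρ := by positivity
    have e8 : (8 : ℝ≥0∞) = ENNReal.ofReal 8 := by norm_num
    have e2 : (2 : ℝ≥0∞) = ENNReal.ofReal 2 := by norm_num
    rw [e8, e2, ← ENNReal.ofReal_mul (by positivity), ← ENNReal.ofReal_mul (by norm_num),
      ← ENNReal.ofReal_mul (by norm_num), ← ENNReal.ofReal_mul (by positivity),
      ← ENNReal.ofReal_add (by positivity) (by positivity),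
      ← ENNReal.ofReal_add (by positivity) (by positivity)] at hsum1
    exact (ENNReal.ofReal_le_ofReal_iff (by positivity)).1 hsum1
  have hsum3 : ∑ ξ ∈ sb, I ξ ≤ (2 * Eh Cc B ε + 16 * Ev M R δ κ ε b τ) / κ' ^ 2
      + 2400 * S.n * K ^ 3 * ρ := by
    have hk2 : 0 < κ' ^ 2 := by positivity
    have e5 : (Y.n : ℝ) = S.n := by rw [hn]
    rw [e5] at hsum2
    have e6 : (2 * Eh Cc B ε + 16 * Ev M R δ κ ε b τ) / κ' ^ 2 + 2400 * S.n * K ^ 3 * ρ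
        = (2 * Eh Cc B ε + 8 * (2 * Ev M R δ κ ε b τ) + 2 * κ' ^ 2 * (1200 * S.n * K ^ 3 * ρ))
          / κ' ^ 2 := by
      field_simp
      ring
    rw [e6, le_div_iff₀ hk2, mul_comm]
    exact hsum2
  have hsumJ : ∑ ξ ∈ sb, J ξ ≤ 100 * κ :=
    le_trans (Finset.sum_le_sum_of_subset_of_nonneg (Finset.filter_subset _ _)
      fun ξ _ _ => hJ0 ξ) (wf_psi S hS.part hS.clus.freq hΨ hκ)
  have hσb : ∑ ξ ∈ sb, σ.real (closedBall ξ (1 / (R * T))) ≤ c₁ := by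
    calc ∑ ξ ∈ sb, σ.real (closedBall ξ (1 / (R * T))) ≤ ∑ ξ ∈ sb, (4 * I ξ + 4 * J ξ) :=
          Finset.sum_le_sum fun ξ hξ =>
            wf_mass S hS.part hS.spec hS.clus hΨ (Finset.mem_filter.1 hξ).1
      _ = 4 * ∑ ξ ∈ sb, I ξ + 4 * ∑ ξ ∈ sb, J ξ := by
          rw [Finset.sum_add_distrib, Finset.mul_sum, Finset.mul_sum]
      _ ≤ 4 * ((2 * Eh Cc B ε + 16 * Ev M R δ κ ε b τ) / κ' ^ 2 + 2400 * S.n * K ^ 3 * ρ)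
          + 400 * κ := by linarith
      _ ≤ c₁ := hc
  have hσg : c₁ ≤ ∑ ξ ∈ sg, σ.real (closedBall ξ (1 / (R * T))) := by
    have h := Finset.sum_filter_add_sum_filter_not s P
      (fun ξ => σ.real (closedBall ξ (1 / (R * T))))
    have h' : ∑ ξ ∈ sg, σ.real (closedBall ξ (1 / (R * T)))
        + ∑ ξ ∈ sb, σ.real (closedBall ξ (1 / (R * T)))
        = ∑ ξ ∈ s, σ.real (closedBall ξ (1 / (R * T))) := h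
    linarith
  have hU : σ.real (⋃ ξ ∈ sg, closedBall ξ (1 / (R * T)))
      = ∑ ξ ∈ sg, σ.real (closedBall ξ (1 / (R * T))) := by
    refine measureReal_biUnion_finset ?_ (fun ξ _ => measurableSet_closedBall)
    exact hS.disj.subset (by
      intro ξ hξ
      exact (Finset.mem_filter.1 (Finset.mem_coe.1 hξ)).1)
  rw [← hU] at hσg
  refine hσg.trans (measureReal_mono ?_ (measure_ne_top _ _))
  intro ζ hζ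
  obtain ⟨ξ, hξ, hζ'⟩ := mem_iUnion₂.1 hζ
  have hξs : ξ ∈ s := (Finset.mem_filter.1 hξ).1
  obtain ⟨g1, g2, g3, g4⟩ := (Finset.mem_filter.1 hξ).2
  have hd : |ζ - ξ| ≤ b₁ / 2 := by
    rw [mem_closedBall, Real.dist_eq] at hζ'
    exact hζ'.trans hb₁'
  have hξb := hb₁ ξ hξs
  have hξb' := hS.clus.bb ξ hξs
  refine ⟨?_, ?_, ?_⟩
  · have h := abs_sub_abs_le_abs_sub ξ ζ
    rw [abs_sub_comm] at h
    linarith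
  · have h := abs_sub_abs_le_abs_sub ζ ξ
    have hb0 : 0 ≤ b := (abs_nonneg ξ).trans hξb'
    linarith
  · rw [← hmI ξ] at g1 g2 g3 g4
    exact good_close hS hu h2 hκ' hR hE hΨ' hcl hPL hκC hδ' hξs hζ' g1 g2 g3 g4

end Pool.Agent.TF.I
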