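import Pool.Agent.Helper19.TF.Defs

/-!
BLOCK TF-I-MF. Elementary bounds for the transform `mF n τ lam = (1/n) ∑_{k<n} e^{i lam k τ}`.

* `mF_le_one`: triangle inequality.
* `mF_near`: `|e^{iy} - 1| ≤ |y|` for every term, `∑_{k<n} k ≤ n²/2`.
* `mF_decay`: geometric sum, `|∑| ≤ 2 / |e^{i lam τ} - 1| = 1 / |sin (lam τ / 2)|`, and `|sin y| ≥ (2/5) |y|` for `|y| ≤ (π+1)/2`
  (concavity of `sin` on `[0, π]` or: for `y ≤ π/2` use `sin y ≥ 2y/π`; for `π/2 ≤ y ≤ (π+1)/2`: `sin y ≥ sin((π+1)/2) = cos (1/2) ≥ 0.87`).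
-/

open MeasureTheory Set Filter
open Pool.Agent.Helper87.LS

namespace Pool.Agent.TF.I

theorem mF_le_one (n : ℕ) (τ lam : ℝ) : ‖mF n τ lam‖ ≤ 1 := by
  unfold mF
  rw [norm_mul, norm_inv, Complex.norm_natCast]
  have h1 : ‖∑ k ∈ Finset.range n, Complex.exp (((lam * (k * τ) : ℝ) : ℂ) * Complex.I)‖ ≤ n := by
    refine (norm_sum_le _ _).trans ?_
    rw [Finset.sum_congr rfl (fun k _ => Complex.norm_exp_ofReal_mul_I _)]
    simp
  rcases Nat.eq_zero_or_pos n with rfl | hn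
  · simp
  · have hn' : (0 : ℝ) < n := by exact_mod_cast hn
    calc ((n : ℝ))⁻¹ * ‖∑ k ∈ Finset.range n,
          Complex.exp (((lam * (k * τ) : ℝ) : ℂ) * Complex.I)‖ ≤ ((n : ℝ))⁻¹ * n := by gcongr
      _ = 1 := by field_simp

theorem mF_near {n : ℕ} (hn : 0 < n) {τ : ℝ} (hτ : 0 < τ) (lam : ℝ) :
    ‖mF n τ lam - 1‖ ≤ n * τ * |lam| / 2 := by
  have hn' : (0 : ℝ) < n := by exact_mod_cast hn
  have hnc : (n : ℂ) ≠ 0 := by exact_mod_cast hn.ne'
  have e1 : mF n τ lam - 1 = ((n : ℂ)⁻¹) * ∑ k ∈ Finset.range n,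
      (Complex.exp (((lam * (k * τ) : ℝ) : ℂ) * Complex.I) - 1) := by
    unfold mF
    rw [Finset.sum_sub_distrib, Finset.sum_const, Finset.card_range, nsmul_eq_mul, mul_one,
      mul_sub, inv_mul_cancel₀ hnc]
  have h1 : ‖∑ k ∈ Finset.range n,
      (Complex.exp (((lam * (k * τ) : ℝ) : ℂ) * Complex.I) - 1)‖ ≤ |lam| * τ * (n ^ 2 / 2) := by
    refine (norm_sum_le _ _).trans ?_
    have h2 : ∀ k ∈ Finset.range n,
        ‖Complex.exp (((lam * (k * τ) : ℝ) : ℂ) * Complex.I) - 1‖ ≤ |lam| * τ * k := by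
      intro k _
      rw [mul_comm (((lam * (k * τ) : ℝ) : ℂ))]
      refine (Real.norm_exp_I_mul_ofReal_sub_one_le).trans ?_
      rw [Real.norm_eq_abs, abs_mul, abs_mul, abs_of_pos hτ, Nat.abs_cast]
      apply le_of_eq
      ring
    refine (Finset.sum_le_sum h2).trans ?_
    rw [← Finset.mul_sum]
    have h3 : (∑ k ∈ Finset.range n, (k : ℝ)) ≤ n ^ 2 / 2 := by
      have h4 := Finset.sum_range_id_mul_two n
      have h5 : ((∑ k ∈ Finset.range n, k : ℕ) : ℝ) * 2 = n * ((n - 1 : ℕ) : ℝ) := by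
        exact_mod_cast h4
      rw [Nat.cast_sum] at h5
      rw [Nat.cast_sub hn] at h5
      push_cast at h5
      nlinarith
    gcongr
  rw [e1, norm_mul, norm_inv, Complex.norm_natCast]
  calc ((n : ℝ))⁻¹ * ‖∑ k ∈ Finset.range n,
        (Complex.exp (((lam * (k * τ) : ℝ) : ℂ) * Complex.I) - 1)‖
      ≤ ((n : ℝ))⁻¹ * (|lam| * τ * (n ^ 2 / 2)) := by gcongr
    _ = n * τ * |lam| / 2 := by field_simp

private theorem h24_sin {y : ℝ} (h0 : 0 ≤ y) (h1 : y ≤ (Real.pi + 1) / 2) :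
    2 / 5 * y ≤ Real.sin y := by
  have hpi := Real.pi_gt_three
  have hpi2 := Real.pi_lt_d2
  rcases le_total y (Real.pi / 2) with h | h
  · have h2 := Real.mul_le_sin h0 h
    have h3 : (2 : ℝ) / 5 ≤ 2 / Real.pi := by
      apply div_le_div_of_nonneg_left <;> linarith
    calc 2 / 5 * y ≤ 2 / Real.pi * y := by gcongr
      _ ≤ Real.sin y := h2
  · have h2 : Real.sin y = Real.cos (y - Real.pi / 2) := by
      rw [Real.cos_sub_pi_div_two]
    have h3 := Real.one_sub_sq_div_two_le_cos (x := y - Real.pi / 2)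
    rw [h2]
    nlinarith

theorem mF_decay {n : ℕ} (hn : 0 < n) {τ : ℝ} (hτ : 0 < τ) {lam : ℝ} (h0 : lam ≠ 0)
    (h1 : |lam| * τ ≤ Real.pi + 1) : ‖mF n τ lam‖ ≤ 5 / (n * τ * |lam|) := by
  have hn' : (0 : ℝ) < n := by exact_mod_cast hn
  have hl : 0 < |lam| := abs_pos.mpr h0
  obtain ⟨w, hw⟩ : ∃ w : ℂ, w = Complex.exp (Complex.I * ((lam * τ : ℝ) : ℂ)) := ⟨_, rfl⟩
  have hw1 : ‖w‖ = 1 := by
    rw [hw, mul_comm]
    exact Complex.norm_exp_ofReal_mul_I _
  have e1 : ∀ k ∈ Finset.range n, Complex.exp (((lam * (k * τ) : ℝ) : ℂ) * Complex.I) = w ^ k := by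
    intro k _
    rw [hw, ← Complex.exp_nat_mul]
    congr 1
    push_cast
    ring
  have hd : 2 / 5 * (|lam| * τ) ≤ ‖w - 1‖ := by
    rw [hw, Complex.norm_exp_I_mul_ofReal_sub_one, Real.norm_eq_abs, abs_mul,
      abs_of_pos (by norm_num : (0 : ℝ) < 2)]
    have h2 : |Real.sin (lam * τ / 2)| = Real.sin (|lam| * τ / 2) := by
      rcases le_total 0 lam with h | h
      · rw [abs_of_nonneg h]
        rw [abs_of_nonneg h] at h1
        apply abs_of_nonneg
        exact Real.sin_nonneg_of_nonneg_of_le_pi (by positivity) (by linarith [Real.pi_gt_three])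
      · rw [abs_of_nonpos h]
        rw [abs_of_nonpos h] at h1
        rw [show lam * τ / 2 = -(-lam * τ / 2) by ring, Real.sin_neg, abs_neg]
        apply abs_of_nonneg
        exact Real.sin_nonneg_of_nonneg_of_le_pi
          (by have : 0 ≤ -lam := by linarith
              positivity) (by linarith [Real.pi_gt_three])
    rw [h2]
    have h3 := h24_sin (y := |lam| * τ / 2) (by positivity) (by linarith)
    linarith
  have hw2 : w ≠ 1 := by
    intro h
    rw [h, sub_self, norm_zero] at hd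
    have : 0 < 2 / 5 * (|lam| * τ) := by positivity
    linarith
  have h3 : ‖∑ k ∈ Finset.range n, w ^ k‖ * ‖w - 1‖ ≤ 2 := by
    rw [← norm_mul, geom_sum_mul]
    refine (norm_sub_le _ _).trans ?_
    rw [norm_pow, hw1, one_pow, norm_one]
    norm_num
  have h4 : ‖∑ k ∈ Finset.range n, w ^ k‖ ≤ 5 / (τ * |lam|) := by
    rw [le_div_iff₀ (by positivity)]
    have h5 : ‖∑ k ∈ Finset.range n, w ^ k‖ * (2 / 5 * (|lam| * τ)) ≤ 2 := by
      refine le_trans ?_ h3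
      gcongr
    linarith
  unfold mF
  rw [Finset.sum_congr rfl e1, norm_mul, norm_inv, Complex.norm_natCast]
  calc ((n : ℝ))⁻¹ * ‖∑ k ∈ Finset.range n, w ^ k‖ ≤ ((n : ℝ))⁻¹ * (5 / (τ * |lam|)) := by gcongr
    _ = 5 / (n * τ * |lam|) := by field_simp

theorem continuous_mF (n : ℕ) (τ : ℝ) : Continuous (mF n τ) := by
  unfold mF
  fun_prop

end Pool.Agent.TF.I
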