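import Pool.Agent.Helper19.TF.WF
import Pool.Agent.Helper19.TF.MF

/-!
BLOCK TF-I-VERT. The twisted averages are almost eigenfunctions of the motion in their direction, and their masses.

`wf_norm`: `ident` with `c k = n⁻¹ e^{-iξkτ}`. `wf_move`: `wf v ξ (F (jτv) x) - e^{iξjτ} • wf v ξ x` is a combination of `fQ Q (F (kτv) x)`, `k < n + j` (`F_add`);
`ident` with these coefficients (`N = n + j`) and the sum over `k` factors: `∑_k c_k e^{iζkτ} = mF n τ (ζ-ξ) (e^{iζjτ} - e^{iξjτ})`.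
`wf_core`: on `closedBall ξ (1/(RT))`, `n τ ≤ 2T`: `‖mF n τ (ζ-ξ) - 1‖ ≤ 1/R ≤ 1/8` (`mF_near`), so `‖mF‖² ≥ 1/2`; `wf_norm`.
`vert1`: `j τ ≤ √R T`. Sum over `ξ ∈ s` of `∫ ‖mF n τ (ζ-ξ)‖² ‖e^{iζjτ} - e^{iξjτ}‖² dσ(ζ)`:
 core `|ζ-ξ| ≤ 1/(RT)`: `‖e^{i(ζ-ξ)jτ} - 1‖² ≤ (√R T/(RT))² = 1/R`, total `≤ (1/R) ∑ σ(core) ≤ M/R`;
 annulus `1/(RT) < |ζ-ξ| ≤ R/T`: `≤ 4 σ(annulus) ≤ 4 δ σ(core)`, total `≤ 4 δ M`;
 outside `|ζ-ξ| > R/T`: for `σ`-a.e. `ζ` (`|ζ| ≤ π/τ`, `|ξ| τ ≤ 1`) `mF_decay`: `‖mF‖² ≤ 25/(T²|ζ-ξ|²)` (`nτ ≥ T`), times 4; `sep_sum` with `g = R/(4T)` at every `ζ`: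
 `∑_ξ ≤ (100/T²) (4·16 T²/R²) = 6400/R² ≤ 800/R`, total `≤ 800 M/R`.
`wf_mass`: `wf v1 ξ x = (wf v1 ξ x - wf v ξ (Ψ x)) + wf v ξ (Ψ x)`, `‖·‖² ≤ 2 + 2`, `Ψ` preserves `μ`.
`vert`: first `t' = jτ + r`, `0 ≤ r < τ`, `j : ℕ`. `D = wf v ξ ∘ F (jτv) - e^{iξjτ} wf v ξ`; `‖D‖ = ‖D ∘ Ψ‖` and a.e. `D ∘ Ψ = (wf v ξ ∘ Ψ - wf v1 ξ) ∘ F (jτ v1) + (wf v1 ξ ∘ F (jτv1) - e^{iξjτ} wf v1 ξ)
+ e^{iξjτ} (wf v1 ξ - wf v ξ ∘ Ψ)`, so `∑ ‖D‖² ≤ 3 vert1 + 600 κ` (`wf_psi` twice). Then `wf v ξ ∘ F (t'v) - e^{iξt'} wf v ξ = (wf v ξ ∘ F (rv) - wf v ξ) ∘ F (jτv) + D + (e^{iξjτ} - e^{iξt'}) wf v ξ`: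
`∑ ‖·‖² ≤ 3 (100 ε + 3 vert1 + 600 κ + (bτ)² 50 M)` (`wf_frac`, `wf_tot`, `|e^{iξr} - 1| ≤ |ξ| τ ≤ b τ`). Negative `t'`: apply `F (-t' v)`, which preserves `μ`, and `F_neg`/`F_add`.
-/

open MeasureTheory Set Filter Metric
open Pool.Agent.Helper87.LS

namespace Pool.Agent.TF.I

private theorem h80_ed (a b : ℝ) :
    ‖Complex.exp ((a : ℂ) * Complex.I) - Complex.exp ((b : ℂ) * Complex.I)‖ ≤ |a - b| := by
  have h1 : Complex.exp ((a : ℂ) * Complex.I) - Complex.exp ((b : ℂ) * Complex.I)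
      = Complex.exp ((b : ℂ) * Complex.I) * (Complex.exp (Complex.I * ((a - b : ℝ) : ℂ)) - 1) := by
    rw [mul_sub, ← Complex.exp_add, mul_one]
    congr 2
    push_cast
    ring
  rw [h1, norm_mul, Complex.norm_exp_ofReal_mul_I, one_mul]
  exact Real.norm_exp_I_mul_ofReal_sub_one_le

private theorem h80_ed2 (a b : ℝ) :
    ‖Complex.exp ((a : ℂ) * Complex.I) - Complex.exp ((b : ℂ) * Complex.I)‖ ≤ 2 := by
  refine (norm_sub_le _ _).trans ?_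
  rw [Complex.norm_exp_ofReal_mul_I, Complex.norm_exp_ofReal_mul_I]
  norm_num

private theorem h80_wf_comb (S : Surf) (Q : ℂ → ℕ) (τ : ℝ) (n : ℕ) (v : ℂ) (ξ : ℝ) (x : ℂ) :
    wf S Q τ n v ξ x = ∑ k ∈ Finset.range n,
      ((n : ℂ)⁻¹ * Complex.exp (-(((ξ * (k * τ) : ℝ) : ℂ) * Complex.I))) •
        fQ Q (S.F (((k * τ : ℝ) : ℂ) * v) x) := by
  unfold wf
  rw [Finset.smul_sum]
  exact Finset.sum_congr rfl fun k _ => smul_smul _ _ _

private theorem h80_mF_comb (n : ℕ) (τ ξ ζ : ℝ) :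
    ∑ k ∈ Finset.range n, ((n : ℂ)⁻¹ * Complex.exp (-(((ξ * (k * τ) : ℝ) : ℂ) * Complex.I))) *
        Complex.exp (((ζ * (k * τ) : ℝ) : ℂ) * Complex.I) = mF n τ (ζ - ξ) := by
  unfold mF
  rw [Finset.mul_sum]
  refine Finset.sum_congr rfl fun k _ => ?_
  rw [mul_assoc, ← Complex.exp_add]
  congr 2
  push_cast
  ring

private theorem h80_shift {M : Type*} [AddCommGroup M] [Module ℂ M] (n j : ℕ) (c : ℕ → ℂ) (w : ℂ)
    (f : ℕ → M) :
    ∑ m ∈ Finset.range (n + j), ((if j ≤ m then c (m - j) else 0)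
        - (if m < n then w * c m else 0)) • f m
      = ∑ k ∈ Finset.range n, c k • f (k + j) - w • ∑ k ∈ Finset.range n, c k • f k := by
  simp only [sub_smul, Finset.sum_sub_distrib]
  congr 1
  · rw [add_comm n j, Finset.sum_range_add]
    rw [Finset.sum_eq_zero, zero_add]
    · refine Finset.sum_congr rfl fun k _ => ?_
      rw [if_pos (Nat.le_add_right j k), Nat.add_sub_cancel_left, add_comm j k]
    · intro m hm
      rw [if_neg (not_le.2 (Finset.mem_range.1 hm)), zero_smul]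
  · rw [Finset.sum_range_add, Finset.smul_sum]
    rw [Finset.sum_eq_zero (s := Finset.range j), add_zero]
    · refine Finset.sum_congr rfl fun k hk => ?_
      rw [if_pos (Finset.mem_range.1 hk), mul_smul]
    · intro m hm
      rw [if_neg (by omega), zero_smul]

private theorem h80_integ (S : Surf) {f : ℂ → V2} {C : ℝ} (hf : StronglyMeasurable f)
    (hb : ∀ x, ‖f x‖ ≤ C) : Integrable (fun x => ‖f x‖ ^ 2) S.μ := by
  refine Integrable.of_bound (hf.norm.pow 2).aestronglyMeasurable (C ^ 2) ?_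
  filter_upwards with x
  rw [Real.norm_of_nonneg (by positivity)]
  exact pow_le_pow_left₀ (norm_nonneg _) (hb x) 2

private theorem h80_cv (S : Surf) {g : ℂ → ℂ} (hg : MeasurePreserving g S.μ S.μ) {h : ℂ → ℝ}
    (hh : StronglyMeasurable h) : ∫ x, h (g x) ∂S.μ = ∫ x, h x ∂S.μ := by
  have := integral_map (μ := S.μ) hg.measurable.aemeasurable (f := h) hh.aestronglyMeasurable
  rw [hg.map_eq] at this
  exact this.symm

private theorem h80_three (S : Surf) {f a b c : ℂ → V2} {C : ℝ} (ha : StronglyMeasurable a)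
    (hb : StronglyMeasurable b) (hc : StronglyMeasurable c) (ha' : ∀ x, ‖a x‖ ≤ C)
    (hb' : ∀ x, ‖b x‖ ≤ C) (hc' : ∀ x, ‖c x‖ ≤ C) (hf : ∀ᵐ x ∂S.μ, f x = a x + b x + c x) :
    ∫ x, ‖f x‖ ^ 2 ∂S.μ ≤ 3 * (∫ x, ‖a x‖ ^ 2 ∂S.μ + ∫ x, ‖b x‖ ^ 2 ∂S.μ
      + ∫ x, ‖c x‖ ^ 2 ∂S.μ) := by
  have ia := h80_integ S ha ha'
  have ib := h80_integ S hb hb'
  have ic := h80_integ S hc hc'
  have iab : Integrable (fun x => ‖a x‖ ^ 2 + ‖b x‖ ^ 2) S.μ := ia.add ib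
  rw [← integral_add ia ib, ← integral_add iab ic, ← integral_const_mul]
  refine integral_mono_of_nonneg (Eventually.of_forall fun x => by positivity)
    ((iab.add ic).const_mul 3) ?_
  filter_upwards [hf] with x hx
  rw [hx]
  have h1 : ‖a x + b x + c x‖ ≤ ‖a x‖ + ‖b x‖ + ‖c x‖ := norm_add₃_le
  have h2 : ‖a x + b x + c x‖ ^ 2 ≤ (‖a x‖ + ‖b x‖ + ‖c x‖) ^ 2 :=
    pow_le_pow_left₀ (norm_nonneg _) h1 2
  nlinarith [sq_nonneg (‖a x‖ - ‖b x‖), sq_nonneg (‖a x‖ - ‖c x‖), sq_nonneg (‖b x‖ - ‖c x‖)]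

private theorem h80_mF_integ {σ : Measure ℝ} [IsFiniteMeasure σ] (n : ℕ) (τ ξ : ℝ) :
    Integrable (fun ζ => ‖mF n τ (ζ - ξ)‖ ^ 2) σ := by
  have hc : Continuous fun ζ => ‖mF n τ (ζ - ξ)‖ ^ 2 :=
    (((continuous_mF n τ).comp (continuous_id.sub continuous_const)).norm).pow 2
  refine Integrable.of_bound hc.aestronglyMeasurable 1 ?_
  filter_upwards with ζ
  rw [Real.norm_of_nonneg (by positivity)]
  exact pow_le_one₀ (norm_nonneg _) (mF_le_one n τ _)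

theorem wf_norm (S : Surf) {Q : ℂ → ℕ} (hQ : Part Q) {v : ℂ} {τ : ℝ} {σ : Measure ℝ}
    (hσ : IsSpec S Q τ v σ) (n : ℕ) (ξ : ℝ) :
    ∫ x, ‖wf S Q τ n v ξ x‖ ^ 2 ∂S.μ = ∫ ζ, ‖mF n τ (ζ - ξ)‖ ^ 2 ∂σ := by
  have h := ident S hQ v hσ n
    (fun k => (n : ℂ)⁻¹ * Complex.exp (-(((ξ * (k * τ) : ℝ) : ℂ) * Complex.I)))
  simp only [h80_mF_comb] at h
  rw [← h]
  refine integral_congr_ae (Eventually.of_forall fun x => ?_)
  change ‖wf S Q τ n v ξ x‖ ^ 2 = _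
  rw [h80_wf_comb]

theorem wf_move (S : Surf) {Q : ℂ → ℕ} (hQ : Part Q) {v : ℂ} {τ : ℝ} {σ : Measure ℝ}
    (hσ : IsSpec S Q τ v σ) (n j : ℕ) (ξ : ℝ) :
    ∫ x, ‖wf S Q τ n v ξ (S.F (((j * τ : ℝ) : ℂ) * v) x)
        - Complex.exp (((ξ * (j * τ) : ℝ) : ℂ) * Complex.I) • wf S Q τ n v ξ x‖ ^ 2 ∂S.μ
      = ∫ ζ, ‖mF n τ (ζ - ξ)‖ ^ 2 * ‖Complex.exp (((ζ * (j * τ) : ℝ) : ℂ) * Complex.I)
          - Complex.exp (((ξ * (j * τ) : ℝ) : ℂ) * Complex.I)‖ ^ 2 ∂σ := by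
  set c : ℕ → ℂ := fun k => (n : ℂ)⁻¹ * Complex.exp (-(((ξ * (k * τ) : ℝ) : ℂ) * Complex.I))
    with hc
  set w : ℂ := Complex.exp (((ξ * (j * τ) : ℝ) : ℂ) * Complex.I) with hw
  have h := ident S hQ v hσ (n + j)
    (fun m => (if j ≤ m then c (m - j) else 0) - (if m < n then w * c m else 0))
  have hae : ∀ᵐ x ∂S.μ, ∀ k : ℕ, S.F (((k * τ : ℝ) : ℂ) * v) (S.F (((j * τ : ℝ) : ℂ) * v) x)
      = S.F (((j * τ + k * τ : ℝ) : ℂ) * v) x := ae_all_iff.2 fun k => F_add S v (j * τ) (k * τ)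
  have e1 : ∫ x, ‖wf S Q τ n v ξ (S.F (((j * τ : ℝ) : ℂ) * v) x)
        - w • wf S Q τ n v ξ x‖ ^ 2 ∂S.μ
      = ∫ x, ‖∑ m ∈ Finset.range (n + j), ((if j ≤ m then c (m - j) else 0)
        - (if m < n then w * c m else 0)) • fQ Q (S.F (((m * τ : ℝ) : ℂ) * v) x)‖ ^ 2 ∂S.μ := by
    refine integral_congr_ae ?_
    filter_upwards [hae] with x hx
    rw [h80_shift n j c w (fun m => fQ Q (S.F (((m * τ : ℝ) : ℂ) * v) x)), h80_wf_comb,
      h80_wf_comb]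
    congr 3
    refine Finset.sum_congr rfl fun k _ => ?_
    rw [hx k]
    congr 4
    push_cast
    ring
  have e2 : ∀ ζ : ℝ, ∑ m ∈ Finset.range (n + j), ((if j ≤ m then c (m - j) else 0)
        - (if m < n then w * c m else 0)) * Complex.exp (((ζ * (m * τ) : ℝ) : ℂ) * Complex.I)
      = (Complex.exp (((ζ * (j * τ) : ℝ) : ℂ) * Complex.I) - w) * mF n τ (ζ - ξ) := by
    intro ζ
    have h3 := h80_shift n j c w (fun m => Complex.exp (((ζ * (m * τ) : ℝ) : ℂ) * Complex.I))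
    simp only [smul_eq_mul] at h3
    rw [h3, sub_mul, ← h80_mF_comb, Finset.mul_sum, Finset.mul_sum]
    congr 1
    refine Finset.sum_congr rfl fun k _ => ?_
    have h4 : Complex.exp (((ζ * (((k + j : ℕ) : ℝ) * τ) : ℝ) : ℂ) * Complex.I)
        = Complex.exp (((ζ * (j * τ) : ℝ) : ℂ) * Complex.I)
          * Complex.exp (((ζ * (k * τ) : ℝ) : ℂ) * Complex.I) := by
      rw [← Complex.exp_add]
      congr 1
      push_cast
      ring
    rw [h4]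
    ring
  rw [e1, h]
  refine integral_congr_ae (Eventually.of_forall fun ζ => ?_)
  change ‖_‖ ^ 2 = _
  rw [e2 ζ, norm_mul, mul_pow, mul_comm]

/-- The data of a cluster family at time scale `T`. -/
structure Clus (σ : Measure ℝ) (τ : ℝ) (n : ℕ) (R δ T b : ℝ) (s : Finset ℝ) : Prop where
  freq : Freq τ n s
  R8 : 8 ≤ R
  T0 : 0 < T
  nT : T ≤ n * τ
  nT2 : n * τ ≤ 2 * T
  d0 : 0 ≤ δ
  bb : ∀ ξ ∈ s, |ξ| ≤ b
  far : ∀ ξ ∈ s, ∀ ξ' ∈ s, ξ ≠ ξ' → R / (4 * T) ≤ |ξ - ξ'|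
  ann : ∀ ξ ∈ s, σ.real (closedBall ξ (R / T) \ closedBall ξ (1 / (R * T)))
        ≤ δ * σ.real (closedBall ξ (1 / (R * T)))
  tot : ∑ ξ ∈ s, σ.real (closedBall ξ (1 / (R * T))) ≤ σ.real univ

theorem wf_core (S : Surf) {Q : ℂ → ℕ} (hQ : Part Q) {v : ℂ} {τ : ℝ} {σ : Measure ℝ}
    (hσ : IsSpec S Q τ v σ) {n : ℕ} {R δ T b : ℝ} {s : Finset ℝ} (hs : Clus σ τ n R δ T b s)
    {ξ : ℝ} (hξ : ξ ∈ s) :
    σ.real (closedBall ξ (1 / (R * T))) ≤ 2 * ∫ x, ‖wf S Q τ n v ξ x‖ ^ 2 ∂S.μ := by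
  have := hσ.fin
  rw [wf_norm S hQ hσ n ξ]
  have hτ := hs.freq.tau
  have hn := hs.freq.pos
  have hT := hs.T0
  have hR : 0 < R := by linarith [hs.R8]
  have hm : MeasurableSet (closedBall ξ (1 / (R * T))) := measurableSet_closedBall
  have h1 : ∫ ζ, indicator (closedBall ξ (1 / (R * T))) (fun _ => (1 / 2 : ℝ)) ζ ∂σ
      ≤ ∫ ζ, ‖mF n τ (ζ - ξ)‖ ^ 2 ∂σ := by
    refine integral_mono_ae ((integrable_const _).indicator hm) (h80_mF_integ n τ ξ) ?_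
    refine Eventually.of_forall fun ζ => ?_
    change _ ≤ ‖mF n τ (ζ - ξ)‖ ^ 2
    by_cases hζ : ζ ∈ closedBall ξ (1 / (R * T))
    · rw [indicator_of_mem hζ]
      rw [mem_closedBall, Real.dist_eq] at hζ
      have h2 := mF_near hn hτ (ζ - ξ)
      have h3 : n * τ * |ζ - ξ| / 2 ≤ 1 / 8 := by
        have h4 : n * τ * |ζ - ξ| ≤ 2 * T * (1 / (R * T)) :=
          mul_le_mul hs.nT2 hζ (abs_nonneg _) (by positivity)
        have h5 : 2 * T * (1 / (R * T)) = 2 / R := by field_simp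
        have h6 : 2 / R ≤ 2 / 8 := div_le_div_of_nonneg_left (by norm_num) (by norm_num) hs.R8
        rw [h5] at h4
        linarith
      have h7 : 1 - 1 / 8 ≤ ‖mF n τ (ζ - ξ)‖ := by
        have h8 : ‖(1 : ℂ)‖ ≤ ‖mF n τ (ζ - ξ)‖ + ‖mF n τ (ζ - ξ) - 1‖ := by
          have h9 : (1 : ℂ) = mF n τ (ζ - ξ) - (mF n τ (ζ - ξ) - 1) := by ring
          calc ‖(1 : ℂ)‖ = ‖mF n τ (ζ - ξ) - (mF n τ (ζ - ξ) - 1)‖ := by rw [← h9]
            _ ≤ _ := norm_sub_le _ _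
        rw [norm_one] at h8
        linarith
      nlinarith
    · rw [indicator_of_notMem hζ]
      positivity
  rw [integral_indicator hm, integral_const, smul_eq_mul, measureReal_restrict_apply_univ] at h1
  linarith

theorem vert1 (S : Surf) {Q : ℂ → ℕ} (hQ : Part Q) {v : ℂ} {τ : ℝ} {σ : Measure ℝ}
    (hσ : IsSpec S Q τ v σ) {n : ℕ} {R δ T b M : ℝ} {s : Finset ℝ} (hs : Clus σ τ n R δ T b s)
    (hM : σ.real univ ≤ M) {j : ℕ} (hj : j * τ ≤ Real.sqrt R * T) :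
    ∑ ξ ∈ s, ∫ x, ‖wf S Q τ n v ξ (S.F (((j * τ : ℝ) : ℂ) * v) x)
        - Complex.exp (((ξ * (j * τ) : ℝ) : ℂ) * Complex.I) • wf S Q τ n v ξ x‖ ^ 2 ∂S.μ
      ≤ M * (801 / R + 4 * δ) := by
  have := hσ.fin
  have hτ := hs.freq.tau
  have hn := hs.freq.pos
  have hT := hs.T0
  have hR8 := hs.R8
  have hR : 0 < R := by linarith
  have hd0 := hs.d0
  set g : ℝ → ℝ → ℝ := fun ξ ζ => ‖mF n τ (ζ - ξ)‖ ^ 2 *
    ‖Complex.exp (((ζ * (j * τ) : ℝ) : ℂ) * Complex.I)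
          - Complex.exp (((ξ * (j * τ) : ℝ) : ℂ) * Complex.I)‖ ^ 2 with hg
  have hgi : ∀ ξ, Integrable (g ξ) σ := by
    intro ξ
    have hc : Continuous (g ξ) := by
      refine ((((continuous_mF n τ).comp (continuous_id.sub continuous_const)).norm).pow 2).mul ?_
      fun_prop
    refine Integrable.of_bound hc.aestronglyMeasurable (1 * 4) ?_
    filter_upwards with ζ
    rw [Real.norm_of_nonneg (by positivity)]
    refine mul_le_mul (pow_le_one₀ (norm_nonneg _) (mF_le_one n τ _)) ?_ (by positivity)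
      (by norm_num)
    calc _ ≤ (2 : ℝ) ^ 2 := pow_le_pow_left₀ (norm_nonneg _) (h80_ed2 _ _) 2
      _ = 4 := by norm_num
  have e1 : ∑ ξ ∈ s, ∫ x, ‖wf S Q τ n v ξ (S.F (((j * τ : ℝ) : ℂ) * v) x)
        - Complex.exp (((ξ * (j * τ) : ℝ) : ℂ) * Complex.I) • wf S Q τ n v ξ x‖ ^ 2 ∂S.μ
      = ∫ ζ, ∑ ξ ∈ s, g ξ ζ ∂σ := by
    rw [integral_finsetSum _ fun ξ _ => hgi ξ]
    exact Finset.sum_congr rfl fun ξ _ => wf_move S hQ hσ n j ξ
  rw [e1]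
  have hsupp : ∀ᵐ ζ ∂σ, |ζ| ≤ Real.pi / τ := by
    rw [ae_iff]
    simpa only [not_le] using hσ.supp
  set co : ℝ → Set ℝ := fun ξ => closedBall ξ (1 / (R * T)) with hco
  set an : ℝ → Set ℝ := fun ξ => closedBall ξ (R / T) \ closedBall ξ (1 / (R * T)) with han
  have hcom : ∀ ξ, MeasurableSet (co ξ) := fun ξ => measurableSet_closedBall
  have hanm : ∀ ξ, MeasurableSet (an ξ) := fun ξ =>
    measurableSet_closedBall.diff measurableSet_closedBall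
  have hi1 : ∀ ξ, Integrable (indicator (co ξ) (fun _ => 1 / R)) σ := fun ξ =>
    (integrable_const _).indicator (hcom ξ)
  have hi2 : ∀ ξ, Integrable (indicator (an ξ) (fun _ => (4 : ℝ))) σ := fun ξ =>
    (integrable_const _).indicator (hanm ξ)
  have hi3 : ∀ ξ, Integrable (fun ζ => indicator (co ξ) (fun _ => 1 / R) ζ
      + indicator (an ξ) (fun _ => (4 : ℝ)) ζ) σ := fun ξ => (hi1 ξ).add (hi2 ξ)
  have hi4 : Integrable (fun ζ => ∑ ξ ∈ s, (indicator (co ξ) (fun _ => 1 / R) ζ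
      + indicator (an ξ) (fun _ => (4 : ℝ)) ζ)) σ := integrable_finsetSum _ fun ξ _ => hi3 ξ
  have hle : ∀ᵐ ζ ∂σ, ∑ ξ ∈ s, g ξ ζ ≤ ∑ ξ ∈ s, (indicator (co ξ) (fun _ => 1 / R) ζ
      + indicator (an ξ) (fun _ => (4 : ℝ)) ζ) + 800 / R := by
    filter_upwards [hsupp] with ζ hζ
    have hpt : ∀ ξ ∈ s, g ξ ζ ≤ (indicator (co ξ) (fun _ => 1 / R) ζ
        + indicator (an ξ) (fun _ => (4 : ℝ)) ζ)
        + (if R / (4 * T) ≤ |ζ - ξ| then 100 / T ^ 2 * (1 / |ζ - ξ| ^ 2) else 0) := by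
      intro ξ hξ
      have hn1 : 0 ≤ indicator (co ξ) (fun _ => 1 / R) ζ :=
        indicator_nonneg (fun _ _ => by positivity) _
      have hn2 : 0 ≤ indicator (an ξ) (fun _ => (4 : ℝ)) ζ :=
        indicator_nonneg (fun _ _ => by norm_num) _
      have hn3 : 0 ≤ (if R / (4 * T) ≤ |ζ - ξ| then 100 / T ^ 2 * (1 / |ζ - ξ| ^ 2) else 0) := by
        split_ifs
        · positivity
        · exact le_rfl
      have hmF1 : ‖mF n τ (ζ - ξ)‖ ^ 2 ≤ 1 := pow_le_one₀ (norm_nonneg _) (mF_le_one n τ _)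
      have h44 : ‖Complex.exp (((ζ * (j * τ) : ℝ) : ℂ) * Complex.I)
          - Complex.exp (((ξ * (j * τ) : ℝ) : ℂ) * Complex.I)‖ ^ 2 ≤ 4 := by
        calc _ ≤ (2 : ℝ) ^ 2 := pow_le_pow_left₀ (norm_nonneg _) (h80_ed2 _ _) 2
          _ = 4 := by norm_num
      by_cases h1 : |ζ - ξ| ≤ 1 / (R * T)
      · have hmem : ζ ∈ co ξ := by rw [hco]; simpa [Real.dist_eq] using h1
        rw [indicator_of_mem hmem]
        have h2 : ‖Complex.exp (((ζ * (j * τ) : ℝ) : ℂ) * Complex.I)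
          - Complex.exp (((ξ * (j * τ) : ℝ) : ℂ) * Complex.I)‖ ^ 2 ≤ 1 / R := by
          have h3 : ‖Complex.exp (((ζ * (j * τ) : ℝ) : ℂ) * Complex.I)
            - Complex.exp (((ξ * (j * τ) : ℝ) : ℂ) * Complex.I)‖ ≤ 1 / Real.sqrt R := by
            refine (h80_ed _ _).trans ?_
            have h4 : ζ * (j * τ) - ξ * (j * τ) = (ζ - ξ) * (j * τ) := by ring
            rw [h4, abs_mul, abs_of_nonneg (by positivity : (0 : ℝ) ≤ j * τ)]
            calc |ζ - ξ| * (j * τ) ≤ 1 / (R * T) * (Real.sqrt R * T) :=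
                  mul_le_mul h1 hj (by positivity) (by positivity)
              _ = 1 / Real.sqrt R := by
                  have h5 := Real.mul_self_sqrt hR.le
                  have h6 : Real.sqrt R ≠ 0 := (Real.sqrt_pos.2 hR).ne'
                  rw [div_mul_eq_mul_div, one_mul, div_eq_div_iff (by positivity) h6, one_mul]
                  calc Real.sqrt R * T * Real.sqrt R = (Real.sqrt R * Real.sqrt R) * T := by ring
                    _ = R * T := by rw [h5]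
          calc _ ≤ (1 / Real.sqrt R) ^ 2 := pow_le_pow_left₀ (norm_nonneg _) h3 2
            _ = 1 / R := by rw [div_pow, one_pow, Real.sq_sqrt hR.le]
        have h7 : g ξ ζ ≤ 1 * (1 / R) :=
          mul_le_mul hmF1 h2 (by positivity) (by norm_num)
        linarith
      · by_cases h2 : |ζ - ξ| ≤ R / T
        · have hmem : ζ ∈ an ξ := by
            rw [han]
            refine ⟨by simpa [Real.dist_eq] using h2, fun h => h1 ?_⟩
            simpa [Real.dist_eq] using h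
          rw [indicator_of_mem hmem]
          have h7 : g ξ ζ ≤ 1 * 4 := mul_le_mul hmF1 h44 (by positivity) (by norm_num)
          linarith
        · push Not at h2
          have h3 : R / (4 * T) ≤ |ζ - ξ| := by
            refine le_trans ?_ h2.le
            exact div_le_div_of_nonneg_left hR.le hT (by linarith)
          rw [if_pos h3]
          have hpos : 0 < |ζ - ξ| := lt_of_le_of_lt (by positivity) h2
          have hne : ζ - ξ ≠ 0 := abs_pos.1 hpos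
          have h4 : |ζ - ξ| * τ ≤ Real.pi + 1 := by
            have h5 : |ζ| * τ ≤ Real.pi := by rwa [le_div_iff₀ hτ] at hζ
            have h6 := hs.freq.bd ξ hξ
            have h7 : |ζ - ξ| ≤ |ζ| + |ξ| := abs_sub _ _
            nlinarith
          have h5 := mF_decay hn hτ hne h4
          have h6 : ‖mF n τ (ζ - ξ)‖ ≤ 5 / (T * |ζ - ξ|) := by
            refine h5.trans ?_
            exact div_le_div_of_nonneg_left (by norm_num) (by positivity)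
              (mul_le_mul_of_nonneg_right hs.nT hpos.le)
          have h7 : ‖mF n τ (ζ - ξ)‖ ^ 2 ≤ (5 / (T * |ζ - ξ|)) ^ 2 :=
            pow_le_pow_left₀ (norm_nonneg _) h6 2
          have h8 : g ξ ζ ≤ (5 / (T * |ζ - ξ|)) ^ 2 * 4 :=
            mul_le_mul h7 h44 (by positivity) (by positivity)
          have h9 : (5 / (T * |ζ - ξ|)) ^ 2 * 4 = 100 / T ^ 2 * (1 / |ζ - ξ| ^ 2) := by
            have := hpos.ne'
            field_simp
            norm_num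
          linarith
    have h1 := Finset.sum_le_sum hpt
    rw [Finset.sum_add_distrib] at h1
    refine h1.trans (add_le_add le_rfl ?_)
    rw [← Finset.sum_filter, ← Finset.mul_sum]
    have h2 := sep_sum (g := R / (4 * T)) (by positivity) hs.far ζ
    calc 100 / T ^ 2 * ∑ ξ ∈ s with R / (4 * T) ≤ |ζ - ξ|, 1 / |ζ - ξ| ^ 2
        ≤ 100 / T ^ 2 * (4 / (R / (4 * T)) ^ 2) := mul_le_mul_of_nonneg_left h2 (by positivity)
      _ = 6400 / R ^ 2 := by field_simp; norm_num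
      _ ≤ 800 / R := by
          rw [div_le_div_iff₀ (by positivity) hR]
          nlinarith
  refine (integral_mono_ae (integrable_finsetSum _ fun ξ _ => hgi ξ)
    (hi4.add (integrable_const _)) hle).trans ?_
  have e2 : ∫ ζ, (fun ζ => ∑ ξ ∈ s, (indicator (co ξ) (fun _ => 1 / R) ζ
      + indicator (an ξ) (fun _ => (4 : ℝ)) ζ)) ζ + 800 / R ∂σ
      = ∑ ξ ∈ s, (1 / R * σ.real (co ξ) + 4 * σ.real (an ξ)) + 800 / R * σ.real univ := by
    rw [integral_add hi4 (integrable_const _), integral_finsetSum _ fun ξ _ => hi3 ξ,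
      integral_const, smul_eq_mul, mul_comm (σ.real univ)]
    congr 1
    refine Finset.sum_congr rfl fun ξ _ => ?_
    rw [integral_add (hi1 ξ) (hi2 ξ), integral_indicator (hcom ξ), integral_indicator (hanm ξ),
      integral_const, integral_const, measureReal_restrict_apply_univ,
      measureReal_restrict_apply_univ, smul_eq_mul, smul_eq_mul, mul_comm (σ.real (co ξ)),
      mul_comm (σ.real (an ξ))]
  refine (le_of_eq e2).trans ?_
  have h3 : ∑ ξ ∈ s, (1 / R * σ.real (co ξ) + 4 * σ.real (an ξ))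
      ≤ (1 / R + 4 * δ) * ∑ ξ ∈ s, σ.real (co ξ) := by
    rw [Finset.mul_sum]
    refine Finset.sum_le_sum fun ξ hξ => ?_
    have := hs.ann ξ hξ
    have h5 : σ.real (an ξ) ≤ δ * σ.real (co ξ) := this
    linarith
  have h4 : ∑ ξ ∈ s, σ.real (co ξ) ≤ σ.real univ := hs.tot
  have h5 : 0 ≤ σ.real univ := measureReal_nonneg
  have h6 : (1 / R + 4 * δ) * ∑ ξ ∈ s, σ.real (co ξ) ≤ (1 / R + 4 * δ) * M :=
    mul_le_mul_of_nonneg_left (h4.trans hM) (by positivity)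
  have h7 : 800 / R * σ.real univ ≤ 800 / R * M := mul_le_mul_of_nonneg_left hM (by positivity)
  calc _ ≤ (1 / R + 4 * δ) * M + 800 / R * M := by linarith
    _ = M * (801 / R + 4 * δ) := by ring

theorem wf_mass (S : Surf) {Q : ℂ → ℕ} (hQ : Part Q) {v v' : ℂ} {τ : ℝ} {σ : Measure ℝ}
    (hσ : IsSpec S Q τ v σ) {n : ℕ} {R δ T b : ℝ} {s : Finset ℝ} (hs : Clus σ τ n R δ T b s)
    {Ψ : ℂ → ℂ} (hΨ : Inter S v v' Ψ) {ξ : ℝ} (hξ : ξ ∈ s) :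
    σ.real (closedBall ξ (1 / (R * T))) ≤ 4 * ∫ x, ‖wf S Q τ n v' ξ x‖ ^ 2 ∂S.μ
      + 4 * ∫ x, ‖wf S Q τ n v' ξ (Ψ x) - wf S Q τ n v ξ x‖ ^ 2 ∂S.μ := by
  have h1 := wf_core S hQ hσ hs hξ
  have hm := sm_wf S hQ τ n v ξ
  have hm' := sm_wf S hQ τ n v' ξ
  have hmΨ : StronglyMeasurable fun x => wf S Q τ n v' ξ (Ψ x) :=
    hm'.comp_measurable hΨ.1.measurable
  have hb : ∀ x, ‖wf S Q τ n v ξ x‖ ≤ 1 := norm_wf_le S Q τ n v ξ
  have hb' : ∀ x, ‖wf S Q τ n v' ξ x‖ ≤ 1 := norm_wf_le S Q τ n v' ξ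
  have i1 := h80_integ S hmΨ (C := 1) fun x => hb' _
  have i2 : Integrable (fun x => ‖wf S Q τ n v' ξ (Ψ x) - wf S Q τ n v ξ x‖ ^ 2) S.μ :=
    h80_integ S (hmΨ.sub hm) (C := 2) fun x => by
    refine (norm_sub_le _ _).trans ?_
    have := hb' (Ψ x)
    have := hb x
    linarith
  have h2 : ∫ x, ‖wf S Q τ n v ξ x‖ ^ 2 ∂S.μ ≤ ∫ x, (2 * ‖wf S Q τ n v' ξ (Ψ x)‖ ^ 2
      + 2 * ‖wf S Q τ n v' ξ (Ψ x) - wf S Q τ n v ξ x‖ ^ 2) ∂S.μ := by
    refine integral_mono_of_nonneg (Eventually.of_forall fun x => by positivity)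
      ((i1.const_mul 2).add (i2.const_mul 2)) (Eventually.of_forall fun x => ?_)
    change ‖wf S Q τ n v ξ x‖ ^ 2 ≤ 2 * ‖wf S Q τ n v' ξ (Ψ x)‖ ^ 2
      + 2 * ‖wf S Q τ n v' ξ (Ψ x) - wf S Q τ n v ξ x‖ ^ 2
    have h3 : ‖wf S Q τ n v ξ x‖ ≤ ‖wf S Q τ n v' ξ (Ψ x)‖
        + ‖wf S Q τ n v' ξ (Ψ x) - wf S Q τ n v ξ x‖ := by
      have h9 : wf S Q τ n v ξ x = wf S Q τ n v' ξ (Ψ x)
          - (wf S Q τ n v' ξ (Ψ x) - wf S Q τ n v ξ x) := by abel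
      calc ‖wf S Q τ n v ξ x‖ = ‖wf S Q τ n v' ξ (Ψ x)
          - (wf S Q τ n v' ξ (Ψ x) - wf S Q τ n v ξ x)‖ := by rw [← h9]
        _ ≤ _ := norm_sub_le _ _
    have h4 := pow_le_pow_left₀ (norm_nonneg _) h3 2
    nlinarith [sq_nonneg (‖wf S Q τ n v' ξ (Ψ x)‖
      - ‖wf S Q τ n v' ξ (Ψ x) - wf S Q τ n v ξ x‖)]
  have h3 : ∫ x, ‖wf S Q τ n v' ξ (Ψ x)‖ ^ 2 ∂S.μ = ∫ x, ‖wf S Q τ n v' ξ x‖ ^ 2 ∂S.μ :=
    h80_cv S hΨ.1 (hm'.norm.pow 2)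
  have h4 : ∫ x, (2 * ‖wf S Q τ n v' ξ (Ψ x)‖ ^ 2
      + 2 * ‖wf S Q τ n v' ξ (Ψ x) - wf S Q τ n v ξ x‖ ^ 2) ∂S.μ
      = 2 * ∫ x, ‖wf S Q τ n v' ξ (Ψ x)‖ ^ 2 ∂S.μ
        + 2 * ∫ x, ‖wf S Q τ n v' ξ (Ψ x) - wf S Q τ n v ξ x‖ ^ 2 ∂S.μ := by
    rw [integral_add (i1.const_mul 2) (i2.const_mul 2), integral_const_mul, integral_const_mul]
  rw [h4, h3] at h2
  linarith

private theorem h80_vert_pos (S : Surf) {Q : ℂ → ℕ} (hQ : Part Q) {v v' : ℂ} {τ : ℝ}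
    {σ : Measure ℝ}
    (hσ : IsSpec S Q τ v σ) {n : ℕ} {R δ T b M κ ε : ℝ} {s : Finset ℝ}
    (hs : Clus σ τ n R δ T b s) (hM : σ.real univ ≤ M) (hM' : S.μ.real univ ≤ M)
    {Ψ : ℂ → ℂ} (hΨ : Inter S v v' Ψ) (hκ : S.μ.real {x | Q (Ψ x) ≠ Q x} ≤ κ)
    (hε : ∀ r : ℝ, 0 ≤ r → r ≤ τ → S.μ.real {x | Q (S.F ((r : ℂ) * v') x) ≠ Q x} ≤ ε)
    {t : ℝ} (ht0 : 0 ≤ t) (ht : t ≤ Real.sqrt R * T) :
    ∑ ξ ∈ s, ∫ x, ‖wf S Q τ n v' ξ (S.F ((t : ℂ) * v') x)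
        - Complex.exp (((ξ * t : ℝ) : ℂ) * Complex.I) • wf S Q τ n v' ξ x‖ ^ 2 ∂S.μ
      ≤ 9 * (M * (801 / R + 4 * δ)) + 1800 * κ + 300 * ε + 150 * ((b * τ) ^ 2 * M) := by
  have hτ := hs.freq.tau
  set j : ℕ := ⌊t / τ⌋₊ with hj
  set r : ℝ := t - j * τ with hr
  have hj1 : j * τ ≤ t := by
    have := Nat.floor_le (div_nonneg ht0 hτ.le)
    rwa [le_div_iff₀ hτ] at this
  have hr0 : 0 ≤ r := by rw [hr]; linarith
  have hr1 : r ≤ τ := by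
    have := (Nat.lt_floor_add_one (t / τ)).le
    rw [div_le_iff₀ hτ] at this
    rw [hr]
    have h2 : ((⌊t / τ⌋₊ : ℝ) + 1) * τ = j * τ + τ := by rw [hj]; ring
    linarith
  have hm : ∀ ξ, StronglyMeasurable (wf S Q τ n v ξ) := fun ξ => sm_wf S hQ τ n v ξ
  have hm' : ∀ ξ, StronglyMeasurable (wf S Q τ n v' ξ) := fun ξ => sm_wf S hQ τ n v' ξ
  have hb : ∀ ξ x, ‖wf S Q τ n v ξ x‖ ≤ 1 := fun ξ => norm_wf_le S Q τ n v ξ
  have hb' : ∀ ξ x, ‖wf S Q τ n v' ξ x‖ ≤ 1 := fun ξ => norm_wf_le S Q τ n v' ξ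
  have hF : ∀ z : ℂ, MeasurePreserving (S.F z) S.μ S.μ := fun z => S.measurePreserving_F z
  have hFm : ∀ z : ℂ, Measurable (S.F z) := fun z => S.measurable_F z
  have hΨm : Measurable Ψ := hΨ.1.measurable
  have hexp : ∀ y : ℝ, ‖Complex.exp ((y : ℂ) * Complex.I)‖ = 1 := Complex.norm_exp_ofReal_mul_I
  -- the middle part
  have hD : ∀ ξ, ∫ x, ‖wf S Q τ n v' ξ (S.F (((j * τ : ℝ) : ℂ) * v') x)
        - Complex.exp (((ξ * (j * τ) : ℝ) : ℂ) * Complex.I) • wf S Q τ n v' ξ x‖ ^ 2 ∂S.μ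
      ≤ 3 * (∫ x, ‖wf S Q τ n v' ξ (Ψ x) - wf S Q τ n v ξ x‖ ^ 2 ∂S.μ
        + ∫ x, ‖wf S Q τ n v ξ (S.F (((j * τ : ℝ) : ℂ) * v) x)
        - Complex.exp (((ξ * (j * τ) : ℝ) : ℂ) * Complex.I) • wf S Q τ n v ξ x‖ ^ 2 ∂S.μ
        + ∫ x, ‖wf S Q τ n v' ξ (Ψ x) - wf S Q τ n v ξ x‖ ^ 2 ∂S.μ) := by
    intro ξ
    set w : ℂ := Complex.exp (((ξ * (j * τ) : ℝ) : ℂ) * Complex.I) with hw
    have hw1 : ‖w‖ = 1 := hexp _
    have hDm : StronglyMeasurable fun x => wf S Q τ n v' ξ (S.F (((j * τ : ℝ) : ℂ) * v') x)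
        - w • wf S Q τ n v' ξ x :=
      ((hm' ξ).comp_measurable (hFm _)).sub ((hm' ξ).const_smul w)
    have h1 : ∫ x, ‖wf S Q τ n v' ξ (S.F (((j * τ : ℝ) : ℂ) * v') x)
        - w • wf S Q τ n v' ξ x‖ ^ 2 ∂S.μ
        = ∫ x, ‖wf S Q τ n v' ξ (S.F (((j * τ : ℝ) : ℂ) * v') (Ψ x))
        - w • wf S Q τ n v' ξ (Ψ x)‖ ^ 2 ∂S.μ :=
      (h80_cv S hΨ.1 (hDm.norm.pow 2)).symm
    rw [h1]
    have ha : StronglyMeasurable fun x => wf S Q τ n v' ξ (Ψ (S.F (((j * τ : ℝ) : ℂ) * v) x))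
        - wf S Q τ n v ξ (S.F (((j * τ : ℝ) : ℂ) * v) x) :=
      ((hm' ξ).comp_measurable (hΨm.comp (hFm _))).sub ((hm ξ).comp_measurable (hFm _))
    have hbm : StronglyMeasurable fun x => wf S Q τ n v ξ (S.F (((j * τ : ℝ) : ℂ) * v) x)
        - w • wf S Q τ n v ξ x :=
      ((hm ξ).comp_measurable (hFm _)).sub ((hm ξ).const_smul w)
    have hc : StronglyMeasurable fun x => -(w • (wf S Q τ n v' ξ (Ψ x) - wf S Q τ n v ξ x)) :=
      ((((hm' ξ).comp_measurable hΨm).sub (hm ξ)).const_smul w).neg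
    have h2 := h80_three S (f := fun x => wf S Q τ n v' ξ (S.F (((j * τ : ℝ) : ℂ) * v') (Ψ x))
        - w • wf S Q τ n v' ξ (Ψ x)) (C := 2) ha hbm hc ?_ ?_ ?_ ?_
    · refine h2.trans (le_of_eq ?_)
      congr 3
      · exact h80_cv S (hF _) (h := fun x => ‖wf S Q τ n v' ξ (Ψ x) - wf S Q τ n v ξ x‖ ^ 2)
          ((((hm' ξ).comp_measurable hΨm).sub (hm ξ)).norm.pow 2)
      · funext x
        rw [norm_neg, norm_smul, hw1, one_mul]
    · intro x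
      refine (norm_sub_le _ _).trans ?_
      have := hb' ξ (Ψ (S.F (((j * τ : ℝ) : ℂ) * v) x))
      have := hb ξ (S.F (((j * τ : ℝ) : ℂ) * v) x)
      linarith
    · intro x
      refine (norm_sub_le _ _).trans ?_
      rw [norm_smul, hw1, one_mul]
      have := hb ξ (S.F (((j * τ : ℝ) : ℂ) * v) x)
      have := hb ξ x
      linarith
    · intro x
      rw [norm_neg, norm_smul, hw1, one_mul]
      refine (norm_sub_le _ _).trans ?_
      have := hb' ξ (Ψ x)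
      have := hb ξ x
      linarith
    · filter_upwards [hΨ.2 (j * τ)] with x hx
      rw [← hx, smul_sub]
      abel
  -- the decomposition
  have hI : ∀ ξ ∈ s, ∫ x, ‖wf S Q τ n v' ξ (S.F ((t : ℂ) * v') x)
        - Complex.exp (((ξ * t : ℝ) : ℂ) * Complex.I) • wf S Q τ n v' ξ x‖ ^ 2 ∂S.μ
      ≤ 3 * (∫ x, ‖wf S Q τ n v' ξ (S.F ((r : ℂ) * v') x) - wf S Q τ n v' ξ x‖ ^ 2 ∂S.μ
        + ∫ x, ‖wf S Q τ n v' ξ (S.F (((j * τ : ℝ) : ℂ) * v') x)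
        - Complex.exp (((ξ * (j * τ) : ℝ) : ℂ) * Complex.I) • wf S Q τ n v' ξ x‖ ^ 2 ∂S.μ
        + (b * τ) ^ 2 * ∫ x, ‖wf S Q τ n v' ξ x‖ ^ 2 ∂S.μ) := by
    intro ξ hξ
    set w : ℂ := Complex.exp (((ξ * (j * τ) : ℝ) : ℂ) * Complex.I) with hw
    set w' : ℂ := Complex.exp (((ξ * t : ℝ) : ℂ) * Complex.I) with hw'
    have hw1 : ‖w‖ = 1 := hexp _
    have ha : StronglyMeasurable fun x =>
        wf S Q τ n v' ξ (S.F ((r : ℂ) * v') (S.F (((j * τ : ℝ) : ℂ) * v') x))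
        - wf S Q τ n v' ξ (S.F (((j * τ : ℝ) : ℂ) * v') x) :=
      ((hm' ξ).comp_measurable ((hFm _).comp (hFm _))).sub ((hm' ξ).comp_measurable (hFm _))
    have hbm : StronglyMeasurable fun x => wf S Q τ n v' ξ (S.F (((j * τ : ℝ) : ℂ) * v') x)
        - w • wf S Q τ n v' ξ x :=
      ((hm' ξ).comp_measurable (hFm _)).sub ((hm' ξ).const_smul w)
    have hc : StronglyMeasurable fun x => (w - w') • wf S Q τ n v' ξ x :=
      (hm' ξ).const_smul (w - w')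
    have hww : ‖w - w'‖ ≤ 2 := h80_ed2 _ _
    have h2 := h80_three S (f := fun x => wf S Q τ n v' ξ (S.F ((t : ℂ) * v') x)
        - w' • wf S Q τ n v' ξ x) (C := 2) ha hbm hc ?_ ?_ ?_ ?_
    · refine h2.trans ?_
      refine mul_le_mul_of_nonneg_left (add_le_add (add_le_add (le_of_eq ?_) le_rfl) ?_)
        (by norm_num)
      · exact h80_cv S (hF _) (h := fun x => ‖wf S Q τ n v' ξ (S.F ((r : ℂ) * v') x)
          - wf S Q τ n v' ξ x‖ ^ 2) ((((hm' ξ).comp_measurable (hFm _)).sub (hm' ξ)).norm.pow 2)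
      · rw [← integral_const_mul]
        refine integral_mono_of_nonneg (Eventually.of_forall fun x => by positivity)
          ((h80_integ S (hm' ξ) (hb' ξ)).const_mul _) (Eventually.of_forall fun x => ?_)
        change ‖(w - w') • wf S Q τ n v' ξ x‖ ^ 2 ≤ (b * τ) ^ 2 * ‖wf S Q τ n v' ξ x‖ ^ 2
        rw [norm_smul, mul_pow]
        refine mul_le_mul_of_nonneg_right ?_ (by positivity)
        have h3 : ‖w - w'‖ ≤ |ξ| * r := by
          refine (h80_ed _ _).trans (le_of_eq ?_)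
          have h4 : ξ * (j * τ) - ξ * t = -(ξ * r) := by rw [hr]; ring
          rw [h4, abs_neg, abs_mul, abs_of_nonneg hr0]
        have h4 : |ξ| * r ≤ b * τ :=
          mul_le_mul (hs.bb ξ hξ) hr1 hr0 ((abs_nonneg ξ).trans (hs.bb ξ hξ))
        exact pow_le_pow_left₀ (norm_nonneg _) (h3.trans h4) 2
    · intro x
      refine (norm_sub_le _ _).trans ?_
      have := hb' ξ (S.F ((r : ℂ) * v') (S.F (((j * τ : ℝ) : ℂ) * v') x))
      have := hb' ξ (S.F (((j * τ : ℝ) : ℂ) * v') x)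
      linarith
    · intro x
      refine (norm_sub_le _ _).trans ?_
      rw [norm_smul, hw1, one_mul]
      have := hb' ξ (S.F (((j * τ : ℝ) : ℂ) * v') x)
      have := hb' ξ x
      linarith
    · intro x
      rw [norm_smul]
      have := hb' ξ x
      calc ‖w - w'‖ * ‖wf S Q τ n v' ξ x‖ ≤ 2 * 1 :=
            mul_le_mul hww this (norm_nonneg _) (by norm_num)
        _ = 2 := by norm_num
    · filter_upwards [F_add S v' (j * τ) r] with x hx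
      have h5 : (j * τ + r : ℝ) = t := by rw [hr]; ring
      rw [h5] at hx
      rw [hx, sub_smul]
      abel
  have h1 := Finset.sum_le_sum hI
  refine h1.trans ?_
  rw [← Finset.mul_sum, Finset.sum_add_distrib, Finset.sum_add_distrib, ← Finset.mul_sum]
  have h2 := wf_frac S hQ hs.freq v' r (hε r hr0 hr1)
  have h3 : ∑ ξ ∈ s, ∫ x, ‖wf S Q τ n v' ξ (S.F (((j * τ : ℝ) : ℂ) * v') x)
        - Complex.exp (((ξ * (j * τ) : ℝ) : ℂ) * Complex.I) • wf S Q τ n v' ξ x‖ ^ 2 ∂S.μ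
      ≤ 3 * (100 * κ + M * (801 / R + 4 * δ) + 100 * κ) := by
    refine (Finset.sum_le_sum fun ξ _ => hD ξ).trans ?_
    rw [← Finset.mul_sum, Finset.sum_add_distrib, Finset.sum_add_distrib]
    have h4 := wf_psi S hQ hs.freq hΨ hκ
    have h5 := vert1 S hQ hσ hs hM (j := j) (hj1.trans ht)
    linarith
  have h4 := wf_tot S hQ hs.freq v'
  have h5 : (b * τ) ^ 2 * ∑ ξ ∈ s, ∫ x, ‖wf S Q τ n v' ξ x‖ ^ 2 ∂S.μ
      ≤ (b * τ) ^ 2 * (50 * M) :=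
    mul_le_mul_of_nonneg_left (h4.trans (by linarith)) (by positivity)
  nlinarith

theorem vert (S : Surf) {Q : ℂ → ℕ} (hQ : Part Q) {v v' : ℂ} {τ : ℝ} {σ : Measure ℝ}
    (hσ : IsSpec S Q τ v σ) {n : ℕ} {R δ T b M κ ε : ℝ} {s : Finset ℝ}
    (hs : Clus σ τ n R δ T b s) (hM : σ.real univ ≤ M) (hM' : S.μ.real univ ≤ M)
    {Ψ : ℂ → ℂ} (hΨ : Inter S v v' Ψ) (hκ : S.μ.real {x | Q (Ψ x) ≠ Q x} ≤ κ)
    (hε : ∀ r : ℝ, 0 ≤ r → r ≤ τ → S.μ.real {x | Q (S.F ((r : ℂ) * v') x) ≠ Q x} ≤ ε)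
    {t : ℝ} (ht : |t| ≤ Real.sqrt R * T) :
    ∑ ξ ∈ s, ∫ x, ‖wf S Q τ n v' ξ (S.F ((t : ℂ) * v') x)
        - Complex.exp (((ξ * t : ℝ) : ℂ) * Complex.I) • wf S Q τ n v' ξ x‖ ^ 2 ∂S.μ
      ≤ 9 * (M * (801 / R + 4 * δ)) + 1800 * κ + 300 * ε + 150 * ((b * τ) ^ 2 * M) := by
  rcases le_total 0 t with h0 | h0
  · exact h80_vert_pos S hQ hσ hs hM hM' hΨ hκ hε h0 ((le_abs_self t).trans ht)
  · have h1 := h80_vert_pos S hQ hσ hs hM hM' hΨ hκ hε (t := -t) (by linarith)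
      ((neg_le_abs t).trans ht)
    refine le_trans (le_of_eq (Finset.sum_congr rfl fun ξ _ => ?_)) h1
    have hm' : StronglyMeasurable (wf S Q τ n v' ξ) := sm_wf S hQ τ n v' ξ
    have hDm : StronglyMeasurable fun x => wf S Q τ n v' ξ (S.F ((t : ℂ) * v') x)
        - Complex.exp (((ξ * t : ℝ) : ℂ) * Complex.I) • wf S Q τ n v' ξ x :=
      (hm'.comp_measurable (S.measurable_F _)).sub
        (hm'.const_smul (Complex.exp (((ξ * t : ℝ) : ℂ) * Complex.I)))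
    have h2 := h80_cv S (S.measurePreserving_F (((-t : ℝ) : ℂ) * v')) (hDm.norm.pow 2)
    refine h2.symm.trans (integral_congr_ae ?_)
    filter_upwards [F_add S v' (-t) t, F_zero S] with x hx hx0
    change ‖wf S Q τ n v' ξ (S.F ((t : ℂ) * v') (S.F (((-t : ℝ) : ℂ) * v') x))
        - Complex.exp (((ξ * t : ℝ) : ℂ) * Complex.I)
          • wf S Q τ n v' ξ (S.F (((-t : ℝ) : ℂ) * v') x)‖ ^ 2 = _
    have h3 : (((-t + t : ℝ) : ℂ)) * v' = 0 := by simp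
    rw [h3, hx0] at hx
    rw [hx]
    set w : ℂ := Complex.exp (((ξ * t : ℝ) : ℂ) * Complex.I) with hw
    have h4 : Complex.exp (((ξ * -t : ℝ) : ℂ) * Complex.I) * w = 1 := by
      rw [hw, ← Complex.exp_add]
      have : ((ξ * -t : ℝ) : ℂ) * Complex.I + ((ξ * t : ℝ) : ℂ) * Complex.I = 0 := by
        push_cast
        ring
      rw [this, Complex.exp_zero]
    set w2 : ℂ := Complex.exp (((ξ * -t : ℝ) : ℂ) * Complex.I) with hw2
    have h5 : ‖w2‖ = 1 := Complex.norm_exp_ofReal_mul_I _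
    have h6 : wf S Q τ n v' ξ (S.F (((-t : ℝ) : ℂ) * v') x) - w2 • wf S Q τ n v' ξ x
        = -(w2 • (wf S Q τ n v' ξ x - w • wf S Q τ n v' ξ (S.F (((-t : ℝ) : ℂ) * v') x))) := by
      rw [smul_sub, smul_smul, h4, one_smul]
      abel
    rw [h6, norm_neg, norm_smul, h5, one_mul]

end Pool.Agent.TF.I
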