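import Pool.Agent.Helper19.TF.FinA
import Pool.Agent.Helper19.TF.Vert
import Pool.Agent.Helper64.TF.Main

/-!
MP_e98778 FULL, module I: the data at one time scale (definitions for FinB1, FinB2, FinB).
-/

open MeasureTheory Set Filter Metric
open scoped ENNReal
open Pool.Agent.Helper87.LS Pool.Agent.Helper72.TF Pool.Agent.Helper64.TF

namespace Pool.Agent.TF.I

/-- The data at one time scale `T`. -/
structure Scale (S : Surf) (Q : ℂ → ℕ) (τ u₁ : ℝ) (σ : Measure ℝ) (n : ℕ)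
    (R δ T b M ε Cc B q₀ r₀ : ℝ) (s : Finset ℝ) : Prop where
  part : Part Q
  spec : IsSpec S Q τ (dir u₁) σ
  clus : Clus σ τ n R δ T b s
  disj : (s : Set ℝ).PairwiseDisjoint (fun ξ => closedBall ξ (1 / (R * T)))
  sM : σ.real univ ≤ M
  SM : S.μ.real univ ≤ M
  disp : ∀ z : ℂ, ‖z‖ ≤ r₀ → S.μ.real {x | Q (S.F z x) ≠ Q x} ≤ ε
  tr : τ ≤ r₀
  Cc0 : 0 ≤ Cc
  comm : ∀ a b : ℂ, S.μ.real {x | S.F a (S.F b x) ≠ S.F b (S.F a x)} ≤ Cc * (‖a‖ * ‖b‖)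
  B1 : 1 ≤ B
  RB : 9 * q₀ ^ 2 * B ^ 2 ≤ R

/-- The horizontal error. -/
noncomputable def Eh (Cc B ε : ℝ) : ℝ := 100 * (2 * Cc / B + ε)

/-- The vertical error. -/
noncomputable def Ev (M R δ κ ε b τ : ℝ) : ℝ :=
  9 * (M * (801 / R + 4 * δ)) + 1800 * κ + 300 * ε + 150 * ((b * τ) ^ 2 * M)

end Pool.Agent.TF.I
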