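import Pool.Agent.Helper19.TF.FinB0

/-!
BLOCK TF-I-FINB1: `sum_errH`, `sum_errV`. (The header is for the three blocks FINB1, FINB2, FINB.)

Notation: `v = dir u`, `w ξ = wf S Q τ n v ξ ∘ Ψ'` on `Y` (`Φ, Ψ'` from `LinIso S Y (gsu s u)`, `Ψ'` from `Y` to `S`), `E = e^s`, `q = √(1+u²) ≤ q₀`,
`mass ξ = ∫⁻ ‖w ξ‖² ∂Y.μ = ofReal ∫ ‖wf … ξ‖² ∂S.μ` (`lint_eq`, `norm_wf_le`),
`errH ξ = ∫⁻ h in Icc (-1) 1, ∫⁻ ‖w ξ (Y.F h y) - w ξ y‖²`, `errV ξ = ∫⁻ t in Icc (-1) 1, ∫⁻ ‖w ξ (Y.F (t I) y) - ex (ξ E q t) • w ξ y‖²`, `zm ξ = ∫⁻ y in Zᶜ…` the mass outside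
the cores (`Z = (⋃ i, core Y ρ i)ᶜ`).

`sum_errH`: for every `h`, `|h| ≤ 1`: by `lint_iso`, `gsu_symm_real`, `lint_eq` and `wf_hor` with the vector `e^{-s} h` (`‖·‖ ≤ e^{-s} ≤ 1/(B T)`, `n τ ≤ 2 T`) the sum over
`ξ ∈ s` is `≤ ofReal (100 (2 Cc / B + ε))`; `∑ ∫⁻ ≤ ∫⁻ ∑` (`le_lintegral_add`, no measurability in `h`), `volume (Icc (-1) 1) = 2`.
`sum_errV`: the same with `gsu_symm_imag` and `vert`: `t' = e^s q t`, `|t'| ≤ 3 B T q₀ ≤ √R T` (`9 q₀² B² ≤ R`), `ex (ξ e^s q t) = exp (i ξ t')`.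
`sum_zm`: `wf_sup` at every point, `Tame.volume_compl_core`: `∑ zm ξ ≤ 50 ofReal (24 S.n K³ ρ)`.
`good_close`: `errH ξ ≤ κ'² mass ξ`, `errV ξ ≤ (κ'²/8) mass ξ`, `2 zm ξ ≤ mass ξ`, `mass ξ ≠ 0`, `|ζ - ξ| ≤ 1/(R T)`: `|ex (ζ E q t) - ex (ξ E q t)| ≤ |ζ-ξ| E q ≤ 3 B q₀ / R`, so
the vertical error for `ζ` is `≤ 2 errV ξ + 4 (3 B q₀/R)² mass ξ ≤ κ'² mass ξ` (`72 q₀² B² ≤ κ'² R²`). So `AlmostEig Y (ζ E q) κ' (w ξ)`; closeness and `close_of` with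
`cY = ζ E q / (2π)`, `cY e^{-s} = ζ q / (2π)`.
`level`: for the other `ξ` (not good): `mass ξ ≤ κ'⁻² errH ξ + 8 κ'⁻² errV ξ + 2 zm ξ`. Sum, and `wf_mass`, `wf_psi`: the cores `closedBall ξ (1/(RT))` of the not good `ξ` have total mass
`≤ 4 ((2 Eh + 16 Ev)/κ'² + 2400 S.n K³ ρ) + 400 κ ≤ c₁`, all cores together have `≥ 2 c₁`, they are disjoint; the set in the conclusion contains the good cores
(and `||ζ| - |ξ|| ≤ 1/(R T) ≤ b₁/2`).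
-/

open MeasureTheory Set Filter Metric
open scoped ENNReal
open Pool.Agent.Helper87.LS Pool.Agent.Helper72.TF Pool.Agent.Helper64.TF

namespace Pool.Agent.TF.I

variable {S Y : Surf} {Q : ℂ → ℕ} {τ u₁ u lv : ℝ} {σ : Measure ℝ} {n : ℕ}
  {R δ T b M ε Cc B q₀ r₀ κ κ' ρ K : ℝ} {s : Finset ℝ} {Φ Ψ Ψ' : ℂ → ℂ}

private theorem h32_sum_lint {α ι : Type*} [MeasurableSpace α] (μ : Measure α) (s : Finset ι)
    (f : ι → α → ℝ≥0∞) : ∑ i ∈ s, ∫⁻ a, f i a ∂μ ≤ ∫⁻ a, ∑ i ∈ s, f i a ∂μ := by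
  classical
  induction s using Finset.induction_on with
  | empty => simp
  | insert i s hi ih =>
    rw [Finset.sum_insert hi]
    refine (add_le_add le_rfl ih).trans ((le_lintegral_add _ _).trans (le_of_eq ?_))
    refine lintegral_congr fun a => ?_
    rw [Finset.sum_insert hi]

private theorem h32_sum_Icc {ι : Type*} (s : Finset ι) (f : ι → ℝ → ℝ≥0∞) {C : ℝ}
    (h : ∀ t ∈ Icc (-1 : ℝ) 1, ∑ i ∈ s, f i t ≤ ENNReal.ofReal C) :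
    ∑ i ∈ s, ∫⁻ t in Icc (-1 : ℝ) 1, f i t ≤ ENNReal.ofReal (2 * C) := by
  refine (h32_sum_lint _ s f).trans ?_
  refine (setLIntegral_mono' measurableSet_Icc h).trans (le_of_eq ?_)
  rw [setLIntegral_const, Real.volume_Icc, ← ENNReal.ofReal_mul' (by norm_num), mul_comm]
  norm_num

private theorem h32_norm_dir (u : ℝ) : ‖dir u‖ = 1 := by
  have h1 : 0 < Real.sqrt (1 + u ^ 2) := Real.sqrt_pos.2 (by positivity)
  have h2 : ‖(u : ℂ) + Complex.I‖ = Real.sqrt (1 + u ^ 2) := by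
    have := Complex.norm_add_mul_I u 1
    rw [Complex.ofReal_one, one_mul] at this
    rw [this]
    congr 1
    ring
  unfold dir
  rw [norm_div, h2, Complex.norm_real, Real.norm_of_nonneg h1.le, div_self h1.ne']

/-- The transport of one term. -/
private theorem h32_term (hQ : Part Q)
    (hΨ' : MeasurePreserving Ψ' Y.μ S.μ)
    (hi : ∀ v : ℂ, ∀ᵐ y ∂Y.μ, Ψ' (Y.F v y) = S.F ((gsu lv u).symm v) (Ψ' y)) (ξ : ℝ) (v e : ℂ)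
    (he : ‖e‖ ≤ 1) :
    ∫⁻ y, ‖wf S Q τ n (dir u) ξ (Ψ' (Y.F v y)) - e • wf S Q τ n (dir u) ξ (Ψ' y)‖ₑ ^ 2 ∂Y.μ
      = ENNReal.ofReal (∫ x, ‖wf S Q τ n (dir u) ξ (S.F ((gsu lv u).symm v) x)
        - e • wf S Q τ n (dir u) ξ x‖ ^ 2 ∂S.μ) := by
  have hw := sm_wf S hQ τ n (dir u) ξ
  rw [lint_iso hΨ' hi hw v e]
  refine lint_eq (C := 2) ((hw.comp_measurable (S.measurable_F _)).sub (hw.const_smul e)) ?_
  intro x
  refine (norm_sub_le _ _).trans ?_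
  have h1 := norm_wf_le S Q τ n (dir u) ξ (S.F ((gsu lv u).symm v) x)
  have h2 := norm_wf_le S Q τ n (dir u) ξ x
  have h3 : ‖e • wf S Q τ n (dir u) ξ x‖ ≤ 1 := by
    rw [norm_smul]
    exact mul_le_one₀ he (norm_nonneg _) h2
  linarith

theorem sum_errH (hS : Scale S Q τ u₁ σ n R δ T b M ε Cc B q₀ r₀ s) (hu : Real.sqrt (1 + u ^ 2) ≤ q₀)
    (h1 : B * T ≤ Real.exp lv) (hr : Real.exp (-lv) ≤ r₀)
    (hΨ' : MeasurePreserving Ψ' Y.μ S.μ)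
    (hi : ∀ v : ℂ, ∀ᵐ y ∂Y.μ, Ψ' (Y.F v y) = S.F ((gsu lv u).symm v) (Ψ' y)) :
    ∑ ξ ∈ s, ∫⁻ h in Icc (-1 : ℝ) 1, ∫⁻ y, ‖wf S Q τ n (dir u) ξ (Ψ' (Y.F (h : ℂ) y))
      - wf S Q τ n (dir u) ξ (Ψ' y)‖ₑ ^ 2 ∂Y.μ ≤ ENNReal.ofReal (2 * Eh Cc B ε) := by
  have hT : 0 < T := hS.clus.T0
  have hB : 0 < B := lt_of_lt_of_le one_pos hS.B1
  refine h32_sum_Icc s _ fun h hh => ?_
  have hterm : ∀ ξ : ℝ, ∫⁻ y, ‖wf S Q τ n (dir u) ξ (Ψ' (Y.F (h : ℂ) y))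
      - wf S Q τ n (dir u) ξ (Ψ' y)‖ₑ ^ 2 ∂Y.μ
      = ENNReal.ofReal (∫ x, ‖wf S Q τ n (dir u) ξ (S.F ((Real.exp (-lv) * h : ℝ) : ℂ) x)
        - wf S Q τ n (dir u) ξ x‖ ^ 2 ∂S.μ) := by
    intro ξ
    have h3 := h32_term (τ := τ) (n := n) hS.part hΨ' hi ξ (h : ℂ) 1 (by simp)
    simp only [one_smul] at h3
    rw [h3, gsu_symm_real]
  simp only [hterm]
  rw [← ENNReal.ofReal_sum_of_nonneg fun ξ _ => integral_nonneg fun x => by positivity]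
  refine ENNReal.ofReal_le_ofReal ?_
  have habs : |h| ≤ 1 := abs_le.2 ⟨hh.1, hh.2⟩
  have hnorm : ‖((Real.exp (-lv) * h : ℝ) : ℂ)‖ ≤ Real.exp (-lv) := by
    rw [Complex.norm_real, Real.norm_eq_abs, abs_mul, abs_of_pos (Real.exp_pos _)]
    exact mul_le_of_le_one_right (Real.exp_pos _).le habs
  have h4 := wf_hor S hS.part hS.Cc0 hS.comm hS.clus.freq (h32_norm_dir u)
    ((Real.exp (-lv) * h : ℝ) : ℂ) (hS.disp _ (hnorm.trans hr))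
  refine h4.trans ?_
  unfold Eh
  have h5 : n * τ * ‖((Real.exp (-lv) * h : ℝ) : ℂ)‖ ≤ 2 / B := by
    have h6 : Real.exp (-lv) ≤ 1 / (B * T) := by
      rw [Real.exp_neg, ← one_div]
      exact one_div_le_one_div_of_le (by positivity) h1
    calc n * τ * ‖((Real.exp (-lv) * h : ℝ) : ℂ)‖ ≤ 2 * T * (1 / (B * T)) := by
          refine mul_le_mul hS.clus.nT2 (hnorm.trans h6) (norm_nonneg _) (by positivity)
      _ = 2 / B := by field_simp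
  have h7 : Cc * (n * τ * ‖((Real.exp (-lv) * h : ℝ) : ℂ)‖) ≤ 2 * Cc / B := by
    calc Cc * (n * τ * ‖((Real.exp (-lv) * h : ℝ) : ℂ)‖) ≤ Cc * (2 / B) :=
          mul_le_mul_of_nonneg_left h5 hS.Cc0
      _ = 2 * Cc / B := by ring
  linarith

theorem sum_errV (hS : Scale S Q τ u₁ σ n R δ T b M ε Cc B q₀ r₀ s) (hu : Real.sqrt (1 + u ^ 2) ≤ q₀)
    (hΨ : Inter S (dir u₁) (dir u) Ψ) (hκ : S.μ.real {x | Q (Ψ x) ≠ Q x} ≤ κ)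
    (h2 : Real.exp lv ≤ 3 * B * T)
    (hΨ' : MeasurePreserving Ψ' Y.μ S.μ)
    (hi : ∀ v : ℂ, ∀ᵐ y ∂Y.μ, Ψ' (Y.F v y) = S.F ((gsu lv u).symm v) (Ψ' y)) :
    ∑ ξ ∈ s, ∫⁻ t in Icc (-1 : ℝ) 1, ∫⁻ y,
      ‖wf S Q τ n (dir u) ξ (Ψ' (Y.F ((t : ℂ) * Complex.I) y))
      - ex (ξ * (Real.exp lv * Real.sqrt (1 + u ^ 2)) * t) • wf S Q τ n (dir u) ξ (Ψ' y)‖ₑ ^ 2 ∂Y.μ
      ≤ ENNReal.ofReal (2 * Ev M R δ κ ε b τ) := by
  have hT : 0 < T := hS.clus.T0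
  have hB : 0 < B := lt_of_lt_of_le one_pos hS.B1
  have hR : 0 ≤ R := by linarith [hS.clus.R8]
  refine h32_sum_Icc s _ fun t ht => ?_
  set t' : ℝ := Real.exp lv * Real.sqrt (1 + u ^ 2) * t with ht'
  have hterm : ∀ ξ : ℝ, ∫⁻ y, ‖wf S Q τ n (dir u) ξ (Ψ' (Y.F ((t : ℂ) * Complex.I) y))
      - ex (ξ * (Real.exp lv * Real.sqrt (1 + u ^ 2)) * t) • wf S Q τ n (dir u) ξ (Ψ' y)‖ₑ ^ 2
        ∂Y.μ
      = ENNReal.ofReal (∫ x, ‖wf S Q τ n (dir u) ξ (S.F ((t' : ℂ) * dir u) x)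
        - Complex.exp (((ξ * t' : ℝ) : ℂ) * Complex.I) • wf S Q τ n (dir u) ξ x‖ ^ 2 ∂S.μ) := by
    intro ξ
    have he : ex (ξ * (Real.exp lv * Real.sqrt (1 + u ^ 2)) * t)
        = Complex.exp (((ξ * t' : ℝ) : ℂ) * Complex.I) := by
      unfold ex
      rw [ht', mul_assoc]
    rw [he]
    have h3 := h32_term (τ := τ) (n := n) hS.part hΨ' hi ξ ((t : ℂ) * Complex.I)
      (Complex.exp (((ξ * t' : ℝ) : ℂ) * Complex.I))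
      (by rw [Complex.norm_exp_ofReal_mul_I])
    rw [h3, gsu_symm_imag]
  simp only [hterm]
  rw [← ENNReal.ofReal_sum_of_nonneg fun ξ _ => integral_nonneg fun x => by positivity]
  refine ENNReal.ofReal_le_ofReal ?_
  have habs : |t| ≤ 1 := abs_le.2 ⟨ht.1, ht.2⟩
  have hq0 : 0 ≤ Real.sqrt (1 + u ^ 2) := Real.sqrt_nonneg _
  have hq1 : 0 ≤ q₀ := hq0.trans hu
  have hRq : 3 * B * q₀ ≤ Real.sqrt R := by
    refine Real.le_sqrt_of_sq_le ?_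
    calc (3 * B * q₀) ^ 2 = 9 * q₀ ^ 2 * B ^ 2 := by ring
      _ ≤ R := hS.RB
  have ht1 : |t'| ≤ Real.sqrt R * T := by
    rw [ht', abs_mul, abs_mul, abs_of_pos (Real.exp_pos _), abs_of_nonneg hq0]
    calc Real.exp lv * Real.sqrt (1 + u ^ 2) * |t| ≤ 3 * B * T * q₀ * 1 := by
          refine mul_le_mul (mul_le_mul h2 hu hq0 (by positivity)) habs (abs_nonneg _) ?_
          positivity
      _ = 3 * B * q₀ * T := by ring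
      _ ≤ Real.sqrt R * T := mul_le_mul_of_nonneg_right hRq hT.le
  refine vert S hS.part hS.spec hS.clus hS.sM hS.SM hΨ hκ ?_ ht1
  intro r hr0 hr1
  refine hS.disp _ ?_
  rw [norm_mul, h32_norm_dir, mul_one, Complex.norm_real, Real.norm_of_nonneg hr0]
  exact hr1.trans hS.tr

end Pool.Agent.TF.I
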