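import Mathlib

/-!
BLOCK TF-I-SDA. Density points and infinitely many good levels (pure measure theory on the line, arbitrary sets, outer measure).

Bad sets `B s` with `volume (B s ∩ J) ≤ |J|/10` for all large `s`. Let `E = {u ∈ J | u ∈ B s for all large s} = ⋃_N ⋂_{s ≥ N} (B s ∩ J)`:
`volume E ≤ |J|/10` (increasing union of arbitrary sets: `Monotone.measure_iUnion` / `Directed.measure_iUnion`, valid for non-measurable sets).
`U'' = (U ∩ J) \ E` has `volume U'' > 0`, as `(19/20) |J| ≤ volume (U ∩ J) ≤ volume U'' + volume E`. Almost every point of `U''` is a density point of `U''`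
(`Besicovitch.ae_tendsto_measure_inter_div volume U''` holds for every set), so there is one, `u ∈ U''`: `volume (U'' ∩ closedBall u r) / volume (closedBall u r) → 1`
as `r → 0+`. Take `r = (C + ρ) e^{-2s}`, `s` large, `u ∉ B s` (infinitely many such `s`, as `u ∉ E`): if some `x`, `|x - u| ≤ C e^{-2s}`, had no point
of `U` within `ρ e^{-2s}`, then the interval `[x - ρ e^{-2s}, x + ρ e^{-2s}] ⊆ closedBall u r` misses `U''`, so
`volume (U'' ∩ closedBall u r) ≤ (1 - ρ/(C+ρ)) volume (closedBall u r)` (outer measure: `U'' ∩ closedBall` is inside the measurable set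
`closedBall u r \ Icc (x - ρ e^{-2s}) (x + ρ e^{-2s})`): contradiction for large `s`.
`exists_arc`: a density point `u` of `U ⊆ (-1, 1)` (up to two points) and a small symmetric interval around it.
-/

open MeasureTheory Set Filter Topology

namespace Pool.Agent.TF.I

private theorem dens {U : Set ℝ} (h0 : volume U ≠ 0) (T : Set ℝ) (hT : volume T = 0) {δ : ℝ}
    (hδ : δ < 1) :
    ∃ u ∈ U, u ∉ T ∧ ∃ r0 : ℝ, 0 < r0 ∧ ∀ r, 0 < r → r < r0 →
      ENNReal.ofReal (δ * (2 * r)) < volume (U ∩ Icc (u - r) (u + r)) := by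
  have h1 := Besicovitch.ae_tendsto_measure_inter_div (volume : Measure ℝ) U
  have h2 : volume ({u | ¬ Tendsto (fun r => volume (U ∩ Metric.closedBall u r) /
      volume (Metric.closedBall u r)) (𝓝[>] 0) (𝓝 1)} ∩ U) = 0 :=
    le_antisymm ((Measure.le_restrict_apply _ _).trans (ae_iff.1 h1).le) zero_le
  have h3 : ∃ u ∈ U, u ∉ T ∧ Tendsto (fun r => volume (U ∩ Metric.closedBall u r) /
      volume (Metric.closedBall u r)) (𝓝[>] 0) (𝓝 1) := by
    by_contra hcon
    push Not at hcon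
    refine h0 (measure_mono_null (t := ({u | ¬ Tendsto (fun r => volume (U ∩ Metric.closedBall u r) /
      volume (Metric.closedBall u r)) (𝓝[>] 0) (𝓝 1)} ∩ U) ∪ T) ?_ ?_)
    · intro u hu
      by_cases huT : u ∈ T
      · exact Or.inr huT
      · exact Or.inl ⟨hcon u hu huT, hu⟩
    · exact measure_union_null h2 hT
  obtain ⟨u, hu, huT, ht⟩ := h3
  refine ⟨u, hu, huT, ?_⟩
  have h4 : ENNReal.ofReal δ < 1 := by
    rw [← ENNReal.ofReal_one]
    exact (ENNReal.ofReal_lt_ofReal_iff one_pos).2 hδ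
  have h5 := (tendsto_order.1 ht).1 _ h4
  rw [eventually_nhdsWithin_iff, Metric.eventually_nhds_iff] at h5
  obtain ⟨r0, hr0, h6⟩ := h5
  refine ⟨r0, hr0, fun r hr hrr => ?_⟩
  have h7 := h6 (y := r) (by rw [Real.dist_eq, sub_zero, abs_of_pos hr]; exact hrr) hr
  rw [Real.volume_closedBall, Real.closedBall_eq_Icc] at h7
  have h8 : ENNReal.ofReal (2 * r) ≠ 0 := by
    simp only [ne_eq, ENNReal.ofReal_eq_zero, not_le]
    linarith
  have h9 := (ENNReal.lt_div_iff_mul_lt (Or.inl h8) (Or.inl ENNReal.ofReal_ne_top)).1 h7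
  rwa [← ENNReal.ofReal_mul' (by linarith)] at h9

theorem seedA {U : Set ℝ} {α β : ℝ} (hαβ : α < β)
    (hU : ENNReal.ofReal (19 / 20 * (β - α)) ≤ volume (U ∩ Icc α β)) (B : ℕ → Set ℝ)
    (hB : ∀ᶠ s in atTop, volume (B s ∩ Icc α β) ≤ ENNReal.ofReal ((β - α) / 10))
    {C ρ : ℝ} (hC : 0 < C) (hρ : 0 < ρ) (N : ℕ) :
    ∃ s : ℕ, N ≤ s ∧ ∃ u ∈ U ∩ Icc α β, u ∉ B s ∧
      ∀ x : ℝ, |x - u| ≤ C * Real.exp (-(2 * s)) → ∃ u' ∈ U, |u' - x| ≤ ρ * Real.exp (-(2 * s)) := by
  classical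
  obtain ⟨S0, hS0⟩ := eventually_atTop.1 hB
  set E : ℕ → Set ℝ := fun M => {u | u ∈ Icc α β ∧ ∀ s, M ≤ s → u ∈ B s} with hE
  have hEmono : Monotone E := by
    intro M M' hMM u hu
    exact ⟨hu.1, fun s hs => hu.2 s (hMM.trans hs)⟩
  have hEle : volume (⋃ M, E M) ≤ ENNReal.ofReal ((β - α) / 10) := by
    rw [hEmono.measure_iUnion]
    refine iSup_le fun M => ?_
    refine (measure_mono ?_).trans (hS0 (max M S0) (le_max_right _ _))
    intro u hu
    exact ⟨hu.2 _ (le_max_left _ _), hu.1⟩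
  set U2 : Set ℝ := (U ∩ Icc α β) \ ⋃ M, E M with hU2
  have hU2pos : volume U2 ≠ 0 := by
    intro h0
    have h1 : volume (U ∩ Icc α β) ≤ volume U2 + volume (⋃ M, E M) := by
      refine (measure_mono ?_).trans (measure_union_le _ _)
      intro u hu
      by_cases h : u ∈ ⋃ M, E M
      · exact Or.inr h
      · exact Or.inl ⟨hu, h⟩
    rw [h0, zero_add] at h1
    have h2 := (hU.trans h1).trans hEle
    rw [ENNReal.ofReal_le_ofReal_iff (by linarith)] at h2
    linarith
  have hδ : C / (C + ρ) < 1 := by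
    rw [div_lt_one (by linarith)]
    linarith
  obtain ⟨u, hu, -, r0, hr0, hdens⟩ := dens hU2pos ∅ (by simp) hδ
  have hto : Tendsto (fun s : ℕ => (C + ρ) * Real.exp (-(2 * (s : ℝ)))) atTop (𝓝 0) := by
    have h1 : Tendsto (fun s : ℕ => 2 * (s : ℝ)) atTop atTop :=
      tendsto_natCast_atTop_atTop.const_mul_atTop (by norm_num)
    have h2 := (Real.tendsto_exp_neg_atTop_nhds_zero.comp h1).const_mul (C + ρ)
    simpa [Function.comp_def] using h2
  obtain ⟨S1, hS1⟩ := eventually_atTop.1 ((tendsto_order.1 hto).2 r0 hr0)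
  have hnE : ∀ M, ∃ s, M ≤ s ∧ u ∉ B s := by
    intro M
    by_contra hcon
    push Not at hcon
    exact hu.2 (mem_iUnion.2 ⟨M, hu.1.2, hcon⟩)
  obtain ⟨s, hs, huB⟩ := hnE (max N S1)
  refine ⟨s, (le_max_left _ _).trans hs, u, hu.1, huB, ?_⟩
  intro x hx
  by_contra hcon
  push Not at hcon
  set e : ℝ := Real.exp (-(2 * (s : ℝ))) with he
  have hepos : 0 < e := Real.exp_pos _
  have hCe : 0 < C * e := mul_pos hC hepos
  have hρe : 0 < ρ * e := mul_pos hρ hepos
  have hr : 0 < (C + ρ) * e := by nlinarith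
  have h1 := hdens ((C + ρ) * e) hr (hS1 s ((le_max_right _ _).trans hs))
  have h2 : C / (C + ρ) * (2 * ((C + ρ) * e)) = 2 * (C * e) := by
    field_simp
  rw [h2] at h1
  have habs := abs_le.1 hx
  have hsub : Icc (x - ρ * e) (x + ρ * e) ⊆ Icc (u - (C + ρ) * e) (u + (C + ρ) * e) := by
    apply Icc_subset_Icc
    · linarith [habs.1, habs.2]
    · linarith [habs.1, habs.2]
  have h3 : volume (U2 ∩ Icc (u - (C + ρ) * e) (u + (C + ρ) * e)) ≤
      volume (Icc (u - (C + ρ) * e) (u + (C + ρ) * e) \ Icc (x - ρ * e) (x + ρ * e)) := by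
    apply measure_mono
    rintro y ⟨hy, hy2⟩
    refine ⟨hy2, fun hy3 => ?_⟩
    have h4 := hcon y hy.1.1
    have h5 : |y - x| ≤ ρ * e := abs_le.2 ⟨by linarith [hy3.1], by linarith [hy3.2]⟩
    linarith
  rw [measure_sdiff hsub measurableSet_Icc.nullMeasurableSet (by
      rw [Real.volume_Icc]; exact ENNReal.ofReal_ne_top), Real.volume_Icc, Real.volume_Icc,
      ← ENNReal.ofReal_sub _ (by linarith)] at h3
  have h6 := h1.trans_le h3
  have h7 : u + (C + ρ) * e - (u - (C + ρ) * e) - (x + ρ * e - (x - ρ * e)) = 2 * (C * e) := by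
    ring
  rw [h7] at h6
  exact lt_irrefl _ h6

theorem exists_arc {U : Set ℝ} (hU : U ⊆ Icc (-1) 1) (h0 : volume U ≠ 0) {ε : ℝ} (hε : 0 < ε) :
    ∃ α β : ℝ, -1 ≤ α ∧ α < β ∧ β ≤ 1 ∧
      ENNReal.ofReal ((1 - ε) * (β - α)) ≤ volume (U ∩ Icc α β) := by
  obtain ⟨u, hu, huT, r0, hr0, hd⟩ := dens h0 ({-1, 1} : Set ℝ)
    ((Set.toFinite ({-1, 1} : Set ℝ)).measure_zero volume) (show 1 - ε < 1 by linarith)
  have hm := hU hu
  have hu1 : -1 < u := by
    rcases lt_or_eq_of_le hm.1 with h | h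
    · exact h
    · exact absurd (by simp [← h]) huT
  have hu2 : u < 1 := by
    rcases lt_or_eq_of_le hm.2 with h | h
    · exact h
    · exact absurd (by simp [h]) huT
  set r : ℝ := min (r0 / 2) (min (u + 1) (1 - u)) with hr
  have hrpos : 0 < r := by
    rw [hr]
    refine lt_min (by linarith) (lt_min (by linarith) (by linarith))
  have hr1 : r ≤ r0 / 2 := min_le_left _ _
  have hr2 : r ≤ u + 1 := (min_le_right _ _).trans (min_le_left _ _)
  have hr3 : r ≤ 1 - u := (min_le_right _ _).trans (min_le_right _ _)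
  refine ⟨u - r, u + r, by linarith, by linarith, by linarith, ?_⟩
  have h1 := hd r hrpos (by linarith)
  have h2 : u + r - (u - r) = 2 * r := by ring
  rw [h2]
  exact h1.le

end Pool.Agent.TF.I
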