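import Pool.Agent.Helper19.TF.CylA
import Pool.Agent.Helper19.TF.SeedA

/-!
BLOCK TF-I-SEED. Long cylinders almost parallel to a direction of `U`.

Choose `r ≥ 0` with `3 n K e^{-r} G ≤ a / 2` (`n = S.n`) and `y₀ = a e^{-r} / (6 n K)`. Let `B s = {u | ¬ (TameAt S K s u ∧ TameAt S K (s - r) u)}`,
`hB` of `seedA` from `htame`. `seedA` with `C = G / y₀ + 1` and `ρ' = min (ρ / (G^2 + 1)) (ρ / (G + 1))`, `N` large (`N ≥ s₀ + r`, `e^N y₀ ≥ t₀`) gives `s`, `u`.
`Y` of `TameAt S K s u`, `w_Y = X + i y` with `Cyl Y w_Y a`, `0 < ‖w_Y‖ ≤ G` (`hcyl`); `w = (gsu s u)⁻¹ w_Y = e^s y (u_w + i)` with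
`u_w = u + e^{-2s} X / y`, `Cyl S w a` (`cyl_map`, `det_gsu`). `|y| ≥ y₀`: let `Y'` be the surface of `TameAt S K (s - r) u`; by `cyl_map'`
`Cyl Y' (gsu (s-r) u w) a`, and `gsu (s-r) u w = e^{-r} X + i e^r y ≠ 0`, so `cyl_short` gives `a ≤ 3 n K (e^{-r} G + e^r |y|)`.
(In particular `y ≠ 0`.) `|u_w - u| ≤ C e^{-2s}`, so some `u' ∈ U` has `|u' - u_w| ≤ ρ' e^{-2s}`. Put `t = e^s y √(1 + u'²)`:
`t dir u' = e^s y (u' + i)`, `‖w - t dir u'‖ = e^s |y| |u_w - u'| ≤ G ρ'`, `cr w (t dir u') = e^{2s} y² (u_w - u')`, `|t| ≥ e^s y₀`.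
-/

open MeasureTheory Set Filter Topology
open Pool.Agent.Helper87.LS Pool.Agent.Helper72.TF

namespace Pool.Agent.TF.I

private theorem sqrt_pos38 (u : ℝ) : 0 < Real.sqrt (1 + u ^ 2) := Real.sqrt_pos.2 (by positivity)

theorem norm_dir (u : ℝ) : ‖dir u‖ = 1 := by
  have h0 := sqrt_pos38 u
  rw [dir, norm_div, Complex.norm_real, Real.norm_of_nonneg h0.le]
  have h1 : ‖(u : ℂ) + Complex.I‖ = Real.sqrt (1 + u ^ 2) := by
    rw [Complex.norm_def, Complex.normSq_apply]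
    congr 1
    simp
    ring
  rw [h1, div_self h0.ne']

theorem mul_dir (r u : ℝ) : ((r * Real.sqrt (1 + u ^ 2) : ℝ) : ℂ) * dir u = (r : ℂ) * ((u : ℂ) + Complex.I) := by
  have h0 : ((Real.sqrt (1 + u ^ 2) : ℝ) : ℂ) ≠ 0 := by
    exact_mod_cast (sqrt_pos38 u).ne'
  rw [dir, Complex.ofReal_mul]
  field_simp

theorem seed (S : Surf) {K G a : ℝ} (hK : 0 < K) (hG : 0 < G) (ha : 0 < a)
    (hcyl : ∀ Y : Surf, Y.n = S.n → Connected Y → (∀ e, ‖Y.vec e‖ ≤ K) → (∀ i, 1 / K ≤ Y.area2 i) → ∃ w : ℂ, w ≠ 0 ∧ ‖w‖ ≤ G ∧ Cyl Y w a)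
    {U : Set ℝ} {α β : ℝ} (hαβ : α < β)
    (hU : ENNReal.ofReal (19 / 20 * (β - α)) ≤ volume (U ∩ Icc α β)) {s₀ : ℝ}
    (htame : ∀ s : ℝ, s₀ ≤ s →
      volume {u ∈ Icc α β | ¬ TameAt S K s u} ≤ ENNReal.ofReal ((β - α) / 20))
    {t₀ ρ : ℝ} (hρ : 0 < ρ) :
    ∃ u' ∈ U, ∃ (w : ℂ) (t : ℝ), Cyl S w a ∧ t₀ ≤ |t| ∧ ‖w - (t : ℂ) * dir u'‖ ≤ ρ ∧
      |cr w ((t : ℂ) * dir u')| ≤ ρ := by
  set n : ℝ := (S.n : ℝ) + 1 with hn
  have hn0 : 0 < n := by positivity
  have hSn : (S.n : ℝ) ≤ n := by rw [hn]; linarith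
  -- the constant `r`
  obtain ⟨r, hr0, hr⟩ : ∃ r : ℝ, 0 ≤ r ∧ 3 * n * K * (Real.exp (-r) * G) ≤ a / 2 := by
    have hc : 0 < a / 2 / (3 * n * K * G) := by positivity
    refine ⟨max 0 (-Real.log (a / 2 / (3 * n * K * G))), le_max_left _ _, ?_⟩
    have h1 : Real.exp (-(max 0 (-Real.log (a / 2 / (3 * n * K * G))))) ≤ a / 2 / (3 * n * K * G) := by
      calc Real.exp (-(max 0 (-Real.log (a / 2 / (3 * n * K * G)))))
          ≤ Real.exp (Real.log (a / 2 / (3 * n * K * G))) := by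
            apply Real.exp_le_exp.2
            have := le_max_right (0 : ℝ) (-Real.log (a / 2 / (3 * n * K * G)))
            linarith
        _ = _ := Real.exp_log hc
    calc 3 * n * K * (Real.exp (-(max 0 (-Real.log (a / 2 / (3 * n * K * G))))) * G)
        = (3 * n * K * G) * Real.exp (-(max 0 (-Real.log (a / 2 / (3 * n * K * G))))) := by ring
      _ ≤ (3 * n * K * G) * (a / 2 / (3 * n * K * G)) := by gcongr
      _ = a / 2 := by field_simp
  set y₀ : ℝ := a * Real.exp (-r) / (6 * n * K) with hy₀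
  have hy₀0 : 0 < y₀ := by positivity
  -- bad sets
  set B : ℕ → Set ℝ := fun s => {u | ¬ (TameAt S K (s : ℝ) u ∧ TameAt S K ((s : ℝ) - r) u)} with hBdef
  have hB : ∀ᶠ s in atTop, volume (B s ∩ Icc α β) ≤ ENNReal.ofReal ((β - α) / 10) := by
    filter_upwards [eventually_ge_atTop (Nat.ceil (s₀ + r))] with s hs
    have hs1 : s₀ + r ≤ (s : ℝ) := (Nat.le_ceil _).trans (by exact_mod_cast hs)
    have h1 := htame (s : ℝ) (by linarith)
    have h2 := htame ((s : ℝ) - r) (by linarith)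
    have hsub : B s ∩ Icc α β ⊆ {u ∈ Icc α β | ¬ TameAt S K (s : ℝ) u} ∪
        {u ∈ Icc α β | ¬ TameAt S K ((s : ℝ) - r) u} := by
      rintro u ⟨hu1, hu2⟩
      by_cases h : TameAt S K (s : ℝ) u
      · right
        refine ⟨hu2, fun h' => hu1 ⟨h, h'⟩⟩
      · left
        exact ⟨hu2, h⟩
    calc volume (B s ∩ Icc α β) ≤ volume ({u ∈ Icc α β | ¬ TameAt S K (s : ℝ) u} ∪
        {u ∈ Icc α β | ¬ TameAt S K ((s : ℝ) - r) u}) := measure_mono hsub
      _ ≤ volume {u ∈ Icc α β | ¬ TameAt S K (s : ℝ) u} +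
        volume {u ∈ Icc α β | ¬ TameAt S K ((s : ℝ) - r) u} := measure_union_le _ _
      _ ≤ ENNReal.ofReal ((β - α) / 20) + ENNReal.ofReal ((β - α) / 20) := add_le_add h1 h2
      _ = ENNReal.ofReal ((β - α) / 10) := by
          rw [← ENNReal.ofReal_add (by linarith) (by linarith)]
          congr 1
          ring
  set ρ' : ℝ := min (ρ / (G ^ 2 + 1)) (ρ / (G + 1)) with hρ'
  have hρ'0 : 0 < ρ' := lt_min (by positivity) (by positivity)
  have hρ1 : G ^ 2 * ρ' ≤ ρ := by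
    calc G ^ 2 * ρ' ≤ (G ^ 2 + 1) * (ρ / (G ^ 2 + 1)) := by
          apply mul_le_mul (by linarith) (min_le_left _ _) hρ'0.le (by positivity)
      _ = ρ := by field_simp
  have hρ2 : G * ρ' ≤ ρ := by
    calc G * ρ' ≤ (G + 1) * (ρ / (G + 1)) := by
          apply mul_le_mul (by linarith) (min_le_right _ _) hρ'0.le (by positivity)
      _ = ρ := by field_simp
  obtain ⟨s, hsN, u, ⟨huU, huI⟩, huB, hx⟩ := seedA hαβ hU B hB (C := G / y₀ + 1) (ρ := ρ')
    (by positivity) hρ'0 (Nat.ceil (|t₀| / y₀))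
  have hsN' : |t₀| / y₀ ≤ (s : ℝ) := (Nat.le_ceil _).trans (by exact_mod_cast hsN)
  have hs0 : (0 : ℝ) ≤ s := Nat.cast_nonneg s
  have huB' : TameAt S K (s : ℝ) u ∧ TameAt S K ((s : ℝ) - r) u := by
    by_contra h
    exact huB h
  obtain ⟨⟨Y, hYn, hYc, hYK, hYa, hYe⟩, ⟨Z, hZn, hZc, hZK, hZa, hZe⟩⟩ := huB'
  obtain ⟨wY, hwY0, hwYG, hwYC⟩ := hcyl Y hYn hYc hYK hYa
  set w : ℂ := (gsu (s : ℝ) u).symm wY with hw
  have hwC : Cyl S w a := cyl_map (det_gsu (s : ℝ) u) hYe.iso hwYC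
  have hwre : w.re = Real.exp (-(s : ℝ)) * wY.re + u * (Real.exp (s : ℝ) * wY.im) := rfl
  have hwim : w.im = Real.exp (s : ℝ) * wY.im := rfl
  have hXG : |wY.re| ≤ G := (Complex.abs_re_le_norm wY).trans hwYG
  have hyG : |wY.im| ≤ G := (Complex.abs_im_le_norm wY).trans hwYG
  -- the level `s - r`
  set wZ : ℂ := gsu ((s : ℝ) - r) u w with hwZ
  have hwZC : Cyl Z wZ a := cyl_map' (det_gsu ((s : ℝ) - r) u) hZe.iso hwC
  have hwZre : wZ.re = Real.exp (-r) * wY.re := by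
    rw [hwZ, gsu_re, hwre, hwim]
    have h1 : Real.exp ((s : ℝ) - r) * Real.exp (-(s : ℝ)) = Real.exp (-r) := by
      rw [← Real.exp_add]; congr 1; ring
    linear_combination wY.re * h1
  have hwZim : wZ.im = Real.exp r * wY.im := by
    rw [hwZ, gsu_im, hwim]
    have h1 : Real.exp (-((s : ℝ) - r)) * Real.exp (s : ℝ) = Real.exp r := by
      rw [← Real.exp_add]; congr 1; ring
    linear_combination wY.im * h1
  have hwZ0 : wZ ≠ 0 := by
    intro h
    apply hwY0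
    apply Complex.ext
    · have : Real.exp (-r) * wY.re = 0 := by rw [← hwZre, h]; rfl
      rcases mul_eq_zero.1 this with h | h
      · exact absurd h (Real.exp_pos _).ne'
      · simpa using h
    · have : Real.exp r * wY.im = 0 := by rw [← hwZim, h]; rfl
      rcases mul_eq_zero.1 this with h | h
      · exact absurd h (Real.exp_pos _).ne'
      · simpa using h
  have hshort := cyl_short Z hZK hwZ0 ha.le hwZC
  have hnormZ : ‖wZ‖ ≤ Real.exp (-r) * G + Real.exp r * |wY.im| := by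
    calc ‖wZ‖ ≤ |wZ.re| + |wZ.im| := Complex.norm_le_abs_re_add_abs_im wZ
      _ = Real.exp (-r) * |wY.re| + Real.exp r * |wY.im| := by
          rw [hwZre, hwZim, abs_mul, abs_mul, abs_of_pos (Real.exp_pos _), abs_of_pos (Real.exp_pos _)]
      _ ≤ _ := by gcongr
  have hy : y₀ ≤ |wY.im| := by
    have h1 : a ≤ 3 * n * (K * (Real.exp (-r) * G + Real.exp r * |wY.im|)) := by
      calc a ≤ 3 * Z.n * (K * ‖wZ‖) := hshort
        _ = 3 * (S.n : ℝ) * (K * ‖wZ‖) := by rw [hZn]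
        _ ≤ 3 * n * (K * (Real.exp (-r) * G + Real.exp r * |wY.im|)) := by gcongr
    have h2 : a / 2 ≤ 3 * n * K * (Real.exp r * |wY.im|) := by
      have : 3 * n * (K * (Real.exp (-r) * G + Real.exp r * |wY.im|))
        = 3 * n * K * (Real.exp (-r) * G) + 3 * n * K * (Real.exp r * |wY.im|) := by ring
      linarith
    have h3 : Real.exp (-r) * Real.exp r = 1 := by rw [← Real.exp_add]; simp
    rw [hy₀, div_le_iff₀ (by positivity)]
    calc a * Real.exp (-r) = 2 * (a / 2) * Real.exp (-r) := by ring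
      _ ≤ 2 * (3 * n * K * (Real.exp r * |wY.im|)) * Real.exp (-r) := by gcongr
      _ = |wY.im| * (6 * n * K) * (Real.exp (-r) * Real.exp r) := by ring
      _ = |wY.im| * (6 * n * K) := by rw [h3, mul_one]
  have hy0 : 0 < |wY.im| := lt_of_lt_of_le hy₀0 hy
  have hyne : wY.im ≠ 0 := abs_pos.1 hy0
  set e1 : ℝ := Real.exp (s : ℝ) with he1
  have he1pos : 0 < e1 := Real.exp_pos _
  have he1one : 1 ≤ e1 := Real.one_le_exp hs0
  have hem1 : Real.exp (-(s : ℝ)) = e1⁻¹ := Real.exp_neg _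
  have hem2 : Real.exp (-(2 * (s : ℝ))) = (e1 ^ 2)⁻¹ := by
    rw [Real.exp_neg]
    congr 1
    rw [he1, ← Real.exp_nat_mul]
    norm_num
  set uw : ℝ := u + Real.exp (-(2 * (s : ℝ))) * wY.re / wY.im with huw
  have huwu : |uw - u| ≤ (G / y₀ + 1) * Real.exp (-(2 * (s : ℝ))) := by
    have h1 : uw - u = Real.exp (-(2 * (s : ℝ))) * (wY.re / wY.im) := by rw [huw]; ring
    rw [h1, abs_mul, abs_of_pos (Real.exp_pos _), abs_div, mul_comm]
    gcongr
    calc |wY.re| / |wY.im| ≤ G / y₀ := by gcongr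
      _ ≤ G / y₀ + 1 := by linarith
  obtain ⟨u', hu'U, hu'⟩ := hx uw huwu
  refine ⟨u', hu'U, w, (e1 * wY.im) * Real.sqrt (1 + u' ^ 2), hwC, ?_, ?_, ?_⟩
  · rw [abs_mul, abs_mul, abs_of_pos he1pos, abs_of_pos (sqrt_pos38 u')]
    have h1 : 1 ≤ Real.sqrt (1 + u' ^ 2) := by
      rw [Real.one_le_sqrt]; nlinarith [sq_nonneg u']
    have h2 : (s : ℝ) ≤ e1 := by
      have := Real.add_one_le_exp (s : ℝ)
      rw [← he1] at this
      linarith
    calc t₀ ≤ |t₀| := le_abs_self _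
      _ = |t₀| / y₀ * y₀ := by field_simp
      _ ≤ e1 * |wY.im| := by
          apply mul_le_mul (hsN'.trans h2) hy hy₀0.le he1pos.le
      _ ≤ e1 * |wY.im| * Real.sqrt (1 + u' ^ 2) := by
          apply le_mul_of_one_le_right (by positivity) h1
  · rw [mul_dir]
    have h1 : w - ((e1 * wY.im : ℝ) : ℂ) * ((u' : ℂ) + Complex.I) = ((e1 * wY.im * (uw - u') : ℝ) : ℂ) := by
      apply Complex.ext
      · rw [Complex.sub_re, Complex.re_ofReal_mul, Complex.ofReal_re, hwre, huw, hem1, hem2]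
        simp only [Complex.add_re, Complex.ofReal_re, Complex.I_re, add_zero]
        field_simp
        ring
      · rw [Complex.sub_im, Complex.im_ofReal_mul, Complex.ofReal_im, hwim]
        simp
    rw [h1, Complex.norm_real, Real.norm_eq_abs, abs_mul, abs_mul, abs_of_pos he1pos, abs_sub_comm]
    calc e1 * |wY.im| * |u' - uw| ≤ e1 * G * (ρ' * (e1 ^ 2)⁻¹) := by
          rw [hem2] at hu'
          gcongr
      _ = G * ρ' * e1⁻¹ := by field_simp
      _ ≤ G * ρ' * 1 := by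
          gcongr
          exact inv_le_one_of_one_le₀ he1one
      _ ≤ ρ := by rw [mul_one]; exact hρ2
  · rw [mul_dir]
    have h1 : cr w (((e1 * wY.im : ℝ) : ℂ) * ((u' : ℂ) + Complex.I)) = e1 ^ 2 * wY.im ^ 2 * (uw - u') := by
      unfold cr
      rw [Complex.re_ofReal_mul, Complex.im_ofReal_mul, hwre, hwim, huw, hem1, hem2]
      simp only [Complex.add_re, Complex.add_im, Complex.ofReal_re, Complex.ofReal_im, Complex.I_re,
        Complex.I_im, add_zero, zero_add]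
      field_simp
      ring
    rw [h1, abs_mul, abs_of_pos (by positivity), abs_sub_comm]
    calc e1 ^ 2 * wY.im ^ 2 * |u' - uw| ≤ e1 ^ 2 * G ^ 2 * (ρ' * (e1 ^ 2)⁻¹) := by
          rw [hem2] at hu'
          have : wY.im ^ 2 ≤ G ^ 2 := by
            rw [← sq_abs wY.im]
            gcongr
          gcongr
      _ = G ^ 2 * ρ' := by field_simp
      _ ≤ ρ := hρ1

end Pool.Agent.TF.I
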