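import Pool.Agent.Helper19.TF.CylA
import Pool.Agent.Helper19.TF.Seed
import Pool.Agent.Helper87.LS.Select

/-!
BLOCK TF-I-FINC1: `corr_times`, `near_multiple`. (Header for FINC1 and FINC.)

`corr_times`: `Dq Q (t' dir u') = Dq (Q ∘ Ψ) (t' dir u₁)` (`Surf.Dq_comp`), within `2 κ` of `Dq Q (t' dir u₁)` (`Surf.Dq_le_add` of Helper87/LS/Select.lean, both ways). Take
`nk k = ⌊k |t| / τ⌋`; `nk k τ = k |t| + r`, `|r| ≤ τ`, `Dq_cont`. `Dq Q (k |t| v) = Dq Q (k t v)` by `Dq_neg` if `t < 0`.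

`scale_exists`: `fejer` with `a/4` in place of `a`, `b = b₂`: the set `A₀ = {|ξ| ≤ b₂, ‖e^{iξt} - 1‖ ≤ 4 √(M/(a/4)) / L}` has mass `≥ a/8`; `A = A₀ ∩ {b₁ ≤ |ξ|}` has mass
`≥ a/8 - a/16 = a/16 = c₀` (measurable: closed). `4 √(M/(a/4)) = 8 √(M/a)`. If `‖e^{iy} - 1‖ ≤ θ` then `|y - 2πk| ≤ 2 θ` for some integer `k` (`‖e^{iy}-1‖ = 2|sin(y/2)| ≥ (2/π) |y - 2πk|`
for the nearest `k`), so with `η = 16 √(M/a) / (L t)` every `ξ ∈ A` is within `η` of `(2π/t) ℤ`, `2 η ≤ 1/(t R^(2m+1))` by `hL`. `no_branch` gives `T = t R^(2l)`, `l ≥ 1`, mass of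
`A ∩ NB` at least `a/64`; `centres` (`b = b₂`) gives `s`, total core mass `≥ a/128`. `n = ⌈T/τ⌉₊`: `T ≤ n τ ≤ T + τ ≤ 2 T`. `Freq`: `1/(nτ) ≤ 1/T ≤ R/(4T)`.
-/

open MeasureTheory Set Filter Metric
open Pool.Agent.Helper87.LS Pool.Agent.Helper72.TF

namespace Pool.Agent.TF.I

theorem corr_times {S : Surf} {Q : ℂ → ℕ} (hQ : Part Q) {u₁ u' : ℝ} {Ψ : ℂ → ℂ}
    (hΨ : Inter S (dir u₁) (dir u') Ψ) {κ : ℝ} (hκ : S.μ.real {x | Q (Ψ x) ≠ Q x} ≤ κ)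
    {a t ε τ : ℝ} {L : ℕ} (h : ∀ k : ℤ, |k| ≤ L → a / 2 ≤ S.Dq Q (((k * t : ℝ) : ℂ) * dir u'))
    (hτ : 0 < τ) (hε : ∀ z : ℂ, ‖z‖ ≤ τ → S.μ.real {x | Q (S.F z x) ≠ Q x} ≤ ε)
    (hs : 2 * κ + ε ≤ a / 4) :
    ∃ nk : ℤ → ℤ, (∀ k : ℤ, |(nk k : ℝ) * τ - k * abs t| ≤ τ) ∧
      ∀ k : ℤ, |k| < L → a / 4 ≤ S.Dq Q ((((nk k : ℝ) * τ : ℝ) : ℂ) * dir u₁) := by
  have hfl : ∀ k : ℤ, |((⌊(k : ℝ) * abs t / τ⌋ : ℤ) : ℝ) * τ - k * abs t| ≤ τ := by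
    intro k
    have h1 := Int.floor_le ((k : ℝ) * abs t / τ)
    have h2 := Int.lt_floor_add_one ((k : ℝ) * abs t / τ)
    rw [le_div_iff₀ hτ] at h1
    rw [div_lt_iff₀ hτ] at h2
    rw [abs_le]
    constructor <;> linarith
  refine ⟨fun k => ⌊(k : ℝ) * abs t / τ⌋, hfl, ?_⟩
  intro k hk
  have hk1 : ∃ k' : ℤ, |k'| ≤ (L : ℤ) ∧ ((k' : ℝ) * t) = (k : ℝ) * abs t := by
    rcases le_total 0 t with ht | ht
    · exact ⟨k, hk.le, by rw [abs_of_nonneg ht]⟩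
    · refine ⟨-k, by rw [abs_neg]; exact hk.le, ?_⟩
      rw [abs_of_nonpos ht]
      push_cast
      ring
  obtain ⟨k', hk'1, hk'2⟩ := hk1
  have e1 := h k' hk'1
  rw [hk'2] at e1
  have e2 : S.Dq Q ((((k : ℝ) * abs t : ℝ) : ℂ) * dir u') =
      S.Dq (Q ∘ Ψ) ((((k : ℝ) * abs t : ℝ) : ℂ) * dir u₁) :=
    S.Dq_comp hQ hΨ.1 (hΨ.2 ((k : ℝ) * abs t))
  have e3 := S.Dq_le_add (hQ.1.comp hΨ.1.measurable) hQ.1
    ((((k : ℝ) * abs t : ℝ) : ℂ) * dir u₁)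
  have e4 : S.μ.real {x | (Q ∘ Ψ) x ≠ Q x} ≤ κ := hκ
  set r : ℝ := ((⌊(k : ℝ) * abs t / τ⌋ : ℤ) : ℝ) * τ - k * abs t with hr
  have e5 := Dq_cont S hQ (dir u₁) ((k : ℝ) * abs t) r
  have e6 : S.μ.real {x | Q (S.F ((r : ℂ) * dir u₁) x) ≠ Q x} ≤ ε := by
    apply hε
    rw [norm_mul, norm_dir, mul_one, Complex.norm_real]
    exact hfl k
  have e7 : (k : ℝ) * abs t + r = ((⌊(k : ℝ) * abs t / τ⌋ : ℤ) : ℝ) * τ := by
    rw [hr]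
    ring
  rw [e7] at e5
  have e8 := (abs_le.1 e5).1
  change a / 4 ≤ S.Dq Q (((((⌊(k : ℝ) * abs t / τ⌋ : ℤ) : ℝ) * τ : ℝ) : ℂ) * dir u₁)
  linarith

theorem near_multiple {y θ : ℝ} (h : ‖Complex.exp ((y : ℂ) * Complex.I) - 1‖ ≤ θ) :
    ∃ k : ℤ, |y - k * (2 * Real.pi)| ≤ 2 * θ := by
  have hpi := Real.pi_pos
  have hp2 : (0 : ℝ) < 2 * Real.pi := by positivity
  set k : ℤ := round (y / (2 * Real.pi)) with hk
  set z : ℝ := y - k * (2 * Real.pi) with hz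
  have hzabs : |z| ≤ Real.pi := by
    have h1 := abs_sub_round (y / (2 * Real.pi))
    rw [← hk] at h1
    have h2 : z = (y / (2 * Real.pi) - k) * (2 * Real.pi) := by
      rw [hz, sub_mul, div_mul_cancel₀ _ hp2.ne']
    rw [h2, abs_mul, abs_of_pos hp2]
    nlinarith
  refine ⟨k, ?_⟩
  have hper : Complex.exp ((y : ℂ) * Complex.I) = Complex.exp (Complex.I * (z : ℂ)) := by
    have h3 : (y : ℂ) * Complex.I = Complex.I * (z : ℂ) + k * (2 * Real.pi * Complex.I) := by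
      rw [hz]
      push_cast
      ring
    rw [h3, Complex.exp_add, Complex.exp_int_mul_two_pi_mul_I, mul_one]
  rw [hper, Complex.norm_exp_I_mul_ofReal_sub_one, Real.norm_eq_abs, abs_mul,
    abs_of_pos (by norm_num : (0 : ℝ) < 2)] at h
  have h4 : 2 / Real.pi * |z / 2| ≤ |Real.sin (z / 2)| := by
    apply Real.mul_abs_le_abs_sin
    rw [abs_div, abs_of_pos (by norm_num : (0 : ℝ) < 2)]
    linarith
  have h5 : |z / 2| = |z| / 2 := by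
    rw [abs_div, abs_of_pos (by norm_num : (0 : ℝ) < 2)]
  rw [h5] at h4
  have h6 : 2 / Real.pi * (|z| / 2) = |z| / Real.pi := by
    field_simp
  rw [h6, div_le_iff₀ hpi] at h4
  have h7 : |Real.sin (z / 2)| ≤ θ / 2 := by linarith
  have h8 : 0 ≤ θ / 2 := le_trans (abs_nonneg _) h7
  have h9 : Real.pi ≤ 4 := Real.pi_le_four
  calc |z| ≤ |Real.sin (z / 2)| * Real.pi := h4
    _ ≤ (θ / 2) * 4 := mul_le_mul h7 h9 hpi.le h8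
    _ = 2 * θ := by ring

end Pool.Agent.TF.I
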