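import Pool.Agent.Helper19.TF.FinB0
import Pool.Agent.Helper19.TF.Fej
import Pool.Agent.Helper19.TF.FinC1

/-!
BLOCK TF-I-FINC: `scale_exists`. (Header for FINC1 and FINC.)

`corr_times`: `Dq Q (t' dir u') = Dq (Q ∘ Ψ) (t' dir u₁)` (`Surf.Dq_comp`), within `2 κ` of `Dq Q (t' dir u₁)` (`Surf.Dq_le_add` of Helper87/LS/Select.lean, both ways). Take
`nk k = ⌊k |t| / τ⌋`; `nk k τ = k |t| + r`, `|r| ≤ τ`, `Dq_cont`. `Dq Q (k |t| v) = Dq Q (k t v)` by `Dq_neg` if `t < 0`.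

`scale_exists`: `fejer` with `a/4` in place of `a`, `b = b₂`: the set `A₀ = {|ξ| ≤ b₂, ‖e^{iξt} - 1‖ ≤ 4 √(M/(a/4)) / L}` has mass `≥ a/8`; `A = A₀ ∩ {b₁ ≤ |ξ|}` has mass
`≥ a/8 - a/16 = a/16 = c₀` (measurable: closed). `4 √(M/(a/4)) = 8 √(M/a)`. If `‖e^{iy} - 1‖ ≤ θ` then `|y - 2πk| ≤ 2 θ` for some integer `k` (`‖e^{iy}-1‖ = 2|sin(y/2)| ≥ (2/π) |y - 2πk|`
for the nearest `k`), so with `η = 16 √(M/a) / (L t)` every `ξ ∈ A` is within `η` of `(2π/t) ℤ`, `2 η ≤ 1/(t R^(2m+1))` by `hL`. `no_branch` gives `T = t R^(2l)`, `l ≥ 1`, mass of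
`A ∩ NB` at least `a/64`; `centres` (`b = b₂`) gives `s`, total core mass `≥ a/128`. `n = ⌈T/τ⌉₊`: `T ≤ n τ ≤ T + τ ≤ 2 T`. `Freq`: `1/(nτ) ≤ 1/T ≤ R/(4T)`.
-/

open MeasureTheory Set Filter Metric
open Pool.Agent.Helper87.LS Pool.Agent.Helper72.TF

namespace Pool.Agent.TF.I

theorem scale_exists {S : Surf} {Q : ℂ → ℕ} (hQ : Part Q) {τ u₁ : ℝ} {σ : Measure ℝ}
    (hτ : 0 < τ) (hσ : IsSpec S Q τ (dir u₁) σ) {b₁ b₂ M a : ℝ} (ha : 0 < a) (hb₁ : 0 < b₁)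
    (hM0 : 0 < M) (hM : σ.real univ ≤ M) (hSM : S.μ.real univ ≤ M)
    (hlow : σ.real {ξ | |ξ| < b₁} ≤ a / 16) (hhigh : σ.real {ξ | b₂ < |ξ|} ≤ a / 32)
    (hbτ : b₂ * τ * M ≤ a / 32) (hbτ1 : b₂ * τ ≤ 1)
    {R δ B ε Cc q₀ r₀ : ℝ} (hR : 8 ≤ R) (hδ : 0 < δ) (hδ1 : δ ≤ 1) {m L : ℕ} (hL0 : 0 < L)
    (hm : (32 * M / a) ^ 2 ≤ (1 + δ) ^ m)
    (hL : 32 * Real.sqrt (M / a) * R ^ (2 * m + 1) ≤ L)
    (hdisp : ∀ z : ℂ, ‖z‖ ≤ r₀ → S.μ.real {x | Q (S.F z x) ≠ Q x} ≤ ε) (hτr : τ ≤ r₀)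
    (hCc : 0 ≤ Cc)
    (hcomm : ∀ a b : ℂ, S.μ.real {x | S.F a (S.F b x) ≠ S.F b (S.F a x)} ≤ Cc * (‖a‖ * ‖b‖))
    (hB : 1 ≤ B) (hRB : 9 * q₀ ^ 2 * B ^ 2 ≤ R) {t : ℝ} (ht : τ ≤ t) (nk : ℤ → ℤ)
    (h1 : ∀ k : ℤ, |k| < L → |(nk k : ℝ) * τ - k * t| ≤ τ)
    (h2 : ∀ k : ℤ, |k| < L → a / 4 ≤ S.Dq Q ((((nk k : ℝ) * τ : ℝ) : ℂ) * dir u₁)) :
    ∃ (T : ℝ) (n : ℕ) (s : Finset ℝ), t ≤ T ∧ Scale S Q τ u₁ σ n R δ T b₂ M ε Cc B q₀ r₀ s ∧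
      (∀ ξ ∈ s, b₁ ≤ |ξ|) ∧ a / 128 ≤ ∑ ξ ∈ s, σ.real (closedBall ξ (1 / (R * T))) := by
  have hfin := hσ.fin
  have hR0 : (0 : ℝ) < R := by linarith
  have hR1 : (1 : ℝ) ≤ R := by linarith
  have ht0 : 0 < t := lt_of_lt_of_le hτ ht
  have hLpos : (0 : ℝ) < L := by exact_mod_cast hL0
  -- step 1: Fejer
  have hf := fejer S hτ hσ hM0 hM (a := a / 4) (b := b₂) (t := t) (by positivity) hL0 nk h1 h2
    (by linarith) (by linarith)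
  have hsq : Real.sqrt (M / (a / 4)) = 2 * Real.sqrt (M / a) := by
    have e : M / (a / 4) = 2 ^ 2 * (M / a) := by field_simp; norm_num
    rw [e, Real.sqrt_mul (by norm_num), Real.sqrt_sq (by norm_num)]
  rw [hsq] at hf
  obtain ⟨A₀, hA₀⟩ : ∃ A₀ : Set ℝ, A₀ = {ξ | |ξ| ≤ b₂ ∧
      ‖Complex.exp (((ξ * t : ℝ) : ℂ) * Complex.I) - 1‖ ≤ 4 * (2 * Real.sqrt (M / a)) / L} := ⟨_, rfl⟩
  rw [← hA₀] at hf
  have mA₀ : MeasurableSet A₀ := by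
    rw [hA₀]
    have c1 : IsClosed {ξ : ℝ | |ξ| ≤ b₂} := isClosed_le continuous_abs continuous_const
    have c2 : IsClosed {ξ : ℝ | ‖Complex.exp (((ξ * t : ℝ) : ℂ) * Complex.I) - 1‖ ≤
        4 * (2 * Real.sqrt (M / a)) / L} := isClosed_le (by fun_prop) continuous_const
    exact (c1.inter c2).measurableSet
  obtain ⟨A, hAdef⟩ : ∃ A : Set ℝ, A = A₀ ∩ {ξ | b₁ ≤ |ξ|} := ⟨_, rfl⟩
  have mA : MeasurableSet A := by
    rw [hAdef]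
    exact mA₀.inter (isClosed_le continuous_const continuous_abs).measurableSet
  have hAmass : a / 16 ≤ σ.real A := by
    have hsub : A₀ ⊆ A ∪ {ξ | |ξ| < b₁} := by
      intro ξ hξ
      by_cases h : |ξ| < b₁
      · exact Or.inr h
      · exact Or.inl (by rw [hAdef]; exact ⟨hξ, not_lt.1 h⟩)
    have h3 := (measureReal_mono (μ := σ) hsub).trans (measureReal_union_le _ _)
    linarith
  -- step 2: every point of `A` is near a multiple of `2π/t`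
  obtain ⟨η, hη⟩ : ∃ η : ℝ, η = 16 * Real.sqrt (M / a) / (L * t) := ⟨_, rfl⟩
  have hs0 : 0 ≤ Real.sqrt (M / a) := Real.sqrt_nonneg _
  have hη0 : 0 ≤ η := by rw [hη]; positivity
  have hη2 : 2 * η ≤ 1 / (t * R ^ (2 * m + 1)) := by
    rw [hη, le_div_iff₀ (by positivity)]
    have e : 2 * (16 * Real.sqrt (M / a) / (L * t)) * (t * R ^ (2 * m + 1)) =
        32 * Real.sqrt (M / a) * R ^ (2 * m + 1) / L := by
      field_simp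
      ring
    rw [e, div_le_one hLpos]
    exact hL
  have hAt : ∀ ξ ∈ A, ∃ k : ℤ, |ξ - k * (2 * Real.pi / t)| ≤ η := by
    intro ξ hξ
    rw [hAdef, hA₀] at hξ
    obtain ⟨k, hk⟩ := near_multiple hξ.1.2
    refine ⟨k, ?_⟩
    have e1 : ξ - k * (2 * Real.pi / t) = (ξ * t - k * (2 * Real.pi)) / t := by
      field_simp
    rw [e1, abs_div, abs_of_pos ht0, div_le_iff₀ ht0]
    refine hk.trans (le_of_eq ?_)
    rw [hη]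
    field_simp
    ring
  have hAb : ∀ ξ ∈ A, b₁ ≤ |ξ| ∧ |ξ| ≤ b₂ := by
    intro ξ hξ
    rw [hAdef, hA₀] at hξ
    exact ⟨hξ.2, hξ.1.1⟩
  obtain ⟨l, hl1, -, hl⟩ := no_branch mA (c₀ := a / 16) (M := M) (by positivity) hAmass hM ht0 hR hδ hη0
    hη2 (by
      have e : 2 * M / (a / 16) = 32 * M / a := by field_simp; norm_num
      rw [e]; exact hm) hAt
  obtain ⟨T, hT⟩ : ∃ T : ℝ, T = t * R ^ (2 * l) := ⟨_, rfl⟩
  rw [← hT] at hl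
  have hT0 : 0 < T := by rw [hT]; positivity
  have htT : t ≤ T := by
    rw [hT]
    exact le_mul_of_one_le_right ht0.le (one_le_pow₀ hR1)
  obtain ⟨s, hsA, hsep, hann, hdisj, hmass, htot⟩ := centres (σ := σ) (A := A ∩ NB σ R δ T) (b := b₂)
    (R := R) (δ := δ) (T := T) (c₁ := a / 16 / 4) inter_subset_right (fun ξ hξ => (hAb ξ hξ.1).2) hR
    hδ.le hδ1 hT0 hl
  -- the number of steps
  have hTτ : 0 < T / τ := div_pos hT0 hτ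
  obtain ⟨n, hn⟩ : ∃ n : ℕ, n = ⌈T / τ⌉₊ := ⟨_, rfl⟩
  have hnpos : 0 < n := by rw [hn]; exact Nat.ceil_pos.2 hTτ
  have hnT : T ≤ n * τ := by
    rw [← div_le_iff₀ hτ, hn]
    exact Nat.le_ceil _
  have hnT2 : (n : ℝ) * τ ≤ 2 * T := by
    have h3 : (n : ℝ) < T / τ + 1 := by rw [hn]; exact Nat.ceil_lt_add_one hTτ.le
    have h4 : (n : ℝ) * τ < (T / τ + 1) * τ := mul_lt_mul_of_pos_right h3 hτ
    have h5 : (T / τ + 1) * τ = T + τ := by field_simp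
    rw [h5] at h4
    linarith
  have hfreq : Freq τ n s := by
    refine ⟨hτ, hnpos, fun ξ hξ => ?_, fun ξ hξ ξ' hξ' hne => ?_⟩
    · have := (hAb ξ (hsA ξ hξ).1).2
      exact (mul_le_mul_of_nonneg_right this hτ.le).trans hbτ1
    · refine le_trans ?_ (hsep ξ hξ ξ' hξ' hne)
      rw [div_le_div_iff₀ (by positivity) (by positivity)]
      have h3 : 4 * T ≤ 4 * (n * τ) := by linarith
      have h4 : 4 * (n * τ) ≤ R * (n * τ) := mul_le_mul_of_nonneg_right (by linarith) (by positivity)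
      linarith
  have hclus : Clus σ τ n R δ T b₂ s :=
    ⟨hfreq, hR, hT0, hnT, hnT2, hδ.le, fun ξ hξ => (hAb ξ (hsA ξ hξ).1).2, hsep, hann, htot⟩
  refine ⟨T, n, s, htT, ⟨hQ, hσ, hclus, hdisj, hM, hSM, hdisp, hτr, hCc, hcomm, hB, hRB⟩,
    fun ξ hξ => (hAb ξ (hsA ξ hξ).1).1, ?_⟩
  have e : a / 16 / 4 / 2 = a / 128 := by ring
  rw [← e]
  exact hmass

end Pool.Agent.TF.I
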