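import Pool.Agent.Helper19.TF.ModI
import Pool.Agent.Helper64.TF.PL

/-!
# MP_e98778 FULL: module I from the tail estimate and the cylinders

`mod_I` of the skeleton, from `mod_I'`, `hn2_le`, the tail estimate (`htail`) and the existence of
cylinders on tame surfaces (`hcyl`).
-/

open MeasureTheory Set Filter Metric
open Pool.Agent.Helper87.LS Pool.Agent.Helper72.TF

namespace Pool.Agent.TF.I

theorem mod_I (S : Surf)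
    (htail : ∃ C β : ℝ, 0 < C ∧ 0 < β ∧ ∀ a b : ℝ, a < b → ∃ s₀ : ℝ, ∀ s K : ℝ, s₀ ≤ s → 1 ≤ K →
      volume ({u | ¬ TameAt S K s u} ∩ Icc a b) ≤ ENNReal.ofReal (C * K ^ (-β) * (b - a)))
    (hcyl : ∀ K : ℝ, ∃ G a : ℝ, 0 < a ∧ ∀ Y : Surf, Y.n = S.n → Connected Y →
      (∀ e, ‖Y.vec e‖ ≤ K) → (∀ i, 1 / K ≤ Y.area2 i) → ∃ w : ℂ, w ≠ 0 ∧ ‖w‖ ≤ G ∧ Cyl Y w a)
    (θ₀ : ℝ) (h : volume {θ : ℝ | S.FlowIso θ θ₀} ≠ 0) :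
    ∃ c₁ b₁ b₂ M U : ℝ, 0 < c₁ ∧ 0 < b₁ ∧ b₁ < b₂ ∧ 0 < U ∧ ∀ δ : ℝ, 0 < δ →
      ∃ σ : Measure ℝ, σ univ ≤ ENNReal.ofReal M ∧ ∃ a b : ℝ, -U ≤ a ∧ a < b ∧ b ≤ U ∧
        ∀ N : ℝ, ∃ s : ℝ, N ≤ s ∧ ENNReal.ofReal (8 / 10 * (b - a)) ≤
          volume {u ∈ Icc a b | ENNReal.ofReal c₁ ≤
            σ {ξ ∈ Icc b₁ b₂ | Close S s u (ξ / (2 * Real.pi) * Real.sqrt (1 + u ^ 2)) δ}} := by
  obtain ⟨C, β, hC, hβ, ht⟩ := htail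
  -- choose `K` with `C K^{-β} ≤ 1/20`
  have hlim : Tendsto (fun K : ℝ => C * K ^ (-β)) atTop (nhds (C * 0)) :=
    (tendsto_rpow_neg_atTop hβ).const_mul C
  rw [mul_zero] at hlim
  obtain ⟨K, hK1, hK⟩ : ∃ K : ℝ, C * K ^ (-β) ≤ 1 / 20 ∧ 1 ≤ K := by
    have h1 : ∀ᶠ K : ℝ in atTop, C * K ^ (-β) ≤ 1 / 20 :=
      (hlim.eventually (gt_mem_nhds (by norm_num : (0 : ℝ) < 1 / 20))).mono fun K hK => hK.le
    exact (h1.and (eventually_ge_atTop 1)).exists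
  obtain ⟨G, a, ha, hc⟩ := hcyl K
  obtain ⟨CP, _, hPL⟩ := Pool.Agent.Helper64.TF.hn2_le S.n K
  refine mod_I' S hK (G := max G 1) (by positivity) ha ?_ ?_ hPL θ₀ h
  · intro Y hn hY hYK hYA
    obtain ⟨w, hw, hwG, hwC⟩ := hc Y hn hY hYK hYA
    exact ⟨w, hw, hwG.trans (le_max_left _ _), hwC⟩
  · intro α β' hαβ
    obtain ⟨s₀, hs⟩ := ht α β' hαβ
    refine ⟨s₀, fun s hss => ?_⟩
    have h1 := hs s K hss hK
    have h2 : {u ∈ Icc α β' | ¬ TameAt S K s u} = {u | ¬ TameAt S K s u} ∩ Icc α β' := by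
      ext u; exact and_comm
    rw [h2]
    refine h1.trans (ENNReal.ofReal_le_ofReal ?_)
    have h3 : 0 < β' - α := by linarith
    calc C * K ^ (-β) * (β' - α) ≤ 1 / 20 * (β' - α) := mul_le_mul_of_nonneg_right hK1 h3.le
      _ = (β' - α) / 20 := by ring

end Pool.Agent.TF.I
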