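import Pool.Agent.Helper19.TF.FL

/-!
BLOCK TF-I-IDENT. The `L²` identity (replaces the spectral theorem).

Expand both squares: `‖∑ c_k • f_k‖² = Re ∑_{k,l} conj c_k c_l ⟪f_k, f_l⟫` with `⟪fQ Q x, fQ Q y⟫ = 1[Q x = Q y]` (`inner_fQ`) and
`∫ 1[Q (F (kτv) x) = Q (F (lτv) x)] dμ = Dq Q ((l - k) τ v)` (`Dq_pair`) `= ∫ e^{i (l-k) τ ξ} dσ` (`IsSpec.four`).
Everything is a finite sum of bounded measurable functions (finite measures: `S.μ` and `σ`).
`meas_comb`: the map is strongly measurable: `fQ Q` is a function of `Q x ∈ ℕ`.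
-/

open MeasureTheory Set Filter
open Pool.Agent.Helper87.LS

namespace Pool.Agent.TF.I

theorem sm_fQ {Q : ℂ → ℕ} (hQ : Part Q) : StronglyMeasurable (fQ Q) := by
  have h : StronglyMeasurable (fun n : ℕ => (lp.single 2 n (1 : ℂ) : V2)) :=
    StronglyMeasurable.of_discrete
  exact h.comp_measurable hQ.1

theorem sm_comb (S : Surf) {Q : ℂ → ℕ} (hQ : Part Q) (v : ℂ) (τ : ℝ) (N : ℕ) (c : ℕ → ℂ) :
    StronglyMeasurable fun x => ∑ k ∈ Finset.range N, c k • fQ Q (S.F (((k * τ : ℝ) : ℂ) * v) x) := by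
  refine Finset.stronglyMeasurable_fun_sum _ fun k _ => ?_
  exact ((sm_fQ hQ).comp_measurable (S.measurable_F _)).const_smul (c k)

open scoped InnerProductSpace ComplexConjugate in
theorem ident (S : Surf) {Q : ℂ → ℕ} (hQ : Part Q) (v : ℂ) {τ : ℝ} {σ : Measure ℝ}
    (hσ : IsSpec S Q τ v σ) (N : ℕ) (c : ℕ → ℂ) :
    ∫ x, ‖∑ k ∈ Finset.range N, c k • fQ Q (S.F (((k * τ : ℝ) : ℂ) * v) x)‖ ^ 2 ∂S.μ
      = ∫ ξ, ‖∑ k ∈ Finset.range N, c k * Complex.exp (((ξ * (k * τ) : ℝ) : ℂ) * Complex.I)‖ ^ 2 ∂σ := by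
  classical
  have := hσ.fin
  apply Complex.ofReal_injective
  have hL : ((∫ x, ‖∑ k ∈ Finset.range N, c k • fQ Q (S.F (((k * τ : ℝ) : ℂ) * v) x)‖ ^ 2 ∂S.μ : ℝ) : ℂ)
      = ∑ k ∈ Finset.range N, ∑ l ∈ Finset.range N,
        conj (c k) * c l * ((S.Dq Q (((l * τ - k * τ : ℝ) : ℂ) * v) : ℝ) : ℂ) := by
    rw [← integral_complex_ofReal]
    have e1 : ∀ x, (((‖∑ k ∈ Finset.range N, c k • fQ Q (S.F (((k * τ : ℝ) : ℂ) * v) x)‖ ^ 2 : ℝ)) : ℂ)
        = ∑ k ∈ Finset.range N, ∑ l ∈ Finset.range N, conj (c k) * c l *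
          (if Q (S.F (((k * τ : ℝ) : ℂ) * v) x) = Q (S.F (((l * τ : ℝ) : ℂ) * v) x)
            then (1 : ℂ) else 0) := by
      intro x
      have h1 := inner_self_eq_norm_sq_to_K (𝕜 := ℂ)
        (∑ k ∈ Finset.range N, c k • fQ Q (S.F (((k * τ : ℝ) : ℂ) * v) x))
      rw [Complex.ofReal_pow]
      refine Eq.trans h1.symm ?_
      rw [sum_inner]
      refine Finset.sum_congr rfl fun k _ => ?_
      rw [inner_sum]
      refine Finset.sum_congr rfl fun l _ => ?_
      rw [inner_smul_left, inner_smul_right, inner_fQ]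
      ring
    have hm : ∀ k l : ℕ, MeasurableSet
        {x | Q (S.F (((k * τ : ℝ) : ℂ) * v) x) = Q (S.F (((l * τ : ℝ) : ℂ) * v) x)} := fun k l =>
      measurableSet_eq_fun (hQ.1.comp (S.measurable_F _)) (hQ.1.comp (S.measurable_F _))
    have e2 : ∀ k l : ℕ, (fun x => (if Q (S.F (((k * τ : ℝ) : ℂ) * v) x)
        = Q (S.F (((l * τ : ℝ) : ℂ) * v) x) then (1 : ℂ) else 0))
        = indicator {x | Q (S.F (((k * τ : ℝ) : ℂ) * v) x) = Q (S.F (((l * τ : ℝ) : ℂ) * v) x)}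
          (fun _ => (1 : ℂ)) := by
      intro k l
      funext x
      rw [indicator_apply]
      simp only [mem_ofPred_eq]
    have hi : ∀ k l : ℕ, Integrable (fun x => (if Q (S.F (((k * τ : ℝ) : ℂ) * v) x)
        = Q (S.F (((l * τ : ℝ) : ℂ) * v) x) then (1 : ℂ) else 0)) S.μ := by
      intro k l
      rw [e2]
      exact (integrable_const _).indicator (hm k l)
    simp_rw [e1]
    rw [integral_finsetSum _ fun k _ => integrable_finsetSum _ fun l _ => (hi k l).const_mul _]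
    refine Finset.sum_congr rfl fun k _ => ?_
    rw [integral_finsetSum _ fun l _ => (hi k l).const_mul _]
    refine Finset.sum_congr rfl fun l _ => ?_
    rw [integral_const_mul, e2, integral_indicator (hm k l), integral_const, ← Dq_pair S hQ v]
    congr 1
    rw [measureReal_restrict_apply_univ]
    simp
  have hR : ((∫ ξ, ‖∑ k ∈ Finset.range N, c k * Complex.exp (((ξ * (k * τ) : ℝ) : ℂ) * Complex.I)‖ ^ 2 ∂σ : ℝ) : ℂ)
      = ∑ k ∈ Finset.range N, ∑ l ∈ Finset.range N,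
        conj (c k) * c l * ((S.Dq Q (((l * τ - k * τ : ℝ) : ℂ) * v) : ℝ) : ℂ) := by
    rw [← integral_complex_ofReal]
    have e1 : ∀ ξ : ℝ, (((‖∑ k ∈ Finset.range N, c k * Complex.exp (((ξ * (k * τ) : ℝ) : ℂ) * Complex.I)‖ ^ 2 : ℝ)) : ℂ)
        = ∑ k ∈ Finset.range N, ∑ l ∈ Finset.range N, conj (c k) * c l *
          Complex.exp (((((l : ℤ) - (k : ℤ) : ℤ) * τ * ξ : ℝ) : ℂ) * Complex.I) := by
      intro ξ
      rw [Complex.ofReal_pow, ← Complex.conj_mul', map_sum, Finset.sum_mul]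
      refine Finset.sum_congr rfl fun k _ => ?_
      rw [Finset.mul_sum]
      refine Finset.sum_congr rfl fun l _ => ?_
      rw [map_mul, ← Complex.exp_conj, map_mul, Complex.conj_I, Complex.conj_ofReal]
      have h1 : Complex.exp (((((l : ℤ) - (k : ℤ) : ℤ) * τ * ξ : ℝ) : ℂ) * Complex.I)
          = Complex.exp (((ξ * (k * τ) : ℝ) : ℂ) * -Complex.I)
            * Complex.exp (((ξ * (l * τ) : ℝ) : ℂ) * Complex.I) := by
        rw [← Complex.exp_add]
        congr 1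
        push_cast
        ring
      rw [h1]
      ring
    have hi : ∀ n : ℤ, Integrable (fun ξ : ℝ => Complex.exp (((n * τ * ξ : ℝ) : ℂ) * Complex.I)) σ := by
      intro n
      refine Integrable.of_bound (Continuous.aestronglyMeasurable (by fun_prop)) 1 ?_
      filter_upwards with ξ
      rw [Complex.norm_exp_ofReal_mul_I]
    simp_rw [e1]
    rw [integral_finsetSum _ fun k _ => integrable_finsetSum _ fun l _ => (hi _).const_mul _]
    refine Finset.sum_congr rfl fun k _ => ?_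
    rw [integral_finsetSum _ fun l _ => (hi _).const_mul _]
    refine Finset.sum_congr rfl fun l _ => ?_
    rw [integral_const_mul, hσ.four]
    congr 4
    push_cast
    ring
  rw [hL, hR]

end Pool.Agent.TF.I
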