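import Pool.Agent.Helper19.TF.Cen

/-!
BLOCK TF-I-LS. The large sieve inequality for well separated frequencies (constant 50), vector valued.

Let `c ξ = ∑_{k<n} e^{-iξkτ} • G k`. For `H k = ∑_{ξ∈s} e^{iξkτ} • c ξ` (`k : ℤ`): `∑_ξ ‖c ξ‖² = ∑_{k<n} ⟪H k, G k⟫` (or its conjugate)
`≤ (∑_{k<n} ‖H k‖²)^{1/2} (∑ ‖G k‖²)^{1/2}`. Every `k ∈ [0, n)` is `j - l` for at least `n` pairs `j, l ∈ [0, 2n)` (`l < n`, `j = k + l`), so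
`n ∑_{k<n} ‖H k‖² ≤ ∑_{j,l<2n} ‖H (j-l)‖² = ∑_{ξ,ξ'∈s} ⟪c ξ, c ξ'⟫ |∑_{j<2n} e^{i(ξ'-ξ)jτ}|²` (expand and factor the double sum over `j, l`).
The Dirichlet sum `D(ξ'-ξ)` satisfies `|D|² ≤ 4n²`, and for `ξ ≠ ξ'`: `|D| ≤ 2/|e^{iλ}-1| ≤ π/|λ|`, `λ = (ξ'-ξ)τ`, `|λ| ≤ 2 ≤ π` (`|sin y| ≥ 2|y|/π` for `|y| ≤ π/2`).
Schur test: `|⟪c ξ, c ξ'⟫| ≤ (‖c ξ‖² + ‖c ξ'‖²)/2`, row sums `≤ 4n² + (π²/τ²) ∑_{ξ'≠ξ} 1/|ξ-ξ'|² ≤ 4n² + (π²/τ²) 4 n²τ² ≤ 44 n²` by `sep_sum` with `g = 1/(nτ)`.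
So `∑_{k<n} ‖H k‖² ≤ 44 n ∑ ‖c ξ‖²`, hence `∑ ‖c ξ‖² ≤ 44 n ∑_{k<n} ‖G k‖²`; divide by `n²`.
-/

open MeasureTheory Set Filter Metric

namespace Pool.Agent.TF.I

private lemma dir_le (m : ℕ) (θ : ℝ) :
    ‖∑ j ∈ Finset.range m, Complex.exp (((θ * j : ℝ) : ℂ) * Complex.I)‖ ≤ m := by
  refine (norm_sum_le _ _).trans ?_
  simp only [Complex.norm_exp_ofReal_mul_I]
  simp

private lemma dir_le' (m : ℕ) {θ : ℝ} (h0 : θ ≠ 0) (h2 : |θ| ≤ 2) :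
    ‖∑ j ∈ Finset.range m, Complex.exp (((θ * j : ℝ) : ℂ) * Complex.I)‖ ≤ Real.pi / |θ| := by
  have hpos : 0 < |θ| := abs_pos.2 h0
  have hpi := Real.pi_pos
  have hpi3 := Real.pi_gt_three
  set z : ℂ := Complex.exp ((θ : ℂ) * Complex.I) with hz
  have hsum : ∑ j ∈ Finset.range m, Complex.exp (((θ * j : ℝ) : ℂ) * Complex.I)
      = ∑ j ∈ Finset.range m, z ^ j := by
    refine Finset.sum_congr rfl fun j _ => ?_
    rw [hz, ← Complex.exp_nat_mul]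
    congr 1
    push_cast
    ring
  have hzn : ‖z‖ = 1 := by rw [hz]; exact Complex.norm_exp_ofReal_mul_I θ
  have hgeom : (∑ j ∈ Finset.range m, z ^ j) * (z - 1) = z ^ m - 1 := geom_sum_mul z m
  have h1 : ‖z ^ m - 1‖ ≤ 2 := by
    refine (norm_sub_le _ _).trans ?_
    rw [norm_pow, hzn, one_pow, norm_one]
    norm_num
  have h3 : 2 * |θ| / Real.pi ≤ ‖z - 1‖ := by
    have e1 : ‖z - 1‖ = ‖2 * Real.sin (θ / 2)‖ := by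
      have := Complex.norm_exp_I_mul_ofReal_sub_one θ
      rw [mul_comm Complex.I] at this
      exact this
    rw [e1, Real.norm_eq_abs, abs_mul, abs_two]
    have e2 : |Real.sin (θ / 2)| = Real.sin (|θ| / 2) := by
      rcases le_or_gt 0 θ with h | h
      · rw [abs_of_nonneg h] at h2 ⊢
        exact abs_of_nonneg (Real.sin_nonneg_of_nonneg_of_le_pi (by linarith) (by linarith))
      · rw [abs_of_neg h] at h2 ⊢
        rw [neg_div, Real.sin_neg]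
        refine abs_of_nonpos ?_
        have := Real.sin_nonneg_of_nonneg_of_le_pi (x := -(θ / 2)) (by linarith) (by linarith)
        rw [Real.sin_neg] at this
        linarith
    rw [e2]
    have e3 := Real.mul_le_sin (x := |θ| / 2) (by positivity) (by linarith)
    calc 2 * |θ| / Real.pi = 2 * (2 / Real.pi * (|θ| / 2)) := by ring
      _ ≤ 2 * Real.sin (|θ| / 2) := by linarith
  rw [hsum]
  have h4 : ‖∑ j ∈ Finset.range m, z ^ j‖ * ‖z - 1‖ ≤ 2 := by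
    rw [← norm_mul, hgeom]; exact h1
  have h5 : ‖∑ j ∈ Finset.range m, z ^ j‖ * (2 * |θ| / Real.pi) ≤ 2 :=
    (mul_le_mul_of_nonneg_left h3 (norm_nonneg _)).trans h4
  rw [le_div_iff₀ hpos]
  have h6 : ‖∑ j ∈ Finset.range m, z ^ j‖ * (2 * |θ| / Real.pi)
      = 2 * (‖∑ j ∈ Finset.range m, z ^ j‖ * |θ|) / Real.pi := by ring
  rw [h6, div_le_iff₀ hpi] at h5
  linarith

/-- The row sums of the squared Dirichlet kernel. -/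
private lemma row_sum {n : ℕ} (hn : 0 < n) {τ : ℝ} (hτ : 0 < τ) (s : Finset ℝ)
    (hb : ∀ ξ ∈ s, |ξ| * τ ≤ 1)
    (hsep : ∀ ξ ∈ s, ∀ ξ' ∈ s, ξ ≠ ξ' → 1 / (n * τ) ≤ |ξ - ξ'|) {ζ : ℝ} (hζ : ζ ∈ s) :
    ∑ ξ ∈ s, ‖∑ j ∈ Finset.range (2 * n),
        Complex.exp ((((ζ - ξ) * τ * j : ℝ) : ℂ) * Complex.I)‖ ^ 2 ≤ 44 * (n : ℝ) ^ 2 := by
  have hn' : (0 : ℝ) < n := by exact_mod_cast hn
  have hg : 0 < 1 / ((n : ℝ) * τ) := by positivity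
  have hpi := Real.pi_pos
  have hpi2 : Real.pi ^ 2 ≤ 10 := by
    have := Real.pi_lt_d2
    nlinarith
  have hsum := sep_sum hg hsep ζ
  have hle : ∀ ξ ∈ s, ‖∑ j ∈ Finset.range (2 * n),
        Complex.exp ((((ζ - ξ) * τ * j : ℝ) : ℂ) * Complex.I)‖ ^ 2
      ≤ (if ξ = ζ then 4 * (n : ℝ) ^ 2 else 0)
        + (if 1 / ((n : ℝ) * τ) ≤ |ζ - ξ| then (Real.pi / τ) ^ 2 * (1 / |ζ - ξ| ^ 2) else 0) := by
    intro ξ hξ
    by_cases he : ξ = ζ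
    · rw [if_pos he]
      have h1 := dir_le (2 * n) ((ζ - ξ) * τ)
      have h2 : ‖∑ j ∈ Finset.range (2 * n),
        Complex.exp ((((ζ - ξ) * τ * j : ℝ) : ℂ) * Complex.I)‖ ^ 2 ≤ ((2 * n : ℕ) : ℝ) ^ 2 :=
        pow_le_pow_left₀ (norm_nonneg _) h1 2
      have h3 : (0 : ℝ) ≤ (if 1 / ((n : ℝ) * τ) ≤ |ζ - ξ|
          then (Real.pi / τ) ^ 2 * (1 / |ζ - ξ| ^ 2) else 0) := by
        split_ifs <;> positivity
      have h4 : ((2 * n : ℕ) : ℝ) ^ 2 = 4 * (n : ℝ) ^ 2 := by push_cast; ring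
      rw [h4] at h2
      linarith
    · rw [if_neg he, if_pos (hsep ζ hζ ξ hξ (Ne.symm he)), zero_add]
      have hne : ζ - ξ ≠ 0 := sub_ne_zero.2 (Ne.symm he)
      have hθ : (ζ - ξ) * τ ≠ 0 := mul_ne_zero hne hτ.ne'
      have hθ2 : |(ζ - ξ) * τ| ≤ 2 := by
        rw [abs_mul, abs_of_pos hτ]
        have := abs_sub ζ ξ
        have h1 := hb ζ hζ
        have h2 := hb ξ hξ
        nlinarith
      have h1 := dir_le' (2 * n) hθ hθ2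
      refine (pow_le_pow_left₀ (norm_nonneg _) h1 2).trans (le_of_eq ?_)
      rw [abs_mul, abs_of_pos hτ]
      have : |ζ - ξ| ≠ 0 := abs_ne_zero.2 hne
      field_simp
  refine (Finset.sum_le_sum hle).trans ?_
  rw [Finset.sum_add_distrib, Finset.sum_ite_eq' s ζ, if_pos hζ, ← Finset.sum_filter,
    ← Finset.mul_sum]
  have h1 : (Real.pi / τ) ^ 2 * ∑ ξ ∈ s with 1 / ((n : ℝ) * τ) ≤ |ζ - ξ|, 1 / |ζ - ξ| ^ 2
      ≤ (Real.pi / τ) ^ 2 * (4 / (1 / ((n : ℝ) * τ)) ^ 2) :=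
    mul_le_mul_of_nonneg_left hsum (by positivity)
  have h2 : (Real.pi / τ) ^ 2 * (4 / (1 / ((n : ℝ) * τ)) ^ 2) = 4 * Real.pi ^ 2 * (n : ℝ) ^ 2 := by
    field_simp
  rw [h2] at h1
  nlinarith [sq_nonneg (n : ℝ)]

/-- Shifts of a window of length `n` inside `[0, 2n)`. -/
private lemma window (n : ℕ) (f : ℤ → ℝ) (hf : ∀ k, 0 ≤ f k) :
    (n : ℝ) * ∑ k ∈ Finset.range n, f k
      ≤ ∑ l ∈ Finset.range (2 * n), ∑ j ∈ Finset.range (2 * n), f ((j : ℤ) - l) := by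
  have h1 : ∀ l ∈ Finset.range n, ∑ k ∈ Finset.range n, f k
      ≤ ∑ j ∈ Finset.range (2 * n), f ((j : ℤ) - l) := by
    intro l hl
    rw [Finset.mem_range] at hl
    calc ∑ k ∈ Finset.range n, f k
        = ∑ j ∈ (Finset.range n).image (fun k => k + l), f ((j : ℤ) - l) := by
          rw [Finset.sum_image (fun a _ b _ h => by simpa using h)]
          refine Finset.sum_congr rfl fun k _ => ?_
          congr 1
          push_cast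
          ring
      _ ≤ ∑ j ∈ Finset.range (2 * n), f ((j : ℤ) - l) := by
          refine Finset.sum_le_sum_of_subset_of_nonneg ?_ fun _ _ _ => hf _
          intro j hj
          rw [Finset.mem_image] at hj
          obtain ⟨k, hk, rfl⟩ := hj
          rw [Finset.mem_range] at hk ⊢
          omega
  calc (n : ℝ) * ∑ k ∈ Finset.range n, f k
      = ∑ l ∈ Finset.range n, ∑ k ∈ Finset.range n, f k := by
        rw [Finset.sum_const, Finset.card_range, nsmul_eq_mul]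
    _ ≤ ∑ l ∈ Finset.range n, ∑ j ∈ Finset.range (2 * n), f ((j : ℤ) - l) :=
        Finset.sum_le_sum h1
    _ ≤ ∑ l ∈ Finset.range (2 * n), ∑ j ∈ Finset.range (2 * n), f ((j : ℤ) - l) := by
        refine Finset.sum_le_sum_of_subset_of_nonneg ?_ fun _ _ _ =>
          Finset.sum_nonneg fun _ _ => hf _
        intro j hj
        rw [Finset.mem_range] at hj ⊢
        omega

/-- The norm square of a trigonometric polynomial with vector coefficients. -/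
private lemma norm_sq_trig {V : Type*} [NormedAddCommGroup V] [InnerProductSpace ℂ V]
    (s : Finset ℝ) (c : ℝ → V) (t : ℝ) :
    ((‖∑ ξ ∈ s, Complex.exp (((ξ * t : ℝ) : ℂ) * Complex.I) • c ξ‖ ^ 2 : ℝ) : ℂ)
      = ∑ ζ ∈ s, ∑ ξ ∈ s, Complex.exp ((((ξ - ζ) * t : ℝ) : ℂ) * Complex.I)
          * inner ℂ (c ζ) (c ξ) := by
  rw [Complex.ofReal_pow]
  have h := inner_self_eq_norm_sq_to_K (𝕜 := ℂ)
    (∑ ξ ∈ s, Complex.exp (((ξ * t : ℝ) : ℂ) * Complex.I) • c ξ)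
  have h' : ((‖∑ ξ ∈ s, Complex.exp (((ξ * t : ℝ) : ℂ) * Complex.I) • c ξ‖ : ℝ) : ℂ) ^ 2
      = inner ℂ (∑ ξ ∈ s, Complex.exp (((ξ * t : ℝ) : ℂ) * Complex.I) • c ξ)
        (∑ ξ ∈ s, Complex.exp (((ξ * t : ℝ) : ℂ) * Complex.I) • c ξ) := by
    rw [h]; rfl
  rw [h', sum_inner]
  refine Finset.sum_congr rfl fun ζ _ => ?_
  rw [inner_sum]
  refine Finset.sum_congr rfl fun ξ _ => ?_
  rw [inner_smul_left, inner_smul_right, ← mul_assoc, ← Complex.exp_conj, ← Complex.exp_add]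
  congr 2
  simp only [map_mul, Complex.conj_ofReal, Complex.conj_I]
  push_cast
  ring

/-- The double sum is a quadratic form in the squared Dirichlet kernel. -/
private lemma double_sum {V : Type*} [NormedAddCommGroup V] [InnerProductSpace ℂ V]
    (m : ℕ) (τ : ℝ) (s : Finset ℝ) (c : ℝ → V) :
    ((∑ l ∈ Finset.range m, ∑ j ∈ Finset.range m,
        ‖∑ ξ ∈ s, Complex.exp (((ξ * ((((j : ℤ) - (l : ℤ) : ℤ) : ℝ) * τ) : ℝ) : ℂ) * Complex.I) • c ξ‖ ^ 2 : ℝ) : ℂ)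
      = ∑ ζ ∈ s, ∑ ξ ∈ s, ((‖∑ j ∈ Finset.range m,
          Complex.exp ((((ζ - ξ) * τ * j : ℝ) : ℂ) * Complex.I)‖ ^ 2 : ℝ) : ℂ)
          * inner ℂ (c ζ) (c ξ) := by
  rw [Complex.ofReal_sum]
  simp only [Complex.ofReal_sum, norm_sq_trig]
  have h1 : ∀ l ∈ Finset.range m, ∑ j ∈ Finset.range m, ∑ ζ ∈ s, ∑ ξ ∈ s,
        Complex.exp ((((ξ - ζ) * ((((j : ℤ) - (l : ℤ) : ℤ) : ℝ) * τ) : ℝ) : ℂ) * Complex.I)
          * inner ℂ (c ζ) (c ξ)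
      = ∑ ζ ∈ s, ∑ ξ ∈ s, ∑ j ∈ Finset.range m,
        Complex.exp ((((ξ - ζ) * ((((j : ℤ) - (l : ℤ) : ℤ) : ℝ) * τ) : ℝ) : ℂ) * Complex.I)
          * inner ℂ (c ζ) (c ξ) := by
    intro l _
    rw [Finset.sum_comm]
    exact Finset.sum_congr rfl fun ζ _ => Finset.sum_comm
  rw [Finset.sum_congr rfl h1, Finset.sum_comm]
  refine Finset.sum_congr rfl fun ζ _ => ?_
  rw [Finset.sum_comm]
  refine Finset.sum_congr rfl fun ξ _ => ?_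
  have h2 : ((‖∑ j ∈ Finset.range m,
          Complex.exp ((((ζ - ξ) * τ * j : ℝ) : ℂ) * Complex.I)‖ ^ 2 : ℝ) : ℂ)
      = ∑ l ∈ Finset.range m, ∑ j ∈ Finset.range m,
        Complex.exp ((((ξ - ζ) * ((((j : ℤ) - (l : ℤ) : ℤ) : ℝ) * τ) : ℝ) : ℂ) * Complex.I) := by
    rw [Complex.ofReal_pow, ← Complex.mul_conj', map_sum, Finset.sum_mul_sum]
    refine Finset.sum_congr rfl fun l _ => Finset.sum_congr rfl fun j _ => ?_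
    rw [← Complex.exp_conj, ← Complex.exp_add]
    congr 1
    simp only [map_mul, Complex.conj_ofReal, Complex.conj_I]
    push_cast
    ring
  rw [h2, Finset.sum_mul]
  refine Finset.sum_congr rfl fun l _ => ?_
  rw [Finset.sum_mul]

/-- The dual large sieve inequality. -/
private lemma dual_ls {V : Type*} [NormedAddCommGroup V] [InnerProductSpace ℂ V] {n : ℕ}
    (hn : 0 < n) {τ : ℝ} (hτ : 0 < τ) (s : Finset ℝ) (hb : ∀ ξ ∈ s, |ξ| * τ ≤ 1)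
    (hsep : ∀ ξ ∈ s, ∀ ξ' ∈ s, ξ ≠ ξ' → 1 / (n * τ) ≤ |ξ - ξ'|) (c : ℝ → V) :
    ∑ k ∈ Finset.range n, ‖∑ ξ ∈ s, Complex.exp (((ξ * (k * τ) : ℝ) : ℂ) * Complex.I) • c ξ‖ ^ 2
      ≤ 44 * n * ∑ ξ ∈ s, ‖c ξ‖ ^ 2 := by
  have hn' : (0 : ℝ) < n := by exact_mod_cast hn
  set D : ℝ → ℝ → ℝ := fun ζ ξ => ‖∑ j ∈ Finset.range (2 * n),
          Complex.exp ((((ζ - ξ) * τ * j : ℝ) : ℂ) * Complex.I)‖ ^ 2 with hD
  have hDnn : ∀ ζ ξ, 0 ≤ D ζ ξ := fun ζ ξ => by rw [hD]; positivity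
  have hDsymm : ∀ ζ ξ, D ζ ξ = D ξ ζ := by
    intro ζ ξ
    simp only [hD]
    congr 1
    rw [← Complex.norm_conj, map_sum]
    congr 1
    refine Finset.sum_congr rfl fun j _ => ?_
    rw [← Complex.exp_conj]
    congr 1
    simp only [map_mul, Complex.conj_ofReal, Complex.conj_I]
    push_cast
    ring
  have hw := window n (fun k : ℤ => ‖∑ ξ ∈ s,
    Complex.exp (((ξ * ((k : ℝ) * τ) : ℝ) : ℂ) * Complex.I) • c ξ‖ ^ 2) (fun k => by positivity)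
  have hds := double_sum (2 * n) τ s c
  have hre := congrArg Complex.re hds
  rw [Complex.ofReal_re] at hre
  simp only [Complex.re_sum, Complex.re_ofReal_mul] at hre
  have hbound : ∀ ζ ∈ s, ∀ ξ ∈ s, D ζ ξ * (inner ℂ (c ζ) (c ξ) : ℂ).re
      ≤ D ζ ξ * (‖c ζ‖ ^ 2 / 2) + D ζ ξ * (‖c ξ‖ ^ 2 / 2) := by
    intro ζ _ ξ _
    rw [← mul_add]
    refine mul_le_mul_of_nonneg_left ?_ (hDnn _ _)
    have h1 : (inner ℂ (c ζ) (c ξ) : ℂ).re ≤ ‖c ζ‖ * ‖c ξ‖ :=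
      (Complex.re_le_norm _).trans (norm_inner_le_norm _ _)
    nlinarith [sq_nonneg (‖c ζ‖ - ‖c ξ‖)]
  have hrow : ∀ ζ ∈ s, ∑ ξ ∈ s, D ζ ξ ≤ 44 * (n : ℝ) ^ 2 := fun ζ hζ =>
    row_sum hn hτ s hb hsep hζ
  have htot : ∑ ζ ∈ s, ∑ ξ ∈ s, D ζ ξ * (inner ℂ (c ζ) (c ξ) : ℂ).re
      ≤ 44 * (n : ℝ) ^ 2 * ∑ ξ ∈ s, ‖c ξ‖ ^ 2 := by
    calc ∑ ζ ∈ s, ∑ ξ ∈ s, D ζ ξ * (inner ℂ (c ζ) (c ξ) : ℂ).re
        ≤ ∑ ζ ∈ s, ∑ ξ ∈ s, (D ζ ξ * (‖c ζ‖ ^ 2 / 2) + D ζ ξ * (‖c ξ‖ ^ 2 / 2)) :=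
          Finset.sum_le_sum fun ζ hζ => Finset.sum_le_sum fun ξ hξ => hbound ζ hζ ξ hξ
      _ = ∑ ζ ∈ s, ∑ ξ ∈ s, D ζ ξ * (‖c ζ‖ ^ 2 / 2) + ∑ ζ ∈ s, ∑ ξ ∈ s, D ζ ξ * (‖c ξ‖ ^ 2 / 2) := by
          simp only [Finset.sum_add_distrib]
      _ = ∑ ζ ∈ s, ∑ ξ ∈ s, D ζ ξ * (‖c ζ‖ ^ 2 / 2) + ∑ ζ ∈ s, ∑ ξ ∈ s, D ζ ξ * (‖c ζ‖ ^ 2 / 2) := by
          congr 1
          rw [Finset.sum_comm]
          exact Finset.sum_congr rfl fun ζ _ => Finset.sum_congr rfl fun ξ _ => by rw [hDsymm]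
      _ = ∑ ζ ∈ s, (∑ ξ ∈ s, D ζ ξ) * ‖c ζ‖ ^ 2 := by
          rw [← Finset.sum_add_distrib]
          refine Finset.sum_congr rfl fun ζ _ => ?_
          rw [← Finset.sum_mul]
          ring
      _ ≤ ∑ ζ ∈ s, (44 * (n : ℝ) ^ 2) * ‖c ζ‖ ^ 2 :=
          Finset.sum_le_sum fun ζ hζ => mul_le_mul_of_nonneg_right (hrow ζ hζ) (by positivity)
      _ = 44 * (n : ℝ) ^ 2 * ∑ ξ ∈ s, ‖c ξ‖ ^ 2 := by rw [Finset.mul_sum]
  have h1 := hw.trans (hre.le.trans htot)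
  have h2 : (n : ℝ) * ∑ k ∈ Finset.range n, ‖∑ ξ ∈ s,
      Complex.exp (((ξ * (k * τ) : ℝ) : ℂ) * Complex.I) • c ξ‖ ^ 2
      ≤ n * (44 * n * ∑ ξ ∈ s, ‖c ξ‖ ^ 2) := by
    calc _ = (n : ℝ) * ∑ k ∈ Finset.range n, ‖∑ ξ ∈ s,
        Complex.exp (((ξ * (((k : ℤ) : ℝ) * τ) : ℝ) : ℂ) * Complex.I) • c ξ‖ ^ 2 := by
          simp only [Int.cast_natCast]
      _ ≤ _ := h1
      _ = _ := by ring
  exact le_of_mul_le_mul_left h2 hn'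

/-- The duality identity. -/
private lemma dual_id {V : Type*} [NormedAddCommGroup V] [InnerProductSpace ℂ V] (n : ℕ) (τ : ℝ)
    (s : Finset ℝ) (G : ℕ → V) (c : ℝ → V)
    (hc : ∀ ξ, c ξ = ∑ k ∈ Finset.range n,
      Complex.exp (-(((ξ * (k * τ) : ℝ) : ℂ) * Complex.I)) • G k) :
    ((∑ ξ ∈ s, ‖c ξ‖ ^ 2 : ℝ) : ℂ) = ∑ k ∈ Finset.range n,
      inner ℂ (∑ ξ ∈ s, Complex.exp (((ξ * (k * τ) : ℝ) : ℂ) * Complex.I) • c ξ) (G k) := by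
  rw [Complex.ofReal_sum]
  simp only [sum_inner]
  rw [Finset.sum_comm]
  refine Finset.sum_congr rfl fun ξ _ => ?_
  have h : (((‖c ξ‖ ^ 2 : ℝ)) : ℂ) = inner ℂ (c ξ) (c ξ) := by
    rw [Complex.ofReal_pow, inner_self_eq_norm_sq_to_K (𝕜 := ℂ) (c ξ)]
    rfl
  rw [h]
  conv_lhs => rw [hc ξ, inner_sum]
  rw [← hc ξ]
  refine Finset.sum_congr rfl fun k _ => ?_
  rw [inner_smul_right, inner_smul_left]
  congr 1
  rw [← Complex.exp_conj]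
  congr 1
  simp only [map_mul, Complex.conj_ofReal, Complex.conj_I]
  ring

theorem large_sieve {V : Type*} [NormedAddCommGroup V] [InnerProductSpace ℂ V] {n : ℕ} (hn : 0 < n)
    {τ : ℝ} (hτ : 0 < τ) (s : Finset ℝ) (hb : ∀ ξ ∈ s, |ξ| * τ ≤ 1)
    (hsep : ∀ ξ ∈ s, ∀ ξ' ∈ s, ξ ≠ ξ' → 1 / (n * τ) ≤ |ξ - ξ'|) (G : ℕ → V) :
    ∑ ξ ∈ s, ‖((n : ℂ)⁻¹) • ∑ k ∈ Finset.range n,
        Complex.exp (-(((ξ * (k * τ) : ℝ) : ℂ) * Complex.I)) • G k‖ ^ 2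
      ≤ 50 * ((n : ℝ)⁻¹ * ∑ k ∈ Finset.range n, ‖G k‖ ^ 2) := by
  have hn' : (0 : ℝ) < n := by exact_mod_cast hn
  set c : ℝ → V := fun ξ => ∑ k ∈ Finset.range n,
      Complex.exp (-(((ξ * (k * τ) : ℝ) : ℂ) * Complex.I)) • G k with hc
  set H : ℕ → V := fun k => ∑ ξ ∈ s, Complex.exp (((ξ * (k * τ) : ℝ) : ℂ) * Complex.I) • c ξ with hH
  have hid := congrArg Complex.re (dual_id n τ s G c fun ξ => rfl)
  rw [Complex.ofReal_re, Complex.re_sum] at hid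
  have hdual := dual_ls hn hτ s hb hsep c
  have h1 : ∑ ξ ∈ s, ‖c ξ‖ ^ 2 ≤ ∑ k ∈ Finset.range n,
      ((88 * (n : ℝ))⁻¹ * ‖H k‖ ^ 2 + 22 * n * ‖G k‖ ^ 2) := by
    rw [hid]
    refine Finset.sum_le_sum fun k _ => ?_
    have h2 : (inner ℂ (H k) (G k) : ℂ).re ≤ ‖H k‖ * ‖G k‖ :=
      (Complex.re_le_norm _).trans (norm_inner_le_norm _ _)
    refine h2.trans ?_
    have h3 : (0 : ℝ) < 88 * n := by positivity
    have h4 : (88 * (n : ℝ))⁻¹ * ‖H k‖ ^ 2 + 22 * n * ‖G k‖ ^ 2 - ‖H k‖ * ‖G k‖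
        = (88 * (n : ℝ))⁻¹ * (‖H k‖ - 44 * n * ‖G k‖) ^ 2 := by
      field_simp
      ring
    have h5 : 0 ≤ (88 * (n : ℝ))⁻¹ * (‖H k‖ - 44 * n * ‖G k‖) ^ 2 := by positivity
    linarith
  rw [Finset.sum_add_distrib, ← Finset.mul_sum, ← Finset.mul_sum] at h1
  have h2 : (88 * (n : ℝ))⁻¹ * ∑ k ∈ Finset.range n, ‖H k‖ ^ 2
      ≤ (88 * (n : ℝ))⁻¹ * (44 * n * ∑ ξ ∈ s, ‖c ξ‖ ^ 2) :=
    mul_le_mul_of_nonneg_left hdual (by positivity)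
  have h3 : (88 * (n : ℝ))⁻¹ * (44 * n * ∑ ξ ∈ s, ‖c ξ‖ ^ 2) = (∑ ξ ∈ s, ‖c ξ‖ ^ 2) / 2 := by
    field_simp
    ring
  have h4 : ∑ ξ ∈ s, ‖c ξ‖ ^ 2 ≤ 44 * n * ∑ k ∈ Finset.range n, ‖G k‖ ^ 2 := by
    rw [h3] at h2
    linarith
  have h5 : ∀ ξ, ‖((n : ℂ)⁻¹) • ∑ k ∈ Finset.range n,
        Complex.exp (-(((ξ * (k * τ) : ℝ) : ℂ) * Complex.I)) • G k‖ ^ 2
      = ((n : ℝ) ^ 2)⁻¹ * ‖c ξ‖ ^ 2 := by
    intro ξ
    rw [norm_smul, mul_pow, norm_inv, Complex.norm_natCast, inv_pow]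
  simp only [h5]
  rw [← Finset.mul_sum]
  have hG : 0 ≤ ∑ k ∈ Finset.range n, ‖G k‖ ^ 2 := Finset.sum_nonneg fun _ _ => by positivity
  calc ((n : ℝ) ^ 2)⁻¹ * ∑ ξ ∈ s, ‖c ξ‖ ^ 2
      ≤ ((n : ℝ) ^ 2)⁻¹ * (44 * n * ∑ k ∈ Finset.range n, ‖G k‖ ^ 2) :=
        mul_le_mul_of_nonneg_left h4 (by positivity)
    _ = 44 * ((n : ℝ)⁻¹ * ∑ k ∈ Finset.range n, ‖G k‖ ^ 2) := by
        field_simp
    _ ≤ 50 * ((n : ℝ)⁻¹ * ∑ k ∈ Finset.range n, ‖G k‖ ^ 2) := by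
        refine mul_le_mul_of_nonneg_right (by norm_num) (by positivity)

end Pool.Agent.TF.I
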