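import Pool.Agent.Helper19.TF.Ident
import Pool.Agent.Helper19.TF.MF

/-!
BLOCK TF-I-LOW. Small mass at low and at high frequencies.

`low_freq`. Let `M = μ(S)`, `ε' = ε / 16`, `(K, h)` from `S.lemU ε'`. Let `τ = h / p`, `c n = Dq (grid (h/2)) (n τ v) ∈ [0, M]`
(even, `Dq_neg`), `N ≥ K p M / ε'`. `lemU` at `t = n₀ τ`, `n₀ ≥ K p`: `∑_{k<K} c (n₀ - k p) ≤ ε' K`. Sum over
`n₀ ∈ [K p, K p + N)`: for every `k < K` the index `n₀ - k p` runs over a window containing `[K p, N)`, so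
`∑_{K p ≤ n < N} c n ≤ N ε'` and `∑_{n<N} c n ≤ K p M + N ε' ≤ 2 N ε'`. By `ident` with all coefficients `1/N`
`∫ |mF N τ|² dσ = (1/N²) ∑_{j,l<N} c (l - j) ≤ (2/N) ∑_{n<N} c n ≤ 4 ε'` (`Dq_pair`; or expand `IsSpec.four` directly).
`|mF N τ ξ| ≥ 1/2` if `N τ |ξ| ≤ 1` (`mF_near`), so `σ {|ξ| ≤ 1/(N τ)} ≤ 16 ε' = ε`. With `N = ⌈K p M / ε'⌉ + 1`:
`N τ ≤ K h M / ε' + 2 h`, so `b₁ = 1 / (K h M / ε' + 2 h)` works for every `p`.

`high_freq`. `δ` from `S.small_disp hQ (ε / 4)`, `τ₁ = δ / 4`, `N` with `N τ ∈ [δ/4, δ/2]`, so `c 0 - c n ≤ ε/4` for `n < N`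
(`c 0 - c n = μ {Q (F (nτv) x) ≠ Q x}`, `F_zero`). `∫ (1 - Re mF N τ) dσ = (1/N) ∑_{n<N} (c 0 - c n) ≤ ε / 4` by `IsSpec.four`.
`1 - Re mF ≥ 0`, and `≥ 1/2` where `|mF| ≤ 1/2`; by `mF_decay` this holds for `|ξ| ≥ 10 / (N τ)`, in particular for
`|ξ| ≥ 40 / δ = b₂`, `|ξ| ≤ π / τ` (`σ`-a.e., `IsSpec.supp`). So `σ {|ξ| > b₂} ≤ ε / 2`.
-/

open MeasureTheory Set Filter
open Pool.Agent.Helper87.LS

namespace Pool.Agent.TF.I

/-- Sum of a nonnegative sequence along `|l - k|`. -/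
theorem h97_sum_abs (a : ℕ → ℝ) (ha : ∀ n, 0 ≤ a n) {N k : ℕ} (hk : k < N) :
    ∑ l ∈ Finset.range N, a (((l : ℤ) - k).natAbs) ≤ 2 * ∑ n ∈ Finset.range N, a n := by
  obtain ⟨m, rfl⟩ : ∃ m, N = k + m := ⟨N - k, by omega⟩
  rw [Finset.sum_range_add (fun l => a (((l : ℤ) - k).natAbs)) k m]
  have h1 : ∑ x ∈ Finset.range k, a (((x : ℤ) - k).natAbs)
      = ∑ x ∈ Finset.range k, a (x + 1) := by
    rw [← Finset.sum_range_reflect (fun x => a (x + 1)) k]
    refine Finset.sum_congr rfl fun x hx => ?_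
    have hx' := Finset.mem_range.1 hx
    congr 1
    omega
  have h2 : ∑ x ∈ Finset.range m, a ((((k + x : ℕ) : ℤ) - k).natAbs)
      = ∑ x ∈ Finset.range m, a x := by
    refine Finset.sum_congr rfl fun x hx => ?_
    congr 1
    omega
  have h3 : ∑ x ∈ Finset.range k, a (x + 1) ≤ ∑ n ∈ Finset.range (k + m), a n := by
    have h4 : ∑ x ∈ Finset.range k, a (x + 1) ≤ ∑ n ∈ Finset.range (k + 1), a n := by
      rw [Finset.sum_range_succ']
      linarith [ha 0]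
    refine h4.trans (Finset.sum_le_sum_of_subset_of_nonneg ?_ fun n _ _ => ha n)
    intro x hx
    simp only [Finset.mem_range] at hx ⊢
    omega
  have h5 : ∑ x ∈ Finset.range m, a x ≤ ∑ n ∈ Finset.range (k + m), a n := by
    refine Finset.sum_le_sum_of_subset_of_nonneg ?_ fun n _ _ => ha n
    intro x hx
    simp only [Finset.mem_range] at hx ⊢
    omega
  rw [h1]
  have h6 : ∑ x ∈ Finset.range m, (fun l : ℕ => a (((l : ℤ) - k).natAbs)) (k + x)
      = ∑ x ∈ Finset.range m, a x := h2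
  rw [h6]
  linarith

/-- The correlation sequence at the integer `n` only depends on `|n|`. -/
theorem h97_dq_abs (S : Surf) {Q : ℂ → ℕ} (hQ : Part Q) (v : ℂ) (τ : ℝ) (n : ℤ) :
    S.Dq Q (((n * τ : ℝ) : ℂ) * v) = S.Dq Q ((((n.natAbs : ℝ) * τ : ℝ) : ℂ) * v) := by
  rcases Int.natAbs_eq n with h | h
  · have : (n : ℝ) = (n.natAbs : ℝ) := by
      have := congrArg (fun z : ℤ => (z : ℝ)) h
      simpa using this
    rw [this]
  · have : (n : ℝ) = -(n.natAbs : ℝ) := by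
      have := congrArg (fun z : ℤ => (z : ℝ)) h
      simpa using this
    rw [this, ← Dq_neg S hQ]
    congr 1
    push_cast
    ring

/-- The mean square of `mF` for a spectral measure. -/
theorem h97_int_sq (S : Surf) {Q : ℂ → ℕ} (v : ℂ) {τ : ℝ} {σ : Measure ℝ}
    (hσ : IsSpec S Q τ v σ) (N : ℕ) :
    ∫ ξ, ‖mF N τ ξ‖ ^ 2 ∂σ = ((N : ℝ) ^ 2)⁻¹ * ∑ k ∈ Finset.range N, ∑ l ∈ Finset.range N,
      S.Dq Q (((((l : ℤ) - (k : ℤ) : ℤ) * τ : ℝ) : ℂ) * v) := by
  have := hσ.fin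
  apply Complex.ofReal_injective
  rw [← integral_complex_ofReal]
  have e1 : ∀ ξ : ℝ, (((‖mF N τ ξ‖ ^ 2 : ℝ)) : ℂ)
      = (((N : ℝ) ^ 2)⁻¹ : ℝ) * ∑ k ∈ Finset.range N, ∑ l ∈ Finset.range N,
        Complex.exp (((((l : ℤ) - (k : ℤ) : ℤ) * τ * ξ : ℝ) : ℂ) * Complex.I) := by
    intro ξ
    unfold mF
    rw [Complex.ofReal_pow, ← Complex.conj_mul', map_mul, map_sum]
    have e2 : (starRingEnd ℂ) ((N : ℂ)⁻¹) = (N : ℂ)⁻¹ := by
      rw [map_inv₀, Complex.conj_natCast]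
    rw [e2]
    have e3 : ∀ A B : ℂ, (N : ℂ)⁻¹ * A * ((N : ℂ)⁻¹ * B) = ((((N : ℝ) ^ 2)⁻¹ : ℝ) : ℂ) * (A * B) := by
      intro A B
      push_cast
      rw [sq, mul_inv]
      ring
    rw [e3, Finset.sum_mul]
    congr 1
    refine Finset.sum_congr rfl fun k _ => ?_
    rw [Finset.mul_sum]
    refine Finset.sum_congr rfl fun l _ => ?_
    rw [← Complex.exp_conj, map_mul, Complex.conj_I, Complex.conj_ofReal, ← Complex.exp_add]
    congr 1
    push_cast
    ring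
  have hi : ∀ n : ℤ, Integrable (fun ξ : ℝ => Complex.exp (((n * τ * ξ : ℝ) : ℂ) * Complex.I)) σ := by
    intro n
    refine Integrable.of_bound (Continuous.aestronglyMeasurable (by fun_prop)) 1 ?_
    filter_upwards with ξ
    rw [Complex.norm_exp_ofReal_mul_I]
  simp_rw [e1]
  rw [integral_const_mul, integral_finsetSum _ fun k _ => integrable_finsetSum _ fun l _ => (hi _),
    Complex.ofReal_mul, Complex.ofReal_sum]
  congr 1
  refine Finset.sum_congr rfl fun k _ => ?_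
  rw [integral_finsetSum _ fun l _ => (hi _), Complex.ofReal_sum]
  refine Finset.sum_congr rfl fun l _ => ?_
  rw [hσ.four]

theorem h97_integrable_sq {σ : Measure ℝ} [IsFiniteMeasure σ] (N : ℕ) (τ : ℝ) :
    Integrable (fun ξ => ‖mF N τ ξ‖ ^ 2) σ := by
  refine Integrable.of_bound (((continuous_mF N τ).norm.pow 2).aestronglyMeasurable) 1 ?_
  filter_upwards with ξ
  rw [Real.norm_of_nonneg (by positivity)]
  exact pow_le_one₀ (norm_nonneg _) (mF_le_one N τ ξ)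

/-- The window argument. -/
theorem h97_window (a : ℕ → ℝ) (ha : ∀ n, 0 ≤ a n) {M : ℝ} (hM : ∀ n, a n ≤ M) {K p N : ℕ}
    (hK : 0 < K) {e : ℝ}
    (h : ∀ n, K * p ≤ n → ∑ k ∈ Finset.range K, a (n - k * p) ≤ e * K) :
    ∑ n ∈ Finset.range N, a n ≤ K * p * M + N * e := by
  have h1 : ∑ k ∈ Finset.range K, ∑ n ∈ Finset.Ico (K * p) (K * p + N), a (n - k * p)
      ≤ N * (e * K) := by
    rw [Finset.sum_comm]
    calc ∑ n ∈ Finset.Ico (K * p) (K * p + N), ∑ k ∈ Finset.range K, a (n - k * p)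
        ≤ ∑ n ∈ Finset.Ico (K * p) (K * p + N), e * K :=
          Finset.sum_le_sum fun n hn => h n (Finset.mem_Ico.1 hn).1
      _ = N * (e * K) := by
          rw [Finset.sum_const, Nat.card_Ico, nsmul_eq_mul]
          congr 2
          omega
  have h2 : ∀ k ∈ Finset.range K, ∑ n ∈ Finset.Ico (K * p) N, a n
      ≤ ∑ n ∈ Finset.Ico (K * p) (K * p + N), a (n - k * p) := by
    intro k hk
    have hkK := Finset.mem_range.1 hk
    have hkp : k * p ≤ K * p := Nat.mul_le_mul_right p hkK.le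
    have h3 : ∑ n ∈ Finset.Ico (K * p) (K * p + N), a (n - k * p)
        = ∑ n ∈ Finset.Ico (K * p - k * p) (K * p + N - k * p), a n := by
      refine Finset.sum_bij' (fun n _ => n - k * p) (fun n _ => n + k * p) ?_ ?_ ?_ ?_ ?_
      · intro n hn
        simp only [Finset.mem_Ico] at hn ⊢
        omega
      · intro n hn
        simp only [Finset.mem_Ico] at hn ⊢
        omega
      · intro n hn
        simp only [Finset.mem_Ico] at hn
        show n - k * p + k * p = n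
        omega
      · intro n hn
        show n + k * p - k * p = n
        omega
      · intro n hn
        rfl
    rw [h3]
    refine Finset.sum_le_sum_of_subset_of_nonneg ?_ fun n _ _ => ha n
    intro n hn
    simp only [Finset.mem_Ico] at hn ⊢
    omega
  have h4 : (K : ℝ) * ∑ n ∈ Finset.Ico (K * p) N, a n ≤ N * (e * K) := by
    refine le_trans ?_ h1
    rw [← nsmul_eq_mul]
    have := Finset.card_nsmul_le_sum (Finset.range K)
      (fun k => ∑ n ∈ Finset.Ico (K * p) (K * p + N), a (n - k * p)) _ h2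
    simpa using this
  have hK0 : (0 : ℝ) < K := by exact_mod_cast hK
  have h5 : ∑ n ∈ Finset.Ico (K * p) N, a n ≤ N * e := by
    have : (K : ℝ) * ∑ n ∈ Finset.Ico (K * p) N, a n ≤ K * (N * e) := by
      calc (K : ℝ) * ∑ n ∈ Finset.Ico (K * p) N, a n ≤ N * (e * K) := h4
        _ = K * (N * e) := by ring
    exact le_of_mul_le_mul_left this hK0
  have h6 : ∑ n ∈ Finset.range (K * p), a n ≤ K * p * M := by
    calc ∑ n ∈ Finset.range (K * p), a n ≤ ∑ n ∈ Finset.range (K * p), M :=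
          Finset.sum_le_sum fun n _ => hM n
      _ = K * p * M := by
          rw [Finset.sum_const, Finset.card_range, nsmul_eq_mul]
          push_cast
          ring
  have h7 : ∑ n ∈ Finset.range N, a n
      ≤ ∑ n ∈ Finset.range (K * p) ∪ Finset.Ico (K * p) N, a n := by
    refine Finset.sum_le_sum_of_subset_of_nonneg ?_ fun n _ _ => ha n
    intro n hn
    simp only [Finset.mem_union, Finset.mem_Ico, Finset.mem_range] at hn ⊢
    omega
  have h8 : Disjoint (Finset.range (K * p)) (Finset.Ico (K * p) N) := by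
    rw [Finset.disjoint_left]
    intro n hn hn'
    simp only [Finset.mem_Ico, Finset.mem_range] at hn hn'
    omega
  rw [Finset.sum_union h8] at h7
  linarith

theorem low_freq (S : Surf) {ε : ℝ} (hε : 0 < ε) :
    ∃ h b₁ : ℝ, 0 < h ∧ 0 < b₁ ∧ ∀ (p : ℕ) (v : ℂ) (σ : Measure ℝ), 0 < p → ‖v‖ = 1 →
      IsSpec S (S.grid (h / 2)) (h / p) v σ → σ.real {ξ | |ξ| < b₁} ≤ ε := by
  obtain ⟨K, h, hK, hh, hU⟩ := S.lemU (ε := ε / 16) (by positivity)
  set M := S.μ.real univ with hM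
  have hM0 : 0 ≤ M := measureReal_nonneg
  have hK0 : (0 : ℝ) < K := by exact_mod_cast hK
  refine ⟨h, 1 / (K * h * M / (ε / 16) + 2 * h), hh, by positivity, ?_⟩
  intro p v σ hp hv hσ
  have := hσ.fin
  have hp0 : (0 : ℝ) < p := by exact_mod_cast hp
  have hp1 : (1 : ℝ) ≤ p := by exact_mod_cast hp
  set τ : ℝ := h / p with hτ
  have hτ0 : 0 < τ := by positivity
  have hpτ : (p : ℝ) * τ = h := by rw [hτ]; field_simp
  set Q := S.grid (h / 2) with hQdef
  have hQ : Part Q := S.grid_part (by positivity)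
  set a : ℕ → ℝ := fun n => S.Dq Q ((((n : ℝ) * τ : ℝ) : ℂ) * v) with ha
  have ha0 : ∀ n, 0 ≤ a n := fun n => S.Dq_nonneg Q _
  have haM : ∀ n, a n ≤ M := fun n => S.Dq_le Q _
  obtain ⟨N, hN⟩ : ∃ N : ℕ, N = ⌈K * p * M / (ε / 16)⌉₊ + 1 := ⟨_, rfl⟩
  have hNpos : 0 < N := by omega
  have hN0 : (0 : ℝ) < N := by exact_mod_cast hNpos
  have hNlow : K * p * M / (ε / 16) ≤ N := by
    rw [hN]
    push_cast
    linarith [Nat.le_ceil (K * p * M / (ε / 16))]
  have hNup : (N : ℝ) ≤ K * p * M / (ε / 16) + 2 := by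
    rw [hN]
    push_cast
    have := (Nat.ceil_lt_add_one (show 0 ≤ K * p * M / (ε / 16) by positivity)).le
    linarith
  have hwin : ∑ n ∈ Finset.range N, a n ≤ K * p * M + N * (ε / 16) := by
    refine h97_window a ha0 haM hK fun n hn => ?_
    have hKn : (K : ℝ) * p ≤ n := by exact_mod_cast hn
    have h1 := hU v hv (n * τ) (by
      calc (K : ℝ) * h = K * p * τ := by rw [← hpτ]; ring
        _ ≤ n * τ := mul_le_mul_of_nonneg_right hKn hτ0.le)
    refine le_trans (le_of_eq ?_) h1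
    refine Finset.sum_congr rfl fun k hk => ?_
    have hkK := Finset.mem_range.1 hk
    have hkp : k * p ≤ n := (Nat.mul_le_mul_right p hkK.le).trans hn
    simp only [ha]
    congr 3
    rw [Nat.cast_sub hkp]
    push_cast
    rw [← hpτ]
    ring
  have hsum : ∑ n ∈ Finset.range N, a n ≤ 2 * (N * (ε / 16)) := by
    have : (K : ℝ) * p * M ≤ N * (ε / 16) := by
      rwa [div_le_iff₀ (by positivity)] at hNlow
    linarith
  have hint : ∫ ξ, ‖mF N τ ξ‖ ^ 2 ∂σ ≤ 4 * (ε / 16) := by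
    rw [h97_int_sq S v hσ N]
    have h1 : ∑ k ∈ Finset.range N, ∑ l ∈ Finset.range N,
        S.Dq Q (((((l : ℤ) - (k : ℤ) : ℤ) * τ : ℝ) : ℂ) * v) ≤ N * (2 * (2 * (N * (ε / 16)))) := by
      calc ∑ k ∈ Finset.range N, ∑ l ∈ Finset.range N,
            S.Dq Q (((((l : ℤ) - (k : ℤ) : ℤ) * τ : ℝ) : ℂ) * v)
          ≤ ∑ k ∈ Finset.range N, (2 * (2 * (N * (ε / 16)))) := by
            refine Finset.sum_le_sum fun k hk => ?_
            have h2 : ∑ l ∈ Finset.range N, S.Dq Q (((((l : ℤ) - (k : ℤ) : ℤ) * τ : ℝ) : ℂ) * v)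
                = ∑ l ∈ Finset.range N, a (((l : ℤ) - k).natAbs) := by
              refine Finset.sum_congr rfl fun l _ => ?_
              exact h97_dq_abs S hQ v τ _
            rw [h2]
            refine (h97_sum_abs a ha0 (Finset.mem_range.1 hk)).trans ?_
            linarith
        _ = N * (2 * (2 * (N * (ε / 16)))) := by
            rw [Finset.sum_const, Finset.card_range, nsmul_eq_mul]
    calc ((N : ℝ) ^ 2)⁻¹ * ∑ k ∈ Finset.range N, ∑ l ∈ Finset.range N,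
          S.Dq Q (((((l : ℤ) - (k : ℤ) : ℤ) * τ : ℝ) : ℂ) * v)
        ≤ ((N : ℝ) ^ 2)⁻¹ * (N * (2 * (2 * (N * (ε / 16))))) :=
          mul_le_mul_of_nonneg_left h1 (by positivity)
      _ = 4 * (ε / 16) := by
          field_simp
          ring
  have hNτ : N * τ ≤ K * h * M / (ε / 16) + 2 * h := by
    calc N * τ ≤ (K * p * M / (ε / 16) + 2) * τ := mul_le_mul_of_nonneg_right hNup hτ0.le
      _ = K * (p * τ) * M / (ε / 16) + 2 * τ := by ring
      _ ≤ K * h * M / (ε / 16) + 2 * h := by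
          rw [hpτ]
          have : τ ≤ h := by
            rw [hτ]
            exact div_le_self hh.le hp1
          linarith
  have hsub : {ξ : ℝ | |ξ| < 1 / (K * h * M / (ε / 16) + 2 * h)} ⊆ {ξ | 1 / 4 ≤ ‖mF N τ ξ‖ ^ 2} := by
    intro ξ hξ
    have hξ' : |ξ| < 1 / (K * h * M / (ε / 16) + 2 * h) := hξ
    have hpos : 0 < K * h * M / (ε / 16) + 2 * h := by positivity
    rw [lt_div_iff₀ hpos] at hξ'
    have h1 : N * τ * |ξ| ≤ 1 := by
      calc N * τ * |ξ| ≤ (K * h * M / (ε / 16) + 2 * h) * |ξ| :=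
            mul_le_mul_of_nonneg_right hNτ (abs_nonneg _)
        _ ≤ 1 := by linarith
    have h2 := mF_near hNpos hτ0 ξ
    have h3 : (1 : ℝ) ≤ ‖mF N τ ξ‖ + ‖mF N τ ξ - 1‖ := by
      have := norm_sub_norm_le (1 : ℂ) (mF N τ ξ)
      rw [norm_one, norm_sub_rev] at this
      linarith
    have h4 : 1 / 2 ≤ ‖mF N τ ξ‖ := by linarith
    show 1 / 4 ≤ ‖mF N τ ξ‖ ^ 2
    nlinarith
  have hcheb := mul_meas_ge_le_integral_of_nonneg (μ := σ) (f := fun ξ => ‖mF N τ ξ‖ ^ 2)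
    (Eventually.of_forall fun ξ => by positivity) (h97_integrable_sq N τ) (1 / 4)
  have hmono : σ.real {ξ : ℝ | |ξ| < 1 / (K * h * M / (ε / 16) + 2 * h)}
      ≤ σ.real {ξ | 1 / 4 ≤ ‖mF N τ ξ‖ ^ 2} := measureReal_mono hsub
  have : (1 / 4 : ℝ) * σ.real {ξ | 1 / 4 ≤ ‖mF N τ ξ‖ ^ 2} ≤ 4 * (ε / 16) := hcheb.trans hint
  linarith

theorem high_freq (S : Surf) {Q : ℂ → ℕ} (hQ : Part Q) {ε : ℝ} (hε : 0 < ε) :
    ∃ b₂ τ₁ : ℝ, 0 < b₂ ∧ 0 < τ₁ ∧ ∀ (τ : ℝ) (v : ℂ) (σ : Measure ℝ), 0 < τ → τ ≤ τ₁ → ‖v‖ = 1 →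
      IsSpec S Q τ v σ → σ.real {ξ | b₂ < |ξ|} ≤ ε := by
  obtain ⟨δ, hδ, hdisp⟩ := S.small_disp hQ (ε := ε / 4) (by positivity)
  refine ⟨40 / δ, δ / 4, by positivity, by positivity, ?_⟩
  intro τ v σ hτ hτ1 hv hσ
  have := hσ.fin
  obtain ⟨N, hN⟩ : ∃ N : ℕ, N = ⌊δ / (2 * τ)⌋₊ := ⟨_, rfl⟩
  have hq : 2 ≤ δ / (2 * τ) := by
    rw [le_div_iff₀ (by positivity)]
    linarith
  have hN1 : (N : ℝ) ≤ δ / (2 * τ) := by
    rw [hN]
    exact Nat.floor_le (by positivity)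
  have hN2 : δ / (2 * τ) < N + 1 := by
    rw [hN]
    exact Nat.lt_floor_add_one _
  have hNτ1 : N * τ ≤ δ / 2 := by
    rw [le_div_iff₀ (by positivity)] at hN1
    linarith
  have hNτ2 : δ / 4 ≤ N * τ := by
    rw [div_lt_iff₀ (by positivity)] at hN2
    nlinarith
  have hN0 : (0 : ℝ) < N := by linarith
  have hNpos : 0 < N := by exact_mod_cast hN0
  -- the correlation at zero
  have hc0 : S.Dq Q (((0 : ℝ) : ℂ) * v) = S.μ.real univ := by
    unfold Surf.Dq
    refine measureReal_congr ?_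
    filter_upwards [F_zero S] with x hx
    refine propext ?_
    show Q (S.F (((0 : ℝ) : ℂ) * v) x) = Q x ↔ True
    rw [Complex.ofReal_zero, zero_mul, hx]
    simp
  have hσ0 : σ.real univ = S.μ.real univ := by
    have h1 := hσ.four 0
    simp only [Int.cast_zero, zero_mul, Complex.ofReal_zero, Complex.exp_zero] at h1
    rw [integral_const] at h1
    have h2 : S.Dq Q 0 = S.μ.real univ := by
      rw [← hc0]
      congr 1
      simp
    rw [h2] at h1
    have h3 : (((σ.real univ : ℝ)) : ℂ) = ((S.μ.real univ : ℝ) : ℂ) := by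
      rw [← h1]
      simp
    exact_mod_cast h3
  have hsmall : ∀ n < N, S.μ.real univ - S.Dq Q ((((n : ℝ) * τ : ℝ) : ℂ) * v) ≤ ε / 4 := by
    intro n hn
    have hnN : (n : ℝ) < N := by exact_mod_cast hn
    have hz : ‖((((n : ℝ) * τ : ℝ) : ℂ) * v)‖ < δ := by
      rw [norm_mul, hv, mul_one, Complex.norm_real, Real.norm_of_nonneg (by positivity)]
      nlinarith
    have h1 := hdisp _ hz
    have hm : MeasurableSet {x | Q (S.F ((((n : ℝ) * τ : ℝ) : ℂ) * v) x) = Q x} :=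
      measurableSet_eq_fun (hQ.1.comp (S.measurable_F _)) hQ.1
    have h2 := measureReal_add_measureReal_compl (μ := S.μ) hm
    have h3 : S.Dq Q ((((n : ℝ) * τ : ℝ) : ℂ) * v)
        = S.μ.real {x | Q (S.F ((((n : ℝ) * τ : ℝ) : ℂ) * v) x) = Q x} := rfl
    have h4 : {x | Q (S.F ((((n : ℝ) * τ : ℝ) : ℂ) * v) x) = Q x}ᶜ
        = {x | Q (S.F ((((n : ℝ) * τ : ℝ) : ℂ) * v) x) ≠ Q x} := rfl
    rw [h4] at h2
    linarith
  have hi : ∀ n : ℕ, Integrable (fun ξ : ℝ => Complex.exp (((ξ * (n * τ) : ℝ) : ℂ) * Complex.I)) σ := by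
    intro n
    refine Integrable.of_bound (Continuous.aestronglyMeasurable (by fun_prop)) 1 ?_
    filter_upwards with ξ
    rw [Complex.norm_exp_ofReal_mul_I]
  have himF : Integrable (mF N τ) σ := by
    refine Integrable.of_bound ((continuous_mF N τ).aestronglyMeasurable) 1 ?_
    filter_upwards with ξ
    exact mF_le_one N τ ξ
  have hmF : ∫ ξ, mF N τ ξ ∂σ
      = ((((N : ℝ)⁻¹ * ∑ n ∈ Finset.range N, S.Dq Q ((((n : ℝ) * τ : ℝ) : ℂ) * v) : ℝ)) : ℂ) := by
    unfold mF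
    rw [integral_const_mul, integral_finsetSum _ fun k _ => hi k]
    push_cast
    congr 1
    refine Finset.sum_congr rfl fun n _ => ?_
    have h1 := hσ.four n
    rw [show (((n : ℤ) : ℝ)) = (n : ℝ) by simp] at h1
    have h2 : (((((n : ℝ) * τ : ℝ) : ℂ)) * v) = ((n : ℂ) * (τ : ℂ) * v) := by push_cast; ring
    rw [h2] at h1
    rw [← h1]
    refine integral_congr_ae (Eventually.of_forall fun ξ => ?_)
    simp only
    congr 1
    push_cast
    ring
  have hre : ∫ ξ, (mF N τ ξ).re ∂σ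
      = (N : ℝ)⁻¹ * ∑ n ∈ Finset.range N, S.Dq Q ((((n : ℝ) * τ : ℝ) : ℂ) * v) := by
    have h1 : ∫ ξ, (mF N τ ξ).re ∂σ = (∫ ξ, mF N τ ξ ∂σ).re := by
      have := integral_re himF
      simpa using this
    rw [h1, hmF, Complex.ofReal_re]
  have hire : Integrable (fun ξ => (mF N τ ξ).re) σ := himF.re
  have hint : ∫ ξ, (1 - (mF N τ ξ).re) ∂σ ≤ ε / 4 := by
    rw [integral_sub (integrable_const _) hire, hre, integral_const, hσ0]
    have h1 : S.μ.real univ • (1 : ℝ) = (N : ℝ)⁻¹ * ∑ n ∈ Finset.range N, S.μ.real univ := by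
      rw [Finset.sum_const, Finset.card_range, nsmul_eq_mul, smul_eq_mul]
      field_simp
    rw [h1, ← mul_sub, ← Finset.sum_sub_distrib]
    calc (N : ℝ)⁻¹ * ∑ n ∈ Finset.range N,
          (S.μ.real univ - S.Dq Q ((((n : ℝ) * τ : ℝ) : ℂ) * v))
        ≤ (N : ℝ)⁻¹ * ∑ n ∈ Finset.range N, (ε / 4) := by
          refine mul_le_mul_of_nonneg_left ?_ (by positivity)
          exact Finset.sum_le_sum fun n hn => hsmall n (Finset.mem_range.1 hn)
      _ = ε / 4 := by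
          rw [Finset.sum_const, Finset.card_range, nsmul_eq_mul]
          field_simp
  have hnn : ∀ ξ, 0 ≤ 1 - (mF N τ ξ).re := by
    intro ξ
    have := (Complex.re_le_norm (mF N τ ξ)).trans (mF_le_one N τ ξ)
    linarith
  have hcheb := mul_meas_ge_le_integral_of_nonneg (μ := σ) (f := fun ξ => 1 - (mF N τ ξ).re)
    (Eventually.of_forall fun ξ => hnn ξ) ((integrable_const _).sub hire) (1 / 2)
  have hsub : {ξ : ℝ | 40 / δ < |ξ|} ⊆
      {ξ | 1 / 2 ≤ 1 - (mF N τ ξ).re} ∪ {ξ | Real.pi / τ < |ξ|} := by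
    intro ξ hξ
    by_cases hc : Real.pi / τ < |ξ|
    · exact Or.inr hc
    · left
      have hξ' : 40 / δ < |ξ| := hξ
      have hξ0 : 0 < |ξ| := lt_trans (by positivity) hξ'
      have hne : ξ ≠ 0 := abs_pos.1 hξ0
      rw [not_lt, le_div_iff₀ hτ] at hc
      have h1 := mF_decay hNpos hτ hne (by linarith)
      have h2 : 10 ≤ N * τ * |ξ| := by
        rw [div_lt_iff₀ hδ] at hξ'
        calc (10 : ℝ) ≤ δ / 4 * |ξ| := by linarith
          _ ≤ N * τ * |ξ| := mul_le_mul_of_nonneg_right hNτ2 hξ0.le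
      have h3 : 5 / (N * τ * |ξ|) ≤ 1 / 2 := by
        rw [div_le_div_iff₀ (by positivity) (by norm_num)]
        linarith
      have h4 := Complex.re_le_norm (mF N τ ξ)
      show 1 / 2 ≤ 1 - (mF N τ ξ).re
      linarith
  have hz : σ.real {ξ | Real.pi / τ < |ξ|} = 0 := by
    rw [Measure.real, hσ.supp, ENNReal.toReal_zero]
  have h1 : σ.real {ξ : ℝ | 40 / δ < |ξ|}
      ≤ σ.real {ξ | 1 / 2 ≤ 1 - (mF N τ ξ).re} := by
    refine (measureReal_mono hsub).trans ((measureReal_union_le _ _).trans ?_)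
    rw [hz, add_zero]
  have h2 : (1 / 2 : ℝ) * σ.real {ξ | 1 / 2 ≤ 1 - (mF N τ ξ).re} ≤ ε / 4 := hcheb.trans hint
  linarith

end Pool.Agent.TF.I
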