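import Pool.Agent.Helper19.TF.Seed

/-!
BLOCK TF-I-SLOPES: `dir_eq`, `slopes`, `close_neg`. (Header for SLOPES and MODI.)

`dir_eq`: for `φ ∈ (0, π)`: `exp (iφ) = dir (cos φ / sin φ)` (`√(1 + cot² φ) = 1 / sin φ`).
`slopes`: some `E k = {θ | FlowIso θ θ₀} ∩ Ioo (kπ) ((k+1)π)`, `k : ℤ`, is not null (the points `kπ` are countably many). For `θ ∈ E k`, `φ = θ - kπ`:
`exp (iθ) = (-1)^k exp (iφ) = (-1)^k dir u`, `u = cos φ / sin φ`, and `FlowIso θ θ₀` (all real `t`, replace `t` by `(-1)^k t`) gives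
`DirIso S (dir u) ((-1)^k exp (iθ₀))`. The set `U'` of these `u` is not null: `θ = kπ + π/2 - arctan u`, and a differentiable image of a null set is null
(`addHaar_image_eq_zero_of_differentiableOn_of_addHaar_eq_zero`, as in Helper87/LS/Nonsing.lean). `U' = ⋃_m U' ∩ Icc (-m) m`, so some `U' ∩ Icc (-m) m`, `m ≥ 1`, is not null.
`close_neg`: `CochZ` is a subgroup, `hn2 T (-x) = hn2 T x` (replace `f` by `-f`: `Fn T f ↔ Fn T (-f)`, `omega T (-x) = - omega T x`, `grad (-f) = - grad f`).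
`mod_I'`: `partI` gives `c₁, b₁, b₂'`; take `b₂ = b₂' + 1`, `M = μ(S)`, and for `δ` the measure `σ.map (fun ζ => |ζ|)`. `Close` is even in `c` (`close_neg`), so the preimage of
`{ξ ∈ Icc b₁ b₂ | Close …}` under `|·|` contains `{ζ | b₁ ≤ |ζ| ∧ |ζ| ≤ b₂' ∧ Close …}` (`Measure.le_map_apply`, no measurability needed). The set of `u` contains
`{u ∈ E | TameAt S K s u}`, of outer measure `≥ (19/20 - 1/20) (β - α)` as soon as `s ≥ s₀(α, β)` (subadditivity).
-/

open MeasureTheory Set Filter Metric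
open Pool.Agent.Helper87.LS Pool.Agent.Helper72.TF

namespace Pool.Agent.TF.I

theorem dir_eq {φ : ℝ} (h0 : 0 < φ) (h1 : φ < Real.pi) :
    Complex.exp ((φ : ℂ) * Complex.I) = dir (Real.cos φ / Real.sin φ) := by
  have hs : 0 < Real.sin φ := Real.sin_pos_of_pos_of_lt_pi h0 h1
  have hsq : Real.sqrt (1 + (Real.cos φ / Real.sin φ) ^ 2) = 1 / Real.sin φ := by
    have h2 : 1 + (Real.cos φ / Real.sin φ) ^ 2 = (1 / Real.sin φ) ^ 2 := by
      have h3 := Real.sin_sq_add_cos_sq φ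
      field_simp
      linarith
    rw [h2]
    exact Real.sqrt_sq (by positivity)
  have hsC : (Real.sin φ : ℂ) ≠ 0 := by exact_mod_cast hs.ne'
  unfold dir
  rw [hsq, Complex.exp_mul_I, ← Complex.ofReal_cos, ← Complex.ofReal_sin]
  push_cast at hsC ⊢
  field_simp

theorem slopes (S : Surf) {θ₀ : ℝ} (h : volume {θ : ℝ | S.FlowIso θ θ₀} ≠ 0) :
    ∃ (U₀ : ℝ) (w₀ : ℂ) (U : Set ℝ), 0 < U₀ ∧ U ⊆ Icc (-U₀) U₀ ∧ volume U ≠ 0 ∧
      ∀ u ∈ U, DirIso S (dir u) w₀ := by
  have hpi := Real.pi_pos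
  -- one of the intervals `(kπ, (k+1)π)` is charged
  obtain ⟨k, hk⟩ : ∃ k : ℤ, volume ({θ : ℝ | S.FlowIso θ θ₀} ∩
      Ioo (k * Real.pi) ((k + 1) * Real.pi)) ≠ 0 := by
    by_contra hcon
    push Not at hcon
    apply h
    have h5 : volume (range (fun k : ℤ => (k : ℝ) * Real.pi)) = 0 :=
      (countable_range _).measure_zero _
    refine measure_mono_null ?_ (measure_union_null (measure_iUnion_null hcon) h5)
    intro θ hθ
    set k : ℤ := ⌊θ / Real.pi⌋ with hk
    have h1 : (k : ℝ) ≤ θ / Real.pi := Int.floor_le _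
    have h2 : θ / Real.pi < k + 1 := Int.lt_floor_add_one _
    rw [le_div_iff₀ hpi] at h1
    rw [div_lt_iff₀ hpi] at h2
    rcases h1.lt_or_eq with h1 | h1
    · left
      exact mem_iUnion.2 ⟨k, hθ, h1, h2⟩
    · right
      exact ⟨k, h1⟩
  set g : ℝ → ℝ := fun u => k * Real.pi + (Real.pi / 2 - Real.arctan u) with hg
  set U' : Set ℝ := {u | S.FlowIso (g u) θ₀} with hU'
  have hgd : Differentiable ℝ g := by
    intro u
    exact ((differentiableAt_const _).sub (Real.differentiableAt_arctan u)).const_add _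
  have hU'0 : volume U' ≠ 0 := by
    intro h0
    apply hk
    refine measure_mono_null ?_ (addHaar_image_eq_zero_of_differentiableOn_of_addHaar_eq_zero
      volume (f := g) hgd.differentiableOn h0)
    rintro θ ⟨hθ, hθ1, hθ2⟩
    set φ : ℝ := θ - k * Real.pi with hφ
    have hφ0 : 0 < φ := by linarith
    have hφ1 : φ < Real.pi := by linarith
    have hat : Real.arctan (Real.tan (Real.pi / 2 - φ)) = Real.pi / 2 - φ :=
      Real.arctan_tan (by linarith) (by linarith)
    have hgθ : g (Real.tan (Real.pi / 2 - φ)) = θ := by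
      simp only [hg, hat]; rw [hφ]; ring
    exact ⟨Real.tan (Real.pi / 2 - φ), by rw [hU', mem_setOf_eq, hgθ]; exact hθ, hgθ⟩
  -- the bounded part
  obtain ⟨m, hm⟩ : ∃ m : ℕ, volume (U' ∩ Icc (-((m : ℝ) + 1)) ((m : ℝ) + 1)) ≠ 0 := by
    by_contra hcon
    push Not at hcon
    apply hU'0
    refine measure_mono_null ?_ (measure_iUnion_null hcon)
    intro u hu
    obtain ⟨m, hm⟩ := exists_nat_ge |u|
    refine mem_iUnion.2 ⟨m, hu, ?_, ?_⟩
    · linarith [neg_abs_le u]
    · linarith [le_abs_self u]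
  set ε : ℝ := Real.cos (k * Real.pi) with hε
  have hsin : Real.sin (k * Real.pi) = 0 := Real.sin_int_mul_pi k
  have hε2 : ε * ε = 1 := by
    have := Real.sin_sq_add_cos_sq (k * Real.pi)
    rw [hsin, ← hε] at this
    nlinarith
  refine ⟨(m : ℝ) + 1, (ε : ℂ) * Complex.exp ((θ₀ : ℂ) * Complex.I), _, by positivity,
    inter_subset_right, hm, ?_⟩
  rintro u ⟨hu, -⟩
  obtain ⟨Φ, Ψ, p1, p2, p3, p4, p5⟩ := hu
  refine ⟨Φ, Ψ, p1, p2, p3, p4, fun t => ?_⟩
  have hexp : Complex.exp ((g u : ℂ) * Complex.I) = (ε : ℂ) * dir u := by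
    set φ : ℝ := Real.pi / 2 - Real.arctan u with hφ
    have hφ0 : 0 < φ := by linarith [Real.arctan_lt_pi_div_two u]
    have hφ1 : φ < Real.pi := by linarith [Real.neg_pi_div_two_lt_arctan u]
    have hcot : Real.cos φ / Real.sin φ = u := by
      rw [hφ, Real.cos_pi_div_two_sub, Real.sin_pi_div_two_sub, ← Real.tan_eq_sin_div_cos,
        Real.tan_arctan]
    have h1 : ((g u : ℝ) : ℂ) * Complex.I
        = ((k * Real.pi : ℝ) : ℂ) * Complex.I + (φ : ℂ) * Complex.I := by
      simp only [hg, hφ]; push_cast; ring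
    rw [h1, Complex.exp_add, dir_eq hφ0 hφ1, hcot, Complex.exp_mul_I, ← Complex.ofReal_cos,
      ← Complex.ofReal_sin, hsin, ← hε]
    simp
  have hεC : (ε : ℂ) * ε = 1 := by exact_mod_cast hε2
  have h6 := p5 (ε * t)
  have e1 : (((ε * t : ℝ)) : ℂ) * Complex.exp ((g u : ℂ) * Complex.I) = (t : ℂ) * dir u := by
    rw [hexp]; push_cast
    linear_combination (t : ℂ) * dir u * hεC
  have e2 : (((ε * t : ℝ)) : ℂ) * Complex.exp ((θ₀ : ℂ) * Complex.I)
      = (t : ℂ) * ((ε : ℂ) * Complex.exp ((θ₀ : ℂ) * Complex.I)) := by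
    push_cast; ring
  rw [e1, e2] at h6
  exact h6

private theorem h60_fn_neg {H : Type} {T : Pool.Agent.Helper79.G.Tri H} {f : H → ℂ → ℝ}
    (hf : Fn T f) : Fn T (fun h z => -f h z) := by
  obtain ⟨C, hC⟩ := hf.lip
  refine ⟨⟨C, fun h => ?_⟩, fun h z hz => ?_, fun h t ht => ?_⟩
  · intro x hx y hy
    rw [edist_neg_neg]
    exact hC h hx hy
  · rw [hf.rot h z hz]
  · rw [hf.edge h t ht]

private theorem h60_en_neg {H : Type} [Fintype H] (T : Pool.Agent.Helper79.G.Tri H) (x : H → ℝ)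
    (f : H → ℂ → ℝ) : en T (fun h => -x h) (fun h z => -f h z) = en T x f := by
  unfold en
  congr 1
  apply Finset.sum_congr rfl
  intro h _
  congr 1
  ext z
  have h1 : omega T (fun h => -x h) h = -omega T x h := by
    unfold omega
    push_cast
    ring
  have h2 : grad (fun z => -f h z) z = -grad (f h) z := by
    unfold grad
    rw [fderiv_fun_neg]
    apply Complex.ext <;> simp
  rw [h1, h2, ← neg_add, norm_neg]

private theorem h60_hn2_neg {H : Type} [Fintype H] (T : Pool.Agent.Helper79.G.Tri H) (x : H → ℝ) :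
    hn2 T (fun h => -x h) = hn2 T x := by
  unfold hn2
  set eqv : {f : H → ℂ → ℝ // Fn T f} ≃ {f : H → ℂ → ℝ // Fn T f} :=
    { toFun := fun f => ⟨fun h z => -f.1 h z, h60_fn_neg f.2⟩
      invFun := fun f => ⟨fun h z => -f.1 h z, h60_fn_neg f.2⟩
      left_inv := fun f => by ext h z; simp
      right_inv := fun f => by ext h z; simp } with heqv
  refine (Equiv.iInf_congr eqv fun f => ?_).symm
  exact h60_en_neg T x f.1

private theorem h60_close_neg (S : Surf) (s u c δ : ℝ) (h : Close S s u c δ) :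
    Close S s u (-c) δ := by
  obtain ⟨m, hm, hlt⟩ := h
  refine ⟨-m, neg_mem hm, ?_⟩
  have h1 : (fun h => -c * (S.vec h).im - (-m) h) = fun h => -(c * (S.vec h).im - m h) := by
    ext h; simp only [Pi.neg_apply]; ring
  rw [h1, h60_hn2_neg]
  exact hlt

theorem close_neg (S : Surf) (s u c δ : ℝ) : Close S s u (-c) δ ↔ Close S s u c δ := by
  constructor
  · intro h
    have := h60_close_neg S s u (-c) δ h
    rwa [neg_neg] at this
  · exact h60_close_neg S s u c δ

end Pool.Agent.TF.I
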