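import Pool.Agent.Helper19.TF.PartI
import Pool.Agent.Helper19.TF.Slopes

/-!
BLOCK TF-I-MODI: `mod_I'`. (Header for SLOPES and MODI.)

`dir_eq`: for `φ ∈ (0, π)`: `exp (iφ) = dir (cos φ / sin φ)` (`√(1 + cot² φ) = 1 / sin φ`).
`slopes`: some `E k = {θ | FlowIso θ θ₀} ∩ Ioo (kπ) ((k+1)π)`, `k : ℤ`, is not null (the points `kπ` are countably many). For `θ ∈ E k`, `φ = θ - kπ`:
`exp (iθ) = (-1)^k exp (iφ) = (-1)^k dir u`, `u = cos φ / sin φ`, and `FlowIso θ θ₀` (all real `t`, replace `t` by `(-1)^k t`) gives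
`DirIso S (dir u) ((-1)^k exp (iθ₀))`. The set `U'` of these `u` is not null: `θ = kπ + π/2 - arctan u`, and a differentiable image of a null set is null
(`addHaar_image_eq_zero_of_differentiableOn_of_addHaar_eq_zero`, as in Helper87/LS/Nonsing.lean). `U' = ⋃_m U' ∩ Icc (-m) m`, so some `U' ∩ Icc (-m) m`, `m ≥ 1`, is not null.
`close_neg`: `CochZ` is a subgroup, `hn2 T (-x) = hn2 T x` (replace `f` by `-f`: `Fn T f ↔ Fn T (-f)`, `omega T (-x) = - omega T x`, `grad (-f) = - grad f`).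
`mod_I'`: `partI` gives `c₁, b₁, b₂'`; take `b₂ = b₂' + 1`, `M = μ(S)`, and for `δ` the measure `σ.map (fun ζ => |ζ|)`. `Close` is even in `c` (`close_neg`), so the preimage of
`{ξ ∈ Icc b₁ b₂ | Close …}` under `|·|` contains `{ζ | b₁ ≤ |ζ| ∧ |ζ| ≤ b₂' ∧ Close …}` (`Measure.le_map_apply`, no measurability needed). The set of `u` contains
`{u ∈ E | TameAt S K s u}`, of outer measure `≥ (19/20 - 1/20) (β - α)` as soon as `s ≥ s₀(α, β)` (subadditivity).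
-/

open MeasureTheory Set Filter Metric
open Pool.Agent.Helper87.LS Pool.Agent.Helper72.TF

namespace Pool.Agent.TF.I

theorem mod_I' (S : Surf) {K G a : ℝ} (hK : 1 ≤ K) (hG : 0 < G) (ha : 0 < a)
    (hcyl : ∀ Y : Surf, Y.n = S.n → Connected Y → (∀ e, ‖Y.vec e‖ ≤ K) →
      (∀ i, 1 / K ≤ Y.area2 i) → ∃ w : ℂ, w ≠ 0 ∧ ‖w‖ ≤ G ∧ Cyl Y w a)
    (htame : ∀ α β : ℝ, α < β → ∃ s₀ : ℝ, ∀ s : ℝ, s₀ ≤ s →
      volume {u ∈ Icc α β | ¬ TameAt S K s u} ≤ ENNReal.ofReal ((β - α) / 20))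
    {CP : ℝ} (hPL : ∀ Y : Surf, Y.n = S.n → (∀ e, ‖Y.vec e‖ ≤ K) → (∀ i, 1 / K ≤ Y.area2 i) →
      ∀ x ∈ Coch (ofSurf Y), ∀ b ∈ Vert (ofSurf Y), ∀ η : ℝ,
      (∀ h, |x h - dv (ofSurf Y) b h| ≤ η) → hn2 (ofSurf Y) x ≤ CP * η ^ 2)
    (θ₀ : ℝ) (h : volume {θ : ℝ | S.FlowIso θ θ₀} ≠ 0) :
    ∃ c₁ b₁ b₂ M U : ℝ, 0 < c₁ ∧ 0 < b₁ ∧ b₁ < b₂ ∧ 0 < U ∧ ∀ δ : ℝ, 0 < δ →
      ∃ σ : Measure ℝ, σ univ ≤ ENNReal.ofReal M ∧ ∃ a b : ℝ, -U ≤ a ∧ a < b ∧ b ≤ U ∧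
        ∀ N : ℝ, ∃ s : ℝ, N ≤ s ∧ ENNReal.ofReal (8 / 10 * (b - a)) ≤
          volume {u ∈ Icc a b | ENNReal.ofReal c₁ ≤
            σ {ξ ∈ Icc b₁ b₂ | Close S s u (ξ / (2 * Real.pi) * Real.sqrt (1 + u ^ 2)) δ}} := by
  obtain ⟨U₀, w₀, U, hU₀, hU1, hpos, hU⟩ := slopes S h
  obtain ⟨c₁, b₁, b₂, hc₁, hb₁, hb₂, hmain⟩ := partI S hK hG ha hcyl htame hPL hU₀ hU1 hU hpos
  refine ⟨c₁, b₁, b₂ + 1, S.μ.real univ, U₀, hc₁, hb₁, by linarith, hU₀, ?_⟩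
  intro δ hδ
  obtain ⟨σ, α, β, E, hfin, hσ, hα, hαβ, hβ, hE, hvE, hs⟩ := hmain δ hδ
  haveI := hfin
  have hmeas : Measurable (fun ζ : ℝ => |ζ|) := continuous_abs.measurable
  refine ⟨σ.map (fun ζ : ℝ => |ζ|), ?_, α, β, hα, hαβ, hβ, ?_⟩
  · rw [Measure.map_apply hmeas MeasurableSet.univ, preimage_univ, ← hσ, ofReal_measureReal]
  intro N
  obtain ⟨s₀, hs₀⟩ := htame α β hαβ
  obtain ⟨s, hs1, hs2⟩ := hs (max N s₀)
  refine ⟨s, (le_max_left _ _).trans hs1, ?_⟩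
  have hbad := hs₀ s ((le_max_right _ _).trans hs1)
  have hincl : E ⊆ {u ∈ Icc α β | ENNReal.ofReal c₁ ≤
      (σ.map (fun ζ : ℝ => |ζ|)) {ξ ∈ Icc b₁ (b₂ + 1) |
        Close S s u (ξ / (2 * Real.pi) * Real.sqrt (1 + u ^ 2)) δ}} ∪
      {u ∈ Icc α β | ¬ TameAt S K s u} := by
    intro u hu
    by_cases ht : TameAt S K s u
    · left
      refine ⟨hE hu, ?_⟩
      have h1 := hs2 u hu ht
      calc ENNReal.ofReal c₁
          ≤ ENNReal.ofReal (σ.real {ζ | b₁ ≤ |ζ| ∧ |ζ| ≤ b₂ ∧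
            Close S s u (ζ / (2 * Real.pi) * Real.sqrt (1 + u ^ 2)) δ}) :=
            ENNReal.ofReal_le_ofReal h1
        _ = σ {ζ | b₁ ≤ |ζ| ∧ |ζ| ≤ b₂ ∧
            Close S s u (ζ / (2 * Real.pi) * Real.sqrt (1 + u ^ 2)) δ} := ofReal_measureReal
        _ ≤ σ ((fun ζ : ℝ => |ζ|) ⁻¹' {ξ ∈ Icc b₁ (b₂ + 1) |
              Close S s u (ξ / (2 * Real.pi) * Real.sqrt (1 + u ^ 2)) δ}) := by
            apply measure_mono
            rintro ζ ⟨hz1, hz2, hz3⟩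
            refine ⟨⟨hz1, by linarith⟩, ?_⟩
            change Close S s u (|ζ| / (2 * Real.pi) * Real.sqrt (1 + u ^ 2)) δ
            rcases le_total 0 ζ with hz | hz
            · rw [abs_of_nonneg hz]
              exact hz3
            · rw [abs_of_nonpos hz]
              have h2 : -ζ / (2 * Real.pi) * Real.sqrt (1 + u ^ 2)
                  = -(ζ / (2 * Real.pi) * Real.sqrt (1 + u ^ 2)) := by ring
              rw [h2]
              exact (close_neg S s u _ δ).mpr hz3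
        _ ≤ (σ.map (fun ζ : ℝ => |ζ|)) {ξ ∈ Icc b₁ (b₂ + 1) |
              Close S s u (ξ / (2 * Real.pi) * Real.sqrt (1 + u ^ 2)) δ} :=
            Measure.le_map_apply hmeas.aemeasurable _
    · right
      exact ⟨hE hu, ht⟩
  have h3 := (measure_mono (μ := (volume : Measure ℝ)) hincl).trans (measure_union_le _ _)
  have h4 := hvE.trans (h3.trans (add_le_add le_rfl hbad))
  have h5 : ENNReal.ofReal (19 / 20 * (β - α)) =
      ENNReal.ofReal (18 / 20 * (β - α)) + ENNReal.ofReal ((β - α) / 20) := by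
    rw [← ENNReal.ofReal_add (by nlinarith) (by linarith)]
    congr 1
    ring
  rw [h5] at h4
  have h6 := (ENNReal.add_le_add_iff_right ENNReal.ofReal_ne_top).mp h4
  refine le_trans (ENNReal.ofReal_le_ofReal ?_) h6
  nlinarith

end Pool.Agent.TF.I
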