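import Mathlib

/-!
BLOCK TF-I-NB. No branching (pure measure theory on the line).

`measurable_ball`: `ξ ↦ σ.real (closedBall ξ r)` is measurable (`measurable_measure_prodMk_left` for the closed set `{(ξ, y) | dist y ξ ≤ r}`).

`no_branch`. For `k : ℤ` put `A k = A ∩ closedBall (2πk/t) η`, `B k = closedBall (2πk/t) (2/(R t))`. As `η < 2/(R t) < π / t`, the `A k` are
disjoint with union `A`, and the `B k` are disjoint. Call `k` good if `σ (B k) ≤ (2M/c₀) σ (A k)`; the other `k` have
`∑ σ (A k) ≤ (c₀/2M) ∑ σ (B k) ≤ c₀/2`, so `A' = ⋃_{k good} A k` has `σ A' ≥ c₀/2`. Let `T l = t R^(2l)`, so `R / T (l+1) = 1 / (R * T l)`: the balls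
around `ξ` of radii `R / T 1 = 1/(R t)`, `1/(R * T 1) = R / T 2`, …, `1 / (R * T m) = 1/(t R^(2m+1))` are nested. For `ξ ∈ A k`, `k` good:
the largest ball is inside `B k` (`1/(R t) + η ≤ 2/(R t)`), the smallest one contains `A k` (`2 η ≤ 1/(t R^(2m+1))`), so with
`q ξ = #{l ∈ {1..m} : ξ ∉ NB σ R δ (T l)}`: `(1+δ)^(q ξ) ≤ σ (B k) / σ (A k) ≤ 2 M / c₀` (if `σ (A k) = 0` then this `A k` does not count), and
`(2M/c₀)² ≤ (1+δ)^m` gives `2 q ξ ≤ m` (strictly: `(1+δ)^(2 q) ≤ (2M/c₀)^2 ≤ (1+δ)^m`). Integrate: `∑_{l=1}^m σ (A' ∩ NB (T l)) = ∫_{A'} (m - q) dσ ≥ (m/2) σ A'`, so one `l` has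
`σ (A' ∩ NB (T l)) ≥ σ A' / 2 ≥ c₀/4`.
-/

open MeasureTheory Set Filter Metric

namespace Pool.Agent.TF.I

/-- The points where the measure `σ` does not branch between the scales `1/(R T)` and `R/T`. -/
def NB (σ : Measure ℝ) (R δ T : ℝ) : Set ℝ :=
  {ξ | σ.real (closedBall ξ (R / T)) ≤ (1 + δ) * σ.real (closedBall ξ (1 / (R * T)))}

theorem measurable_ball (σ : Measure ℝ) [IsFiniteMeasure σ] (r : ℝ) :
    Measurable fun ξ : ℝ => σ.real (closedBall ξ r) := by
  have hs : MeasurableSet {p : ℝ × ℝ | dist p.2 p.1 ≤ r} :=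
    (isClosed_le (by fun_prop) continuous_const).measurableSet
  have h := measurable_measure_prodMk_left (ν := σ) hs
  exact h.ennreal_toReal

theorem measurableSet_NB (σ : Measure ℝ) [IsFiniteMeasure σ] (R δ T : ℝ) :
    MeasurableSet (NB σ R δ T) :=
  measurableSet_le (measurable_ball σ _) ((measurable_ball σ _).const_mul _)

theorem h34_pow_count (g : ℕ → ℝ) (_hg : ∀ i, 0 ≤ g i) (hga : ∀ i, g (i + 1) ≤ g i) (δ : ℝ)
    (hδ : 0 ≤ δ) (m : ℕ) :
    (1 + δ) ^ ((Finset.range m).filter fun l => ¬ g l ≤ (1 + δ) * g (l + 1)).card * g m ≤ g 0 := by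
  induction m with
  | zero => simp
  | succ m ih =>
    rw [Finset.range_add_one, Finset.filter_insert]
    by_cases h : g m ≤ (1 + δ) * g (m + 1)
    · rw [if_neg (not_not.2 h)]
      refine le_trans ?_ ih
      exact mul_le_mul_of_nonneg_left (hga m) (by positivity)
    · rw [if_pos h, Finset.card_insert_of_notMem (by simp)]
      push Not at h
      refine le_trans ?_ ih
      rw [pow_succ, mul_assoc]
      exact mul_le_mul_of_nonneg_left h.le (by positivity)

theorem h34_count_int {σ : Measure ℝ} {A' : Set ℝ} (hA' : MeasurableSet A')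
    {N : ℕ → Set ℝ} (hN : ∀ l, MeasurableSet (N l)) (m : ℕ) [∀ l x, Decidable (x ∈ N l)]
    (h : ∀ x ∈ A', m ≤ 2 * ((Finset.range m).filter fun l => x ∈ N l).card) :
    (m : ENNReal) * σ A' ≤ 2 * ∑ l ∈ Finset.range m, σ (A' ∩ N l) := by
  have h1 : ∀ l, σ (A' ∩ N l) = ∫⁻ x in A', (N l).indicator 1 x ∂σ := by
    intro l
    rw [lintegral_indicator_one (hN l), Measure.restrict_apply (hN l), inter_comm]
  simp only [h1]
  have h3 : ∀ l ∈ Finset.range m, Measurable ((N l).indicator (1 : ℝ → ENNReal)) :=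
    fun l _ => measurable_one.indicator (hN l)
  rw [← lintegral_finsetSum _ h3, ← lintegral_const_mul _ (Finset.measurable_fun_sum _ h3)]
  rw [← setLIntegral_const]
  refine setLIntegral_mono' hA' fun x hx => ?_
  have h2 : ∑ l ∈ Finset.range m, (N l).indicator (1 : ℝ → ENNReal) x =
      (((Finset.range m).filter fun l => x ∈ N l).card : ENNReal) := by
    rw [Finset.card_filter]
    push_cast
    refine Finset.sum_congr rfl fun l _ => ?_
    simp only [Set.indicator_apply, Pi.one_apply]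
  rw [h2]
  exact_mod_cast h x hx

theorem no_branch {σ : Measure ℝ} [IsFiniteMeasure σ] {A : Set ℝ} (hA : MeasurableSet A)
    {c₀ M t R δ η : ℝ} {m : ℕ} (hc : 0 < c₀) (hcA : c₀ ≤ σ.real A) (hM : σ.real univ ≤ M)
    (ht : 0 < t) (hR : 8 ≤ R) (hδ : 0 < δ) (hη : 0 ≤ η)
    (hη2 : 2 * η ≤ 1 / (t * R ^ (2 * m + 1))) (hm : (2 * M / c₀) ^ 2 ≤ (1 + δ) ^ m)
    (hAt : ∀ ξ ∈ A, ∃ k : ℤ, |ξ - k * (2 * Real.pi / t)| ≤ η) :
    ∃ l : ℕ, 1 ≤ l ∧ l ≤ m ∧ c₀ / 4 ≤ σ.real (A ∩ NB σ R δ (t * R ^ (2 * l))) := by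
  classical
  have hcM : c₀ ≤ M := hcA.trans ((measureReal_mono (subset_univ A)).trans hM)
  have hMpos : 0 < M := hc.trans_le hcM
  have hRpos : 0 < R := by linarith
  have h2M : 2 ≤ 2 * M / c₀ := by rw [le_div_iff₀ hc]; linarith
  have hm1 : 1 ≤ m := by
    rcases Nat.eq_zero_or_pos m with h | h
    · subst h
      rw [pow_zero] at hm
      nlinarith
    · exact h
  -- centres and balls
  obtain ⟨cc, hcc⟩ : ∃ cc : ℤ → ℝ, ∀ k, cc k = k * (2 * Real.pi / t) := ⟨_, fun _ => rfl⟩
  obtain ⟨AA, hAA⟩ : ∃ AA : ℤ → Set ℝ, ∀ k, AA k = A ∩ closedBall (cc k) η := ⟨_, fun _ => rfl⟩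
  obtain ⟨BB, hBB⟩ : ∃ BB : ℤ → Set ℝ, ∀ k, BB k = closedBall (cc k) (2 / (R * t)) :=
    ⟨_, fun _ => rfl⟩
  have hAAm : ∀ k, MeasurableSet (AA k) := fun k => by
    rw [hAA]; exact hA.inter measurableSet_closedBall
  have hBBm : ∀ k, MeasurableSet (BB k) := fun k => by
    rw [hBB]; exact measurableSet_closedBall
  have hBd : Pairwise (fun i j => Disjoint (BB i) (BB j)) := by
    intro i j hij
    rw [hBB, hBB]
    refine closedBall_disjoint_closedBall ?_
    rw [Real.dist_eq, hcc, hcc, ← sub_mul, abs_mul, abs_of_pos (by positivity : 0 < 2 * Real.pi / t)]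
    have h1 : (1:ℝ) ≤ |(i:ℝ) - j| := by
      have : (1:ℤ) ≤ |i - j| := Int.one_le_abs (sub_ne_zero.2 hij)
      exact_mod_cast this
    have h2 : 2 / (R * t) ≤ 1 / (4 * t) := by
      rw [div_le_div_iff₀ (by positivity) (by positivity)]; nlinarith
    have h3 : 1 / (4 * t) + 1 / (4 * t) < 2 * Real.pi / t := by
      rw [← add_div, div_lt_div_iff₀ (by positivity) ht]
      nlinarith [Real.pi_gt_three]
    have h4 : 0 < 2 * Real.pi / t := by positivity
    nlinarith
  obtain ⟨bad, hbad⟩ : ∃ bad : Set ℤ, bad = {k | σ.real (AA k) < c₀ / (2 * M) * σ.real (BB k)} :=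
    ⟨_, rfl⟩
  obtain ⟨Ab, hAb⟩ : ∃ Ab : Set ℝ, Ab = ⋃ k ∈ bad, AA k := ⟨_, rfl⟩
  have hAbm : MeasurableSet Ab := by
    rw [hAb]; exact MeasurableSet.biUnion (Set.to_countable _) fun k _ => hAAm k
  have hAbσ : σ Ab ≤ ENNReal.ofReal (c₀ / 2) := by
    have h1 : σ Ab ≤ ∑' k, σ (⋃ (_ : k ∈ bad), AA k) := by
      rw [hAb]; exact measure_iUnion_le _
    have h2 : ∀ k, σ (⋃ (_ : k ∈ bad), AA k) ≤ ENNReal.ofReal (c₀ / (2 * M)) * σ (BB k) := by
      intro k
      by_cases hk : k ∈ bad
      · have e1 : (⋃ (_ : k ∈ bad), AA k) = AA k := by simp [hk]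
        rw [e1]
        rw [hbad] at hk
        have h3 : σ.real (AA k) < c₀ / (2 * M) * σ.real (BB k) := hk
        rw [← ENNReal.ofReal_toReal (measure_ne_top σ (BB k)), ← ENNReal.ofReal_mul (by positivity),
          ← ENNReal.ofReal_toReal (measure_ne_top σ (AA k))]
        exact ENNReal.ofReal_le_ofReal h3.le
      · have e1 : (⋃ (_ : k ∈ bad), AA k) = ∅ := by simp [hk]
        rw [e1]; simp
    calc σ Ab ≤ ∑' k, ENNReal.ofReal (c₀ / (2 * M)) * σ (BB k) := h1.trans (ENNReal.tsum_le_tsum h2)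
      _ = ENNReal.ofReal (c₀ / (2 * M)) * σ (⋃ k, BB k) := by
          rw [ENNReal.tsum_mul_left, measure_iUnion hBd hBBm]
      _ ≤ ENNReal.ofReal (c₀ / (2 * M)) * σ univ := by gcongr; exact subset_univ _
      _ ≤ ENNReal.ofReal (c₀ / (2 * M)) * ENNReal.ofReal M := by
          gcongr
          rw [← ENNReal.ofReal_toReal (measure_ne_top σ univ)]
          exact ENNReal.ofReal_le_ofReal hM
      _ = ENNReal.ofReal (c₀ / 2) := by
          rw [← ENNReal.ofReal_mul (by positivity)]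
          congr 1; field_simp
  obtain ⟨A', hA'⟩ : ∃ A' : Set ℝ, A' = A \ Ab := ⟨_, rfl⟩
  have hA'm : MeasurableSet A' := by rw [hA']; exact hA.diff hAbm
  have hA'σ : c₀ / 2 ≤ σ.real A' := by
    have h1 : σ.real A ≤ σ.real A' + σ.real Ab := by
      refine (measureReal_mono ?_).trans (measureReal_union_le A' Ab)
      rw [hA']
      intro x hx
      by_cases hxb : x ∈ Ab
      · exact Or.inr hxb
      · exact Or.inl ⟨hx, hxb⟩
    have h2 : σ.real Ab ≤ c₀ / 2 := by
      rw [measureReal_def]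
      exact ENNReal.toReal_le_of_le_ofReal (by positivity) hAbσ
    linarith
  -- radii
  have hrad : ∀ l : ℕ, R / (t * R ^ (2 * (l + 1))) = 1 / (t * R ^ (2 * l + 1)) := by
    intro l
    rw [div_eq_div_iff (by positivity) (by positivity)]
    ring
  have hrad2 : ∀ l : ℕ, 1 / (R * (t * R ^ (2 * (l + 1)))) = 1 / (t * R ^ (2 * (l + 1) + 1)) := by
    intro l
    congr 1; ring
  have hR1 : (1:ℝ) ≤ R := by linarith
  have key : ∀ x ∈ A', m ≤ 2 * ((Finset.range m).filter fun l =>
      x ∈ NB σ R δ (t * R ^ (2 * (l + 1)))).card := by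
    intro x hx
    rw [hA'] at hx
    obtain ⟨k, hk⟩ := hAt x hx.1
    rw [← hcc] at hk
    have hxk : x ∈ AA k := by
      rw [hAA]; exact ⟨hx.1, by rw [mem_closedBall, Real.dist_eq]; exact hk⟩
    have hkg : k ∉ bad := by
      intro hkb
      apply hx.2
      rw [hAb]
      exact mem_biUnion hkb hxk
    have hkg' : c₀ / (2 * M) * σ.real (BB k) ≤ σ.real (AA k) := by
      rw [hbad] at hkg
      exact not_lt.1 hkg
    obtain ⟨g, hg⟩ : ∃ g : ℕ → ℝ, ∀ i, g i = σ.real (closedBall x (1 / (t * R ^ (2 * i + 1)))) :=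
      ⟨_, fun _ => rfl⟩
    have hg0 : ∀ i, 0 ≤ g i := fun i => by rw [hg]; exact measureReal_nonneg
    have hga : ∀ i, g (i + 1) ≤ g i := by
      intro i
      rw [hg, hg]
      refine measureReal_mono (closedBall_subset_closedBall ?_)
      gcongr
      omega
    have hNB : ∀ l, (x ∈ NB σ R δ (t * R ^ (2 * (l + 1)))) ↔ g l ≤ (1 + δ) * g (l + 1) := by
      intro l
      have h1 : (x ∈ NB σ R δ (t * R ^ (2 * (l + 1)))) ↔
          σ.real (closedBall x (R / (t * R ^ (2 * (l + 1))))) ≤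
            (1 + δ) * σ.real (closedBall x (1 / (R * (t * R ^ (2 * (l + 1)))))) := Iff.rfl
      rw [h1, hrad, hrad2, hg, hg]
    have hcount := h34_pow_count g hg0 hga δ hδ.le m
    have hsum : ((Finset.range m).filter fun l => x ∈ NB σ R δ (t * R ^ (2 * (l + 1)))).card +
        ((Finset.range m).filter fun l => ¬ g l ≤ (1 + δ) * g (l + 1)).card = m := by
      have h1 := Finset.card_filter_add_card_filter_not (s := Finset.range m)
        (fun l => g l ≤ (1 + δ) * g (l + 1))
      rw [Finset.card_range] at h1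
      rw [Finset.filter_congr fun l _ => hNB l]
      exact h1
    obtain ⟨q, hq⟩ : ∃ q : ℕ, q = ((Finset.range m).filter fun l =>
      ¬ g l ≤ (1 + δ) * g (l + 1)).card := ⟨_, rfl⟩
    rw [← hq] at hcount hsum
    have hη3 : η ≤ 1 / (R * t) := by
      have h1 : 1 / (t * R ^ (2 * m + 1)) ≤ 1 / (R * t) := by
        have h2 : R ≤ R ^ (2 * m + 1) := by
          calc R = R ^ 1 := (pow_one R).symm
            _ ≤ R ^ (2 * m + 1) := pow_le_pow_right₀ hR1 (by omega)
        rw [mul_comm R t]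
        gcongr
      linarith
    have hbig : g 0 ≤ σ.real (BB k) := by
      rw [hg, hBB]
      refine measureReal_mono (closedBall_subset_closedBall' ?_)
      rw [Real.dist_eq]
      have e1 : 1 / (t * R ^ (2 * 0 + 1)) = 1 / (R * t) := by ring_nf
      rw [e1]
      have e2 : 2 / (R * t) = 1 / (R * t) + 1 / (R * t) := by ring
      rw [e2]
      linarith
    have hsmall : σ.real (AA k) ≤ g m := by
      rw [hg, hAA]
      refine measureReal_mono ?_
      intro y hy
      have h1 := hy.2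
      rw [mem_closedBall, Real.dist_eq] at h1 ⊢
      have h2 : |y - x| ≤ |y - cc k| + |cc k - x| := abs_sub_le _ _ _
      rw [abs_sub_comm (cc k) x] at h2
      linarith
    have h2q : 2 * q ≤ m := by
      rcases (hg0 m).eq_or_lt with h0 | h0
      · -- all balls have measure zero
        have h1 : σ.real (AA k) = 0 := le_antisymm (by linarith) measureReal_nonneg
        have h2 : σ.real (BB k) = 0 := by
          refine le_antisymm ?_ measureReal_nonneg
          by_contra hcon
          push Not at hcon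
          have : 0 < c₀ / (2 * M) * σ.real (BB k) := by positivity
          linarith
        have h3 : ∀ i, g i = 0 := by
          intro i
          have h4 : g i ≤ g 0 := by
            induction i with
            | zero => exact le_rfl
            | succ i ih => exact (hga i).trans ih
          exact le_antisymm (by linarith) (hg0 i)
        have h5 : q = 0 := by
          rw [hq, Finset.card_eq_zero, Finset.filter_eq_empty_iff]
          intro l _
          rw [h3, h3]; simp
        omega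
      · have h1 : (1 + δ) ^ q * g m ≤ 2 * M / c₀ * g m := by
          have h2 : σ.real (BB k) ≤ 2 * M / c₀ * σ.real (AA k) := by
            have h3 : σ.real (BB k) = 2 * M / c₀ * (c₀ / (2 * M) * σ.real (BB k)) := by
              field_simp
            rw [h3]
            exact mul_le_mul_of_nonneg_left hkg' (by positivity)
          calc (1 + δ) ^ q * g m ≤ g 0 := hcount
            _ ≤ σ.real (BB k) := hbig
            _ ≤ 2 * M / c₀ * σ.real (AA k) := h2
            _ ≤ 2 * M / c₀ * g m := mul_le_mul_of_nonneg_left hsmall (by positivity)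
        have h2 : (1 + δ) ^ q ≤ 2 * M / c₀ := le_of_mul_le_mul_right h1 h0
        have h3 : (1 + δ) ^ (2 * q) ≤ (1 + δ) ^ m := by
          calc (1 + δ) ^ (2 * q) = ((1 + δ) ^ q) ^ 2 := by rw [mul_comm, pow_mul]
            _ ≤ (2 * M / c₀) ^ 2 := by gcongr
            _ ≤ _ := hm
        exact (pow_le_pow_iff_right₀ (by linarith)).1 h3
    omega
  have hint := h34_count_int (σ := σ) hA'm (fun l => measurableSet_NB σ R δ (t * R ^ (2 * (l + 1)))) m key
  by_contra hcon
  push Not at hcon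
  have hlt : ∀ l ∈ Finset.range m, σ.real (A' ∩ NB σ R δ (t * R ^ (2 * (l + 1)))) < c₀ / 4 := by
    intro l hl
    refine lt_of_le_of_lt (measureReal_mono ?_) (hcon (l + 1) (by omega)
      (by have := Finset.mem_range.1 hl; omega))
    refine inter_subset_inter_left _ ?_
    rw [hA']; exact sdiff_subset
  have hr : (m : ℝ) * σ.real A' ≤ 2 * ∑ l ∈ Finset.range m,
      σ.real (A' ∩ NB σ R δ (t * R ^ (2 * (l + 1)))) := by
    have h1 := ENNReal.toReal_mono (by
      refine ENNReal.mul_ne_top (by simp) ?_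
      exact (ENNReal.sum_lt_top.2 fun l _ => measure_lt_top σ _).ne) hint
    rw [ENNReal.toReal_mul, ENNReal.toReal_mul, ENNReal.toReal_sum (fun l _ => measure_ne_top σ _)] at h1
    simpa [Measure.real] using h1
  have hs : ∑ l ∈ Finset.range m, σ.real (A' ∩ NB σ R δ (t * R ^ (2 * (l + 1)))) <
      m * (c₀ / 4) := by
    have h1 := Finset.sum_lt_sum_of_nonempty (Finset.nonempty_range_iff.2 (by omega)) hlt
    rwa [Finset.sum_const, Finset.card_range, nsmul_eq_mul] at h1
  have hmp : (1:ℝ) ≤ m := by exact_mod_cast hm1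
  nlinarith

end Pool.Agent.TF.I
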