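import Pool.Agent.Helper19.TF.Defs

/-!
BLOCK TF-I-SEL. Selection of directions with almost equal partitions.

For `u ∈ U` choose `Φ u` (from `w u` to `w0`) and `Ψ u` (its inverse, from `w0` to `w u`: `Ψ u (F (t w0) y) = F (t w u) (Ψ u y)`,
compare `flowIso_symm` in Helper87/LS/RigidB.lean). The functions `x ↦ (Q (Ψ u x) : ℝ)` lie in the separable space `L¹(μ)`; as in
the proof of `Surf.select` (Helper87/LS/Select.lean, copy it) some `U' ⊆ U` with `volume U' ≠ 0` has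
`μ {Q ∘ Ψ u ≠ Q ∘ Ψ u'} ≤ κ / 2` for all `u, u' ∈ U'`. Take `Ψ = Ψ u' ∘ Φ u`: a.e. `Q x = Q (Ψ u (Φ u x))`, so
`{Q (Ψ x) ≠ Q x}` is a.e. the preimage under `Φ u` of `{Q ∘ Ψ u' ≠ Q ∘ Ψ u}`.
-/

open MeasureTheory Set Filter
open Pool.Agent.Helper87.LS

namespace Pool.Agent.TF.I

theorem select' (S : Surf) {w : ℝ → ℂ} {w0 : ℂ} {Q : ℂ → ℕ} (hQ : Part Q) {U : Set ℝ}
    (hU : ∀ u ∈ U, DirIso S (w u) w0) (hpos : volume U ≠ 0) {κ : ℝ} (hκ : 0 < κ) :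
    ∃ U' ⊆ U, volume U' ≠ 0 ∧ ∀ u ∈ U', ∀ u' ∈ U', ∃ Ψ : ℂ → ℂ, Inter S (w u) (w u') Ψ ∧
      S.μ.real {x | Q (Ψ x) ≠ Q x} ≤ κ := by
  classical
  have hch : ∀ u : ℝ, ∃ Φ Ψ : ℂ → ℂ, Measurable Φ ∧ Measurable Ψ ∧ (u ∈ U →
      MeasurePreserving Φ S.μ S.μ ∧ MeasurePreserving Ψ S.μ S.μ ∧
      (∀ᵐ x ∂S.μ, Ψ (Φ x) = x) ∧
      (∀ t : ℝ, ∀ᵐ x ∂S.μ, Φ (S.F (t * w u) x) = S.F (t * w0) (Φ x)) ∧
      ∀ t : ℝ, ∀ᵐ x ∂S.μ, Ψ (S.F (t * w0) x) = S.F (t * w u) (Ψ x)) := by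
    intro u
    by_cases hu : u ∈ U
    · obtain ⟨Φ, Ψ, hΦ, hΨ, h1, h2, h3⟩ := hU u hu
      refine ⟨Φ, Ψ, hΦ.measurable, hΨ.measurable, fun _ => ⟨hΦ, hΨ, h1, h3, fun t => ?_⟩⟩
      have hF := (S.measurePreserving_F (t * w u)).comp hΨ
      have e1 : ∀ᵐ y ∂S.μ, Φ (S.F (t * w u) (Ψ y)) = S.F (t * w0) (Φ (Ψ y)) :=
        hΨ.quasiMeasurePreserving.ae (h3 t)
      have e2 : ∀ᵐ y ∂S.μ, Ψ (Φ (S.F (t * w u) (Ψ y))) = S.F (t * w u) (Ψ y) :=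
        hF.quasiMeasurePreserving.ae h1
      filter_upwards [e1, e2, h2] with y a b c
      rw [← b, a, c]
    · exact ⟨id, id, measurable_id, measurable_id, fun h => absurd h hu⟩
  choose Φ Ψ hΦm hΨm hΦΨ using hch
  obtain ⟨B, hB⟩ : ∃ B : ℕ, ∀ x, Q x ≤ B := by
    obtain ⟨B, hB⟩ := hQ.2.bddAbove
    exact ⟨B, fun x => hB ⟨x, rfl⟩⟩
  have hmem : ∀ u, MemLp (fun x => (Q (Ψ u x) : ℝ)) 1 S.μ := by
    intro u
    refine MemLp.of_bound (C := B) ?_ ?_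
    · exact (measurable_from_nat.comp (hQ.1.comp (hΨm u))).aestronglyMeasurable
    · refine Eventually.of_forall fun x => ?_
      simp only [Real.norm_eq_abs, Nat.abs_cast, Nat.cast_le]
      exact hB _
  set f : ℝ → Lp ℝ 1 S.μ := fun u => (hmem u).toLp _ with hf
  have hsep : SecondCountableTopology (Lp ℝ 1 S.μ) := by
    haveI : Fact ((1 : ENNReal) ≠ ⊤) := ⟨ENNReal.one_ne_top⟩
    infer_instance
  obtain ⟨n, hn⟩ : ∃ n : ℕ,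
      volume {u ∈ U | dist (f u) (TopologicalSpace.denseSeq (Lp ℝ 1 S.μ) n) < κ / 4} ≠ 0 := by
    by_contra hcon
    push Not at hcon
    apply hpos
    have : U ⊆ ⋃ n, {u ∈ U | dist (f u) (TopologicalSpace.denseSeq (Lp ℝ 1 S.μ) n) < κ / 4} := by
      intro u hu
      obtain ⟨n, hn⟩ := (TopologicalSpace.denseRange_denseSeq (Lp ℝ 1 S.μ)).exists_dist_lt (f u)
        (show 0 < κ / 4 by positivity)
      exact mem_iUnion.2 ⟨n, hu, hn⟩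
    exact measure_mono_null this (measure_iUnion_null hcon)
  refine ⟨_, sep_subset _ _, hn, ?_⟩
  rintro u ⟨huE, hu⟩ u' ⟨huE', hu'⟩
  have hd : dist (f u') (f u) < κ / 2 := by
    calc dist (f u') (f u) ≤ dist (f u') (TopologicalSpace.denseSeq (Lp ℝ 1 S.μ) n) +
          dist (f u) (TopologicalSpace.denseSeq (Lp ℝ 1 S.μ) n) := dist_triangle_right _ _ _
      _ < κ / 4 + κ / 4 := add_lt_add hu' hu
      _ = κ / 2 := by ring
  have hmeas : S.μ.real {x | (Q ∘ Ψ u') x ≠ (Q ∘ Ψ u) x} ≤ κ / 2 := by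
    have hed : edist (f u') (f u) ≤ ENNReal.ofReal (κ / 2) := by
      rw [edist_dist]
      exact ENNReal.ofReal_le_ofReal hd.le
    rw [hf] at hed
    simp only [Lp.edist_toLp_toLp] at hed
    rw [eLpNorm_one_eq_lintegral_enorm] at hed
    have hset : {x | (Q ∘ Ψ u') x ≠ (Q ∘ Ψ u) x} ⊆
        {x | (1 : ENNReal) ≤ ‖((fun x => (Q (Ψ u' x) : ℝ)) - fun x => (Q (Ψ u x) : ℝ)) x‖ₑ} := by
      intro x hx
      simp only [mem_setOf_eq, Function.comp_apply] at hx ⊢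
      have h1 : (1 : ℝ) ≤ ‖(Q (Ψ u' x) : ℝ) - (Q (Ψ u x) : ℝ)‖ := by
        have h2 : (1 : ℤ) ≤ |(Q (Ψ u' x) : ℤ) - (Q (Ψ u x) : ℤ)| := by
          apply Int.one_le_abs
          intro h0
          apply hx
          have := sub_eq_zero.1 h0
          exact_mod_cast this
        rw [Real.norm_eq_abs]
        exact_mod_cast h2
      rw [Pi.sub_apply, ← ofReal_norm, ← ENNReal.ofReal_one]
      exact ENNReal.ofReal_le_ofReal h1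
    have hle : S.μ {x | (Q ∘ Ψ u') x ≠ (Q ∘ Ψ u) x} ≤ ENNReal.ofReal (κ / 2) := by
      calc S.μ {x | (Q ∘ Ψ u') x ≠ (Q ∘ Ψ u) x}
          ≤ S.μ {x | (1 : ENNReal) ≤
              ‖((fun x => (Q (Ψ u' x) : ℝ)) - fun x => (Q (Ψ u x) : ℝ)) x‖ₑ} :=
            measure_mono hset
        _ = 1 * S.μ {x | (1 : ENNReal) ≤
              ‖((fun x => (Q (Ψ u' x) : ℝ)) - fun x => (Q (Ψ u x) : ℝ)) x‖ₑ} := by
            rw [one_mul]
        _ ≤ ∫⁻ x, ‖((fun x => (Q (Ψ u' x) : ℝ)) - fun x => (Q (Ψ u x) : ℝ)) x‖ₑ ∂S.μ := by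
            apply mul_meas_ge_le_lintegral₀
            exact (((hmem u').sub (hmem u)).aestronglyMeasurable.enorm)
        _ ≤ ENNReal.ofReal (κ / 2) := hed
    unfold Measure.real
    exact ENNReal.toReal_le_of_le_ofReal (by positivity) hle
  obtain ⟨hΦu, hΨu, hinv, hint, -⟩ := hΦΨ u huE
  obtain ⟨hΦu', hΨu', -, -, hint'⟩ := hΦΨ u' huE'
  refine ⟨Ψ u' ∘ Φ u, ⟨hΨu'.comp hΦu, fun t => ?_⟩, ?_⟩
  · have e1 : ∀ᵐ x ∂S.μ, Ψ u' (S.F (t * w0) (Φ u x)) = S.F (t * w u') (Ψ u' (Φ u x)) :=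
      hΦu.quasiMeasurePreserving.ae (hint' t)
    filter_upwards [e1, hint t] with x a b
    simp only [Function.comp_apply]
    rw [b, a]
  · have hmset : MeasurableSet {x | (Q ∘ Ψ u') x ≠ (Q ∘ Ψ u) x} :=
      (measurableSet_eq_fun (hQ.1.comp (hΨm u')) (hQ.1.comp (hΨm u))).compl
    have hpre : S.μ.real (Φ u ⁻¹' {x | (Q ∘ Ψ u') x ≠ (Q ∘ Ψ u) x}) =
        S.μ.real {x | (Q ∘ Ψ u') x ≠ (Q ∘ Ψ u) x} := by
      unfold Measure.real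
      rw [hΦu.measure_preimage hmset.nullMeasurableSet]
    have hae : S.μ.real {x | Q ((Ψ u' ∘ Φ u) x) ≠ Q x} =
        S.μ.real (Φ u ⁻¹' {x | (Q ∘ Ψ u') x ≠ (Q ∘ Ψ u) x}) := by
      refine measureReal_congr ?_
      filter_upwards [hinv] with x hx
      refine propext ?_
      change Q ((Ψ u' ∘ Φ u) x) ≠ Q x ↔ (Q ∘ Ψ u') (Φ u x) ≠ (Q ∘ Ψ u) (Φ u x)
      simp only [Function.comp_apply]
      rw [hx]
    rw [hae, hpre]
    linarith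

end Pool.Agent.TF.I
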