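import Pool.Agent.Helper19.TF.FL
import Pool.Agent.Helper11.NiceRec.Herg

/-!
BLOCK TF-I-SPEC. The spectral measure of a partition for the motion `F (τ v)`.

Put `r n = Dq Q (n τ v)` (`n : ℤ`), even by `Dq_neg`, `r 0 = μ(S) > 0`. For `θ : UnitAddCircle` let
`d N θ = (1/N) ∑_{j,l<N} r (j - l) Re (fourier (l - j) θ)`. This is `≥ 0`: by `Dq_pair` (with `u = v`, `a = jτ`, `b = lτ`)
`r (j - l) = ∫ 1[Q (F (jτv) x) = Q (F (lτv) x)] dμ`, and for every `x`, with `q j = Q (F (jτv) x)`,
`∑_{j,l} 1[q j = q l] z_j conj z_l = ∑_a |∑_{j : q j = a} z_j|² ≥ 0`. Apply `Pool.Agent.Helper11.NiceRec.herglotz`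
(check that the imaginary part of the double sum vanishes: exchange `j` and `l`), and push the measure `σ₀` on the circle to `ℝ`
by `x ↦ (2π/τ) x̃`, `x̃ ∈ (-1/2, 1/2]` the representative (`AddCircle.equivIoc`, `AddCircle.measurableEquivIoc`).
Negative `n`: complex conjugation and `r (-n) = r n`.
-/

open MeasureTheory Set Filter
open Pool.Agent.Helper87.LS

namespace Pool.Agent.TF.I

namespace Spec4

open scoped ComplexConjugate InnerProductSpace

/-- total mass is positive -/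
private lemma mass_pos (S : Surf) : 0 < S.μ.real univ := by
  obtain ⟨y, hy⟩ := S.tri_nonempty ⟨0, S.pos⟩
  have hD : S.D.Nonempty := ⟨y, mem_iUnion.2 ⟨_, hy⟩⟩
  rw [Measure.real, ENNReal.toReal_pos_iff]
  refine ⟨?_, measure_lt_top _ _⟩
  rw [Surf.μ, Measure.restrict_apply_univ]
  exact S.isOpen_D.measure_pos volume hD

/-- positivity of the kernel at one point -/
private lemma ker_nonneg (Q : ℂ → ℕ) (N : ℕ) (p : ℕ → ℂ) (z : ℕ → ℂ) :
    0 ≤ ∑ j ∈ Finset.range N, ∑ l ∈ Finset.range N,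
      (if Q (p j) = Q (p l) then (1 : ℝ) else 0) * (z j * conj (z l)).re := by
  have h : (⟪∑ l ∈ Finset.range N, z l • fQ Q (p l), ∑ j ∈ Finset.range N, z j • fQ Q (p j)⟫_ℂ).re
      = ∑ j ∈ Finset.range N, ∑ l ∈ Finset.range N,
      (if Q (p j) = Q (p l) then (1 : ℝ) else 0) * (z j * conj (z l)).re := by
    rw [inner_sum, Complex.re_sum]
    refine Finset.sum_congr rfl fun j _ => ?_
    rw [sum_inner, Complex.re_sum]
    refine Finset.sum_congr rfl fun l _ => ?_
    rw [inner_smul_left, inner_smul_right, inner_fQ]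
    by_cases hq : Q (p l) = Q (p j)
    · rw [if_pos hq, if_pos hq.symm, mul_one, one_mul, mul_comm]
    · rw [if_neg hq, if_neg (fun h => hq h.symm), mul_zero, mul_zero, zero_mul, Complex.zero_re]
  rw [← h]
  exact inner_self_nonneg (𝕜 := ℂ)

private lemma kernel (S : Surf) {Q : ℂ → ℕ} (hQ : Part Q) (v : ℂ) (τ : ℝ) (N : ℕ) (z : ℕ → ℂ) :
    0 ≤ ∑ j ∈ Finset.range N, ∑ l ∈ Finset.range N,
      S.Dq Q (((((j : ℤ) - (l : ℤ) : ℤ) : ℝ) * τ : ℝ) * v) * (z j * conj (z l)).re := by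
  have hm : ∀ j l : ℕ, MeasurableSet {x | Q (S.F (((j * τ : ℝ) : ℂ) * v) x)
      = Q (S.F (((l * τ : ℝ) : ℂ) * v) x)} := fun j l =>
    measurableSet_eq_fun (hQ.1.comp (S.measurable_F _)) (hQ.1.comp (S.measurable_F _))
  have h1 : ∀ j l : ℕ, S.Dq Q (((((j : ℤ) - (l : ℤ) : ℤ) : ℝ) * τ : ℝ) * v) * (z j * conj (z l)).re
      = ∫ x, {x | Q (S.F (((j * τ : ℝ) : ℂ) * v) x)
      = Q (S.F (((l * τ : ℝ) : ℂ) * v) x)}.indicator (fun _ => (z j * conj (z l)).re) x ∂S.μ := by
    intro j l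
    rw [integral_indicator_const _ (hm j l), smul_eq_mul]
    congr 1
    have h2 := Dq_pair S hQ v (l * τ) (j * τ)
    have h3 : {x | Q (S.F (((j * τ : ℝ) : ℂ) * v) x) = Q (S.F (((l * τ : ℝ) : ℂ) * v) x)}
      = {x | Q (S.F (((l * τ : ℝ) : ℂ) * v) x) = Q (S.F (((j * τ : ℝ) : ℂ) * v) x)} := by
      ext x; exact eq_comm
    rw [h3, h2]
    congr 2
    push_cast
    ring
  have hi : ∀ j l : ℕ, Integrable ({x | Q (S.F (((j * τ : ℝ) : ℂ) * v) x)
      = Q (S.F (((l * τ : ℝ) : ℂ) * v) x)}.indicator (fun _ => (z j * conj (z l)).re)) S.μ :=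
    fun j l => (integrable_const _).indicator (hm j l)
  have h4 : ∑ j ∈ Finset.range N, ∑ l ∈ Finset.range N,
      S.Dq Q (((((j : ℤ) - (l : ℤ) : ℤ) : ℝ) * τ : ℝ) * v) * (z j * conj (z l)).re
      = ∫ x, ∑ j ∈ Finset.range N, ∑ l ∈ Finset.range N, {x | Q (S.F (((j * τ : ℝ) : ℂ) * v) x)
      = Q (S.F (((l * τ : ℝ) : ℂ) * v) x)}.indicator (fun _ => (z j * conj (z l)).re) x ∂S.μ := by
    rw [integral_finsetSum _ (fun j _ => integrable_finsetSum _ (fun l _ => hi j l))]
    refine Finset.sum_congr rfl fun j _ => ?_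
    rw [integral_finsetSum _ (fun l _ => hi j l)]
    exact Finset.sum_congr rfl fun l _ => h1 j l
  rw [h4]
  refine integral_nonneg fun x => ?_
  have h5 := ker_nonneg Q N (fun j => S.F (((j * τ : ℝ) : ℂ) * v) x) z
  refine h5.trans (le_of_eq ?_)
  refine Finset.sum_congr rfl fun j _ => Finset.sum_congr rfl fun l _ => ?_
  rw [indicator_apply]
  simp only [mem_ofPred_eq]
  split_ifs <;> simp

/-- the representative in `(-1/2, 1/2]` -/
private noncomputable def rep (x : UnitAddCircle) : ℝ :=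
  ((AddCircle.measurableEquivIoc (1 : ℝ) (-1 / 2) x : Ioc (-1 / 2 : ℝ) (-1 / 2 + 1)) : ℝ)

private lemma measurable_rep : Measurable rep :=
  measurable_subtype_coe.comp (AddCircle.measurableEquivIoc (1 : ℝ) (-1 / 2)).measurable

private lemma rep_mem (x : UnitAddCircle) : |rep x| ≤ 1 / 2 := by
  have h := (AddCircle.measurableEquivIoc (1 : ℝ) (-1 / 2) x).2
  rw [abs_le]
  unfold rep
  constructor
  · linarith [h.1]
  · linarith [h.2]

private lemma coe_rep (x : UnitAddCircle) : ((rep x : ℝ) : UnitAddCircle) = x := by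
  have h := (AddCircle.equivIoc (1 : ℝ) (-1 / 2)).symm_apply_apply x
  exact h

end Spec4

open Spec4 in
theorem exists_spec (S : Surf) {Q : ℂ → ℕ} (hQ : Part Q) (v : ℂ) {τ : ℝ} (hτ : 0 < τ) :
    ∃ σ : Measure ℝ, IsSpec S Q τ v σ := by
  set r : ℤ → ℝ := fun n => S.Dq Q (((n * τ : ℝ) : ℂ) * v) with hr
  have hrneg : ∀ n : ℤ, r (-n) = r n := by
    intro n
    simp only [hr]
    rw [← Dq_neg S hQ]
    congr 1
    push_cast
    ring
  have hr0 : 0 < r 0 := by
    have h : r 0 = S.μ.real univ := by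
      simp only [hr, Int.cast_zero, zero_mul, Complex.ofReal_zero]
      unfold Surf.Dq
      refine measureReal_congr ?_
      filter_upwards [F_zero S] with x hx
      have h1 : (x ∈ {x | Q (S.F 0 x) = Q x}) = True := by
        rw [mem_ofPred_eq, hx]
        simp
      have h2 : (x ∈ (univ : Set ℂ)) = True := by simp
      exact h1.trans h2.symm
    rw [h]
    exact mass_pos S
  -- the double sums
  set D : ℕ → UnitAddCircle → ℂ := fun N θ => (∑ j ∈ Finset.range N, ∑ l ∈ Finset.range N,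
      (r ((j : ℤ) - l) : ℂ) * fourier ((l : ℤ) - j) θ) / (N : ℂ) with hDdef
  have hconj : ∀ N θ, (starRingEnd ℂ) (D N θ) = D N θ := by
    intro N θ
    simp only [hDdef, map_div₀, map_sum, map_mul, Complex.conj_ofReal, map_natCast]
    congr 1
    rw [Finset.sum_comm]
    refine Finset.sum_congr rfl fun j _ => Finset.sum_congr rfl fun l _ => ?_
    rw [← fourier_neg]
    have e1 : r ((l : ℤ) - j) = r ((j : ℤ) - l) := by
      rw [← hrneg]
      congr 1
      ring
    rw [e1]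
    congr 2
    ring_nf
  have hd : ∀ N θ, (((D N θ).re : ℝ) : ℂ) = D N θ := by
    intro N θ
    exact (Complex.conj_eq_iff_re.1 (hconj N θ))
  have hd0 : ∀ N θ, 0 ≤ (D N θ).re := by
    intro N θ
    have h1 := kernel S hQ v τ N (fun j => fourier (-(j : ℤ)) θ)
    have h2 : (D N θ).re = (∑ j ∈ Finset.range N, ∑ l ∈ Finset.range N,
        S.Dq Q (((((j : ℤ) - (l : ℤ) : ℤ) : ℝ) * τ : ℝ) * v) *
          ((fourier (-(j : ℤ)) θ : ℂ) * (starRingEnd ℂ) (fourier (-(l : ℤ)) θ)).re) / N := by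
      simp only [hDdef]
      rw [Complex.div_natCast_re, Complex.re_sum]
      congr 1
      refine Finset.sum_congr rfl fun j _ => ?_
      rw [Complex.re_sum]
      refine Finset.sum_congr rfl fun l _ => ?_
      rw [Complex.re_ofReal_mul]
      congr 2
      rw [← fourier_neg, neg_neg, ← fourier_add]
      congr 1
      ring_nf
    rw [h2]
    exact div_nonneg h1 (Nat.cast_nonneg _)
  obtain ⟨σ₀, hσ₀, hF⟩ := Pool.Agent.Helper11.NiceRec.herglotz r hr0 (fun N θ => (D N θ).re) hd0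
    (fun N θ => hd N θ)
  set g : UnitAddCircle → ℝ := fun x => 2 * Real.pi / τ * rep x with hg
  have hgm : Measurable g := measurable_rep.const_mul _
  have hgσ : ∀ m : ℤ, ∫ ξ, Complex.exp (((m * τ * ξ : ℝ) : ℂ) * Complex.I) ∂(σ₀.map g)
      = ∫ x, fourier m x ∂σ₀ := by
    intro m
    rw [integral_map hgm.aemeasurable (by fun_prop)]
    refine integral_congr_ae (Eventually.of_forall fun x => ?_)
    simp only
    conv_rhs => rw [← coe_rep x]
    rw [fourier_coe_apply]
    congr 1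
    simp only [hg]
    have hτ' : (τ : ℂ) ≠ 0 := by exact_mod_cast hτ.ne'
    push_cast
    field_simp
  refine ⟨σ₀.map g, ?_, ?_, ?_⟩
  · exact ⟨by rw [Measure.map_apply hgm MeasurableSet.univ]; exact measure_lt_top _ _⟩
  · rw [Measure.map_apply hgm (measurableSet_lt measurable_const (by fun_prop))]
    have : g ⁻¹' {ξ | Real.pi / τ < |ξ|} = ∅ := by
      ext x
      simp only [mem_preimage, mem_ofPred_eq, mem_empty_iff_false, iff_false, not_lt, hg]
      rw [abs_mul, abs_of_pos (by positivity)]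
      have := rep_mem x
      calc 2 * Real.pi / τ * |rep x| ≤ 2 * Real.pi / τ * (1 / 2) := by gcongr
        _ = Real.pi / τ := by ring
    rw [this, measure_empty]
  · intro n
    rw [hgσ n]
    obtain ⟨m, rfl | rfl⟩ := n.eq_nat_or_neg
    · rw [hF m]
    · have h1 : ∫ x, fourier (-(m : ℤ)) x ∂σ₀ = (starRingEnd ℂ) (∫ x, fourier (m : ℤ) x ∂σ₀) := by
        rw [← integral_conj]
        refine integral_congr_ae (Eventually.of_forall fun x => ?_)
        simp only
        rw [fourier_neg]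
      rw [h1, hF m, Complex.conj_ofReal]
      have h2 := hrneg m
      simp only [hr] at h2 ⊢
      rw [h2]

end Pool.Agent.TF.I
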