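import Pool.Agent.Helper19.TF.FinC
import Pool.Agent.Helper19.TF.FinB
import Pool.Agent.Helper19.TF.Sel
import Pool.Agent.Helper19.TF.Spec
import Pool.Agent.Helper19.TF.Low
import Pool.Agent.Helper19.TF.Seed

/-!
BLOCK TF-I-PARTI. Result of module I (assembly, order of constants).

Let `M = max 1 μ(S)`, `n = S.n`, `c₁ = a / 256`. `low_freq` with `ε = a/16`: `h, b₁` and `Q = S.grid (h/2)` (`S.grid_part`). `high_freq` with `ε = a/32`: `b₂' , τ₁`; take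
`b₂ = max b₂' (2 b₁)`. (These depend only on `S, K, a`.) The answer is `c₁, b₁, b₂`.
Given `δ' > 0`, choose in this order:
`ρ > 0` with `4 · 2400 n K³ ρ ≤ c₁/8`; `Ccl` from `closeness V2 n K ρ`; `CP` from the hypothesis `hPL`; `κ' > 0` with `Ccl κ' ≤ 1`, `CP (Ccl κ')² < δ'²`;
`Cc` from `comm S`; `B ≥ 1` with `4 · 2 · 100 · 2 Cc / B / κ'² ≤ c₁/16`; `R ≥ 8`, `R ≥ 9 q₀² B²` (`q₀ = √(1 + U₀²)`), `72 q₀² B² ≤ κ'² R²`, `4·16·9·M·801/R/κ'² ≤ c₁/16`; `δ ∈ (0,1]` with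
`4·16·9·M·4 δ/κ'² ≤ c₁/16`; `κ > 0` with `4·16·1800 κ/κ'² ≤ c₁/16`, `400 κ ≤ c₁/16`, `2 κ ≤ a/8`; `ε > 0` with `4 (200 + 4800) ε/κ'² ≤ c₁/16`, `ε ≤ a/8`, `ε ≤ a/20`;
`r₀ > 0` with `μ {Q (F z x) ≠ Q x} ≤ ε` for `‖z‖ ≤ r₀` (`S.small_disp`, take half of its `δ`); `m` with `(32M/a)² ≤ (1+δ)^m`; `L > 0` with `32 √(M/a) R^(2m+1) ≤ L`;
`τ = h / p ≤ min(τ₁, r₀)`, `b₂ τ ≤ 1`, `b₂ τ M ≤ a/32`, `4·16·150 (b₂τ)² M/κ'² ≤ c₁/16` (`p` large). So the hypothesis `hc` of `level` holds (sum of at most 8 terms `≤ c₁/8`).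
`select'` with `w = dir`, `κ`: `U'`. `exists_arc'` (`ε = 1/20`) for `U'`: `α, β`, `E = U' ∩ Icc α β`. `u₁ ∈ U'` (nonempty), `σ` from `exists_spec`.
`htame α β`: `s₀`. Given `s₁`: apply `seed` to `U'` with `t₀ = max (max τ (e^{s₁})) (1/r₀) + 2/(R b₁) + …` (so that `T ≥ |t| ≥ t₀` gives `1/(RT) ≤ b₁/2`, `e^{-lv} ≤ r₀`,
`lv ≥ s₁` for `lv = log (2 B T)`), `ρ_seed = min (a/(20 (L+1))) (r₀/(L+1))`: `u', w, t`. `cylDq` (for `L`), `corr_times` (`Ψ` from `u₁` to `u'`), `scale_exists` with `|t|`: `T, n, s`.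
`lv = log (2 B T)`: `B T ≤ e^{lv} ≤ 3 B T`. For `u ∈ E` with `TameAt S K lv u`: `Y` of `TameAt`, `closeness` for `Y` (`Tame Y K` needs `1 ≤ K`), `level` with `Ψ` from `u₁` to `u`.
`exists_arc'`: apply `exists_arc` (SeedA.lean) to `{x | U₀ x ∈ U}` and scale (`Real.volume_preimage_mul_left`).
`σ' = σ.restrict {b₁/2 ≤ |ζ| ≤ 2 b₂}` or keep `σ`: in the statement the set contains these conditions and `σ.real univ ≤ M` (`IsSpec.four` with `n = 0`, `F_zero`: `σ univ = μ(S)`).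
-/

open MeasureTheory Set Filter Metric
open scoped ENNReal
open Pool.Agent.Helper87.LS Pool.Agent.Helper72.TF Pool.Agent.Helper64.TF

namespace Pool.Agent.TF.I

theorem exists_arc' {U₀ : ℝ} (hU₀ : 0 < U₀) {U : Set ℝ} (hU : U ⊆ Icc (-U₀) U₀)
    (h0 : volume U ≠ 0) {ε : ℝ} (hε : 0 < ε) :
    ∃ α β : ℝ, -U₀ ≤ α ∧ α < β ∧ β ≤ U₀ ∧
      ENNReal.ofReal ((1 - ε) * (β - α)) ≤ volume (U ∩ Icc α β) := by
  have hne : U₀ ≠ 0 := hU₀.ne'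
  have hinv : |U₀⁻¹| = U₀⁻¹ := abs_of_pos (inv_pos.2 hU₀)
  have hV : volume ((fun x => U₀ * x) ⁻¹' U) ≠ 0 := by
    rw [Real.volume_preimage_mul_left hne, hinv]
    exact mul_ne_zero (ENNReal.ofReal_pos.2 (inv_pos.2 hU₀)).ne' h0
  have hsub : (fun x => U₀ * x) ⁻¹' U ⊆ Icc (-1) 1 := by
    intro x hx
    have h := hU hx
    have h1 : -U₀ ≤ U₀ * x := h.1
    have h2 : U₀ * x ≤ U₀ := h.2
    constructor
    · by_contra hc
      push Not at hc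
      nlinarith
    · by_contra hc
      push Not at hc
      nlinarith
  obtain ⟨α, β, hα, hαβ, hβ, hv⟩ := exists_arc hsub hV hε
  refine ⟨U₀ * α, U₀ * β, by nlinarith, by nlinarith, by nlinarith, ?_⟩
  have hset : (fun x => U₀ * x) ⁻¹' U ∩ Icc α β = (fun x => U₀ * x) ⁻¹' (U ∩ Icc (U₀ * α) (U₀ * β)) := by
    ext x
    simp only [mem_inter_iff, mem_preimage, mem_Icc]
    constructor
    · rintro ⟨h1, h2, h3⟩
      exact ⟨h1, by nlinarith, by nlinarith⟩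
    · rintro ⟨h1, h2, h3⟩
      exact ⟨h1, le_of_mul_le_mul_left h2 hU₀, le_of_mul_le_mul_left h3 hU₀⟩
  rw [hset, Real.volume_preimage_mul_left hne, hinv] at hv
  have h1 : ENNReal.ofReal ((1 - ε) * (U₀ * β - U₀ * α)) =
      ENNReal.ofReal U₀ * ENNReal.ofReal ((1 - ε) * (β - α)) := by
    rw [← ENNReal.ofReal_mul hU₀.le]
    congr 1
    ring
  rw [h1]
  calc ENNReal.ofReal U₀ * ENNReal.ofReal ((1 - ε) * (β - α))
      ≤ ENNReal.ofReal U₀ * (ENNReal.ofReal U₀⁻¹ * volume (U ∩ Icc (U₀ * α) (U₀ * β))) := by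
        gcongr
    _ = volume (U ∩ Icc (U₀ * α) (U₀ * β)) := by
        rw [← mul_assoc, ← ENNReal.ofReal_mul hU₀.le, mul_inv_cancel₀ hne, ENNReal.ofReal_one,
          one_mul]

theorem spec_mass {S : Surf} {Q : ℂ → ℕ} {τ : ℝ} {v : ℂ} {σ : Measure ℝ} (h : IsSpec S Q τ v σ) :
    σ.real univ = S.μ.real univ := by
  have hf := h.four 0
  have h1 : S.Dq Q ((((0 : ℤ) : ℝ) * τ : ℝ) * v) = S.μ.real univ := by
    have e : ((((0 : ℤ) : ℝ) * τ : ℝ) : ℂ) * v = 0 := by simp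
    rw [e]
    unfold Surf.Dq
    apply measureReal_congr
    filter_upwards [F_zero S] with x hx
    have : (Q (S.F 0 x) = Q x) = True := by rw [hx]; simp
    exact this
  rw [h1] at hf
  have h2 : ∫ ξ, Complex.exp ((((((0 : ℤ) : ℝ) * τ * ξ : ℝ)) : ℂ) * Complex.I) ∂σ
      = ((σ.real univ : ℝ) : ℂ) := by
    simp
  rw [h2] at hf
  exact_mod_cast hf

private theorem h54_hc {c₁ κ' M Cc B ε R δ κ b τ Y : ℝ} (hκ' : 0 < κ') (hc : 0 < c₁)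
    (t1 : 1600 * (Cc / B) ≤ c₁ / 16 * κ' ^ 2) (t2 : 20000 * ε ≤ c₁ / 16 * κ' ^ 2)
    (t3 : 461376 * (M / R) ≤ c₁ / 16 * κ' ^ 2) (t4 : 2304 * (M * δ) ≤ c₁ / 16 * κ' ^ 2)
    (t5 : 115200 * κ ≤ c₁ / 16 * κ' ^ 2) (t6 : 9600 * ((b * τ) ^ 2 * M) ≤ c₁ / 16 * κ' ^ 2)
    (t7 : 4 * Y ≤ c₁ / 8) (t8 : 400 * κ ≤ c₁ / 16) :
    4 * ((2 * Eh Cc B ε + 16 * Ev M R δ κ ε b τ) / κ' ^ 2 + Y) + 400 * κ ≤ c₁ := by
  have e : 2 * Eh Cc B ε + 16 * Ev M R δ κ ε b τ = 400 * (Cc / B) + 5000 * ε + 115344 * (M / R)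
      + 576 * (M * δ) + 28800 * κ + 2400 * ((b * τ) ^ 2 * M) := by
    unfold Eh Ev
    ring
  have h1 : (2 * Eh Cc B ε + 16 * Ev M R δ κ ε b τ) / κ' ^ 2 ≤ 3 / 2 * (c₁ / 16) := by
    rw [div_le_iff₀ (by positivity), e]
    linarith
  linarith

private theorem h54_L {L ρ x : ℝ} (hL : 0 ≤ L) (hρ : 0 < ρ) (h : ρ ≤ x / (L + 1)) : L * ρ ≤ x := by
  have h1 := (le_div_iff₀ (by linarith : (0 : ℝ) < L + 1)).1 h
  linarith

private theorem h54_sq {R : ℝ} (h : 1 ≤ R) : R ≤ R ^ 2 := by nlinarith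

private theorem h54_sq' {x : ℝ} (h0 : 0 ≤ x) (h : x ≤ 1) : x ^ 2 ≤ x := by nlinarith

private theorem h54_mul {B T : ℝ} (h0 : 0 ≤ T) (h : 1 ≤ B) : T ≤ B * T := by nlinarith

private theorem h54_23 {B T : ℝ} (h0 : 0 ≤ T) (h : 1 ≤ B) : 2 * B * T ≤ 3 * B * T := by
  have : 0 ≤ B * T := mul_nonneg (by linarith) h0
  linarith

private theorem h54_bt {b R T : ℝ} (hb : 0 < b) (h0 : 0 < T) (h : 8 ≤ R) (h2 : 2 ≤ T * b) :
    1 ≤ b / 2 * (R * T) := by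
  have h3 : 0 < T * b := by positivity
  nlinarith

private theorem h54_B {Cc X : ℝ} (hX : 0 < X) :
    1600 * Cc ≤ X * (1 + 1600 * Cc / X) := by
  have : X * (1600 * Cc / X) = 1600 * Cc := by field_simp
  linarith

private theorem h54_y {c y δ : ℝ} (hc : 0 ≤ c) (hy : 0 < y) (h : (y * (c + 1)) ^ 2 ≤ δ ^ 2) :
    c * y ^ 2 < δ ^ 2 := by
  have h1 : 0 < y ^ 2 := by positivity
  have h2 : 0 ≤ c * y ^ 2 := by positivity
  have h3 : 0 ≤ c ^ 2 * y ^ 2 := by positivity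
  have h4 : (y * (c + 1)) ^ 2 = c ^ 2 * y ^ 2 + 2 * (c * y ^ 2) + y ^ 2 := by ring
  linarith

private theorem h54_t7 {n N K ρ c₁ : ℝ} (hN : 0 < N) (hn : n ≤ N) (hK : 0 < K) (hc : 0 < c₁)
    (hρ : ρ = c₁ / (76800 * N * K ^ 3)) : 4 * (2400 * n * K ^ 3 * ρ) ≤ c₁ / 8 := by
  have e : 76800 * N * K ^ 3 * ρ = c₁ := by
    rw [hρ]; field_simp
  have hρ0 : 0 < ρ := by rw [hρ]; positivity
  have h1 : n * (K ^ 3 * ρ) ≤ N * (K ^ 3 * ρ) := by gcongr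
  linarith

theorem partI (S : Surf) {K G a : ℝ} (hK : 1 ≤ K) (hG : 0 < G) (ha : 0 < a)
    (hcyl : ∀ Y : Surf, Y.n = S.n → Connected Y → (∀ e, ‖Y.vec e‖ ≤ K) →
      (∀ i, 1 / K ≤ Y.area2 i) → ∃ w : ℂ, w ≠ 0 ∧ ‖w‖ ≤ G ∧ Cyl Y w a)
    (htame : ∀ α β : ℝ, α < β → ∃ s₀ : ℝ, ∀ s : ℝ, s₀ ≤ s →
      volume {u ∈ Icc α β | ¬ TameAt S K s u} ≤ ENNReal.ofReal ((β - α) / 20))
    {CP : ℝ} (hPL : ∀ Y : Surf, Y.n = S.n → (∀ e, ‖Y.vec e‖ ≤ K) → (∀ i, 1 / K ≤ Y.area2 i) →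
      ∀ x ∈ Coch (ofSurf Y), ∀ b ∈ Vert (ofSurf Y), ∀ η : ℝ,
      (∀ h, |x h - dv (ofSurf Y) b h| ≤ η) → hn2 (ofSurf Y) x ≤ CP * η ^ 2)
    {w₀ : ℂ} {U₀ : ℝ} (hU₀ : 0 < U₀) {U : Set ℝ} (hU1 : U ⊆ Icc (-U₀) U₀) (hU : ∀ u ∈ U, DirIso S (dir u) w₀)
    (hpos : volume U ≠ 0) :
    ∃ c₁ b₁ b₂ : ℝ, 0 < c₁ ∧ 0 < b₁ ∧ b₁ ≤ b₂ ∧ ∀ δ' : ℝ, 0 < δ' →
      ∃ (σ : Measure ℝ) (α β : ℝ) (E : Set ℝ), IsFiniteMeasure σ ∧
        σ.real univ = S.μ.real univ ∧ -U₀ ≤ α ∧ α < β ∧ β ≤ U₀ ∧ E ⊆ Icc α β ∧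
        ENNReal.ofReal (19 / 20 * (β - α)) ≤ volume E ∧
        ∀ s₁ : ℝ, ∃ s : ℝ, s₁ ≤ s ∧ ∀ u ∈ E, TameAt S K s u →
          c₁ ≤ σ.real {ζ | b₁ ≤ |ζ| ∧ |ζ| ≤ b₂ ∧
            Close S s u (ζ / (2 * Real.pi) * Real.sqrt (1 + u ^ 2)) δ'} := by
  have hK0 : 0 < K := lt_of_lt_of_le one_pos hK
  obtain ⟨h, b₁, hh, hb₁, hlow⟩ := low_freq S (ε := a / 16) (by positivity)
  set Q : ℂ → ℕ := S.grid (h / 2) with hQdef
  have hQ : Part Q := S.grid_part (by positivity)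
  obtain ⟨b₂', τ₁, hb₂', hτ₁, hhigh⟩ := high_freq S hQ (ε := a / 32) (by positivity)
  set b₂ : ℝ := max b₂' b₁ with hb₂def
  have hb₂ : 0 < b₂ := lt_of_lt_of_le hb₁ (le_max_right _ _)
  have hb12 : b₁ ≤ b₂ := le_max_right _ _
  have hb22 : b₂' ≤ b₂ := le_max_left _ _
  set M : ℝ := max 1 (S.μ.real univ) with hM
  have hM1 : 1 ≤ M := le_max_left _ _
  have hM0 : 0 < M := lt_of_lt_of_le one_pos hM1
  have hSM : S.μ.real univ ≤ M := le_max_right _ _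
  set c₁ : ℝ := a / 256 with hc₁def
  have hc₁ : 0 < c₁ := by positivity
  refine ⟨c₁, b₁ / 2, 2 * b₂, hc₁, by positivity, by linarith, ?_⟩
  intro δ' hδ'
  -- the constants
  set N : ℝ := (S.n : ℝ) + 1 with hN
  have hN0 : 0 < N := by positivity
  have hSn : (S.n : ℝ) ≤ N := by rw [hN]; linarith
  set ρ : ℝ := c₁ / (76800 * N * K ^ 3) with hρdef
  have hρ : 0 < ρ := by positivity
  have t7 : 4 * (2400 * S.n * K ^ 3 * ρ) ≤ c₁ / 8 := h54_t7 hN0 hSn hK0 hc₁ hρdef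
  obtain ⟨Ccl, hCcl, hclose⟩ := closeness V2 S.n K ρ hK hρ
  set y : ℝ := min 1 (δ' / (|CP| + 1)) with hy
  have hCP1 : 0 < |CP| + 1 := by positivity
  have hy0 : 0 < y := lt_min one_pos (by positivity)
  have hy1 : y ≤ 1 := min_le_left _ _
  have hy2 : y ≤ δ' / (|CP| + 1) := min_le_right _ _
  set κ' : ℝ := y / Ccl with hκ'def
  have hκ' : 0 < κ' := by positivity
  have hκ'y : Ccl * κ' = y := by rw [hκ'def]; field_simp
  have hκC : Ccl * κ' ≤ 1 := by rw [hκ'y]; exact hy1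
  have hδC : CP * (Ccl * κ') ^ 2 < δ' ^ 2 := by
    rw [hκ'y]
    have e1 : y * (|CP| + 1) ≤ δ' := (le_div_iff₀ hCP1).1 hy2
    have e2 : (y * (|CP| + 1)) ^ 2 ≤ δ' ^ 2 := by
      apply pow_le_pow_left₀ (by positivity) e1
    have e3 : CP * y ^ 2 ≤ |CP| * y ^ 2 := by
      gcongr
      exact le_abs_self _
    exact lt_of_le_of_lt e3 (h54_y (abs_nonneg _) hy0 e2)
  obtain ⟨Cc, hCc, hcomm⟩ := comm S
  set X : ℝ := c₁ / 16 * κ' ^ 2 with hX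
  have hX0 : 0 < X := by positivity
  set q₀ : ℝ := Real.sqrt (1 + U₀ ^ 2) with hq₀
  set B : ℝ := 1 + 1600 * Cc / X with hBdef
  have hB1 : 1 ≤ B := by
    rw [hBdef]
    have : 0 ≤ 1600 * Cc / X := by positivity
    linarith
  have hB0 : 0 < B := lt_of_lt_of_le one_pos hB1
  have t1 : 1600 * (Cc / B) ≤ X := by
    rw [← mul_div_assoc, div_le_iff₀ hB0, hBdef]
    exact h54_B hX0
  set R : ℝ := 8 + 9 * q₀ ^ 2 * B ^ 2 + 72 * q₀ ^ 2 * B ^ 2 / κ' ^ 2 + 461376 * M / X with hRdef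
  have r1 : 0 ≤ 9 * q₀ ^ 2 * B ^ 2 := by positivity
  have r2 : 0 ≤ 72 * q₀ ^ 2 * B ^ 2 / κ' ^ 2 := by positivity
  have r3 : 0 ≤ 461376 * M / X := by positivity
  have hR8 : 8 ≤ R := by rw [hRdef]; linarith
  have hR0 : 0 < R := by linarith
  have hRB : 9 * q₀ ^ 2 * B ^ 2 ≤ R := by rw [hRdef]; linarith
  have hR2 : 72 * q₀ ^ 2 * B ^ 2 ≤ κ' ^ 2 * R ^ 2 := by
    have e1 : 72 * q₀ ^ 2 * B ^ 2 / κ' ^ 2 ≤ R := by rw [hRdef]; linarith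
    have e2 : R ≤ R ^ 2 := h54_sq (by linarith)
    have e3 := (div_le_iff₀ (by positivity)).1 (e1.trans e2)
    linarith
  have t3 : 461376 * (M / R) ≤ X := by
    rw [← mul_div_assoc, div_le_iff₀ hR0]
    have e1 : 461376 * M / X ≤ R := by rw [hRdef]; linarith
    have e2 := (div_le_iff₀ hX0).1 e1
    linarith
  set δ : ℝ := min 1 (X / (2304 * M)) with hδdef
  have hδ0 : 0 < δ := lt_min one_pos (by positivity)
  have hδ1 : δ ≤ 1 := min_le_left _ _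
  have t4 : 2304 * (M * δ) ≤ X := by
    have e1 : δ ≤ X / (2304 * M) := min_le_right _ _
    have e2 := (le_div_iff₀ (by positivity)).1 e1
    linarith
  set κ : ℝ := min (min (X / 115200) (c₁ / 6400)) (a / 16) with hκdef
  have hκ0 : 0 < κ := lt_min (lt_min (by positivity) (by positivity)) (by positivity)
  have k1 : κ ≤ X / 115200 := (min_le_left _ _).trans (min_le_left _ _)
  have k2 : κ ≤ c₁ / 6400 := (min_le_left _ _).trans (min_le_right _ _)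
  have k3 : κ ≤ a / 16 := min_le_right _ _
  have t5 : 115200 * κ ≤ X := by linarith
  have t8 : 400 * κ ≤ c₁ / 16 := by linarith
  set ε : ℝ := min (X / 20000) (a / 20) with hεdef
  have hε0 : 0 < ε := lt_min (by positivity) (by positivity)
  have e1 : ε ≤ X / 20000 := min_le_left _ _
  have e2 : ε ≤ a / 20 := min_le_right _ _
  have t2 : 20000 * ε ≤ X := by linarith
  obtain ⟨rd, hrd, hdisp'⟩ := S.small_disp hQ hε0
  set r₀ : ℝ := rd / 2 with hr₀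
  have hr₀0 : 0 < r₀ := by positivity
  have hdisp : ∀ z : ℂ, ‖z‖ ≤ r₀ → S.μ.real {x | Q (S.F z x) ≠ Q x} ≤ ε := by
    intro z hz
    exact hdisp' z (by rw [hr₀] at hz; linarith)
  obtain ⟨m, hm⟩ := pow_unbounded_of_one_lt ((32 * M / a) ^ 2) (show (1 : ℝ) < 1 + δ by linarith)
  obtain ⟨L, hL⟩ := exists_nat_gt (32 * Real.sqrt (M / a) * R ^ (2 * m + 1))
  have hL0 : 0 < L := by
    have : (0 : ℝ) < L := lt_of_le_of_lt (by positivity) hL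
    exact_mod_cast this
  -- the time step
  set τm : ℝ := min (min τ₁ r₀) (min (1 / b₂) (min (a / (32 * b₂ * M)) (X / (9600 * M * b₂))))
    with hτm
  have hτm0 : 0 < τm := by
    refine lt_min (lt_min hτ₁ hr₀0) (lt_min ?_ (lt_min ?_ ?_)) <;> positivity
  obtain ⟨p, hp⟩ := exists_nat_gt (h / τm)
  have hp0' : (0 : ℝ) < p := lt_of_le_of_lt (by positivity) hp
  have hp0 : 0 < p := by exact_mod_cast hp0'
  set τ : ℝ := h / p with hτdef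
  have hτ0 : 0 < τ := by positivity
  have hττm : τ ≤ τm := by
    rw [hτdef, div_le_iff₀ hp0']
    have := (div_lt_iff₀ hτm0).1 hp
    linarith
  have τa : τ ≤ τ₁ := hττm.trans ((min_le_left _ _).trans (min_le_left _ _))
  have τb : τ ≤ r₀ := hττm.trans ((min_le_left _ _).trans (min_le_right _ _))
  have τc : τ ≤ 1 / b₂ := hττm.trans ((min_le_right _ _).trans (min_le_left _ _))
  have τd : τ ≤ a / (32 * b₂ * M) := hττm.trans ((min_le_right _ _).trans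
    ((min_le_right _ _).trans (min_le_left _ _)))
  have τe : τ ≤ X / (9600 * M * b₂) := hττm.trans ((min_le_right _ _).trans
    ((min_le_right _ _).trans (min_le_right _ _)))
  have hbτ1 : b₂ * τ ≤ 1 := by
    have := (le_div_iff₀ hb₂).1 τc
    linarith
  have hbτ : b₂ * τ * M ≤ a / 32 := by
    have := (le_div_iff₀ (by positivity)).1 τd
    linarith
  have t6 : 9600 * ((b₂ * τ) ^ 2 * M) ≤ X := by
    have f1 := (le_div_iff₀ (by positivity)).1 τe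
    have f2 : 0 ≤ b₂ * τ := by positivity
    have f3 : (b₂ * τ) ^ 2 ≤ b₂ * τ := h54_sq' f2 hbτ1
    have f4 : (b₂ * τ) ^ 2 * M ≤ b₂ * τ * M := by gcongr
    linarith
  -- the directions
  obtain ⟨U', hU'U, hU'0, hsel⟩ := select' S hQ hU hpos hκ0
  obtain ⟨α, β, hα, hαβ, hβ, harc⟩ := exists_arc' hU₀ (hU'U.trans hU1) hU'0
    (ε := 1 / 20) (by norm_num)
  have harc' : ENNReal.ofReal (19 / 20 * (β - α)) ≤ volume (U' ∩ Icc α β) := by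
    have : (1 - 1 / 20 : ℝ) * (β - α) = 19 / 20 * (β - α) := by ring
    rw [← this]
    exact harc
  obtain ⟨u₁, hu₁⟩ : U'.Nonempty := by
    rw [nonempty_iff_ne_empty]
    rintro rfl
    exact hU'0 measure_empty
  obtain ⟨σ, hσ⟩ := exists_spec S hQ (dir u₁) hτ0
  have hσf := hσ.fin
  have hσM : σ.real univ ≤ M := by
    rw [spec_mass hσ]
    exact hSM
  have hlow' : σ.real {ξ | |ξ| < b₁} ≤ a / 16 := hlow p (dir u₁) σ hp0 (norm_dir u₁) hσ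
  have hhigh' : σ.real {ξ | b₂ < |ξ|} ≤ a / 32 := by
    refine le_trans (measureReal_mono ?_) (hhigh τ (dir u₁) σ hτ0 τa (norm_dir u₁) hσ)
    intro ξ hξ
    exact lt_of_le_of_lt hb22 hξ
  refine ⟨σ, α, β, U' ∩ Icc α β, hσf, spec_mass hσ, hα, hαβ, hβ, inter_subset_right, harc', ?_⟩
  intro s₁
  obtain ⟨s₀, hs₀⟩ := htame α β hαβ
  set t₀ : ℝ := τ + Real.exp s₁ + 1 / r₀ + 2 / b₁ with ht₀
  have g1 : 0 < Real.exp s₁ := Real.exp_pos _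
  have g2 : 0 < 1 / r₀ := by positivity
  have g3 : 0 < 2 / b₁ := by positivity
  set ρs : ℝ := min (a / 20 / (L + 1)) (r₀ / (L + 1)) with hρs
  have hL1 : (0 : ℝ) < L + 1 := by positivity
  have hρs0 : 0 < ρs := lt_min (by positivity) (by positivity)
  have hLa : L * ρs ≤ a / 20 := h54_L (Nat.cast_nonneg _) hρs0 (min_le_left _ _)
  have hLr : L * ρs ≤ r₀ := h54_L (Nat.cast_nonneg _) hρs0 (min_le_right _ _)
  obtain ⟨u', hu', w, t, hw, ht0, hwt, hcr⟩ := seed S hK0 hG ha hcyl hαβ harc' hs₀ (t₀ := t₀) hρs0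
  have hDq : ∀ k : ℤ, |k| ≤ L → a / 2 ≤ S.Dq Q (((k * t : ℝ) : ℂ) * dir u') := by
    intro k hk
    exact cylDq S hQ ha hw hwt hcr hLa (fun z hz => (hdisp z (hz.trans hLr)).trans e2) k hk
  obtain ⟨Ψ, hΨ, hΨκ⟩ := hsel u₁ hu₁ u' hu'
  obtain ⟨nk, hnk1, hnk2⟩ := corr_times hQ hΨ hΨκ hDq hτ0
    (fun z hz => hdisp z (hz.trans τb)) (by linarith)
  have hτt : τ ≤ |t| := by linarith
  obtain ⟨T, n, s, hT, hS, hsb, hs2⟩ := scale_exists hQ hτ0 hσ ha hb₁ hM0 hσM hSM hlow' hhigh' hbτ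
    hbτ1 hR8 hδ0 hδ1 hL0 hm.le hL.le hdisp τb hCc hcomm hB1 hRB hτt nk (fun k _ => hnk1 k) hnk2
  have hTt : t₀ ≤ T := ht0.trans hT
  have hT0 : 0 < T := by linarith
  have hBT : T ≤ B * T := h54_mul hT0.le hB1
  have hBT0 : 0 < 2 * B * T := by positivity
  have hexp : Real.exp (Real.log (2 * B * T)) = 2 * B * T := Real.exp_log hBT0
  refine ⟨Real.log (2 * B * T), ?_, ?_⟩
  · rw [Real.le_log_iff_exp_le hBT0]
    linarith
  intro u hu hTame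
  obtain ⟨Y, hYn, hYc, hYe, hYa, hE⟩ := hTame
  obtain ⟨Ψ₁, hΨ₁, hΨ₁κ⟩ := hsel u₁ hu₁ u hu.1
  have hu' : Real.sqrt (1 + u ^ 2) ≤ q₀ := by
    rw [hq₀]
    apply Real.sqrt_le_sqrt
    have := hU1 (hU'U hu.1)
    have : u ^ 2 ≤ U₀ ^ 2 := sq_le_sq' this.1 this.2
    linarith
  have hr : Real.exp (-Real.log (2 * B * T)) ≤ r₀ := by
    rw [Real.exp_neg, hexp, inv_le_comm₀ hBT0 hr₀0]
    have : r₀⁻¹ = 1 / r₀ := by rw [one_div]
    linarith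
  have hb1' : 1 / (R * T) ≤ b₁ / 2 := by
    rw [div_le_iff₀ (by positivity)]
    have f1 : 2 / b₁ ≤ T := by linarith
    have f2 := (div_le_iff₀ hb₁).1 f1
    exact h54_bt hb₁ hT0 hR8 f2
  exact level hS hu' hΨ₁ hΨ₁κ (by rw [hexp]; linarith) (by rw [hexp]; exact h54_23 hT0.le hB1) hr hκ' hR2 hE hYn
    ⟨hK, hYe, hYa⟩ hρ.le (hclose Y hYn hYc hYe hYa) (hPL Y hYn hYe hYa) hκC hδC hsb hb1' hb12
    (h54_hc hκ' hc₁ t1 t2 t3 t4 t5 t6 t7 t8) (by rw [hc₁def]; linarith)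

end Pool.Agent.TF.I
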