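import Pool.Agent.Helper19.TF.LS
import Pool.Agent.Helper19.TF.Ident
import Pool.Agent.Helper19.TF.Comm

/-!
BLOCK TF-I-WF. The family of twisted averages: consequences of the large sieve.

`wf_sup`: `large_sieve` with `G k = fQ Q (F (kτv) x)`, `‖G k‖ = 1` (`norm_fQ`).
`wf_diff`: `wf v' ξ (g x) - wf v ξ x = n⁻¹ • ∑ e^{-iξkτ} • G k`, `G k = fQ Q (F (kτv') (g x)) - fQ Q (F (kτv) x)`, `‖G k‖² = 2` if the two pieces differ and `0`
otherwise (`inner_fQ`). `large_sieve` at every `x`, then integrate (finite sums of indicators of measurable sets).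
`wf_psi`: `wf_diff` with `g = Ψ`: a.e. `F (kτv') (Ψ x) = Ψ (F (kτv) x)`, so the set is a.e. the preimage under `F (kτv)` of `{Q (Ψ y) ≠ Q y}`.
`wf_frac`: `g = F (r v)`: a.e. `F (kτv) (F (rv) x) = F (rv) (F (kτv) x)` (`F_add`), preimage under `F (kτv)` of `{Q (F (rv) y) ≠ Q y}`.
`wf_hor`: `g = F h`: the set is inside `{F (kτv) (F h x) ≠ F h (F (kτv) x)} ∪ (F (kτv))⁻¹ {Q (F h y) ≠ Q y}`, area `≤ C ‖h‖ kτ + ε`, `‖v‖ = 1`.
`wf_tot`: integrate `wf_sup`.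
-/

open MeasureTheory Set Filter
open Pool.Agent.Helper87.LS

namespace Pool.Agent.TF.I

/-- A finite set of frequencies fit for the large sieve. -/
structure Freq (τ : ℝ) (n : ℕ) (s : Finset ℝ) : Prop where
  tau : 0 < τ
  pos : 0 < n
  bd : ∀ ξ ∈ s, |ξ| * τ ≤ 1
  sep : ∀ ξ ∈ s, ∀ ξ' ∈ s, ξ ≠ ξ' → 1 / (n * τ) ≤ |ξ - ξ'|

theorem sm_wf (S : Surf) {Q : ℂ → ℕ} (hQ : Part Q) (τ : ℝ) (n : ℕ) (v : ℂ) (ξ : ℝ) :
    StronglyMeasurable (wf S Q τ n v ξ) := by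
  exact (sm_comb S hQ v τ n
    (fun k => Complex.exp (-(((ξ * (k * τ) : ℝ) : ℂ) * Complex.I)))).const_smul ((n : ℂ)⁻¹)

theorem norm_wf_le (S : Surf) (Q : ℂ → ℕ) (τ : ℝ) (n : ℕ) (v : ℂ) (ξ : ℝ) (x : ℂ) :
    ‖wf S Q τ n v ξ x‖ ≤ 1 := by
  unfold wf
  rw [norm_smul, norm_inv, Complex.norm_natCast]
  have h : ‖∑ k ∈ Finset.range n, Complex.exp (-(((ξ * (k * τ) : ℝ) : ℂ) * Complex.I)) •
      fQ Q (S.F (((k * τ : ℝ) : ℂ) * v) x)‖ ≤ n := by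
    refine (norm_sum_le _ _).trans ?_
    have h1 : ∀ k ∈ Finset.range n, ‖Complex.exp (-(((ξ * (k * τ) : ℝ) : ℂ) * Complex.I)) •
        fQ Q (S.F (((k * τ : ℝ) : ℂ) * v) x)‖ = 1 := by
      intro k _
      rw [norm_smul, norm_fQ, mul_one]
      have e : -(((ξ * (k * τ) : ℝ) : ℂ) * Complex.I)
          = ((-(ξ * (k * τ)) : ℝ) : ℂ) * Complex.I := by
        push_cast
        ring
      rw [e, Complex.norm_exp_ofReal_mul_I]
    rw [Finset.sum_congr rfl h1]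
    simp
  rcases Nat.eq_zero_or_pos n with h0 | h0
  · subst h0
    simp
  · have hn : (0 : ℝ) < n := by exact_mod_cast h0
    rw [inv_mul_le_iff₀ hn]
    linarith

theorem wf_sup (S : Surf) (Q : ℂ → ℕ) {τ : ℝ} {n : ℕ} {s : Finset ℝ} (hs : Freq τ n s) (v x : ℂ) :
    ∑ ξ ∈ s, ‖wf S Q τ n v ξ x‖ ^ 2 ≤ 50 := by
  have h := large_sieve hs.pos hs.tau s hs.bd hs.sep
    (fun k => fQ Q (S.F (((k * τ : ℝ) : ℂ) * v) x))
  refine h.trans ?_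
  have hn : (0 : ℝ) < n := by exact_mod_cast hs.pos
  have h1 : ∑ k ∈ Finset.range n, ‖fQ Q (S.F (((k * τ : ℝ) : ℂ) * v) x)‖ ^ 2 = n := by
    simp [norm_fQ]
  rw [h1, inv_mul_cancel₀ hn.ne']
  norm_num

private theorem norm_fQ_sub_sq68 (Q : ℂ → ℕ) (a b x : ℂ) {E : Set ℂ}
    (h : x ∈ E ↔ Q a ≠ Q b) :
    ‖fQ Q a - fQ Q b‖ ^ 2 = E.indicator (fun _ => (2 : ℝ)) x := by
  by_cases hab : Q a = Q b
  · have hx : x ∉ E := fun hx => h.1 hx hab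
    have e : fQ Q a = fQ Q b := by
      unfold fQ
      rw [hab]
    rw [indicator_of_notMem hx, e, sub_self, norm_zero]
    norm_num
  · have hx : x ∈ E := h.2 hab
    rw [indicator_of_mem hx, @norm_sub_sq ℂ, inner_fQ, if_neg hab, norm_fQ, norm_fQ]
    norm_num

theorem wf_diff (S : Surf) {Q : ℂ → ℕ} (hQ : Part Q) {τ : ℝ} {n : ℕ} {s : Finset ℝ}
    (hs : Freq τ n s) (v v' : ℂ) {g : ℂ → ℂ} (hg : Measurable g) {c : ℝ}
    (h : ∀ k < n, S.μ.real {x | Q (S.F (((k * τ : ℝ) : ℂ) * v') (g x))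
      ≠ Q (S.F (((k * τ : ℝ) : ℂ) * v) x)} ≤ c) :
    ∑ ξ ∈ s, ∫ x, ‖wf S Q τ n v' ξ (g x) - wf S Q τ n v ξ x‖ ^ 2 ∂S.μ ≤ 100 * c := by
  have hn : (0 : ℝ) < n := by exact_mod_cast hs.pos
  set E : ℕ → Set ℂ := fun k => {x | Q (S.F (((k * τ : ℝ) : ℂ) * v') (g x))
      ≠ Q (S.F (((k * τ : ℝ) : ℂ) * v) x)} with hE
  have hEm : ∀ k, MeasurableSet (E k) := fun k =>
    (measurableSet_eq_fun (hQ.1.comp ((S.measurable_F _).comp hg))
      (hQ.1.comp (S.measurable_F _))).compl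
  have hpt : ∀ x, ∑ ξ ∈ s, ‖wf S Q τ n v' ξ (g x) - wf S Q τ n v ξ x‖ ^ 2
      ≤ 50 * ((n : ℝ)⁻¹ * ∑ k ∈ Finset.range n, (E k).indicator (fun _ => (2 : ℝ)) x) := by
    intro x
    have h1 := large_sieve hs.pos hs.tau s hs.bd hs.sep
      (fun k => fQ Q (S.F (((k * τ : ℝ) : ℂ) * v') (g x)) - fQ Q (S.F (((k * τ : ℝ) : ℂ) * v) x))
    have h2 : ∀ ξ, wf S Q τ n v' ξ (g x) - wf S Q τ n v ξ x
        = ((n : ℂ)⁻¹) • ∑ k ∈ Finset.range n,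
          Complex.exp (-(((ξ * (k * τ) : ℝ) : ℂ) * Complex.I)) •
            (fQ Q (S.F (((k * τ : ℝ) : ℂ) * v') (g x))
              - fQ Q (S.F (((k * τ : ℝ) : ℂ) * v) x)) := by
      intro ξ
      unfold wf
      simp only [smul_sub, Finset.sum_sub_distrib]
    simp only [h2]
    refine h1.trans (le_of_eq ?_)
    congr 2
    refine Finset.sum_congr rfl fun k _ => ?_
    exact norm_fQ_sub_sq68 Q _ _ _ Iff.rfl
  have hint : ∀ ξ ∈ s, Integrable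
      (fun x => ‖wf S Q τ n v' ξ (g x) - wf S Q τ n v ξ x‖ ^ 2) S.μ := by
    intro ξ _
    have hsm : StronglyMeasurable (fun x => wf S Q τ n v' ξ (g x) - wf S Q τ n v ξ x) :=
      ((sm_wf S hQ τ n v' ξ).comp_measurable hg).sub (sm_wf S hQ τ n v ξ)
    refine Integrable.of_bound ((hsm.norm.pow 2).aestronglyMeasurable) 4 ?_
    filter_upwards with x
    have h1 := norm_wf_le S Q τ n v' ξ (g x)
    have h2 := norm_wf_le S Q τ n v ξ x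
    have h3 := norm_sub_le (wf S Q τ n v' ξ (g x)) (wf S Q τ n v ξ x)
    have h4 := norm_nonneg (wf S Q τ n v' ξ (g x) - wf S Q τ n v ξ x)
    rw [Real.norm_eq_abs, abs_of_nonneg (by positivity)]
    nlinarith
  have hint2 : ∀ k ∈ Finset.range n,
      Integrable (fun x => (E k).indicator (fun _ => (2 : ℝ)) x) S.μ := fun k _ =>
    (integrable_const _).indicator (hEm k)
  rw [← integral_finsetSum _ hint]
  calc ∫ x, ∑ ξ ∈ s, ‖wf S Q τ n v' ξ (g x) - wf S Q τ n v ξ x‖ ^ 2 ∂S.μ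
      ≤ ∫ x, 50 * ((n : ℝ)⁻¹ * ∑ k ∈ Finset.range n,
          (E k).indicator (fun _ => (2 : ℝ)) x) ∂S.μ :=
        integral_mono (integrable_finsetSum _ hint)
          (((integrable_finsetSum _ hint2).const_mul _).const_mul _) hpt
    _ = 50 * ((n : ℝ)⁻¹ * ∑ k ∈ Finset.range n, S.μ.real (E k) * 2) := by
        rw [integral_const_mul, integral_const_mul, integral_finsetSum _ hint2]
        congr 2
        refine Finset.sum_congr rfl fun k _ => ?_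
        rw [integral_indicator (hEm k), setIntegral_const, smul_eq_mul]
    _ ≤ 50 * ((n : ℝ)⁻¹ * ∑ k ∈ Finset.range n, c * 2) := by
        refine mul_le_mul_of_nonneg_left (mul_le_mul_of_nonneg_left ?_ (by positivity))
          (by norm_num)
        refine Finset.sum_le_sum fun k hk => ?_
        have := h k (Finset.mem_range.1 hk)
        linarith
    _ = 100 * c := by
        rw [Finset.sum_const, Finset.card_range, nsmul_eq_mul]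
        field_simp
        ring

theorem wf_psi (S : Surf) {Q : ℂ → ℕ} (hQ : Part Q) {τ : ℝ} {n : ℕ} {s : Finset ℝ}
    (hs : Freq τ n s) {v v' : ℂ} {Ψ : ℂ → ℂ} (hΨ : Inter S v v' Ψ) {κ : ℝ}
    (hκ : S.μ.real {x | Q (Ψ x) ≠ Q x} ≤ κ) :
    ∑ ξ ∈ s, ∫ x, ‖wf S Q τ n v' ξ (Ψ x) - wf S Q τ n v ξ x‖ ^ 2 ∂S.μ ≤ 100 * κ := by
  refine wf_diff S hQ hs v v' hΨ.1.measurable fun k _ => ?_
  have h2 : MeasurableSet {y | Q (Ψ y) ≠ Q y} :=
    (measurableSet_eq_fun (hQ.1.comp hΨ.1.measurable) hQ.1).compl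
  have h1 : {x | Q (S.F (((k * τ : ℝ) : ℂ) * v') (Ψ x)) ≠ Q (S.F (((k * τ : ℝ) : ℂ) * v) x)}
      =ᵐ[S.μ] S.F (((k * τ : ℝ) : ℂ) * v) ⁻¹' {y | Q (Ψ y) ≠ Q y} := by
    filter_upwards [hΨ.2 (k * τ)] with x hx
    apply propext
    change Q (S.F (((k * τ : ℝ) : ℂ) * v') (Ψ x)) ≠ Q (S.F (((k * τ : ℝ) : ℂ) * v) x) ↔
      Q (Ψ (S.F (((k * τ : ℝ) : ℂ) * v) x)) ≠ Q (S.F (((k * τ : ℝ) : ℂ) * v) x)
    rw [hx]
  rw [measureReal_congr h1, (S.measurePreserving_F _).measureReal_preimage h2.nullMeasurableSet]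
  exact hκ

theorem wf_frac (S : Surf) {Q : ℂ → ℕ} (hQ : Part Q) {τ : ℝ} {n : ℕ} {s : Finset ℝ}
    (hs : Freq τ n s) (v : ℂ) (r : ℝ) {ε : ℝ}
    (hε : S.μ.real {x | Q (S.F ((r : ℂ) * v) x) ≠ Q x} ≤ ε) :
    ∑ ξ ∈ s, ∫ x, ‖wf S Q τ n v ξ (S.F ((r : ℂ) * v) x) - wf S Q τ n v ξ x‖ ^ 2 ∂S.μ
      ≤ 100 * ε := by
  refine wf_diff S hQ hs v v (S.measurable_F _) fun k _ => ?_
  have h2 : MeasurableSet {y | Q (S.F ((r : ℂ) * v) y) ≠ Q y} :=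
    (measurableSet_eq_fun (hQ.1.comp (S.measurable_F _)) hQ.1).compl
  have h1 : {x | Q (S.F (((k * τ : ℝ) : ℂ) * v) (S.F ((r : ℂ) * v) x))
        ≠ Q (S.F (((k * τ : ℝ) : ℂ) * v) x)}
      =ᵐ[S.μ] S.F (((k * τ : ℝ) : ℂ) * v) ⁻¹' {y | Q (S.F ((r : ℂ) * v) y) ≠ Q y} := by
    filter_upwards [F_add S v r (k * τ), F_add S v (k * τ) r] with x hx1 hx2
    apply propext
    change Q (S.F (((k * τ : ℝ) : ℂ) * v) (S.F ((r : ℂ) * v) x))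
        ≠ Q (S.F (((k * τ : ℝ) : ℂ) * v) x) ↔
      Q (S.F ((r : ℂ) * v) (S.F (((k * τ : ℝ) : ℂ) * v) x)) ≠ Q (S.F (((k * τ : ℝ) : ℂ) * v) x)
    rw [hx1, hx2, add_comm r]
  rw [measureReal_congr h1, (S.measurePreserving_F _).measureReal_preimage h2.nullMeasurableSet]
  exact hε

theorem wf_hor (S : Surf) {Q : ℂ → ℕ} (hQ : Part Q) {C : ℝ} (hC0 : 0 ≤ C)
    (hC : ∀ a b : ℂ, S.μ.real {x | S.F a (S.F b x) ≠ S.F b (S.F a x)} ≤ C * (‖a‖ * ‖b‖))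
    {τ : ℝ} {n : ℕ} {s : Finset ℝ} (hs : Freq τ n s) {v : ℂ} (hv : ‖v‖ = 1) (h : ℂ) {ε : ℝ}
    (hε : S.μ.real {x | Q (S.F h x) ≠ Q x} ≤ ε) :
    ∑ ξ ∈ s, ∫ x, ‖wf S Q τ n v ξ (S.F h x) - wf S Q τ n v ξ x‖ ^ 2 ∂S.μ
      ≤ 100 * (C * (n * τ * ‖h‖) + ε) := by
  refine wf_diff S hQ hs v v (S.measurable_F _) fun k hk => ?_
  have hn : (0 : ℝ) < n := by exact_mod_cast hs.pos
  have h2 : MeasurableSet {y | Q (S.F h y) ≠ Q y} :=
    (measurableSet_eq_fun (hQ.1.comp (S.measurable_F _)) hQ.1).compl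
  have hsub : {x | Q (S.F (((k * τ : ℝ) : ℂ) * v) (S.F h x)) ≠ Q (S.F (((k * τ : ℝ) : ℂ) * v) x)}
      ⊆ {x | S.F (((k * τ : ℝ) : ℂ) * v) (S.F h x) ≠ S.F h (S.F (((k * τ : ℝ) : ℂ) * v) x)} ∪
        S.F (((k * τ : ℝ) : ℂ) * v) ⁻¹' {y | Q (S.F h y) ≠ Q y} := by
    intro x hx
    by_cases hc : S.F (((k * τ : ℝ) : ℂ) * v) (S.F h x) = S.F h (S.F (((k * τ : ℝ) : ℂ) * v) x)
    · refine Or.inr ?_
      change Q (S.F (((k * τ : ℝ) : ℂ) * v) (S.F h x)) ≠ Q (S.F (((k * τ : ℝ) : ℂ) * v) x) at hx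
      change Q (S.F h (S.F (((k * τ : ℝ) : ℂ) * v) x)) ≠ Q (S.F (((k * τ : ℝ) : ℂ) * v) x)
      rwa [hc] at hx
    · exact Or.inl hc
  refine (measureReal_mono hsub).trans ((measureReal_union_le _ _).trans ?_)
  rw [(S.measurePreserving_F _).measureReal_preimage h2.nullMeasurableSet]
  have hkn : (k : ℝ) ≤ n := by exact_mod_cast hk.le
  have hkt : 0 ≤ (k : ℝ) * τ := mul_nonneg (Nat.cast_nonneg _) hs.tau.le
  have h3 : ‖((k * τ : ℝ) : ℂ) * v‖ = k * τ := by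
    rw [norm_mul, hv, mul_one, Complex.norm_real, Real.norm_eq_abs, abs_of_nonneg hkt]
  have h4 := hC (((k * τ : ℝ) : ℂ) * v) h
  rw [h3] at h4
  have h5 : C * (k * τ * ‖h‖) ≤ C * (n * τ * ‖h‖) := by
    refine mul_le_mul_of_nonneg_left ?_ hC0
    exact mul_le_mul_of_nonneg_right (mul_le_mul_of_nonneg_right hkn hs.tau.le) (norm_nonneg _)
  linarith

theorem wf_tot (S : Surf) {Q : ℂ → ℕ} (hQ : Part Q) {τ : ℝ} {n : ℕ} {s : Finset ℝ}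
    (hs : Freq τ n s) (v : ℂ) :
    ∑ ξ ∈ s, ∫ x, ‖wf S Q τ n v ξ x‖ ^ 2 ∂S.μ ≤ 50 * S.μ.real univ := by
  have hint : ∀ ξ ∈ s, Integrable (fun x => ‖wf S Q τ n v ξ x‖ ^ 2) S.μ := by
    intro ξ _
    refine Integrable.of_bound (((sm_wf S hQ τ n v ξ).norm.pow 2).aestronglyMeasurable) 1 ?_
    filter_upwards with x
    have h1 := norm_wf_le S Q τ n v ξ x
    have h4 := norm_nonneg (wf S Q τ n v ξ x)
    rw [Real.norm_eq_abs, abs_of_nonneg (by positivity)]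
    nlinarith
  rw [← integral_finsetSum _ hint]
  calc ∫ x, ∑ ξ ∈ s, ‖wf S Q τ n v ξ x‖ ^ 2 ∂S.μ ≤ ∫ _, (50 : ℝ) ∂S.μ :=
        integral_mono (integrable_finsetSum _ hint) (integrable_const _)
          (fun x => wf_sup S Q hs v x)
    _ = 50 * S.μ.real univ := by
        rw [integral_const, smul_eq_mul, mul_comm]

end Pool.Agent.TF.I
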